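import Pool.Agent.SSP.Defs

set_option autoImplicit false

namespace SSP

open Polynomial

private theorem sum_pow_pos (p : ℕ) [hp : Fact p.Prime] {k : ℕ} (hk : 0 < k) :
    ∑ t : ZMod p, t ^ k = if p - 1 ∣ k then -1 else 0 := by
  classical
  have h1 := FiniteField.sum_pow_units (ZMod p) k
  rw [ZMod.card] at h1
  rw [← h1]
  have h2 : ∑ t : ZMod p, t ^ k = ∑ t ∈ Finset.univ \ {(0 : ZMod p)}, t ^ k := by
    rw [← Finset.sum_sdiff ({0} : Finset (ZMod p)).subset_univ, Finset.sum_singleton,
      zero_pow hk.ne', add_zero]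
  rw [h2]
  symm
  refine Finset.sum_bij (fun (u : (ZMod p)ˣ) _ => (u : ZMod p)) ?_ ?_ ?_ ?_
  · intro u _
    simp
  · intro a _ b _ h
    exact Units.ext h
  · intro b hb
    have hb0 : b ≠ 0 := by simpa using hb
    exact ⟨Units.mk0 b hb0, Finset.mem_univ _, rfl⟩
  · intro u _
    simp

/-- P0'' (the Hasse invariant counts points modulo `p`). -/
theorem bal_of_coeff (p : ℕ) [Fact p.Prime] (hp2 : p ≠ 2) (l : ZMod p) (hl0 : l ≠ 0) (hl1 : l ≠ 1)
    (h : ((X * (X - 1) * (X - C l) : (ZMod p)[X]) ^ ((p - 1) / 2)).coeff (p - 1) = 0) :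
    Bal p l := by
  classical
  have hp : p.Prime := Fact.out
  have hp3 : 3 ≤ p := by
    have := hp.two_le
    omega
  have hodd : p % 2 = 1 := by
    rcases hp.eq_two_or_odd with h' | h'
    · exact absurd h' hp2
    · exact h'
  set m := (p - 1) / 2 with hm
  set G : (ZMod p)[X] := (X * (X - 1) * (X - C l)) ^ m with hG
  have hdeg : G.natDegree < 2 * (p - 1) := by
    have h1 : G.natDegree ≤ m * 3 := by
      rw [hG]
      refine (natDegree_pow_le).trans (Nat.mul_le_mul_left m ?_)
      have e1 : (X - 1 : (ZMod p)[X]) = X - C 1 := by rw [map_one]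
      rw [e1]
      have d1 : (X : (ZMod p)[X]).natDegree ≤ 1 := natDegree_X_le
      have d2 : (X - C 1 : (ZMod p)[X]).natDegree ≤ 1 := natDegree_X_sub_C_le 1
      have d3 : (X - C l : (ZMod p)[X]).natDegree ≤ 1 := natDegree_X_sub_C_le l
      have d4 : (X * (X - C 1) : (ZMod p)[X]).natDegree ≤ _ := natDegree_mul_le
      have d5 : (X * (X - C 1) * (X - C l) : (ZMod p)[X]).natDegree ≤ _ := natDegree_mul_le
      omega
    omega
  have hev : ∀ t : ZMod p, (t * (t - 1) * (t - l)) ^ m =
      ∑ k ∈ Finset.range (2 * (p - 1)), G.coeff k * t ^ k := by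
    intro t
    rw [← eval_eq_sum_range' hdeg, hG]
    simp
  have hmod : ((∑ t : ZMod p, quadraticChar (ZMod p) (t * (t - 1) * (t - l)) : ℤ) : ZMod p) = 0 := by
    rw [Int.cast_sum]
    have h1 : ∀ t : ZMod p, ((quadraticChar (ZMod p) (t * (t - 1) * (t - l)) : ℤ) : ZMod p) =
        ∑ k ∈ Finset.range (2 * (p - 1)), G.coeff k * t ^ k := by
      intro t
      rw [quadraticChar_eq_pow_of_char_ne_two' (by rwa [ZMod.ringChar_zmod_n]), ZMod.card, ← hev]
      congr 1
      omega
    rw [Finset.sum_congr rfl fun t _ => h1 t, Finset.sum_comm]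
    refine Finset.sum_eq_zero fun k hk => ?_
    rw [← Finset.mul_sum]
    rw [Finset.mem_range] at hk
    rcases Nat.eq_zero_or_pos k with hk0 | hk0
    · subst hk0
      simp
    · rw [sum_pow_pos p hk0]
      split_ifs with hdvd
      · obtain ⟨c, hc⟩ := hdvd
        have hc1 : c = 1 := by
          have h3 : c < 2 := by
            by_contra h3
            have : (p - 1) * 2 ≤ (p - 1) * c := Nat.mul_le_mul_left _ (by omega)
            omega
          have h4 : c ≠ 0 := by
            rintro rfl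
            omega
          omega
        rw [hc1, mul_one] at hc
        rw [hc, h, zero_mul]
      · rw [mul_zero]
  have habs : |∑ t : ZMod p, quadraticChar (ZMod p) (t * (t - 1) * (t - l))| < p := by
    have h1 : ∀ t : ZMod p, |quadraticChar (ZMod p) (t * (t - 1) * (t - l))| ≤
        if t = 0 then 0 else 1 := by
      intro t
      by_cases ht : t = 0
      · subst ht
        simp
      · rw [if_neg ht]
        by_cases h0 : t * (t - 1) * (t - l) = 0
        · rw [h0]
          simp
        · rcases quadraticChar_dichotomy h0 with h2 | h2 <;> rw [h2] <;> simp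
    calc |∑ t : ZMod p, quadraticChar (ZMod p) (t * (t - 1) * (t - l))|
        ≤ ∑ t : ZMod p, |quadraticChar (ZMod p) (t * (t - 1) * (t - l))| :=
          Finset.abs_sum_le_sum_abs _ _
      _ ≤ ∑ t : ZMod p, (if t = 0 then 0 else 1 : ℤ) := Finset.sum_le_sum fun t _ => h1 t
      _ = (p : ℤ) - 1 := by
        have h2 : ∀ t : ZMod p, (if t = 0 then 0 else 1 : ℤ) = 1 - if t = 0 then 1 else 0 := by
          intro t
          split_ifs <;> simp
        rw [Finset.sum_congr rfl fun t _ => h2 t, Finset.sum_sub_distrib]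
        simp [ZMod.card]
      _ < p := by linarith
  unfold Bal
  have hdvd : (p : ℤ) ∣ ∑ t : ZMod p, quadraticChar (ZMod p) (t * (t - 1) * (t - l)) :=
    (ZMod.intCast_zmod_eq_zero_iff_dvd _ p).mp hmod
  exact Int.eq_zero_of_abs_lt_dvd hdvd habs

end SSP
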