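import Pool.Agent.SSP.Defs

set_option autoImplicit false

namespace SSP

open Polynomial

section aux

variable {p : ℕ} [hp : Fact p.Prime] {k : Type*} [Field k] [CharP k p]
  {D : RatFunc k → RatFunc k}

private theorem cartier_zero (hD : IsDer D) : D 0 = 0 := by
  have h := hD.add 0 0
  simp at h
  exact h

private theorem cartier_iter_add (hD : IsDer D) (n : ℕ) (u v : RatFunc k) :
    D^[n] (u + v) = D^[n] u + D^[n] v := by
  induction n with
  | zero => rfl
  | succ n ih => rw [Function.iterate_succ_apply', Function.iterate_succ_apply',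
      Function.iterate_succ_apply', ih, hD.add]

private theorem cartier_iter_zero (hD : IsDer D) (n : ℕ) : D^[n] 0 = 0 := by
  induction n with
  | zero => rfl
  | succ n ih => rw [Function.iterate_succ_apply', ih, cartier_zero hD]

private theorem cartier_iter_sum (hD : IsDer D) (n : ℕ) {ι : Type*} (s : Finset ι)
    (f : ι → RatFunc k) : D^[n] (∑ i ∈ s, f i) = ∑ i ∈ s, D^[n] (f i) := by
  classical
  induction s using Finset.induction_on with
  | empty => simp [cartier_iter_zero hD]
  | insert a s ha ih => rw [Finset.sum_insert ha, Finset.sum_insert ha, cartier_iter_add hD, ih]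

private theorem cartier_const_mul (hD : IsDer D) (n : ℕ) (c u : RatFunc k) (hc : D c = 0) :
    D^[n] (c * u) = c * D^[n] u := by
  induction n with
  | zero => rfl
  | succ n ih => rw [Function.iterate_succ_apply', Function.iterate_succ_apply', ih, hD.mul, hc]
                 ring

private theorem cartier_one (hD : IsDer D) : D 1 = 0 := by
  have h := hD.mul 1 1
  simp at h
  exact h

private theorem cartier_pow (hD : IsDer D) (u : RatFunc k) (n : ℕ) :
    D (u ^ n) = (n : RatFunc k) * u ^ (n - 1) * D u := by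
  induction n with
  | zero => simp [cartier_one hD]
  | succ n ih =>
    rw [pow_succ, hD.mul, ih]
    rcases n with _ | n
    · simp
    · simp only [Nat.add_sub_cancel]
      push_cast
      ring

omit hp in
private theorem cartier_charP : CharP (RatFunc k) p :=
  charP_of_injective_algebraMap (algebraMap k (RatFunc k)).injective p

private theorem cartier_pow_p (hD : IsDer D) (u : RatFunc k) : D (u ^ p) = 0 := by
  have : CharP (RatFunc k) p := cartier_charP
  rw [cartier_pow hD, CharP.cast_eq_zero]
  ring

private theorem cartier_inv (hD : IsDer D) (u : RatFunc k) (hu : D u = 0) : D (u⁻¹) = 0 := by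
  by_cases h : u = 0
  · subst h
    simpa using hu
  · have h1 := hD.mul u u⁻¹
    rw [mul_inv_cancel₀ h, cartier_one hD, hu, mul_zero, add_zero] at h1
    exact (mul_eq_zero.mp h1.symm).resolve_left h

private theorem cartier_const_mul_const (hD : IsDer D) (u v : RatFunc k) (hu : D u = 0)
    (hv : D v = 0) : D (u * v) = 0 := by
  rw [hD.mul, hu, hv]
  ring

private theorem cartier_iter_X (hD : IsDX D) (n j : ℕ) :
    D^[j] ((RatFunc.X : RatFunc k) ^ n)
      = ((n.descFactorial j : ℕ) : RatFunc k) * RatFunc.X ^ (n - j) := by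
  induction j with
  | zero => simp
  | succ j ih =>
    rw [Function.iterate_succ_apply', ih, hD.mul]
    have h0 : D (((n.descFactorial j : ℕ) : RatFunc k)) = 0 := by
      have := hD.C ((n.descFactorial j : ℕ) : k)
      simpa using this
    rw [h0, cartier_pow hD.toIsDer, hD.X, Nat.descFactorial_succ]
    push_cast
    rw [Nat.sub_sub]
    ring

/-- every rational function is a sum of constants times powers of `X` -/
private theorem cartier_decomp (p : ℕ) [hp : Fact p.Prime] {k : Type*} [Field k] [CharP k p]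
    {D : RatFunc k → RatFunc k} (hD : IsDX D) (u : RatFunc k) :
    ∃ (s : Finset ℕ) (c : ℕ → RatFunc k), (∀ n, D (c n) = 0) ∧
      u = ∑ n ∈ s, c n * RatFunc.X ^ n := by
  obtain ⟨f, g, hg, rfl⟩ : ∃ f g : k[X], g ≠ 0 ∧
      u = algebraMap k[X] (RatFunc k) f / algebraMap k[X] (RatFunc k) g :=
    ⟨u.num, u.denom, u.denom_ne_zero, (RatFunc.num_div_denom u).symm⟩
  set F : k[X] := f * g ^ (p - 1) with hF
  have hg' : algebraMap k[X] (RatFunc k) g ≠ 0 := by
    simpa using hg
  refine ⟨F.support, fun n => RatFunc.C (F.coeff n) * ((algebraMap k[X] (RatFunc k) g) ^ p)⁻¹,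
    ?_, ?_⟩
  · intro n
    exact cartier_const_mul_const hD.toIsDer _ _ (hD.C _)
      (cartier_inv hD.toIsDer _ (cartier_pow_p hD.toIsDer _))
  · have h1 : algebraMap k[X] (RatFunc k) F
        = ∑ n ∈ F.support, RatFunc.C (F.coeff n) * RatFunc.X ^ n := by
      conv_lhs => rw [F.as_sum_support_C_mul_X_pow]
      rw [map_sum]
      refine Finset.sum_congr rfl fun n _ => ?_
      rw [map_mul, map_pow, RatFunc.algebraMap_X, RatFunc.algebraMap_C]
    have h2 : ∑ n ∈ F.support, RatFunc.C (F.coeff n) * ((algebraMap k[X] (RatFunc k) g) ^ p)⁻¹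
        * RatFunc.X ^ n = algebraMap k[X] (RatFunc k) F * ((algebraMap k[X] (RatFunc k) g) ^ p)⁻¹ := by
      rw [h1, Finset.sum_mul]
      exact Finset.sum_congr rfl fun n _ => by ring
    rw [h2, hF, map_mul, map_pow]
    have h3 : (algebraMap k[X] (RatFunc k) g) ^ p
        = (algebraMap k[X] (RatFunc k) g) ^ (p - 1) * algebraMap k[X] (RatFunc k) g := by
      rw [← pow_succ, Nat.sub_add_cancel hp.out.one_le]
    rw [h3]
    field_simp

private theorem cartier_Dp (hD : IsDX D) (u : RatFunc k) : D^[p] u = 0 := by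
  have : CharP (RatFunc k) p := cartier_charP
  obtain ⟨s, c, hc, rfl⟩ := cartier_decomp p hD u
  rw [cartier_iter_sum hD.toIsDer]
  refine Finset.sum_eq_zero fun n _ => ?_
  rw [cartier_const_mul hD.toIsDer _ _ _ (hc n), cartier_iter_X hD]
  have h : ((n.descFactorial p : ℕ) : RatFunc k) = 0 := by
    rw [CharP.cast_eq_zero_iff (RatFunc k) p]
    exact (Nat.dvd_factorial hp.out.pos le_rfl).trans (Nat.factorial_dvd_descFactorial n p)
  rw [h]
  ring

private theorem cartier_add (hD : IsDX D) (u v : RatFunc k) :
    D^[p - 1] ((u + v) ^ (p - 1) * D (u + v))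
      = D^[p - 1] (u ^ (p - 1) * D u) + D^[p - 1] (v ^ (p - 1) * D v) := by
  have : CharP (RatFunc k) p := cartier_charP
  obtain ⟨q, hq⟩ : ∃ q, p = q + 1 := ⟨p - 1, (Nat.sub_add_cancel hp.out.one_le).symm⟩
  have hder := hD.toIsDer
  -- the coefficients
  let Q : RatFunc k := ∑ i ∈ Finset.range q, (((p.choose (i + 1)) / p : ℕ) : RatFunc k) *
    (u ^ (i + 1) * v ^ (q - i))
  have key : (u + v) ^ (p - 1) * D (u + v)
      = u ^ (p - 1) * D u + v ^ (p - 1) * D v + D Q := by
    have hDQ : D Q = ∑ i ∈ Finset.range q, (((q.choose i : ℕ) : RatFunc k) * (u ^ i * v ^ (q - i)) * D u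
        + ((q.choose (i + 1) : ℕ) : RatFunc k) * (u ^ (i + 1) * v ^ (q - (i + 1))) * D v) := by
      have := cartier_iter_sum hder 1 (Finset.range q) (fun i => (((p.choose (i + 1)) / p : ℕ) : RatFunc k) *
        (u ^ (i + 1) * v ^ (q - i)))
      simp only [Function.iterate_one] at this
      rw [this]
      refine Finset.sum_congr rfl fun i hi => ?_
      have hi' : i < q := Finset.mem_range.mp hi
      have hdvd : p ∣ p.choose (i + 1) :=
        hp.out.dvd_choose_self (by omega) (by omega)
      obtain ⟨t, ht⟩ := hdvd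
      have hpt : p.choose (i + 1) / p = t := by
        rw [ht, Nat.mul_div_cancel_left _ hp.out.pos]
      rw [hpt]
      have e1 : t * (i + 1) = q.choose i := by
        have h := Nat.add_one_mul_choose_eq q i
        rw [← hq, ht] at h
        -- (q+1) * choose q i = p * t * (i+1)
        have : p * q.choose i = p * (t * (i + 1)) := by
          rw [hq] at h ⊢
          linarith [h]
        exact (Nat.eq_of_mul_eq_mul_left hp.out.pos this).symm
      have e2 : t * (q - i) = q.choose (i + 1) := by
        have h := Nat.add_one_mul_choose_eq q i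
        have h' := Nat.choose_succ_right_eq q i
        -- choose q (i+1) * (i+1) = choose q i * (q - i)
        have : (t * (q - i)) * (i + 1) = q.choose (i + 1) * (i + 1) := by
          rw [h', ← e1]
          ring
        exact Nat.eq_of_mul_eq_mul_right (Nat.succ_pos i) this
      have h0 : D ((t : ℕ) : RatFunc k) = 0 := by
        have := hD.C ((t : ℕ) : k)
        simpa using this
      rw [hder.mul, h0, hder.mul, cartier_pow hder, cartier_pow hder, ← e1, ← e2]
      have h4 : q - i - 1 = q - (i + 1) := by omega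
      have h5 : ((q - i : ℕ) : RatFunc k) = ((q - i : ℕ) : RatFunc k) := rfl
      rw [h4]
      simp only [Nat.add_sub_cancel]
      push_cast
      ring
    have hu : (u + v) ^ q * D u = u ^ q * D u
        + ∑ i ∈ Finset.range q, ((q.choose i : ℕ) : RatFunc k) * (u ^ i * v ^ (q - i)) * D u := by
      rw [add_pow, Finset.sum_range_succ, add_mul, Finset.sum_mul]
      simp only [Nat.choose_self, Nat.sub_self, pow_zero, Nat.cast_one, mul_one]
      rw [add_comm]
      congr 1
      exact Finset.sum_congr rfl fun i _ => by ring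
    have hv : (u + v) ^ q * D v = v ^ q * D v
        + ∑ i ∈ Finset.range q, ((q.choose (i + 1) : ℕ) : RatFunc k) *
          (u ^ (i + 1) * v ^ (q - (i + 1))) * D v := by
      rw [add_pow, Finset.sum_range_succ', add_mul, Finset.sum_mul]
      simp only [Nat.choose_zero_right, Nat.sub_zero, pow_zero, Nat.cast_one, mul_one, one_mul]
      rw [add_comm]
      congr 1
      exact Finset.sum_congr rfl fun i _ => by ring
    have hq1 : p - 1 = q := by omega
    rw [hq1, hder.add, mul_add, hu, hv, hDQ, Finset.sum_add_distrib]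
    ring
  rw [key, cartier_iter_add hder, cartier_iter_add hder]
  have hlast : D^[p - 1] (D Q) = 0 := by
    rw [← Function.iterate_succ_apply]
    have : (p - 1).succ = p := Nat.succ_pred_eq_of_pos hp.out.pos
    rw [this]
    exact cartier_Dp hD Q
  rw [hlast, add_zero]

private theorem cartier_term (hD : IsDX D) (c : RatFunc k) (hc : D c = 0) (n : ℕ) :
    D^[p - 1] ((c * RatFunc.X ^ n) ^ (p - 1) * D (c * RatFunc.X ^ n))
      = -(D (c * RatFunc.X ^ n)) ^ p := by
  have : CharP (RatFunc k) p := cartier_charP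
  have hder := hD.toIsDer
  have hDn : D (c * RatFunc.X ^ n) = c * ((n : RatFunc k) * RatFunc.X ^ (n - 1)) := by
    rw [hder.mul, hc, cartier_pow hder, hD.X]
    ring
  rw [hDn]
  rcases n with _ | n
  · simp only [Nat.cast_zero, zero_mul, mul_zero, cartier_iter_zero hder]
    rw [zero_pow hp.out.ne_zero, neg_zero]
  · simp only [Nat.add_sub_cancel]
    have hcp : c ^ (p - 1) * c = c ^ p := by
      rw [← pow_succ, Nat.sub_add_cancel hp.out.one_le]
    have e : (c * RatFunc.X ^ (n + 1)) ^ (p - 1) * (c * (((n + 1 : ℕ) : RatFunc k) * RatFunc.X ^ n))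
        = (c ^ p * ((n + 1 : ℕ) : RatFunc k) * (RatFunc.X ^ n) ^ p) * RatFunc.X ^ (p - 1) := by
      rw [← hcp, mul_pow, ← pow_mul, ← pow_mul]
      have h1 : (n + 1) * (p - 1) + n = n * p + (p - 1) := by
        obtain ⟨q, hq⟩ : ∃ q, p = q + 1 := ⟨p - 1, (Nat.sub_add_cancel hp.out.one_le).symm⟩
        rw [hq]
        simp only [Nat.add_sub_cancel]
        ring
      have h2 : (RatFunc.X : RatFunc k) ^ ((n + 1) * (p - 1)) * RatFunc.X ^ n
          = RatFunc.X ^ (n * p) * RatFunc.X ^ (p - 1) := by
        rw [← pow_add, ← pow_add, h1]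
      calc c ^ (p - 1) * RatFunc.X ^ ((n + 1) * (p - 1)) * (c * (((n + 1 : ℕ) : RatFunc k) * RatFunc.X ^ n))
          = c ^ (p - 1) * c * ((n + 1 : ℕ) : RatFunc k)
            * (RatFunc.X ^ ((n + 1) * (p - 1)) * RatFunc.X ^ n) := by ring
        _ = _ := by rw [h2]; ring
    have hconst : D (c ^ p * ((n + 1 : ℕ) : RatFunc k) * (RatFunc.X ^ n) ^ p) = 0 := by
      refine cartier_const_mul_const hder _ _ (cartier_const_mul_const hder _ _ ?_ ?_) ?_
      · exact cartier_pow_p hder c
      · have := hD.C (((n + 1 : ℕ)) : k)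
        simpa using this
      · exact cartier_pow_p hder _
    rw [e, cartier_const_mul hder _ _ _ hconst, cartier_iter_X hD]
    have hw : (((p - 1).descFactorial (p - 1) : ℕ) : RatFunc k) = -1 := by
      rw [Nat.descFactorial_self]
      have h1 : (((p - 1).factorial : ℕ) : ZMod p) = -1 := ZMod.wilsons_lemma p
      have h2 := congrArg (ZMod.castHom (dvd_refl p) (RatFunc k)) h1
      simpa only [map_natCast, map_neg, map_one] using h2
    have hnp : (((n + 1 : ℕ) : RatFunc k)) ^ p = ((n + 1 : ℕ) : RatFunc k) := by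
      have h1 : (((n + 1 : ℕ) : ZMod p)) ^ p = ((n + 1 : ℕ) : ZMod p) := ZMod.pow_card _
      have h2 := congrArg (ZMod.castHom (dvd_refl p) (RatFunc k)) h1
      simpa only [map_pow, map_natCast] using h2
    rw [hw, Nat.sub_self, pow_zero, mul_pow, mul_pow, hnp]
    ring

end aux

/-- P0 (Cartier): on `k(x)`, `D ^ p = 0` and `D ^ (p - 1) (u ^ (p - 1) D u) = - (D u) ^ p`. -/
theorem cartier (p : ℕ) [Fact p.Prime] {k : Type*} [Field k] [CharP k p]
    (D : RatFunc k → RatFunc k) (hD : IsDX D) (u : RatFunc k) :
    D^[p] u = 0 ∧ D^[p - 1] (u ^ (p - 1) * D u) = -(D u) ^ p := by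
  have : CharP (RatFunc k) p := cartier_charP
  refine ⟨cartier_Dp hD u, ?_⟩
  obtain ⟨s, c, hc, rfl⟩ := cartier_decomp p hD u
  classical
  have hpp : p - 1 ≠ 0 := by
    have := (Fact.out : p.Prime).two_le
    omega
  induction s using Finset.induction_on with
  | empty =>
    simp only [Finset.sum_empty, cartier_zero hD.toIsDer, mul_zero, cartier_iter_zero hD.toIsDer]
    rw [zero_pow (Fact.out : p.Prime).ne_zero, neg_zero]
  | insert a s ha ih =>
    rw [Finset.sum_insert ha, cartier_add hD, ih, cartier_term hD _ (hc a), hD.add,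
      add_pow_char]
    ring

end SSP
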