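import Pool.Agent.SSP.Defs
import Pool.Agent.SSP.Cartier

set_option autoImplicit false

namespace SSP

open Polynomial

section Der

variable {K : Type*} [Field K] {D : K → K}

private theorem der_zero (hD : IsDer D) : D 0 = 0 := by
  have := hD.add 0 0
  rw [add_zero] at this
  exact left_eq_add.mp this

private theorem der_one (hD : IsDer D) : D 1 = 0 := by
  have := hD.mul 1 1
  rw [mul_one, one_mul] at this
  exact left_eq_add.mp this

private theorem der_pow (hD : IsDer D) (x : K) (n : ℕ) : D (x ^ (n + 1)) = (n + 1 : ℕ) * x ^ n * D x := by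
  induction n with
  | zero => simp
  | succ n ih =>
    rw [pow_succ, hD.mul, ih]
    push_cast
    ring

private theorem der_iter_const (hD : IsDer D) {c : K} (hc : D c = 0) (n : ℕ) (u : K) :
    D^[n] (c * u) = c * D^[n] u := by
  induction n generalizing u with
  | zero => rfl
  | succ n ih =>
    rw [Function.iterate_succ_apply, Function.iterate_succ_apply, hD.mul, hc, mul_zero, add_zero,
      ih]

private theorem der_iter_zero (hD : IsDer D) (n : ℕ) : D^[n] 0 = 0 := by
  induction n with
  | zero => rfl
  | succ n ih => rw [Function.iterate_succ_apply, der_zero hD, ih]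

private theorem der_iter_add (hD : IsDer D) (n : ℕ) (u v : K) :
    D^[n] (u + v) = D^[n] u + D^[n] v := by
  induction n generalizing u v with
  | zero => rfl
  | succ n ih =>
    rw [Function.iterate_succ_apply, Function.iterate_succ_apply, Function.iterate_succ_apply,
      hD.add, ih]

private theorem der_iter_sum (hD : IsDer D) (n : ℕ) {ι : Type*} (s : Finset ι) (u : ι → K) :
    D^[n] (∑ i ∈ s, u i) = ∑ i ∈ s, D^[n] (u i) := by
  classical
  induction s using Finset.induction_on with
  | empty => simp [der_iter_zero hD]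
  | insert i s hi ih => rw [Finset.sum_insert hi, Finset.sum_insert hi, der_iter_add hD, ih]

end Der

private theorem key (p : ℕ) [Fact p.Prime] {k : Type*} [Field k] [CharP k p]
    (D : RatFunc k → RatFunc k) (hD : IsDX D) (g : k[X]) (hg : g.natDegree < 2 * p - 1)
    (v : RatFunc k) :
    D^[p - 1] (eval₂ RatFunc.C v g * D v) = -(RatFunc.C (g.coeff (p - 1)) * (D v) ^ p) := by
  have hp : p.Prime := Fact.out
  have hp1 : 1 ≤ p := hp.one_le
  have hder := hD.toIsDer
  rw [eval₂_eq_sum_range' RatFunc.C hg v, Finset.sum_mul, der_iter_sum hder]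
  have h1 : ∀ i ∈ Finset.range (2 * p - 1), D^[p - 1] (RatFunc.C (g.coeff i) * v ^ i * D v) =
      if i = p - 1 then -(RatFunc.C (g.coeff (p - 1)) * (D v) ^ p) else 0 := by
    intro i hi
    rw [Finset.mem_range] at hi
    rw [mul_assoc, der_iter_const hder (hD.C _)]
    split_ifs with h
    · subst h
      rw [(cartier p D hD v).2]
      ring
    · have hne : ((i + 1 : ℕ) : RatFunc k) ≠ 0 := by
        have hch : CharP (RatFunc k) p := charP_of_injective_ringHom RatFunc.C_injective p
        intro h2
        rw [CharP.cast_eq_zero_iff (RatFunc k) p] at h2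
        obtain ⟨c, hc⟩ := h2
        have hc2 : c < 2 := by
          by_contra h3
          have : p * 2 ≤ p * c := Nat.mul_le_mul_left _ (by omega)
          omega
        have hc0 : c ≠ 0 := by
          rintro rfl
          omega
        have hc1 : c = 1 := by omega
        subst hc1
        omega
      have hconst : D (((i + 1 : ℕ) : RatFunc k)⁻¹) = 0 := by
        have : (((i + 1 : ℕ) : RatFunc k)⁻¹) = RatFunc.C (((i + 1 : ℕ) : k)⁻¹) := by
          rw [map_inv₀, map_natCast]
        rw [this]
        exact hD.C _
      have e : v ^ i * D v = ((i + 1 : ℕ) : RatFunc k)⁻¹ * D (v ^ (i + 1)) := by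
        rw [der_pow hder]
        field_simp
      rw [e, der_iter_const hder hconst, ← Function.iterate_succ_apply]
      have e2 : (p - 1).succ = p := by omega
      rw [e2, (cartier p D hD _).1]
      ring
  rw [Finset.sum_congr rfl h1, Finset.sum_ite_eq' (Finset.range (2 * p - 1)) (p - 1)]
  rw [if_pos]
  rw [Finset.mem_range]
  have := hp.two_le
  omega

/-- P0' (Hasse invariant of an isogeny to the twist by `-1`). -/
theorem hasse_rel (p : ℕ) [Fact p.Prime] (hp4 : p % 4 = 3) {k : Type*} [Field k] [CharP k p]
    (l : k) (hl : l ^ p = l) (D : RatFunc k → RatFunc k) (hD : IsDX D)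
    (P : (Wt l (-fL l)).toAffine.Point) (s : k) (hs : sD D (-fL l) P = RatFunc.C s) :
    ((X * (X - 1) * (X - C l) : k[X]) ^ ((p - 1) / 2)).coeff (p - 1) * (s + s ^ p) = 0 := by
  classical
  have hp : p.Prime := Fact.out
  have hder := hD.toIsDer
  have hs0 : s = 0 → ((X * (X - 1) * (X - C l) : k[X]) ^ ((p - 1) / 2)).coeff (p - 1) *
      (s + s ^ p) = 0 := by
    rintro rfl
    rw [zero_pow hp.ne_zero]
    ring
  have hC0 : ∀ c : k, RatFunc.C c = 0 → c = 0 := fun c hc =>
    (map_eq_zero_iff _ RatFunc.C_injective).mp hc
  cases P with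
  | zero =>
    apply hs0
    apply hC0
    rw [← hs]
    rfl
  | some x y hxy =>
    have hs' : D (x / (-fL l)) * (-fL l) ^ 2 / y = RatFunc.C s := hs
    by_cases hy : y = 0
    · apply hs0
      apply hC0
      rw [← hs', hy, div_zero]
    have hXC : ∀ c : k, (RatFunc.X - RatFunc.C c : RatFunc k) ≠ 0 := by
      intro c h
      rw [← RatFunc.algebraMap_X, ← RatFunc.algebraMap_C, ← map_sub] at h
      exact X_sub_C_ne_zero c ((map_eq_zero_iff _ (RatFunc.algebraMap_injective _)).mp h)
    have hf : fL l ≠ 0 := by
      unfold fL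
      refine mul_ne_zero (mul_ne_zero RatFunc.X_ne_zero ?_) (hXC l)
      have := hXC 1
      rwa [map_one] at this
    set f := fL l with hfd
    set u := x / (-f) with hu
    set v := y / f ^ 2 with hv
    have hnf : -f ≠ 0 := neg_ne_zero.mpr hf
    have hv0 : v ≠ 0 := div_ne_zero hy (pow_ne_zero 2 hf)
    have hDu : D u = RatFunc.C s * v := by
      rw [← hs', hv]
      field_simp
    have heq : -f * v ^ 2 = u * (u - 1) * (u - RatFunc.C l) := by
      have h1 := hxy.1
      rw [WeierstrassCurve.Affine.equation_iff] at h1
      simp only [Wt, crv, WeierstrassCurve.toAffine] at h1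
      have hx : x = u * (-f) := by
        rw [hu]
        field_simp
      have hyv : y = v * f ^ 2 := by
        rw [hv]
        field_simp
      rw [hx, hyv] at h1
      have h2 : f ^ 3 * (-f * v ^ 2) = f ^ 3 * (u * (u - 1) * (u - RatFunc.C l)) := by
        linear_combination (-1) * h1
      exact mul_left_cancel₀ (pow_ne_zero 3 hf) h2
    set m := (p - 1) / 2 with hm
    have hmodd : m % 2 = 1 := by omega
    have h2m : 2 * m + 1 = p := by omega
    set G : k[X] := (X * (X - 1) * (X - C l)) ^ m with hG
    have hdeg : G.natDegree < 2 * p - 1 := by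
      have h1 : G.natDegree ≤ m * 3 := by
        rw [hG]
        refine (natDegree_pow_le).trans (Nat.mul_le_mul_left m ?_)
        have e1 : (X - 1 : k[X]) = X - C 1 := by rw [map_one]
        rw [e1]
        have d1 : (X : k[X]).natDegree ≤ 1 := natDegree_X_le
        have d2 : (X - C 1 : k[X]).natDegree ≤ 1 := natDegree_X_sub_C_le 1
        have d3 : (X - C l : k[X]).natDegree ≤ 1 := natDegree_X_sub_C_le l
        have d4 : (X * (X - C 1) : k[X]).natDegree ≤ _ := natDegree_mul_le
        have d5 : (X * (X - C 1) * (X - C l) : k[X]).natDegree ≤ _ := natDegree_mul_le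
        omega
      omega
    have hev : ∀ w : RatFunc k, eval₂ RatFunc.C w G = (w * (w - 1) * (w - RatFunc.C l)) ^ m := by
      intro w
      rw [hG]
      simp [eval₂_pow, eval₂_mul, eval₂_sub]
    have k1 := key p D hD G hdeg u
    have k2 := key p D hD G hdeg RatFunc.X
    rw [hev, hD.X, mul_one, one_pow, mul_one] at k2
    have hfX : RatFunc.X * (RatFunc.X - 1) * (RatFunc.X - RatFunc.C l) = f := rfl
    rw [hfX] at k2
    have e1 : eval₂ RatFunc.C u G * D u = RatFunc.C (-s) * (v ^ p * f ^ m) := by
      rw [hev, ← heq, hDu, mul_pow, Odd.neg_pow (Nat.odd_iff.mpr hmodd), ← pow_mul, map_neg]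
      have e2 : v ^ p = v ^ (2 * m) * v := by
        rw [← pow_succ, h2m]
      rw [e2]
      ring
    have hDvp : D (v ^ p) = 0 := by
      have hch : CharP (RatFunc k) p := charP_of_injective_ringHom RatFunc.C_injective p
      have h3 : v ^ p = v ^ (p - 1 + 1) := by
        congr 1
        have := hp.one_le
        omega
      rw [h3, der_pow hder]
      have h4 : ((p - 1 + 1 : ℕ) : RatFunc k) = 0 := by
        have : p - 1 + 1 = p := by
          have := hp.one_le
          omega
        rw [this]
        exact CharP.cast_eq_zero (RatFunc k) p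
      rw [h4]
      ring
    rw [e1, der_iter_const hder (hD.C _), der_iter_const hder hDvp, k2, hDu, mul_pow,
      ← map_pow] at k1
    have h5 : v ^ p * RatFunc.C (G.coeff (p - 1) * (s + s ^ p)) = 0 := by
      rw [map_mul, map_add]
      rw [map_neg] at k1
      linear_combination k1
    rcases mul_eq_zero.mp h5 with h6 | h6
    · exact absurd h6 (pow_ne_zero p hv0)
    · exact hC0 _ h6

end SSP
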