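import Pool.Agent.SSP.Defs

set_option autoImplicit false

namespace SSP

open Polynomial WeierstrassCurve

private theorem crv_equation {F : Type*} [Field F] {a b x y : F}
    (h : (crv a b).toAffine.Nonsingular x y) : y ^ 2 = x ^ 3 + a * x ^ 2 + b * x := by
  have h1 := ((crv a b).toAffine.nonsingular_iff' x y).mp h
  have h2 := ((crv a b).toAffine.equation_iff x y).mp h1.1
  simp only [crv] at h2
  linear_combination h2

/-- The duplication case, with `P = Q`. -/
private theorem kummer_dbl {F : Type*} [Field F] [DecidableEq F] (a b : F) (h2 : (2 : F) ≠ 0)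
    (hb : b ≠ 0) (hab : a ^ 2 - 4 * b ≠ 0) (x y : F)
    (h : (crv a b).toAffine.Nonsingular x y) :
    ∃ κ : F, κ ≠ 0 ∧
      (Affine.Point.some x y h + Affine.Point.some x y h).xRep 0 =
        κ * (x * x - b) ^ 2 ∧
      (Affine.Point.some x y h + Affine.Point.some x y h).xRep 1 =
        κ * (2 * (x * x + b) * (x + x) + 4 * a * x * x) := by
  have he := crv_equation h
  by_cases hy : y = 0
  · have hy' : y = (crv a b).toAffine.negY x y := by simp [crv, hy]
    rw [Affine.Point.add_self_of_Y_eq hy']
    have h0 : x * (x ^ 2 + a * x + b) = 0 := by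
      rw [hy] at he
      linear_combination -he
    have hx : x * x - b ≠ 0 := by
      intro hx
      rcases mul_eq_zero.mp h0 with hx0 | hx0
      · apply hb
        rw [hx0] at hx
        linear_combination -hx
      · apply hab
        have h3 : 2 * b + a * x = 0 := by linear_combination hx0 - hx
        have h4 : b * (a ^ 2 - 4 * b) = 0 := by
          linear_combination (a * x - 2 * b) * h3 - a ^ 2 * hx
        exact (mul_eq_zero.mp h4).resolve_left hb
    refine ⟨1 / (x * x - b) ^ 2, div_ne_zero one_ne_zero (pow_ne_zero 2 hx), ?_, ?_⟩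
    · simp only [Affine.Point.xRep_zero, Matrix.cons_val_zero]
      rw [one_div, inv_mul_cancel₀ (pow_ne_zero 2 hx)]
    · simp only [Affine.Point.xRep_zero, Matrix.cons_val_one, Matrix.cons_val_zero]
      have h5 : 2 * (x * x + b) * (x + x) + 4 * a * x * x = 0 := by
        linear_combination 4 * h0
      rw [h5, mul_zero]
  · have hy' : y ≠ (crv a b).toAffine.negY x y := by
      simp only [crv, Affine.negY]
      intro hh
      have h3 : 2 * y = 0 := by linear_combination hh
      rcases mul_eq_zero.mp h3 with h4 | h4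
      · exact h2 h4
      · exact hy h4
    have h4 : (4 : F) ≠ 0 := by
      have : (4 : F) = 2 * 2 := by norm_num
      rw [this]
      exact mul_ne_zero h2 h2
    have h4y : (4 : F) * y ^ 2 ≠ 0 := mul_ne_zero h4 (pow_ne_zero 2 hy)
    rw [Affine.Point.add_self_of_Y_ne hy']
    refine ⟨1 / (4 * y ^ 2), div_ne_zero one_ne_zero h4y, ?_, ?_⟩
    · simp only [Affine.Point.xRep_some, Matrix.cons_val_zero]
      rw [Affine.slope_of_Y_ne rfl hy']
      simp only [crv, Affine.addX, Affine.negY]
      have h3 : y - (-y - 0 * x - 0) = 2 * y := by ring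
      rw [h3]
      field_simp
      linear_combination (-16 * a - 32 * x) * he
    · simp only [Affine.Point.xRep_some, Matrix.cons_val_one, Matrix.cons_val_zero]
      field_simp
      linear_combination 4 * he

/-- X1 (Kummer relation). -/
theorem kummer {F : Type*} [Field F] [DecidableEq F] (a b : F) (h2 : (2 : F) ≠ 0) (hb : b ≠ 0)
    (hab : a ^ 2 - 4 * b ≠ 0) (P Q : (crv a b).toAffine.Point) :
    ∃ κ : F, κ ≠ 0 ∧
      (P + Q).xRep 0 * (P - Q).xRep 0 =
        κ * (P.xRep 0 * Q.xRep 0 - b * P.xRep 1 * Q.xRep 1) ^ 2 ∧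
      (P + Q).xRep 0 * (P - Q).xRep 1 + (P + Q).xRep 1 * (P - Q).xRep 0 =
        κ * (2 * (P.xRep 0 * Q.xRep 0 + b * P.xRep 1 * Q.xRep 1) *
            (P.xRep 0 * Q.xRep 1 + P.xRep 1 * Q.xRep 0)
          + 4 * a * P.xRep 0 * Q.xRep 0 * P.xRep 1 * Q.xRep 1) ∧
      (P + Q).xRep 1 * (P - Q).xRep 1 =
        κ * (P.xRep 0 * Q.xRep 1 - P.xRep 1 * Q.xRep 0) ^ 2 := by
  match P, Q with
  | 0, Q =>
    refine ⟨1, one_ne_zero, ?_, ?_, ?_⟩
    · simp [sub_eq_add_neg, pow_two]
    · simp [sub_eq_add_neg]
      ring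
    · simp [sub_eq_add_neg, pow_two]
  | P, 0 =>
    refine ⟨1, one_ne_zero, ?_, ?_, ?_⟩
    · simp [pow_two]
    · simp
      ring
    · simp [pow_two]
  | .some x₁ y₁ h₁, .some x₂ y₂ h₂ =>
    by_cases hx : x₁ = x₂
    · have hcase := Affine.Point.X_eq_iff (h₁ := h₁) (h₂ := h₂) |>.mp hx
      obtain ⟨κ, hκ, e0, e1⟩ := kummer_dbl a b h2 hb hab x₁ y₁ h₁
      subst hx
      rcases hcase with hc | hc
      · rw [← hc, sub_self]
        refine ⟨κ, hκ, ?_, ?_, ?_⟩
        · simp only [Affine.Point.xRep_some, Affine.Point.xRep_zero, Matrix.cons_val_zero,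
            Matrix.cons_val_one]
          rw [e0]
          ring
        · simp only [Affine.Point.xRep_some, Affine.Point.xRep_zero, Matrix.cons_val_zero,
            Matrix.cons_val_one]
          rw [e1]
          ring
        · simp only [Affine.Point.xRep_some, Affine.Point.xRep_zero, Matrix.cons_val_zero,
            Matrix.cons_val_one]
          ring
      · have hc' : Affine.Point.some x₁ y₂ h₂ = - Affine.Point.some x₁ y₁ h₁ := by
          rw [hc, neg_neg]
        rw [hc', sub_neg_eq_add, add_neg_cancel]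
        refine ⟨κ, hκ, ?_, ?_, ?_⟩
        · simp only [Affine.Point.xRep_neg, Affine.Point.xRep_some, Affine.Point.xRep_zero,
            Matrix.cons_val_zero, Matrix.cons_val_one]
          rw [e0]
          ring
        · simp only [Affine.Point.xRep_neg, Affine.Point.xRep_some, Affine.Point.xRep_zero,
            Matrix.cons_val_zero, Matrix.cons_val_one]
          rw [e1]
          ring
        · simp only [Affine.Point.xRep_neg, Affine.Point.xRep_some, Affine.Point.xRep_zero,
            Matrix.cons_val_zero, Matrix.cons_val_one]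
          ring
    · have hx' : x₁ - x₂ ≠ 0 := sub_ne_zero.mpr hx
      have e1 := crv_equation h₁
      have e2 := crv_equation h₂
      rw [sub_eq_add_neg, Affine.Point.neg_some, Affine.Point.add_of_X_ne hx,
        Affine.Point.add_of_X_ne hx]
      refine ⟨1 / (x₁ - x₂) ^ 2, div_ne_zero one_ne_zero (pow_ne_zero 2 hx'), ?_, ?_, ?_⟩
      · simp only [Affine.Point.xRep_some, Matrix.cons_val_zero, Matrix.cons_val_one]
        rw [Affine.slope_of_X_ne hx, Affine.slope_of_X_ne hx]
        simp only [crv, Affine.addX, Affine.negY]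
        field_simp
        linear_combination
          ((y₁ ^ 2 - y₂ ^ 2) + (x₁ ^ 3 + a * x₁ ^ 2 + b * x₁ - (x₂ ^ 3 + a * x₂ ^ 2 + b * x₂))
            - 2 * ((a + x₁ + x₂) * (x₁ - x₂) ^ 2)) * e1
          + (-((y₁ ^ 2 - y₂ ^ 2) + (x₁ ^ 3 + a * x₁ ^ 2 + b * x₁
            - (x₂ ^ 3 + a * x₂ ^ 2 + b * x₂))) - 2 * ((a + x₁ + x₂) * (x₁ - x₂) ^ 2)) * e2
      · simp only [Affine.Point.xRep_some, Matrix.cons_val_zero, Matrix.cons_val_one]
        rw [Affine.slope_of_X_ne hx, Affine.slope_of_X_ne hx]
        simp only [crv, Affine.addX, Affine.negY]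
        field_simp
        linear_combination 2 * e1 + 2 * e2
      · simp only [Affine.Point.xRep_some, Matrix.cons_val_zero, Matrix.cons_val_one]
        field_simp

end SSP
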