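import Pool.Agent.SSP.Defs

set_option autoImplicit false

namespace SSP

open Polynomial

theorem xd_even {S : Type*} [CommRing S] (b2 b4 b8 x : S) (n : ℕ) :
    xd b2 b4 b8 x (2 * n) = dbl b2 b4 b8 (xd b2 b4 b8 x n) := by
  rcases n with _ | n
  · rw [Nat.mul_zero, xd]
    simp [dbl]
  · rw [show 2 * (n + 1) = 2 * n + 2 by ring, xd, dif_pos (by omega),
      show (2 * n + 2) / 2 = n + 1 by omega]

theorem xd_odd {S : Type*} [CommRing S] (b2 b4 b8 x : S) (n : ℕ) (hn : 1 ≤ n) :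
    xd b2 b4 b8 x (2 * n + 1) = dadd b2 b4 x (xd b2 b4 b8 x (n + 1)) (xd b2 b4 b8 x n) := by
  obtain ⟨m, rfl⟩ : ∃ m, n = m + 1 := ⟨n - 1, by omega⟩
  rw [show 2 * (m + 1) + 1 = (2 * m + 1) + 2 by ring, xd, dif_neg (by omega),
    show (2 * m + 1 + 2) / 2 = m + 1 by omega]

private theorem LadderBasic_ind {P : ℕ → Prop} (h0 : P 0) (h1 : P 1)
    (he : ∀ n, 1 ≤ n → P n → P (2 * n)) (ho : ∀ n, 1 ≤ n → P (n + 1) → P n → P (2 * n + 1)) :
    ∀ n, P n := by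
  intro n
  induction n using Nat.strong_induction_on with
  | _ n ih =>
    rcases Nat.even_or_odd' n with ⟨k, rfl | rfl⟩
    · rcases Nat.eq_zero_or_pos k with rfl | hk
      · exact h0
      · exact he k hk (ih k (by omega))
    · rcases Nat.eq_zero_or_pos k with rfl | hk
      · exact h1
      · exact ho k hk (ih (k + 1) (by omega)) (ih k (by omega))

/-- X3 (naturality). -/
theorem xd_map {S T : Type*} [CommRing S] [CommRing T] (f : S →+* T) (b2 b4 b8 x : S) (n : ℕ) :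
    xd (f b2) (f b4) (f b8) (f x) n =
      (f (xd b2 b4 b8 x n).1, f (xd b2 b4 b8 x n).2) := by
  induction n using LadderBasic_ind with
  | h0 => simp [xd]
  | h1 => simp [xd]
  | he n hn ih =>
    rw [xd_even, xd_even, ih]
    simp only [dbl, map_add, map_sub, map_mul, map_pow, map_ofNat]
  | ho n hn ih1 ih0 =>
    rw [xd_odd _ _ _ _ n hn, xd_odd _ _ _ _ n hn, ih1, ih0]
    simp only [dadd, map_add, map_sub, map_mul, map_pow, map_ofNat]

/-- X4 (scaling). -/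
theorem xd_scale {S : Type*} [CommRing S] (u b2 b4 b8 x : S) (n : ℕ) :
    xd (u * b2) (u ^ 2 * b4) (u ^ 4 * b8) (u * x) n =
      (u ^ (n ^ 2) * (xd b2 b4 b8 x n).1, u ^ (n ^ 2 - 1) * (xd b2 b4 b8 x n).2) := by
  induction n using LadderBasic_ind with
  | h0 => simp [xd]
  | h1 => simp [xd]
  | he n hn ih =>
    rw [xd_even, xd_even, ih]
    obtain ⟨m, rfl⟩ : ∃ m, n = m + 1 := ⟨n - 1, by omega⟩
    have e1 : (m + 1) ^ 2 - 1 = m ^ 2 + 2 * m := by
      rw [show (m + 1) ^ 2 = m ^ 2 + 2 * m + 1 by ring]; omega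
    have e2 : (2 * (m + 1)) ^ 2 = 4 * (m ^ 2 + 2 * m) + 4 := by ring
    have e3 : (2 * (m + 1)) ^ 2 - 1 = 4 * (m ^ 2 + 2 * m) + 3 := by rw [e2]; omega
    have e4 : (m + 1) ^ 2 = (m ^ 2 + 2 * m) + 1 := by ring
    rw [e3, e1, e2, e4]
    generalize m ^ 2 + 2 * m = k
    generalize xd b2 b4 b8 x (m + 1) = p
    simp only [dbl]
    ext
    · simp only
      ring
    · simp only
      ring
  | ho n hn ih1 ih0 =>
    rw [xd_odd _ _ _ _ n hn, xd_odd _ _ _ _ n hn, ih1, ih0]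
    obtain ⟨m, rfl⟩ : ∃ m, n = m + 1 := ⟨n - 1, by omega⟩
    have e1 : (m + 1) ^ 2 - 1 = m ^ 2 + 2 * m := by
      rw [show (m + 1) ^ 2 = m ^ 2 + 2 * m + 1 by ring]; omega
    have e2 : (m + 1 + 1) ^ 2 - 1 = (m ^ 2 + 2 * m) + 2 * m + 3 := by
      rw [show (m + 1 + 1) ^ 2 = (m ^ 2 + 2 * m) + 2 * m + 4 by ring]; omega
    have e3 : (2 * (m + 1) + 1) ^ 2 = 4 * (m ^ 2 + 2 * m) + 4 * m + 9 := by ring
    have e4 : (2 * (m + 1) + 1) ^ 2 - 1 = 4 * (m ^ 2 + 2 * m) + 4 * m + 8 := by rw [e3]; omega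
    have e5 : (m + 1) ^ 2 = (m ^ 2 + 2 * m) + 1 := by ring
    have e6 : (m + 1 + 1) ^ 2 = (m ^ 2 + 2 * m) + 2 * m + 4 := by ring
    rw [e4, e2, e1, e3, e5, e6]
    generalize m ^ 2 + 2 * m = k
    generalize xd b2 b4 b8 x (m + 1) = p
    generalize xd b2 b4 b8 x (m + 1 + 1) = r
    simp only [dadd]
    ext
    · simp only
      ring
    · simp only
      ring

end SSP
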