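import Pool.Agent.SSP.Defs
import Pool.Agent.SSP.LadderBasic

set_option autoImplicit false

namespace SSP

open Polynomial

private theorem LadderDegree_ind {P : ℕ → Prop} (h1 : P 1)
    (he : ∀ n, 1 ≤ n → P n → P (2 * n)) (ho : ∀ n, 1 ≤ n → P (n + 1) → P n → P (2 * n + 1)) :
    ∀ n, 1 ≤ n → P n := by
  intro n
  induction n using Nat.strong_induction_on with
  | _ n ih =>
    intro hn
    rcases Nat.even_or_odd' n with ⟨k, rfl | rfl⟩
    · exact he k (by omega) (ih k (by omega) (by omega))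
    · rcases Nat.eq_zero_or_pos k with rfl | hk
      · exact h1
      · exact ho k hk (ih (k + 1) (by omega) (by omega)) (ih k (by omega) (by omega))

/-- degree at most `d`, coefficient `c` at `d` -/
private def LD {R : Type*} [CommRing R] (p : R[X]) (d : ℕ) (c : R) : Prop :=
  p.natDegree ≤ d ∧ p.coeff d = c

section

variable {R : Type*} [CommRing R] {p q : R[X]} {d e : ℕ} {a b : R}

private theorem LD.add (hp : LD p d a) (hq : LD q d b) : LD (p + q) d (a + b) :=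
  ⟨(natDegree_add_le _ _).trans (max_le hp.1 hq.1), by rw [coeff_add, hp.2, hq.2]⟩

private theorem LD.sub (hp : LD p d a) (hq : LD q d b) : LD (p - q) d (a - b) :=
  ⟨(natDegree_sub_le _ _).trans (max_le hp.1 hq.1), by rw [coeff_sub, hp.2, hq.2]⟩

private theorem LD.mul (hp : LD p d a) (hq : LD q e b) : LD (p * q) (d + e) (a * b) :=
  ⟨natDegree_mul_le.trans (add_le_add hp.1 hq.1), by
    rw [coeff_mul_add_eq_of_natDegree_le hp.1 hq.1, hp.2, hq.2]⟩

private theorem LD.pow (hp : LD p d a) (k : ℕ) : LD (p ^ k) (k * d) (a ^ k) := by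
  induction k with
  | zero => exact ⟨by simp, by simp⟩
  | succ k ih =>
    have h := ih.mul hp
    rw [← pow_succ, ← pow_succ] at h
    rwa [show k * d + d = (k + 1) * d by ring] at h

private theorem LD.up (hp : LD p d a) (h : d < e) : LD p e 0 :=
  ⟨hp.1.trans h.le, coeff_eq_zero_of_natDegree_lt (lt_of_le_of_lt hp.1 h)⟩

private theorem LD.const (r : R) : LD (C r) 0 r := ⟨by simp, by simp⟩

private theorem LD.ofNat (k : ℕ) [k.AtLeastTwo] : LD (OfNat.ofNat k : R[X]) 0 (OfNat.ofNat k) :=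
  ⟨by simp, by simp⟩

private theorem LD.var : LD (X : R[X]) 1 1 := ⟨natDegree_X_le, coeff_X_one⟩

private theorem LD.cast (hp : LD p d a) (h : d = e) (h' : a = b) : LD p e b := by
  subst h h'
  exact hp

private theorem LD.dbl {A B : R[X]} {k : ℕ} {c : R} (b2 b4 b8 : R) (hA : LD A (k + 1) 1)
    (hB : LD B k c) :
    LD (dbl (C b2) (C b4) (C b8) (A, B)).1 (4 * k + 4) 1 ∧
      LD (dbl (C b2) (C b4) (C b8) (A, B)).2 (4 * k + 3) (4 * c) := by
  simp only [SSP.dbl]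
  constructor
  · have h1 : LD (A ^ 4) (4 * k + 4) 1 := (hA.pow 4).cast (by ring) (by ring)
    have h2 : LD (C b4 * A ^ 2 * B ^ 2) (4 * k + 4) 0 :=
      (((LD.const b4).mul (hA.pow 2)).mul (hB.pow 2)).up (by omega)
    have h3 : LD (C b8 * B ^ 4) (4 * k + 4) 0 :=
      ((LD.const b8).mul (hB.pow 4)).up (by omega)
    exact ((h1.sub h2).sub h3).cast rfl (by ring)
  · have h1 : LD (4 * A ^ 3 * B) (4 * k + 3) (4 * c) :=
      (((LD.ofNat 4).mul (hA.pow 3)).mul hB).cast (by ring) (by ring)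
    have h2 : LD (C b2 * A ^ 2 * B ^ 2) (4 * k + 3) 0 :=
      (((LD.const b2).mul (hA.pow 2)).mul (hB.pow 2)).up (by omega)
    have h3 : LD (2 * C b4 * A * B ^ 3) (4 * k + 3) 0 :=
      ((((LD.ofNat 2).mul (LD.const b4)).mul hA).mul (hB.pow 3)).up (by omega)
    exact ((h1.add h2).add h3).cast rfl (by ring)

private theorem LD.cross {A B A' B' : R[X]} {k l : ℕ} {c c' : R} (hA : LD A (k + 1) 1)
    (hB : LD B k c) (hA' : LD A' (l + 1) 1) (hB' : LD B' l c') :
    LD (A * B' - A' * B) (k + l + 1) (c' - c) :=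
  ((hA.mul hB').cast (by ring) (by ring)).sub ((hA'.mul hB).cast (by ring) (by ring))

private theorem LD.dadd {A B A' B' : R[X]} {k l : ℕ} {c c' : R} (b2 b4 : R)
    (hA : LD A (k + 1) 1)
    (hB : LD B k c) (hA' : LD A' (l + 1) 1) (hB' : LD B' l c') :
    LD (dadd (C b2) (C b4) X (A, B) (A', B')).1 (2 * (k + l) + 3)
        (2 * (c + c') - (c' - c) ^ 2) ∧
      LD (dadd (C b2) (C b4) X (A, B) (A', B')).2 (2 * (k + l) + 2) ((c' - c) ^ 2) := by
  have h0 := LD.cross hA hB hA' hB'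
  have h1 : LD (A * B' + A' * B) (k + l + 1) (c' + c) :=
    ((hA.mul hB').cast (by ring) (by ring)).add ((hA'.mul hB).cast (by ring) (by ring))
  simp only [SSP.dadd]
  constructor
  · have e1 : LD (2 * (A * A') * (A * B' + A' * B)) (2 * (k + l) + 3) (2 * (c + c')) :=
      (((LD.ofNat 2).mul (hA.mul hA')).mul h1).cast (by ring) (by ring)
    have e2 : LD (C b2 * (A * A') * (B * B')) (2 * (k + l) + 3) 0 :=
      (((LD.const b2).mul (hA.mul hA')).mul (hB.mul hB')).up (by omega)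
    have e3 : LD (C b4 * (A * B' + A' * B) * (B * B')) (2 * (k + l) + 3) 0 :=
      (((LD.const b4).mul h1).mul (hB.mul hB')).up (by omega)
    have e4 : LD (X * (A * B' - A' * B) ^ 2) (2 * (k + l) + 3) ((c' - c) ^ 2) :=
      (LD.var.mul (h0.pow 2)).cast (by ring) (by ring)
    exact (((e1.add e2).add e3).sub e4).cast rfl (by ring)
  · exact (h0.pow 2).cast (by ring) rfl

private theorem xd_LD (b2 b4 b8 : R) (n : ℕ) (hn : 1 ≤ n) :
    ∃ k, n ^ 2 = k + 1 ∧ LD (xd (C b2) (C b4) (C b8) (X : R[X]) n).1 (k + 1) 1 ∧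
      LD (xd (C b2) (C b4) (C b8) (X : R[X]) n).2 k ((n : R) ^ 2) := by
  revert hn
  revert n
  refine LadderDegree_ind ?_ ?_ ?_
  · refine ⟨0, by norm_num, ?_, ?_⟩
    · rw [xd]
      exact LD.var
    · rw [xd]
      exact ⟨by simp, by simp⟩
  · rintro n hn ⟨k, hk, hA, hB⟩
    refine ⟨4 * k + 3, by rw [mul_pow, hk]; ring, ?_⟩
    have h := LD.dbl b2 b4 b8 hA hB
    rw [xd_even]
    refine ⟨h.1, h.2.cast rfl ?_⟩
    push_cast
    ring
  · rintro n hn ⟨k, hk, hA, hB⟩ ⟨l, hl, hA', hB'⟩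
    refine ⟨2 * (k + l) + 2, ?_, ?_⟩
    · have e1 : (2 * n + 1) ^ 2 = 2 * (n + 1) ^ 2 + 2 * n ^ 2 - 1 := by
        have : 2 * (n + 1) ^ 2 + 2 * n ^ 2 = (2 * n + 1) ^ 2 + 1 := by ring
        omega
      rw [e1, hk, hl]
      omega
    · have h := LD.dadd b2 b4 hA hB hA' hB'
      rw [xd_odd _ _ _ _ n hn]
      refine ⟨h.1.cast rfl ?_, h.2.cast rfl ?_⟩
      · push_cast
        ring
      · push_cast
        ring

end

/-- X5 (degrees). -/
theorem xd_degree {R : Type*} [CommRing R] [Nontrivial R] (b2 b4 b8 : R) (n : ℕ) (hn : 1 ≤ n) :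
    (xd (C b2) (C b4) (C b8) (X : R[X]) n).1.Monic ∧
      (xd (C b2) (C b4) (C b8) (X : R[X]) n).1.natDegree = n ^ 2 ∧
      (xd (C b2) (C b4) (C b8) (X : R[X]) n).2.natDegree ≤ n ^ 2 - 1 ∧
      (xd (C b2) (C b4) (C b8) (X : R[X]) n).2.coeff (n ^ 2 - 1) = (n : R) ^ 2 := by
  obtain ⟨k, hk, h1, h2⟩ := xd_LD b2 b4 b8 n hn
  rw [hk, Nat.add_sub_cancel]
  refine ⟨monic_of_natDegree_le_of_coeff_eq_one _ h1.1 h1.2, ?_, h2.1, h2.2⟩
  exact natDegree_eq_of_le_of_coeff_ne_zero h1.1 (by rw [h1.2]; exact one_ne_zero)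

/-- X6 (square root of the denominator for odd `n`). -/
theorem xd_sqrt {R : Type*} [CommRing R] [Nontrivial R] (b2 b4 b8 : R) (m : ℕ) :
    ∃ d : R[X], (xd (C b2) (C b4) (C b8) (X : R[X]) (2 * m + 1)).2 = d ^ 2 ∧
      d.natDegree ≤ ((2 * m + 1) ^ 2 - 1) / 2 ∧
      d.coeff (((2 * m + 1) ^ 2 - 1) / 2) = (2 * m + 1 : R) := by
  rcases Nat.eq_zero_or_pos m with rfl | hm
  · refine ⟨1, ?_, by simp, by simp⟩
    rw [Nat.mul_zero, Nat.zero_add, xd]
    simp
  · obtain ⟨k, hk, h1, h2⟩ := xd_LD b2 b4 b8 (m + 1) (by omega)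
    obtain ⟨l, hl, h3, h4⟩ := xd_LD b2 b4 b8 m hm
    have h := LD.cross h3 h4 h1 h2
    have e : ((2 * m + 1) ^ 2 - 1) / 2 = l + k + 1 := by
      have : (2 * m + 1) ^ 2 + 1 = 2 * (m + 1) ^ 2 + 2 * m ^ 2 := by ring
      rw [hk, hl] at this
      omega
    rw [e]
    refine ⟨_, ?_, h.1, ?_⟩
    · rw [xd_odd _ _ _ _ m hm]
      simp only [dadd]
      ring
    · rw [h.2]
      push_cast
      ring

end SSP
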