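import Pool.Agent.SSP.Defs
import Pool.Agent.SSP.Kummer

set_option autoImplicit false

namespace SSP

open Polynomial

private theorem ladderPoint_dbl {F : Type*} [Field F] [DecidableEq F] (a b : F)
    (h2 : (2 : F) ≠ 0) (hb : b ≠ 0) (hab : a ^ 2 - 4 * b ≠ 0) (Q : (crv a b).toAffine.Point)
    (k : F) (hk : k ≠ 0) :
    ∃ κ : F, κ ≠ 0 ∧ dbl (4 * a) (2 * b) (-b ^ 2) (k * Q.xRep 0, k * Q.xRep 1) =
      (κ * (Q + Q).xRep 0, κ * (Q + Q).xRep 1) := by
  obtain ⟨c, hc, h0, h1, -⟩ := kummer a b h2 hb hab Q Q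
  have hz : (Q - Q) = 0 := sub_self Q
  rw [hz, WeierstrassCurve.Affine.Point.xRep_zero] at h0 h1
  simp only [Matrix.cons_val_zero, Matrix.cons_val_one, mul_one, mul_zero, zero_add] at h0 h1
  refine ⟨k ^ 4 * c⁻¹, mul_ne_zero (pow_ne_zero _ hk) (inv_ne_zero hc), ?_⟩
  rw [h0, h1]
  simp only [dbl, Prod.mk.injEq]
  constructor
  · field_simp
    ring
  · field_simp
    ring

private theorem ladderPoint_dadd {F : Type*} [Field F] [DecidableEq F] (a b : F)
    (h2 : (2 : F) ≠ 0) (hb : b ≠ 0) (hab : a ^ 2 - 4 * b ≠ 0)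
    (P Q R : (crv a b).toAffine.Point) (hR : P - Q = R) (hR1 : R.xRep 1 = 1)
    (k l : F) (hk : k ≠ 0) (hl : l ≠ 0) :
    ∃ κ : F, κ ≠ 0 ∧ dadd (4 * a) (2 * b) (R.xRep 0) (k * P.xRep 0, k * P.xRep 1)
        (l * Q.xRep 0, l * Q.xRep 1) =
      (κ * (P + Q).xRep 0, κ * (P + Q).xRep 1) := by
  obtain ⟨c, hc, -, h1, h0⟩ := kummer a b h2 hb hab P Q
  rw [hR, hR1, mul_one] at h0 h1
  have e1 : (P + Q).xRep 0 = c * (2 * (P.xRep 0 * Q.xRep 0 + b * P.xRep 1 * Q.xRep 1) *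
            (P.xRep 0 * Q.xRep 1 + P.xRep 1 * Q.xRep 0)
          + 4 * a * P.xRep 0 * Q.xRep 0 * P.xRep 1 * Q.xRep 1)
          - c * (P.xRep 0 * Q.xRep 1 - P.xRep 1 * Q.xRep 0) ^ 2 * R.xRep 0 := by
    rw [← h1, ← h0]
    ring
  refine ⟨k ^ 2 * l ^ 2 * c⁻¹, mul_ne_zero (mul_ne_zero (pow_ne_zero _ hk) (pow_ne_zero _ hl))
    (inv_ne_zero hc), ?_⟩
  rw [h0, e1]
  simp only [dadd, Prod.mk.injEq]
  constructor
  · field_simp
    ring
  · field_simp

private theorem ladderPoint_xRep_one {F : Type*} [Field F] (a b : F)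
    (P : (crv a b).toAffine.Point) (hP : P ≠ 0) : P.xRep 1 = 1 := by
  cases P with
  | zero => exact absurd rfl hP
  | some x y h => simp [WeierstrassCurve.Affine.Point.xRep_some]

/-- X2 (the ladder computes multiples). -/
theorem xd_point {F : Type*} [Field F] [DecidableEq F] (a b : F) (h2 : (2 : F) ≠ 0) (hb : b ≠ 0)
    (hab : a ^ 2 - 4 * b ≠ 0) (P : (crv a b).toAffine.Point) (hP : P ≠ 0) (n : ℕ) :
    ∃ κ : F, κ ≠ 0 ∧ xd (4 * a) (2 * b) (-b ^ 2) (P.xRep 0) n =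
      (κ * (n • P).xRep 0, κ * (n • P).xRep 1) := by
  have hP1 : P.xRep 1 = 1 := ladderPoint_xRep_one a b P hP
  induction n using Nat.strong_induction_on with
  | _ n ih =>
    match n, ih with
    | 0, _ =>
      refine ⟨1, one_ne_zero, ?_⟩
      rw [xd, zero_smul, WeierstrassCurve.Affine.Point.xRep_zero]
      simp
    | 1, _ =>
      refine ⟨1, one_ne_zero, ?_⟩
      rw [xd, one_smul, hP1]
      simp
    | n + 2, ih =>
      rw [xd]
      split_ifs with h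
      · obtain ⟨k, hk, hk'⟩ := ih ((n + 2) / 2) (by omega)
        rw [hk']
        obtain ⟨κ, hκ, hκ'⟩ := ladderPoint_dbl a b h2 hb hab (((n + 2) / 2) • P) k hk
        refine ⟨κ, hκ, ?_⟩
        rw [hκ']
        have e : ((n + 2) / 2) • P + ((n + 2) / 2) • P = (n + 2) • P := by
          rw [← add_smul]
          congr 1
          omega
        rw [e]
      · obtain ⟨k, hk, hk'⟩ := ih ((n + 2) / 2 + 1) (by omega)
        obtain ⟨l, hl, hl'⟩ := ih ((n + 2) / 2) (by omega)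
        rw [hk', hl']
        obtain ⟨κ, hκ, hκ'⟩ := ladderPoint_dadd a b h2 hb hab (((n + 2) / 2 + 1) • P)
          (((n + 2) / 2) • P) P (by rw [add_smul, one_smul]; abel) hP1 k l hk hl
        refine ⟨κ, hκ, ?_⟩
        rw [hκ']
        have e : ((n + 2) / 2 + 1) • P + ((n + 2) / 2) • P = (n + 2) • P := by
          rw [← add_smul]
          congr 1
          omega
        rw [e]

end SSP
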