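import Pool.Agent.SSP.Defs

set_option autoImplicit false

namespace SSP

open Polynomial

private theorem diffAdd_zero {K : Type*} [Field K] {D : K → K} (hD : IsDer D) : D 0 = 0 := by
  have h := hD.add 0 0
  rw [add_zero] at h
  linear_combination -h

private theorem diffAdd_one {K : Type*} [Field K] {D : K → K} (hD : IsDer D) : D 1 = 0 := by
  have h := hD.mul 1 1
  rw [one_mul, one_mul] at h
  linear_combination -h

private theorem diffAdd_neg {K : Type*} [Field K] {D : K → K} (hD : IsDer D) (x : K) :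
    D (-x) = -D x := by
  have h := hD.add x (-x)
  rw [add_neg_cancel, diffAdd_zero hD] at h
  linear_combination -h

private theorem diffAdd_sub {K : Type*} [Field K] {D : K → K} (hD : IsDer D) (x y : K) :
    D (x - y) = D x - D y := by
  rw [sub_eq_add_neg, hD.add, diffAdd_neg hD, ← sub_eq_add_neg]

private theorem diffAdd_sq {K : Type*} [Field K] {D : K → K} (hD : IsDer D) (x : K) :
    D (x ^ 2) = 2 * x * D x := by
  rw [pow_two, hD.mul]
  ring

private theorem diffAdd_two {K : Type*} [Field K] {D : K → K} (hD : IsDer D) : D 2 = 0 := by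
  have h : (2 : K) = 1 + 1 := by norm_num
  rw [h, hD.add, diffAdd_one hD, add_zero]

private theorem diffAdd_three {K : Type*} [Field K] {D : K → K} (hD : IsDer D) : D 3 = 0 := by
  have h : (3 : K) = 2 + 1 := by norm_num
  rw [h, hD.add, diffAdd_one hD, diffAdd_two hD, add_zero]

private theorem diffAdd_cube {K : Type*} [Field K] {D : K → K} (hD : IsDer D) (x : K) :
    D (x ^ 3) = 3 * x ^ 2 * D x := by
  rw [pow_succ, hD.mul, diffAdd_sq hD]
  ring

/-- the basic relations for a point -/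
private theorem diffAdd_pt {K : Type*} [Field K] {D : K → K} (hD : IsDer D) (a b φ : K)
    (hb : b ≠ 0) (hab : a ^ 2 - 4 * b ≠ 0)
    (hDa : D a = 0) (hDb : D b = 0) (X Y : K) (hE : φ * Y ^ 2 = X ^ 3 + a * X ^ 2 + b * X) :
    D X = D X / Y * Y ∧ 2 * φ * D Y = (3 * X ^ 2 + 2 * a * X + b) * (D X / Y) - D φ * Y := by
  have d1 : D φ * Y ^ 2 + 2 * φ * Y * D Y = (3 * X ^ 2 + 2 * a * X + b) * D X := by
    have h := congrArg D hE
    rw [hD.add, hD.add, hD.mul, hD.mul, hD.mul, diffAdd_sq hD, diffAdd_sq hD, diffAdd_cube hD,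
      hDa, hDb] at h
    linear_combination h
  by_cases hY : Y = 0
  · subst hY
    have h0 : D (0 : K) = 0 := diffAdd_zero hD
    have hX : D X = 0 := by
      have h3 : (3 * X ^ 2 + 2 * a * X + b) * D X = 0 := by
        rw [← d1]
        ring
      rcases mul_eq_zero.mp h3 with h4 | h4
      · exfalso
        have h5 : X * (X ^ 2 + a * X + b) = 0 := by linear_combination -hE
        rcases mul_eq_zero.mp h5 with h6 | h6
        · rw [h6] at h4
          apply hb
          linear_combination h4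
        · have h7 : X * (2 * X + a) = 0 := by linear_combination h4 - h6
          rcases mul_eq_zero.mp h7 with h8 | h8
          · rw [h8] at h4
            apply hb
            linear_combination h4
          · apply hab
            linear_combination -4 * h6 + (2 * X + a) * h8
      · exact h4
    rw [hX, h0]
    simp
  · refine ⟨(div_mul_cancel₀ _ hY).symm, ?_⟩
    apply mul_left_cancel₀ hY
    have h3 : D X / Y * Y = D X := div_mul_cancel₀ _ hY
    linear_combination d1 - (3 * X ^ 2 + 2 * a * X + b) * h3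

/-- generic addition -/
private theorem diffAdd_gen {K : Type*} [Field K] {D : K → K} (hD : IsDer D) (a b φ : K)
    (hb : b ≠ 0) (hab : a ^ 2 - 4 * b ≠ 0)
    (hDa : D a = 0) (hDb : D b = 0) (X1 Y1 X2 Y2 μ : K)
    (hE1 : φ * Y1 ^ 2 = X1 ^ 3 + a * X1 ^ 2 + b * X1)
    (hE2 : φ * Y2 ^ 2 = X2 ^ 3 + a * X2 ^ 2 + b * X2) (hX : X1 ≠ X2)
    (hμ : μ * (X1 - X2) = Y1 - Y2) :
    D (φ * μ ^ 2 - a - X1 - X2) =
      (D X1 / Y1 + D X2 / Y2) * (-(μ * (φ * μ ^ 2 - a - X1 - X2 - X1) + Y1)) := by
  obtain ⟨h1x, h1y⟩ := diffAdd_pt hD a b φ hb hab hDa hDb X1 Y1 hE1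
  obtain ⟨h2x, h2y⟩ := diffAdd_pt hD a b φ hb hab hDa hDb X2 Y2 hE2
  generalize D X1 / Y1 = s1 at *
  generalize D X2 / Y2 = s2 at *
  have hδ : X1 - X2 ≠ 0 := sub_ne_zero.mpr hX
  have hDμ : D μ * (X1 - X2) + μ * (D X1 - D X2) = D Y1 - D Y2 := by
    have h := congrArg D hμ
    rw [hD.mul, diffAdd_sub hD, diffAdd_sub hD] at h
    linear_combination h
  have hG : φ * μ * (Y1 + Y2) = X1 ^ 2 + X1 * X2 + X2 ^ 2 + a * (X1 + X2) + b := by
    apply mul_left_cancel₀ hδ
    linear_combination φ * (Y1 + Y2) * hμ + hE1 - hE2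
  rw [diffAdd_sub hD, diffAdd_sub hD, diffAdd_sub hD, hD.mul, diffAdd_sq hD, hDa]
  apply mul_left_cancel₀ hδ
  linear_combination 2 * φ * μ * hDμ + μ * (h1y - h2y) + D φ * μ * hμ
    - ((X1 - X2) + 2 * φ * μ ^ 2) * h1x - ((X1 - X2) - 2 * φ * μ ^ 2) * h2x
    + (s1 + s2) * φ * μ ^ 2 * hμ - s2 * (X1 - X2) * hμ - μ * s1 * hG + μ * s2 * hG

/-- doubling -/
private theorem diffAdd_dbl {K : Type*} [Field K] {D : K → K} (hD : IsDer D) (a b φ : K)
    (hb : b ≠ 0) (hab : a ^ 2 - 4 * b ≠ 0)
    (hDa : D a = 0) (hDb : D b = 0) (X Y μ : K)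
    (hE : φ * Y ^ 2 = X ^ 3 + a * X ^ 2 + b * X) (hY : Y ≠ 0)
    (hμ : 2 * φ * Y * μ = 3 * X ^ 2 + 2 * a * X + b) :
    D (φ * μ ^ 2 - a - X - X) =
      (D X / Y + D X / Y) * (-(μ * (φ * μ ^ 2 - a - X - X - X) + Y)) := by
  obtain ⟨hx, hy⟩ := diffAdd_pt hD a b φ hb hab hDa hDb X Y hE
  generalize D X / Y = s at *
  have hDμ : 2 * (D φ * Y * μ + φ * D Y * μ + φ * Y * D μ) = (6 * X + 2 * a) * D X := by
    have h := congrArg D hμ
    rw [hD.add, hD.add, hD.mul, hD.mul, hD.mul, hD.mul, hD.mul, hD.mul, diffAdd_sq hD,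
      diffAdd_two hD, diffAdd_three hD, hDa, hDb] at h
    linear_combination h
  have hG : D φ * μ + 2 * φ * μ ^ 2 * s + 2 * φ * D μ = (6 * X + 2 * a) * s := by
    apply mul_left_cancel₀ hY
    linear_combination hDμ - μ * hy + (6 * X + 2 * a) * hx + μ * s * hμ
  rw [diffAdd_sub hD, diffAdd_sub hD, diffAdd_sub hD, hD.mul, diffAdd_sq hD, hDa]
  linear_combination μ * hG - 2 * hx

/-- `sD` of an affine point -/
private theorem diffAdd_sD_some {K : Type*} [Field K] (D : K → K) (φ : K) {a b : K} (x y : K)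
    (h : (crv a b).toAffine.Nonsingular x y) :
    sD D φ (.some x y h) = D (x / φ) * φ ^ 2 / y := rfl

private theorem diffAdd_sD_zero {K : Type*} [Field K] (D : K → K) (φ : K) {a b : K} :
    sD D φ (0 : (crv a b).toAffine.Point) = 0 := rfl

private theorem diffAdd_eqn {K : Type*} [Field K] {a b φ : K} (hφ : φ ≠ 0) {x y : K}
    (h : (crv (a * φ) (b * φ ^ 2)).toAffine.Nonsingular x y) :
    φ * (y / φ ^ 2) ^ 2 = (x / φ) ^ 3 + a * (x / φ) ^ 2 + b * (x / φ) := by
  have h1 := (WeierstrassCurve.Affine.equation_iff ..).mp h.left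
  simp only [crv, WeierstrassCurve.toAffine] at h1
  field_simp
  linear_combination h1

private theorem diffAdd_main {K : Type*} [Field K] [DecidableEq K] (D : K → K) (hD : IsDer D)
    (a b φ : K) (h2 : (2 : K) ≠ 0) (hφ : φ ≠ 0) (hb : b ≠ 0) (hab : a ^ 2 - 4 * b ≠ 0)
    (hDa : D a = 0) (hDb : D b = 0) (P Q : (crv (a * φ) (b * φ ^ 2)).toAffine.Point)
    (x3 y3 : K) (h3 : (crv (a * φ) (b * φ ^ 2)).toAffine.Nonsingular x3 y3)
    (hPQ : P + Q = .some x3 y3 h3) (hy3 : y3 ≠ 0) :
    sD D φ (P + Q) = sD D φ P + sD D φ Q := by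
  cases P with
  | zero =>
    have e : (WeierstrassCurve.Affine.Point.zero : (crv (a * φ) (b * φ ^ 2)).toAffine.Point) = 0 :=
      rfl
    rw [e, zero_add, diffAdd_sD_zero, zero_add]
  | some x1 y1 h1 =>
    cases Q with
    | zero =>
      have e : (WeierstrassCurve.Affine.Point.zero : (crv (a * φ) (b * φ ^ 2)).toAffine.Point) = 0 :=
        rfl
      rw [e, add_zero, diffAdd_sD_zero, add_zero]
    | some x2 y2 h2' =>
      have hE1 := diffAdd_eqn hφ h1
      have hE2 := diffAdd_eqn hφ h2'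
      by_cases hxy : x1 = x2 ∧ y1 = (crv (a * φ) (b * φ ^ 2)).toAffine.negY x2 y2
      · rw [WeierstrassCurve.Affine.Point.add_of_Y_eq hxy.1 hxy.2] at hPQ
        exact absurd hPQ.symm (WeierstrassCurve.Affine.Point.some_ne_zero _)
      · rw [WeierstrassCurve.Affine.Point.add_some hxy] at hPQ
        rw [WeierstrassCurve.Affine.Point.add_some hxy]
        simp only [WeierstrassCurve.Affine.Point.some.injEq] at hPQ
        obtain ⟨hx3, hyy3⟩ := hPQ
        have hφ2 : φ ^ 2 ≠ 0 := pow_ne_zero _ hφ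
        set ℓ := (crv (a * φ) (b * φ ^ 2)).toAffine.slope x1 x2 y1 y2 with hℓ
        have ex : x3 / φ = φ * (ℓ / φ) ^ 2 - a - x1 / φ - x2 / φ := by
          rw [← hx3]
          simp only [WeierstrassCurve.Affine.addX, crv, WeierstrassCurve.toAffine]
          field_simp
          ring
        have ey : y3 / φ ^ 2 = -((ℓ / φ) * (φ * (ℓ / φ) ^ 2 - a - x1 / φ - x2 / φ - x1 / φ)
            + y1 / φ ^ 2) := by
          rw [← hyy3]
          simp only [WeierstrassCurve.Affine.addX, WeierstrassCurve.Affine.addY,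
            WeierstrassCurve.Affine.negAddY, WeierstrassCurve.Affine.negY, crv,
            WeierstrassCurve.toAffine]
          field_simp
          ring
        have hmain : D (φ * (ℓ / φ) ^ 2 - a - x1 / φ - x2 / φ) =
            (D (x1 / φ) / (y1 / φ ^ 2) + D (x2 / φ) / (y2 / φ ^ 2)) *
              (-((ℓ / φ) * (φ * (ℓ / φ) ^ 2 - a - x1 / φ - x2 / φ - x1 / φ) + y1 / φ ^ 2)) := by
          by_cases hx : x1 = x2
          · have hyne : y1 ≠ (crv (a * φ) (b * φ ^ 2)).toAffine.negY x2 y2 := fun h => hxy ⟨hx, h⟩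
            have hyeq : y1 = y2 := WeierstrassCurve.Affine.Y_eq_of_Y_ne h1.left h2'.left hx hyne
            rw [WeierstrassCurve.Affine.slope_of_Y_ne hx hyne] at hℓ
            subst hx
            subst hyeq
            have hy1 : y1 ≠ 0 := by
              intro h0
              apply hyne
              rw [h0]
              simp [WeierstrassCurve.Affine.negY, crv, WeierstrassCurve.toAffine]
            refine diffAdd_dbl hD a b φ hb hab hDa hDb (x1 / φ) (y1 / φ ^ 2) (ℓ / φ) hE1
              (div_ne_zero hy1 hφ2) ?_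
            rw [hℓ]
            simp only [WeierstrassCurve.Affine.negY, crv, WeierstrassCurve.toAffine]
            have h4 : y1 - (-y1 - 0 * x1 - 0) ≠ 0 := by
              have h5 : y1 - (-y1 - 0 * x1 - 0) = 2 * y1 := by ring
              rw [h5]
              exact mul_ne_zero h2 hy1
            have h5 : y1 - (-y1 - 0 * x1 - 0) = 2 * y1 := by ring
            rw [h5]
            field_simp
            ring
          · refine diffAdd_gen hD a b φ hb hab hDa hDb (x1 / φ) (y1 / φ ^ 2) (x2 / φ) (y2 / φ ^ 2)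
              (ℓ / φ) hE1 hE2 ?_ ?_
            · intro h
              apply hx
              rwa [div_left_inj' hφ] at h
            · rw [WeierstrassCurve.Affine.slope_of_X_ne hx] at hℓ
              have hd : x1 - x2 ≠ 0 := sub_ne_zero.mpr hx
              rw [hℓ]
              field_simp
        rw [← ey, ← ex] at hmain
        have hs : ∀ u v : K, D u * φ ^ 2 / v = D u / (v / φ ^ 2) := by
          intro u v
          rw [div_div_eq_mul_div]
        simp only [diffAdd_sD_some]
        rw [hx3, hyy3, hs, hs, hs, hmain, mul_div_assoc, div_self (div_ne_zero hy3 hφ2), mul_one]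

private theorem diffAdd_sD_neg {K : Type*} [Field K] (D : K → K) (φ a b : K)
    (P : (crv a b).toAffine.Point) :
    sD D φ (-P) = - sD D φ P := by
  cases P with
  | zero =>
    have e : (-WeierstrassCurve.Affine.Point.zero : (crv a b).toAffine.Point) = 0 := rfl
    have e' : (WeierstrassCurve.Affine.Point.zero : (crv a b).toAffine.Point) = 0 := rfl
    rw [e, e', diffAdd_sD_zero, neg_zero]
  | some x y h =>
    rw [WeierstrassCurve.Affine.Point.neg_some]
    simp only [diffAdd_sD_some]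
    have e : (crv a b).toAffine.negY x y = -y := by
      simp [WeierstrassCurve.Affine.negY, crv, WeierstrassCurve.toAffine]
    rw [e, div_neg]

private theorem diffAdd_cases {K : Type*} [Field K] (D : K → K) (φ a b : K)
    (P : (crv a b).toAffine.Point) :
    (P = 0 ∧ sD D φ P = 0) ∨ (∃ x y h, P = .some x y h ∧ y = 0 ∧ sD D φ P = 0) ∨
      (∃ x y h, P = .some x y h ∧ y ≠ 0) := by
  cases P with
  | zero => exact Or.inl ⟨rfl, rfl⟩
  | some x y h =>
    by_cases hy : y = 0
    · right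
      left
      refine ⟨x, y, h, rfl, hy, ?_⟩
      rw [diffAdd_sD_some, hy, div_zero]
    · right
      right
      exact ⟨x, y, h, rfl, hy⟩

/-- D2 (additivity of the invariant). -/
theorem sD_add {K : Type*} [Field K] [DecidableEq K] (D : K → K) (hD : IsDer D) (a b φ : K)
    (h2 : (2 : K) ≠ 0) (hφ : φ ≠ 0) (hb : b ≠ 0) (hab : a ^ 2 - 4 * b ≠ 0)
    (hDa : D a = 0) (hDb : D b = 0) (P Q : (crv (a * φ) (b * φ ^ 2)).toAffine.Point) :
    sD D φ (P + Q) = sD D φ P + sD D φ Q := by
  have main := diffAdd_main D hD a b φ h2 hφ hb hab hDa hDb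
  have hneg := diffAdd_sD_neg D φ (a * φ) (b * φ ^ 2)
  rcases diffAdd_cases D φ (a * φ) (b * φ ^ 2) (P + Q) with ⟨h0, -⟩ | ⟨x, y, h, e, -, hT⟩ |
    ⟨x, y, h, e, hy⟩
  · have hQ : Q = -P := (neg_eq_of_add_eq_zero_right h0).symm
    rw [h0, diffAdd_sD_zero, hQ, hneg]
    ring
  · rw [hT]
    have eQ : (P + Q) + (-P) = Q := by abel
    have eP : (P + Q) + (-Q) = P := by abel
    rcases diffAdd_cases D φ (a * φ) (b * φ ^ 2) Q with ⟨hQ0, hQs⟩ | ⟨x', y', h', -, -, hQs⟩ |
      ⟨x', y', h', e', hy'⟩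
    · rw [hQs]
      rw [hQ0, add_zero] at hT
      rw [hT]
      ring
    · rcases diffAdd_cases D φ (a * φ) (b * φ ^ 2) P with ⟨-, hPs⟩ | ⟨x'', y'', h'', -, -, hPs⟩ |
        ⟨x'', y'', h'', e'', hy''⟩
      · rw [hQs, hPs]
        ring
      · rw [hQs, hPs]
        ring
      · have h5 := main (P + Q) (-Q) x'' y'' h'' (by rw [eP, e'']) hy''
        rw [eP, hT, hneg, hQs] at h5
        rw [h5, hQs]
        ring
    · have h5 := main (P + Q) (-P) x' y' h' (by rw [eQ, e']) hy'
      rw [eQ, hT, hneg] at h5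
      rw [h5]
      ring
  · exact main P Q x y h e hy

end SSP
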