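import Pool.Agent.SSP.Defs

set_option autoImplicit false

namespace SSP

open Polynomial

private noncomputable def ratDeriv {k : Type*} [Field k] (r : RatFunc k) : RatFunc k :=
  (algebraMap k[X] (RatFunc k) (derivative r.num) * algebraMap k[X] (RatFunc k) r.denom
    - algebraMap k[X] (RatFunc k) r.num * algebraMap k[X] (RatFunc k) (derivative r.denom))
    / (algebraMap k[X] (RatFunc k) r.denom) ^ 2

private theorem ratDeriv_div {k : Type*} [Field k] (p q : k[X]) (hq : q ≠ 0) :
    ratDeriv (algebraMap k[X] (RatFunc k) p / algebraMap k[X] (RatFunc k) q) =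
      (algebraMap k[X] (RatFunc k) (derivative p) * algebraMap k[X] (RatFunc k) q
        - algebraMap k[X] (RatFunc k) p * algebraMap k[X] (RatFunc k) (derivative q))
        / (algebraMap k[X] (RatFunc k) q) ^ 2 := by
  set r := algebraMap k[X] (RatFunc k) p / algebraMap k[X] (RatFunc k) q with hr
  have hA : Function.Injective (algebraMap k[X] (RatFunc k)) := RatFunc.algebraMap_injective k
  have hq' : algebraMap k[X] (RatFunc k) q ≠ 0 := by
    intro h
    exact hq (hA (by rw [h, map_zero]))
  have hd : r.denom ≠ 0 := RatFunc.denom_ne_zero r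
  have hd' : algebraMap k[X] (RatFunc k) r.denom ≠ 0 := by
    intro h
    exact hd (hA (by rw [h, map_zero]))
  have h1 : r.num * q = p * r.denom := by
    apply hA
    rw [map_mul, map_mul]
    have h := RatFunc.num_div_denom r
    have h3 : algebraMap k[X] (RatFunc k) r.num / algebraMap k[X] (RatFunc k) r.denom
      = algebraMap k[X] (RatFunc k) p / algebraMap k[X] (RatFunc k) q := by rw [h]
    rwa [div_eq_div_iff hd' hq'] at h3
  have h2 : derivative r.num * q + r.num * derivative q
      = derivative p * r.denom + p * derivative r.denom := by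
    have h := congrArg derivative h1
    rwa [derivative_mul, derivative_mul] at h
  have e1 := congrArg (algebraMap k[X] (RatFunc k)) h1
  have e2 := congrArg (algebraMap k[X] (RatFunc k)) h2
  simp only [map_mul, map_add] at e1 e2
  unfold ratDeriv
  rw [div_eq_div_iff (pow_ne_zero _ hd') (pow_ne_zero _ hq')]
  linear_combination (algebraMap k[X] (RatFunc k) r.denom * algebraMap k[X] (RatFunc k) q) * e2
    - (algebraMap k[X] (RatFunc k) (derivative r.denom) * algebraMap k[X] (RatFunc k) q
      + algebraMap k[X] (RatFunc k) (derivative q) * algebraMap k[X] (RatFunc k) r.denom) * e1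

private theorem ratDeriv_poly {k : Type*} [Field k] (p : k[X]) :
    ratDeriv (algebraMap k[X] (RatFunc k) p) = algebraMap k[X] (RatFunc k) (derivative p) := by
  have h := ratDeriv_div p (1 : k[X]) one_ne_zero
  rw [map_one, div_one] at h
  rw [h]
  simp

/-- D1 (the derivation of `k(x)`). -/
theorem exists_deriv (k : Type*) [Field k] :
    ∃ D : RatFunc k → RatFunc k, IsDX D ∧
      ∀ p : k[X], D (algebraMap k[X] (RatFunc k) p) = algebraMap k[X] (RatFunc k) (derivative p) := by
  have hA : Function.Injective (algebraMap k[X] (RatFunc k)) := RatFunc.algebraMap_injective k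
  have key : ∀ x : RatFunc k, ∃ p q : k[X], q ≠ 0 ∧ algebraMap k[X] (RatFunc k) q ≠ 0 ∧
      x = algebraMap k[X] (RatFunc k) p / algebraMap k[X] (RatFunc k) q := by
    intro x
    refine ⟨x.num, x.denom, RatFunc.denom_ne_zero x, ?_, (RatFunc.num_div_denom x).symm⟩
    intro h
    exact RatFunc.denom_ne_zero x (hA (by rw [h, map_zero]))
  refine ⟨ratDeriv, ?_, ratDeriv_poly⟩
  refine { add := ?_, mul := ?_, X := ?_, C := ?_ }
  · intro x y
    obtain ⟨p, q, hq, hq', rfl⟩ := key x
    obtain ⟨r, s, hs, hs', rfl⟩ := key y
    have e : algebraMap k[X] (RatFunc k) p / algebraMap k[X] (RatFunc k) q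
        + algebraMap k[X] (RatFunc k) r / algebraMap k[X] (RatFunc k) s
        = algebraMap k[X] (RatFunc k) (p * s + q * r) / algebraMap k[X] (RatFunc k) (q * s) := by
      rw [map_add, map_mul, map_mul, map_mul, div_add_div _ _ hq' hs']
    rw [e, ratDeriv_div _ _ (mul_ne_zero hq hs), ratDeriv_div _ _ hq, ratDeriv_div _ _ hs]
    simp only [derivative_mul, map_mul, map_add]
    field_simp
    ring
  · intro x y
    obtain ⟨p, q, hq, hq', rfl⟩ := key x
    obtain ⟨r, s, hs, hs', rfl⟩ := key y
    have e : algebraMap k[X] (RatFunc k) p / algebraMap k[X] (RatFunc k) q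
        * (algebraMap k[X] (RatFunc k) r / algebraMap k[X] (RatFunc k) s)
        = algebraMap k[X] (RatFunc k) (p * r) / algebraMap k[X] (RatFunc k) (q * s) := by
      rw [map_mul, map_mul, div_mul_div_comm]
    rw [e, ratDeriv_div _ _ (mul_ne_zero hq hs), ratDeriv_div _ _ hq, ratDeriv_div _ _ hs]
    simp only [derivative_mul, map_mul, map_add]
    field_simp
    ring
  · rw [← RatFunc.algebraMap_X, ratDeriv_poly, derivative_X, map_one]
  · intro c
    rw [← RatFunc.algebraMap_C, ratDeriv_poly, derivative_C, map_zero]

end SSP
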