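import Pool.Agent.SSP.Defs
import Pool.Agent.SSP.LadderPoint
import Pool.Agent.SSP.LadderBasic
import Pool.Agent.SSP.LadderDegree
import Pool.Agent.SSP.RatDeriv
import Pool.Agent.SSP.DiffAdd

set_option autoImplicit false

namespace SSP

open Polynomial WeierstrassCurve

private theorem ode_crv_equation {F : Type*} [Field F] {a b x y : F}
    (h : (crv a b).toAffine.Nonsingular x y) : y ^ 2 = x ^ 3 + a * x ^ 2 + b * x := by
  have h1 := ((crv a b).toAffine.nonsingular_iff' x y).mp h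
  have h2 := ((crv a b).toAffine.equation_iff x y).mp h1.1
  simp only [crv] at h2
  linear_combination h2

/-- the generic point -/
private theorem ode_gen {K : Type*} [Field K] (l x φ : K) (h2 : (2 : K) ≠ 0) (hφ : φ ≠ 0)
    (hf : φ = x * (x - 1) * (x - l)) :
    (crv (-(1 + l) * φ) (l * φ ^ 2)).toAffine.Nonsingular (φ * x) (φ ^ 2) := by
  rw [Affine.nonsingular_iff', Affine.equation_iff]
  constructor
  · simp only [crv]
    linear_combination φ ^ 3 * hf
  · right
    simp only [crv]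
    have : 2 * φ ^ 2 + 0 * (φ * x) + 0 = 2 * φ ^ 2 := by ring
    rw [this]
    exact mul_ne_zero h2 (pow_ne_zero 2 hφ)

private theorem der_zero {K : Type*} [Field K] {D : K → K} (hD : IsDer D) : D 0 = 0 := by
  have h := hD.add 0 0
  rw [add_zero] at h
  exact (add_eq_left.mp h.symm)

private theorem der_one {K : Type*} [Field K] {D : K → K} (hD : IsDer D) : D 1 = 0 := by
  have h := hD.mul 1 1
  rw [one_mul, one_mul] at h
  exact (add_eq_left.mp h.symm)

/-- the core statement in a field with a derivation -/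
private theorem ode_core {K : Type*} [Field K] [DecidableEq K] (D : K → K) (hD : IsDer D)
    (l x φ : K) (h2 : (2 : K) ≠ 0) (hl0 : l ≠ 0) (hl1 : l ≠ 1) (hφ : φ ≠ 0)
    (hf : φ = x * (x - 1) * (x - l)) (hDx : D x = 1) (hDl : D l = 0) (n : ℕ) (A B : K)
    (hAB : xl l x n = (A, B)) :
    φ * (D A * B - A * D B) ^ 2 = (n : K) ^ 2 * (B * A * (A - B) * (A - l * B)) := by
  have hD1 : D 1 = 0 := der_one hD
  have hD0 : D 0 = 0 := der_zero hD
  have hDa : D (-(1 + l)) = 0 := by
    have h := hD.add (-(1 + l)) (1 + l)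
    rw [neg_add_cancel, hD0, hD.add 1 l, hD1, hDl] at h
    rw [add_zero, add_zero] at h
    exact h.symm
  have hab : (-(1 + l)) ^ 2 - 4 * l ≠ 0 := by
    have : (-(1 + l)) ^ 2 - 4 * l = (l - 1) ^ 2 := by ring
    rw [this]
    exact pow_ne_zero 2 (sub_ne_zero.mpr hl1)
  have hns := ode_gen l x φ h2 hφ hf
  set P : (crv (-(1 + l) * φ) (l * φ ^ 2)).toAffine.Point := Affine.Point.some _ _ hns with hP
  have hs1 : sD D φ P = 1 := by
    simp only [hP, sD]
    rw [mul_div_cancel_left₀ x hφ, hDx, one_mul, div_self (pow_ne_zero 2 hφ)]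
  have hs : ∀ m : ℕ, sD D φ (m • P) = m := by
    intro m
    induction m with
    | zero => simp [sD, Affine.Point.zero_def]
    | succ m ih =>
      rw [succ_nsmul, sD_add D hD _ _ φ h2 hφ hl0 hab hDa hDl, ih, hs1]
      push_cast
      ring
  have hP0 : P ≠ 0 := by
    rw [hP]
    exact Affine.Point.some_ne_zero _
  have hb' : l * φ ^ 2 ≠ 0 := mul_ne_zero hl0 (pow_ne_zero 2 hφ)
  have hab' : (-(1 + l) * φ) ^ 2 - 4 * (l * φ ^ 2) ≠ 0 := by
    have : (-(1 + l) * φ) ^ 2 - 4 * (l * φ ^ 2) = φ ^ 2 * ((-(1 + l)) ^ 2 - 4 * l) := by ring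
    rw [this]
    exact mul_ne_zero (pow_ne_zero 2 hφ) hab
  obtain ⟨κ, hκ, hx⟩ := xd_point (-(1 + l) * φ) (l * φ ^ 2) h2 hb' hab' P hP0 n
  have hsc := xd_scale φ (-4 * (1 + l)) (2 * l) (-l ^ 2) x n
  have hxl : xd (-4 * (1 + l)) (2 * l) (-l ^ 2) x n = (A, B) := hAB
  rw [hxl] at hsc
  have hx0 : P.xRep 0 = φ * x := by rw [hP]; simp
  have e1 : φ * (-4 * (1 + l)) = 4 * (-(1 + l) * φ) := by ring
  have e2 : φ ^ 2 * (2 * l) = 2 * (l * φ ^ 2) := by ring
  have e3 : φ ^ 4 * (-l ^ 2) = -(l * φ ^ 2) ^ 2 := by ring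
  rw [hx0, ← e1, ← e2, ← e3, hsc] at hx
  have hxA : φ ^ (n ^ 2) * A = κ * (n • P).xRep 0 := congrArg Prod.fst hx
  have hxB : φ ^ (n ^ 2 - 1) * B = κ * (n • P).xRep 1 := congrArg Prod.snd hx
  clear hx hsc
  have hsn := hs n
  rcases hQ : n • P with _ | ⟨X1, Y1, h1⟩
  · -- the multiple is zero
    rw [hQ] at hxB
    have hz : (Affine.Point.zero : (crv (-(1 + l) * φ) (l * φ ^ 2)).toAffine.Point).xRep 1 = 0 :=
      rfl
    rw [hz, mul_zero] at hxB
    have hB : B = 0 := (mul_eq_zero.mp hxB).resolve_left (pow_ne_zero _ hφ)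
    rw [hB, hD0]
    ring
  · rw [hQ] at hxA hxB hsn
    have hn : n ≠ 0 := by
      intro hn
      rw [hn, zero_nsmul] at hQ
      exact Affine.Point.some_ne_zero h1 hQ.symm
    simp only [Affine.Point.xRep_some, Matrix.cons_val_zero, Matrix.cons_val_one, mul_one]
      at hxA hxB
    have hB : B ≠ 0 := by
      intro hB
      rw [hB, mul_zero] at hxB
      exact hκ hxB.symm
    have hpow : φ ^ (n ^ 2) = φ ^ (n ^ 2 - 1) * φ := by
      rw [← pow_succ]
      congr 1
      have : 1 ≤ n ^ 2 := Nat.one_le_pow _ _ (Nat.pos_of_ne_zero hn)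
      omega
    have hX1 : X1 = φ * (A / B) := by
      rw [← hxB, hpow] at hxA
      have hne : φ ^ (n ^ 2 - 1) ≠ 0 := pow_ne_zero _ hφ
      have h3 : φ ^ (n ^ 2 - 1) * (φ * A) = φ ^ (n ^ 2 - 1) * (B * X1) := by
        rw [← mul_assoc, ← mul_assoc]; exact hxA
      have h4 := mul_left_cancel₀ hne h3
      field_simp
      rw [h4]
      ring
    have hY := ode_crv_equation h1
    set r : K := A / B with hr
    have hrB : r * B = A := div_mul_cancel₀ A hB
    have hDr : D r * B ^ 2 = D A * B - A * D B := by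
      have h5 := hD.mul r B
      rw [hrB] at h5
      rw [h5, ← hrB]
      ring
    have hYr : Y1 ^ 2 = φ ^ 3 * (r * (r - 1) * (r - l)) := by
      rw [hY, hX1]
      ring
    have hkey : φ * D r ^ 2 = (n : K) ^ 2 * (r * (r - 1) * (r - l)) := by
      by_cases hY0 : Y1 = 0
      · have h6 : r * (r - 1) * (r - l) = 0 := by
          rw [hY0] at hYr
          have h7 : φ ^ 3 * (r * (r - 1) * (r - l)) = 0 := by rw [← hYr]; ring
          exact (mul_eq_zero.mp h7).resolve_left (pow_ne_zero 3 hφ)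
        have hDr0 : D r = 0 := by
          rcases mul_eq_zero.mp h6 with h7 | h7
          · rcases mul_eq_zero.mp h7 with h8 | h8
            · rw [h8, hD0]
            · rw [sub_eq_zero.mp h8, hD1]
          · rw [sub_eq_zero.mp h7, hDl]
        rw [h6, hDr0]
        ring
      · simp only [sD] at hsn
        rw [hX1, mul_div_cancel_left₀ r hφ] at hsn
        have h8 : D r * φ ^ 2 = n * Y1 := by
          rw [← hsn]
          field_simp
        have h9 : φ ^ 3 * (φ * D r ^ 2) = φ ^ 3 * ((n : K) ^ 2 * (r * (r - 1) * (r - l))) := by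
          have h10 : (D r * φ ^ 2) ^ 2 = (n * Y1) ^ 2 := by rw [h8]
          linear_combination h10 + (n : K) ^ 2 * hYr
        exact mul_left_cancel₀ (pow_ne_zero 3 hφ) h9
    rw [← hDr, ← hrB]
    linear_combination B ^ 4 * hkey

/-- D3 (differential equation of the ladder). -/
theorem ladder_ode {k : Type*} [Field k] (l : k) (h2 : (2 : k) ≠ 0) (hl0 : l ≠ 0) (hl1 : l ≠ 1)
    (n : ℕ) :
    (X * (X - 1) * (X - C l)) *
        (derivative (Apol l n) * Bpol l n - Apol l n * derivative (Bpol l n)) ^ 2 =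
      (n : k[X]) ^ 2 * (Bpol l n * Apol l n * (Apol l n - Bpol l n) * (Apol l n - C l * Bpol l n)) := by
  classical
  obtain ⟨D, hDX, hDp⟩ := exists_deriv k
  set ι : k[X] →+* RatFunc k := algebraMap k[X] (RatFunc k) with hι
  have hinj : Function.Injective ι := RatFunc.algebraMap_injective k
  have hmap := xd_map ι (-4 * (1 + C l)) (2 * C l) (-(C l) ^ 2) (X : k[X]) n
  have hX : ι X = RatFunc.X := RatFunc.algebraMap_X
  have hC : ∀ c : k, ι (C c) = RatFunc.C c := fun c => RatFunc.algebraMap_C c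
  have hAB : xl (RatFunc.C l) (RatFunc.X : RatFunc k) n = (ι (Apol l n), ι (Bpol l n)) := by
    have h1 : ι (-4 * (1 + C l)) = -4 * (1 + RatFunc.C l) := by
      rw [map_mul, map_neg, map_add, map_one, hC, map_ofNat]
    have h3 : ι (2 * C l) = 2 * RatFunc.C l := by
      rw [map_mul, hC, map_ofNat]
    have h4 : ι (-(C l) ^ 2) = -(RatFunc.C l) ^ 2 := by
      rw [map_neg, map_pow, hC]
    rw [h1, h3, h4, hX] at hmap
    exact hmap
  have hinjC : Function.Injective (RatFunc.C : k →+* RatFunc k) := RatFunc.C_injective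
  have h2' : (2 : RatFunc k) ≠ 0 := by
    have : (2 : RatFunc k) = RatFunc.C 2 := (map_ofNat (RatFunc.C : k →+* RatFunc k) 2).symm
    rw [this]
    intro h
    exact h2 (hinjC (by rw [h, map_zero]))
  have hl0' : (RatFunc.C l : RatFunc k) ≠ 0 := by
    intro h
    exact hl0 (hinjC (by rw [h, map_zero]))
  have hl1' : (RatFunc.C l : RatFunc k) ≠ 1 := by
    intro h
    exact hl1 (hinjC (by rw [h, map_one]))
  have hφ : ι (X * (X - 1) * (X - C l)) ≠ 0 := by
    intro h
    have h3 : (X * (X - 1) * (X - C l) : k[X]) = 0 := hinj (by rw [h, map_zero])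
    have h4 : (X : k[X]) ≠ 0 := X_ne_zero
    have h5 : (X - 1 : k[X]) ≠ 0 := X_sub_C_ne_zero 1
    have h6 : (X - C l : k[X]) ≠ 0 := X_sub_C_ne_zero l
    exact mul_ne_zero (mul_ne_zero h4 h5) h6 h3
  have hφe : ι (X * (X - 1) * (X - C l)) =
      RatFunc.X * (RatFunc.X - 1) * (RatFunc.X - RatFunc.C l) := by
    rw [map_mul, map_mul, map_sub, map_sub, map_one, hX, hC]
  have hcore := ode_core D hDX.toIsDer (RatFunc.C l) RatFunc.X _ h2' hl0' hl1' hφ hφe hDX.X
    (hDX.C l) n _ _ hAB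
  rw [hDp, hDp] at hcore
  apply hinj
  simp only [map_mul, map_pow, map_sub, map_natCast, hC, map_one] at hcore ⊢
  exact hcore

end SSP
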