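import Pool.Agent.SSP.Defs
import Pool.Agent.SSP.LadderPoint
import Pool.Agent.SSP.LadderBasic
import Pool.Agent.SSP.LadderDegree
import Pool.Agent.SSP.Ode

set_option autoImplicit false

namespace SSP

open Polynomial

theorem tor_eval {F : Type*} [Field F] (l : F) (n : ℕ) (t : F) :
    (Apol l n).eval t = (xl l t n).1 ∧ (Bpol l n).eval t = (xl l t n).2 := by
  have h := xd_map (evalRingHom t) (-4 * (1 + C l)) (2 * C l) (-(C l) ^ 2) X n
  have e1 : evalRingHom t (-4 * (1 + C l)) = -4 * (1 + l) := by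
    simp
  have e2 : evalRingHom t (2 * C l) = 2 * l := by simp
  have e3 : evalRingHom t (-(C l) ^ 2) = -l ^ 2 := by simp
  have e4 : evalRingHom t X = t := by simp
  rw [e1, e2, e3, e4] at h
  unfold Apol Bpol xl
  rw [h]
  simp

theorem tor_C {F : Type*} [Field F] (l : F) (n : ℕ) :
    xl (C l) (X : F[X]) n = xd (C (-4 * (1 + l))) (C (2 * l)) (C (-l ^ 2)) (X : F[X]) n := by
  unfold xl
  have e4 : (C (4 : F) : F[X]) = 4 := map_ofNat C 4
  have e2 : (C (2 : F) : F[X]) = 2 := map_ofNat C 2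
  simp [map_mul, map_add, map_neg, map_pow, e4, e2]

theorem tor_xRep_one {F : Type*} [Field F] [DecidableEq F] {W : WeierstrassCurve.Affine F}
    (P : W.Point) : P.xRep 1 = 0 ↔ P = 0 := by
  rcases P with _ | ⟨x, y, h⟩
  · change ((0 : W.Point)).xRep 1 = 0 ↔ (0 : W.Point) = 0
    simp [WeierstrassCurve.Affine.Point.xRep_zero]
  · simp [WeierstrassCurve.Affine.Point.xRep_some]

theorem tor_root {F : Type*} [Field F] [DecidableEq F] (l : F)
    (h2 : (2 : F) ≠ 0) (hl0 : l ≠ 0) (hl1 : l ≠ 1) (n : ℕ)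
    (P : (crv (-(1 + l)) l).toAffine.Point) (hP : P ≠ 0) :
    ∃ κ : F, κ ≠ 0 ∧ (Apol l n).eval (P.xRep 0) = κ * (n • P).xRep 0 ∧
      (Bpol l n).eval (P.xRep 0) = κ * (n • P).xRep 1 := by
  have hab : (-(1 + l)) ^ 2 - 4 * l ≠ 0 := by
    have : (-(1 + l)) ^ 2 - 4 * l = (1 - l) ^ 2 := by ring
    rw [this]
    exact pow_ne_zero 2 (sub_ne_zero.mpr (Ne.symm hl1))
  obtain ⟨κ, hκ, h⟩ := xd_point (-(1 + l)) l h2 hl0 hab P hP n
  refine ⟨κ, hκ, ?_⟩
  rw [(tor_eval l n _).1, (tor_eval l n _).2]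
  unfold xl
  have e : -4 * (1 + l) = 4 * (-(1 + l)) := by ring
  rw [e, h]
  simp

theorem tor_root_iff {F : Type*} [Field F] [DecidableEq F] (l : F)
    (h2 : (2 : F) ≠ 0) (hl0 : l ≠ 0) (hl1 : l ≠ 1) (n : ℕ)
    (P : (crv (-(1 + l)) l).toAffine.Point) (hP : P ≠ 0) :
    (Bpol l n).eval (P.xRep 0) = 0 ↔ n • P = 0 := by
  obtain ⟨κ, hκ, -, h⟩ := tor_root l h2 hl0 hl1 n P hP
  rw [h, mul_eq_zero, or_iff_right hκ, tor_xRep_one]

theorem tor_delta {F : Type*} [Field F] (l : F)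
    (h2 : (2 : F) ≠ 0) (hl0 : l ≠ 0) (hl1 : l ≠ 1) :
    (crv (-(1 + l)) l).toAffine.Δ ≠ 0 := by
  have e : (crv (-(1 + l)) l).toAffine.Δ = 2 ^ 4 * l ^ 2 * (1 - l) ^ 2 := by
    simp only [WeierstrassCurve.Δ, WeierstrassCurve.b₂, WeierstrassCurve.b₄, WeierstrassCurve.b₆,
      WeierstrassCurve.b₈, crv]
    ring
  rw [e]
  exact mul_ne_zero (mul_ne_zero (pow_ne_zero _ h2) (pow_ne_zero _ hl0))
    (pow_ne_zero 2 (sub_ne_zero.mpr (Ne.symm hl1)))

theorem tor_exists {F : Type*} [Field F] [IsAlgClosed F] [DecidableEq F] (l : F)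
    (h2 : (2 : F) ≠ 0) (hl0 : l ≠ 0) (hl1 : l ≠ 1) (t : F) :
    ∃ P : (crv (-(1 + l)) l).toAffine.Point, P ≠ 0 ∧ P.xRep 0 = t := by
  obtain ⟨y, hy⟩ := IsAlgClosed.exists_eq_mul_self (t ^ 3 + (-(1 + l)) * t ^ 2 + l * t)
  have heq : (crv (-(1 + l)) l).toAffine.Equation t y := by
    rw [WeierstrassCurve.Affine.equation_iff]
    simp only [crv]
    rw [show y ^ 2 = y * y by ring, ← hy]
    ring
  have hns := (WeierstrassCurve.Affine.equation_iff_nonsingular_of_Δ_ne_zero
    (tor_delta l h2 hl0 hl1)).mp heq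
  exact ⟨.some t y hns, by simp, by simp [WeierstrassCurve.Affine.Point.xRep_some]⟩

/-- a point of odd order dividing `ell` and order dividing two is zero -/
theorem tor_odd {G : Type*} [AddCommGroup G] (ell : ℕ) (hodd : Odd ell) (P : G)
    (h2 : 2 • P = 0) (hl : ell • P = 0) : P = 0 := by
  obtain ⟨m, rfl⟩ := hodd
  rw [add_smul, mul_comm, mul_smul, h2, smul_zero, zero_add, one_smul] at hl
  exact hl

/-- a point with `x`-coordinate `0`, `1` or `l` has order dividing two -/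
theorem tor_two {F : Type*} [Field F] [DecidableEq F] (l : F)
    (P : (crv (-(1 + l)) l).toAffine.Point)
    (h : P.xRep 0 * (P.xRep 0 - 1) * (P.xRep 0 - l) = 0) : 2 • P = 0 := by
  rcases P with _ | ⟨x, y, hP⟩
  · change 2 • (0 : (crv (-(1 + l)) l).toAffine.Point) = 0
    exact smul_zero 2
  · rw [WeierstrassCurve.Affine.Point.xRep_some] at h
    simp only [Matrix.cons_val_zero] at h
    have heq := hP.1
    rw [WeierstrassCurve.Affine.equation_iff] at heq
    simp only [crv] at heq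
    have hy : y ^ 2 = 0 := by
      have : x ^ 3 + -(1 + l) * x ^ 2 + l * x = x * (x - 1) * (x - l) := by ring
      linear_combination heq + h
    have hy0 : y = 0 := by simpa using hy
    subst hy0
    rw [two_smul]
    rw [add_eq_zero_iff_eq_neg, WeierstrassCurve.Affine.Point.neg_some]
    simp [WeierstrassCurve.Affine.negY, crv]

theorem tor_mem {F : Type*} [Field F] (l : F) (ell : ℕ) (t : F) :
    t ∈ rts l ell ↔ t ∈ (Bpol l ell).roots := by
  classical
  unfold rts
  exact Multiset.mem_toFinset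

/-- the square root of the denominator and its separability -/
theorem tor_sqrt {F : Type*} [Field F] [IsAlgClosed F] [DecidableEq F] (l : F)
    (h2 : (2 : F) ≠ 0) (hl0 : l ≠ 0) (hl1 : l ≠ 1) (ell : ℕ) (hodd : Odd ell)
    (hell : (ell : F) ≠ 0) :
    ∃ d : F[X], d ≠ 0 ∧ Bpol l ell = d ^ 2 ∧ d.natDegree = (ell ^ 2 - 1) / 2 ∧ d.roots.Nodup ∧
      ∀ t, d.IsRoot t → t ≠ 0 ∧ t ≠ 1 ∧ t ≠ l := by
  obtain ⟨m, hm⟩ := hodd
  obtain ⟨d, hd1, hd2, hd3⟩ := xd_sqrt (-4 * (1 + l)) (2 * l) (-l ^ 2) m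
  rw [← hm] at hd1 hd2 hd3
  have hc : (2 * m + 1 : F) = (ell : F) := by
    rw [hm]; push_cast; ring
  rw [hc] at hd3
  have hB : Bpol l ell = d ^ 2 := by
    unfold Bpol
    rw [tor_C]
    exact hd1
  have hd0 : d ≠ 0 := by
    rintro rfl
    rw [coeff_zero] at hd3
    exact hell hd3.symm
  have hdeg : d.natDegree = (ell ^ 2 - 1) / 2 := by
    refine le_antisymm hd2 (le_natDegree_of_ne_zero ?_)
    rw [hd3]; exact hell
  -- a root of `d`
  have hroot : ∀ t, d.IsRoot t → ∃ P : (crv (-(1 + l)) l).toAffine.Point, P ≠ 0 ∧ P.xRep 0 = t ∧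
      ell • P = 0 := by
    intro t ht
    obtain ⟨P, hP, hPt⟩ := tor_exists l h2 hl0 hl1 t
    refine ⟨P, hP, hPt, ?_⟩
    rw [← tor_root_iff l h2 hl0 hl1 ell P hP, hPt, hB, eval_pow, ht.eq_zero]
    simp
  have hf : ∀ t, d.IsRoot t → t * (t - 1) * (t - l) ≠ 0 := by
    intro t ht h0
    obtain ⟨P, hP, hPt, hPl⟩ := hroot t ht
    rw [← hPt] at h0
    exact hP (tor_odd ell ⟨m, hm⟩ P (tor_two l P h0) hPl)
  have hA : ∀ t, d.IsRoot t → (Apol l ell).eval t ≠ 0 := by
    intro t ht h0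
    obtain ⟨P, hP, hPt, hPl⟩ := hroot t ht
    obtain ⟨κ, hκ, h1, h3⟩ := tor_root l h2 hl0 hl1 ell P hP
    rw [hPt, h0, hPl, WeierstrassCurve.Affine.Point.xRep_zero] at h1
    simp at h1
    exact hκ h1.symm
  -- the differential equation with `d ^ 2` cancelled
  have hode : (X * (X - 1) * (X - C l)) *
        (derivative (Apol l ell) * d - 2 * Apol l ell * derivative d) ^ 2 =
      (ell : F[X]) ^ 2 * (Apol l ell * (Apol l ell - d ^ 2) * (Apol l ell - C l * d ^ 2)) := by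
    have h := ladder_ode l h2 hl0 hl1 ell
    rw [hB, derivative_pow] at h
    have hd2 : d ^ 2 ≠ 0 := pow_ne_zero 2 hd0
    apply mul_left_cancel₀ hd2
    rw [show (2 : ℕ) - 1 = 1 from rfl, pow_one, Nat.cast_two, show (C (2 : F) : F[X]) = 2 from map_ofNat C 2] at h
    linear_combination h
  have hsimple : ∀ t, d.IsRoot t → ¬ (derivative d).IsRoot t := by
    intro t ht hd'
    have h := congrArg (eval t) hode
    simp only [eval_mul, eval_pow, eval_sub, eval_X, eval_one, eval_C, eval_natCast] at h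
    rw [ht.eq_zero, hd'.eq_zero] at h
    have h' : (ell : F) ^ 2 * (Apol l ell).eval t ^ 3 = 0 := by
      linear_combination -h
    rcases mul_eq_zero.mp h' with h'' | h''
    · exact hell (by simpa using h'')
    · exact hA t ht (by simpa using h'')
  refine ⟨d, hd0, hB, hdeg, ?_, ?_⟩
  · rw [Multiset.nodup_iff_count_le_one]
    intro t
    rw [count_roots]
    by_contra hlt
    push Not at hlt
    have := (one_lt_rootMultiplicity_iff_isRoot hd0).mp hlt
    exact hsimple t this.1 this.2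
  · intro t ht
    have h := hf t ht
    refine ⟨?_, ?_, ?_⟩
    · rintro rfl; simp at h
    · rintro rfl; simp at h
    · rintro rfl; simp at h

variable {F : Type*} [Field F] [IsAlgClosed F] [DecidableEq F] (l : F)

/-- T1 (roots of `B_ell`). -/
theorem rts_card (h2 : (2 : F) ≠ 0) (hl0 : l ≠ 0) (hl1 : l ≠ 1) (ell : ℕ) (hodd : Odd ell)
    (hell : (ell : F) ≠ 0) :
    (rts l ell).card = (ell ^ 2 - 1) / 2 ∧ ∀ t ∈ rts l ell, t ≠ 0 ∧ t ≠ 1 ∧ t ≠ l := by
  obtain ⟨d, hd0, hB, hdeg, hnd, hf⟩ := tor_sqrt l h2 hl0 hl1 ell hodd hell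
  have hmem : ∀ t, t ∈ rts l ell ↔ t ∈ d.roots := by
    intro t
    rw [tor_mem, hB, mem_roots (pow_ne_zero 2 hd0), mem_roots hd0, IsRoot.def,
      IsRoot.def, eval_pow]
    simp
  constructor
  · have e : rts l ell = ⟨d.roots, hnd⟩ := by
      ext t
      rw [hmem]
      rfl
    rw [e, Finset.card_mk, ← hdeg]
    exact IsAlgClosed.card_roots_eq_natDegree
  · intro t ht
    exact hf t ((mem_roots hd0).mp ((hmem t).mp ht))

/-- T2 (roots are x-coordinates of torsion points). -/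
theorem mem_rts (h2 : (2 : F) ≠ 0) (hl0 : l ≠ 0) (hl1 : l ≠ 1) (ell : ℕ) (hodd : Odd ell)
    (hell : (ell : F) ≠ 0) (t : F) :
    t ∈ rts l ell ↔ ∃ Q : (crv (-(1 + l)) l).toAffine.Point, Q ≠ 0 ∧ ell • Q = 0 ∧ Q.xRep 0 = t := by
  obtain ⟨d, hd0, hB, hdeg, hnd, hf⟩ := tor_sqrt l h2 hl0 hl1 ell hodd hell
  have hB0 : Bpol l ell ≠ 0 := by rw [hB]; exact pow_ne_zero 2 hd0
  have hmem : t ∈ rts l ell ↔ (Bpol l ell).eval t = 0 := by
    rw [tor_mem, mem_roots hB0, IsRoot.def]
  rw [hmem]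
  constructor
  · intro h
    obtain ⟨P, hP, hPt⟩ := tor_exists l h2 hl0 hl1 t
    refine ⟨P, hP, ?_, hPt⟩
    rw [← tor_root_iff l h2 hl0 hl1 ell P hP, hPt]
    exact h
  · rintro ⟨Q, hQ, hlQ, rfl⟩
    exact (tor_root_iff l h2 hl0 hl1 ell Q hQ).mpr hlQ

/-- T3 (number of torsion points). -/
theorem card_torsion (h2 : (2 : F) ≠ 0) (hl0 : l ≠ 0) (hl1 : l ≠ 1) (ell : ℕ) (hodd : Odd ell)
    (hell : (ell : F) ≠ 0) :
    Nat.card {Q : (crv (-(1 + l)) l).toAffine.Point // ell • Q = 0} = ell ^ 2 := by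
  have hch : ∀ t : rts l ell, ∃ Q : (crv (-(1 + l)) l).toAffine.Point,
      Q ≠ 0 ∧ ell • Q = 0 ∧ Q.xRep 0 = t := fun t =>
    (mem_rts l h2 hl0 hl1 ell hodd hell t).mp t.2
  choose q hq0 hql hqx using hch
  have hneg : ∀ t, q t ≠ -q t := by
    intro t h
    apply hq0 t
    apply tor_odd ell hodd _ _ (hql t)
    rw [two_smul]
    nth_rewrite 2 [h]
    exact add_neg_cancel _
  let f : Option (rts l ell × Bool) → {Q : (crv (-(1 + l)) l).toAffine.Point // ell • Q = 0} :=
    fun o => match o with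
      | none => ⟨0, smul_zero _⟩
      | some (t, true) => ⟨q t, hql t⟩
      | some (t, false) => ⟨-q t, by rw [smul_neg, hql t, neg_zero]⟩
  have hx1 : ∀ Q : (crv (-(1 + l)) l).toAffine.Point, Q ≠ 0 → Q.xRep 1 = 1 := by
    intro Q hQ
    rcases Q with _ | ⟨x, y, h⟩
    · exact absurd rfl hQ
    · simp [WeierstrassCurve.Affine.Point.xRep_some]
  have hrep : ∀ Q R : (crv (-(1 + l)) l).toAffine.Point, Q ≠ 0 → R ≠ 0 → Q.xRep 0 = R.xRep 0 →
      Q = R ∨ Q = -R := by
    intro Q R hQ hR h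
    apply WeierstrassCurve.Affine.Point.xRep_eq_xRep_iff.mp
    funext i
    fin_cases i
    · exact h
    · change Q.xRep 1 = R.xRep 1
      rw [hx1 Q hQ, hx1 R hR]
  have hbij : Function.Bijective f := by
    constructor
    · intro o o' h
      have h' := congrArg Subtype.val h
      match o, o' with
      | none, none => rfl
      | none, some (t, true) => exact absurd h'.symm (hq0 t)
      | none, some (t, false) => exact absurd h'.symm (neg_ne_zero.mpr (hq0 t))
      | some (t, true), none => exact absurd h' (hq0 t)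
      | some (t, false), none => exact absurd h' (neg_ne_zero.mpr (hq0 t))
      | some (t, true), some (s, true) =>
        have hts : t = s := Subtype.ext (by rw [← hqx t, ← hqx s]; exact congrArg (fun Q => Q.xRep 0) h')
        rw [hts]
      | some (t, true), some (s, false) =>
        have hts : t = s := Subtype.ext (by
          rw [← hqx t, ← hqx s, ← WeierstrassCurve.Affine.Point.xRep_neg (q s)]
          exact congrArg (fun Q => Q.xRep 0) h')
        subst hts
        exact absurd h' (hneg t)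
      | some (t, false), some (s, true) =>
        have hts : t = s := Subtype.ext (by
          rw [← hqx t, ← hqx s, ← WeierstrassCurve.Affine.Point.xRep_neg (q t)]
          exact congrArg (fun Q => Q.xRep 0) h')
        subst hts
        exact absurd h'.symm (hneg t)
      | some (t, false), some (s, false) =>
        have hts : t = s := Subtype.ext (by
          rw [← hqx t, ← hqx s, ← WeierstrassCurve.Affine.Point.xRep_neg (q s),
            ← WeierstrassCurve.Affine.Point.xRep_neg (q t)]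
          exact congrArg (fun Q => Q.xRep 0) h')
        rw [hts]
    · rintro ⟨Q, hQ⟩
      by_cases hQ0 : Q = 0
      · exact ⟨none, Subtype.ext hQ0.symm⟩
      · have ht : Q.xRep 0 ∈ rts l ell :=
          (mem_rts l h2 hl0 hl1 ell hodd hell _).mpr ⟨Q, hQ0, hQ, rfl⟩
        rcases hrep Q (q ⟨_, ht⟩) hQ0 (hq0 _) (hqx ⟨_, ht⟩).symm with h | h
        · exact ⟨some (⟨_, ht⟩, true), Subtype.ext h.symm⟩
        · exact ⟨some (⟨_, ht⟩, false), Subtype.ext h.symm⟩
  rw [← Nat.card_congr (Equiv.ofBijective f hbij), Nat.card_eq_fintype_card, Fintype.card_option,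
    Fintype.card_prod, Fintype.card_bool, Fintype.card_coe,
    (rts_card l h2 hl0 hl1 ell hodd hell).1]
  obtain ⟨m, rfl⟩ := hodd
  have : (2 * m + 1) ^ 2 - 1 = 2 * (2 * m ^ 2 + 2 * m) := by
    have : (2 * m + 1) ^ 2 = 2 * (2 * m ^ 2 + 2 * m) + 1 := by ring
    omega
  rw [this, Nat.mul_div_cancel_left _ (by norm_num)]
  ring

end SSP
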