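import Pool.Agent.SSP.Defs
import Pool.Agent.SSP.LadderPoint
import Pool.Agent.SSP.LadderBasic
import Pool.Agent.SSP.Torsion

set_option autoImplicit false

namespace SSP

open Polynomial

private theorem XXIff_xRep_one {F : Type*} [Field F] (a b : F)
    (P : (crv a b).toAffine.Point) (hP : P ≠ 0) : P.xRep 1 = 1 := by
  cases P with
  | zero => exact absurd rfl hP
  | some x y h => simp [WeierstrassCurve.Affine.Point.xRep_some]

private theorem XXIff_xRep_neg {F : Type*} [Field F] (a b : F)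
    (P : (crv a b).toAffine.Point) : (-P).xRep 0 = P.xRep 0 := by
  cases P with
  | zero => rfl
  | some x y h =>
    rw [WeierstrassCurve.Affine.Point.neg_some]
    simp [WeierstrassCurve.Affine.Point.xRep_some]

open Classical in
private theorem XXIff_mem_XX {F : Type*} [Field F] (l : F) (ell : ℕ) (S : Finset F) :
    S ∈ XX l ell ↔ ∃ t ∈ rts l ell, Sx l ell t = S := by
  unfold XX
  rw [Finset.mem_image]

/-- nonzero multiples of a point of prime order -/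
private theorem XXIff_smul_ne {G : Type*} [AddCommGroup G] {Q : G} (hQ : Q ≠ 0) {ell : ℕ}
    (hp : ell.Prime) (hell : ell • Q = 0) (n : ℕ) (h1 : 1 ≤ n) (h2 : n < ell) : n • Q ≠ 0 := by
  intro h
  have h3 := addOrderOf_dvd_of_nsmul_eq_zero h
  have h4 := addOrderOf_dvd_of_nsmul_eq_zero hell
  rcases (Nat.dvd_prime hp).1 h4 with h5 | h5
  · exact hQ (AddMonoid.addOrderOf_eq_one_iff.1 h5)
  · rw [h5] at h3
    exact absurd (Nat.le_of_dvd h1 h3) (by omega)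

section
variable {F : Type*} [Field F] [DecidableEq F] (l : F)

/-- the affine ladder computes the x-coordinates of the multiples -/
private theorem XXIff_xm (h2 : (2 : F) ≠ 0) (hl0 : l ≠ 0) (hl1 : l ≠ 1)
    (Q : (crv (-(1 + l)) l).toAffine.Point) (hQ : Q ≠ 0) (n : ℕ) (hn : n • Q ≠ 0) :
    xm l (Q.xRep 0) n = (n • Q).xRep 0 := by
  have hab : (-(1 + l)) ^ 2 - 4 * l ≠ 0 := by
    have h3 : (-(1 + l)) ^ 2 - 4 * l = (l - 1) ^ 2 := by ring
    rw [h3]
    exact pow_ne_zero 2 (sub_ne_zero.2 hl1)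
  obtain ⟨κ, hκ, h⟩ := xd_point (-(1 + l)) l h2 hl0 hab Q hQ n
  have e : (4 * -(1 + l) : F) = -4 * (1 + l) := by ring
  rw [e] at h
  unfold xm xl
  rw [h, XXIff_xRep_one _ _ _ hn]
  simp only [mul_one]
  rw [mul_div_cancel_left₀ _ hκ]

private theorem XXIff_mem (h2 : (2 : F) ≠ 0) (hl0 : l ≠ 0) (hl1 : l ≠ 1) (ell : ℕ)
    (hp : ell.Prime) (hodd : Odd ell) (Q : (crv (-(1 + l)) l).toAffine.Point) (hQ : Q ≠ 0)
    (hell : ell • Q = 0) (x : F) :
    x ∈ Sx l ell (Q.xRep 0) ↔ ∃ R ∈ AddSubgroup.zmultiples Q, R ≠ 0 ∧ R.xRep 0 = x := by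
  have hpos : 0 < ell := hp.pos
  obtain ⟨m, hm⟩ := hodd
  have hm2 : (ell - 1) / 2 = m := by omega
  unfold Sx
  rw [hm2]
  simp only [Finset.mem_image, Finset.mem_Icc]
  constructor
  · rintro ⟨n, ⟨hn1, hn2⟩, rfl⟩
    have hne := XXIff_smul_ne hQ hp hell n hn1 (by omega)
    refine ⟨n • Q, ?_, hne, ?_⟩
    · exact AddSubgroup.nsmul_mem_zmultiples Q n
    · exact (XXIff_xm l h2 hl0 hl1 Q hQ n hne).symm
  · rintro ⟨R, hR, hR0, rfl⟩
    obtain ⟨k, rfl⟩ := AddSubgroup.mem_zmultiples_iff.1 hR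
    -- reduce `k` modulo `ell`
    obtain ⟨r, hr, hkr⟩ : ∃ r : ℕ, r < ell ∧ k • Q = r • Q := by
      refine ⟨(k % (ell : ℤ)).toNat, ?_, ?_⟩
      · have h3 := Int.emod_lt_of_pos k (by exact_mod_cast hpos : (0 : ℤ) < (ell : ℤ))
        have h4 := Int.emod_nonneg k (by exact_mod_cast hpos.ne' : (ell : ℤ) ≠ 0)
        omega
      · have h4 := Int.emod_nonneg k (by exact_mod_cast hpos.ne' : (ell : ℤ) ≠ 0)
        have h5 : k = (ell : ℤ) * (k / ell) + k % ell := (Int.mul_ediv_add_emod k ell).symm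
        have h6 : ((ell : ℤ) * (k / ell)) • Q = 0 := by
          rw [mul_comm, mul_smul, natCast_zsmul, hell, smul_zero]
        have h7 : k • Q = (k % (ell : ℤ)) • Q := by
          conv_lhs => rw [h5]
          rw [add_smul, h6, zero_add]
        rw [h7, ← natCast_zsmul, Int.toNat_of_nonneg h4]
    rw [hkr] at hR0 ⊢
    have hr0 : 1 ≤ r := by
      rcases Nat.eq_zero_or_pos r with h | h
      · rw [h, zero_smul] at hR0
        exact absurd rfl hR0
      · exact h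
    by_cases hrm : r ≤ m
    · exact ⟨r, ⟨hr0, hrm⟩, XXIff_xm l h2 hl0 hl1 Q hQ r hR0⟩
    · have h8 : (ell - r) • Q = -(r • Q) := by
        rw [eq_neg_iff_add_eq_zero, ← add_smul, Nat.sub_add_cancel hr.le, hell]
      have hne := XXIff_smul_ne hQ hp hell (ell - r) (by omega) (by omega)
      refine ⟨ell - r, ⟨by omega, by omega⟩, ?_⟩
      rw [XXIff_xm l h2 hl0 hl1 Q hQ _ hne, h8, XXIff_xRep_neg]

end

variable {F : Type*} [Field F] [IsAlgClosed F] [DecidableEq F] (l : F)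

/-- T4 (sets `S ∈ XX` and subgroups). -/
theorem XX_iff (h2 : (2 : F) ≠ 0) (hl0 : l ≠ 0) (hl1 : l ≠ 1) (ell : ℕ) (hp : ell.Prime)
    (hodd : Odd ell) (hell : (ell : F) ≠ 0) (S : Finset F) :
    S ∈ XX l ell ↔ ∃ Q : (crv (-(1 + l)) l).toAffine.Point, Q ≠ 0 ∧ ell • Q = 0 ∧
      ∀ x : F, x ∈ S ↔ ∃ R ∈ AddSubgroup.zmultiples Q, R ≠ 0 ∧ R.xRep 0 = x := by
  rw [XXIff_mem_XX]
  constructor
  · rintro ⟨t, ht, rfl⟩
    obtain ⟨Q, hQ, hQ0, rfl⟩ := (mem_rts l h2 hl0 hl1 ell hodd hell t).1 ht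
    exact ⟨Q, hQ, hQ0, XXIff_mem l h2 hl0 hl1 ell hp hodd Q hQ hQ0⟩
  · rintro ⟨Q, hQ, hQ0, hS⟩
    refine ⟨Q.xRep 0, (mem_rts l h2 hl0 hl1 ell hodd hell _).2 ⟨Q, hQ, hQ0, rfl⟩, ?_⟩
    ext x
    rw [hS x]
    exact XXIff_mem l h2 hl0 hl1 ell hp hodd Q hQ hQ0 x

end SSP
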