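import Pool.Agent.SSP.Defs
import Pool.Agent.SSP.LadderPoint
import Pool.Agent.SSP.LadderBasic
import Pool.Agent.SSP.Torsion
import Pool.Agent.SSP.XXIff

set_option autoImplicit false

namespace SSP

open Polynomial WeierstrassCurve

variable {F : Type*} [Field F] [IsAlgClosed F] [DecidableEq F] (l : F)

open Classical in
private theorem mem_Sx_def {F : Type*} [Field F] (l t x : F) (ell : ℕ) :
    x ∈ Sx l ell t ↔ ∃ n ∈ Finset.Icc 1 ((ell - 1) / 2), xm l t n = x := by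
  unfold Sx
  exact Finset.mem_image

open Classical in
private theorem mem_XX_def {F : Type*} [Field F] (l : F) (ell : ℕ) (S : Finset F) :
    S ∈ XX l ell ↔ ∃ t ∈ rts l ell, Sx l ell t = S := by
  unfold XX
  exact Finset.mem_image

open Classical in
private theorem card_Sx_def {F : Type*} [Field F] (l t : F) (ell : ℕ)
    (h : Set.InjOn (xm l t) (Finset.Icc 1 ((ell - 1) / 2) : Finset ℕ)) :
    (Sx l ell t).card = (ell - 1) / 2 := by
  unfold Sx
  rw [Finset.card_image_of_injOn h, Nat.card_Icc, Nat.add_sub_cancel]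

private theorem xRep_one_of_ne {F : Type*} [Field F] {W : Affine F} {Q : W.Point} (h : Q ≠ 0) :
    Q.xRep 1 = 1 := by
  rcases Q with _ | ⟨x, y, hxy⟩
  · exact absurd rfl h
  · simp

omit [IsAlgClosed F] in
private theorem xl_point (h2 : (2 : F) ≠ 0) (hl0 : l ≠ 0) (hl1 : l ≠ 1)
    (Q : (crv (-(1 + l)) l).toAffine.Point) (hQ : Q ≠ 0) (n : ℕ) :
    ∃ κ : F, κ ≠ 0 ∧ xl l (Q.xRep 0) n = (κ * (n • Q).xRep 0, κ * (n • Q).xRep 1) := by
  have hab : (-(1 + l)) ^ 2 - 4 * l ≠ 0 := by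
    have : (-(1 + l)) ^ 2 - 4 * l = (l - 1) ^ 2 := by ring
    rw [this]
    exact pow_ne_zero 2 (sub_ne_zero.mpr hl1)
  obtain ⟨κ, hκ, h⟩ := xd_point (-(1 + l)) l h2 hl0 hab Q hQ n
  refine ⟨κ, hκ, ?_⟩
  have e : 4 * (-(1 + l)) = -4 * (1 + l) := by ring
  rw [e] at h
  exact h

omit [IsAlgClosed F] in
private theorem xm_point (h2 : (2 : F) ≠ 0) (hl0 : l ≠ 0) (hl1 : l ≠ 1)
    (Q : (crv (-(1 + l)) l).toAffine.Point) (hQ : Q ≠ 0) (n : ℕ) (hn : n • Q ≠ 0) :
    xm l (Q.xRep 0) n = (n • Q).xRep 0 ∧ (xl l (Q.xRep 0) n).2 ≠ 0 := by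
  obtain ⟨κ, hκ, h⟩ := xl_point l h2 hl0 hl1 Q hQ n
  rw [xRep_one_of_ne hn, mul_one] at h
  constructor
  · rw [xm, h]
    exact mul_div_cancel_left₀ _ hκ
  · rw [h]
    exact hκ

/-- the multiples of `Q` with `ell` not dividing the multiplier -/
private theorem smul_ne_zero_iff {G : Type*} [AddCommGroup G] {Q : G} {ell : ℕ} (hp : ell.Prime)
    (hQ : Q ≠ 0) (hQl : ell • Q = 0) (k : ℤ) : k • Q = 0 ↔ (ell : ℤ) ∣ k := by
  have := Fact.mk hp
  have ho : addOrderOf Q = ell := addOrderOf_eq_prime hQl hQ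
  rw [← ho]
  exact (addOrderOf_dvd_iff_zsmul_eq_zero).symm

omit [IsAlgClosed F] in
private theorem mem_Sx_iff (h2 : (2 : F) ≠ 0) (hl0 : l ≠ 0) (hl1 : l ≠ 1) (ell : ℕ)
    (hp : ell.Prime) (hodd : Odd ell)
    (Q : (crv (-(1 + l)) l).toAffine.Point) (hQ : Q ≠ 0) (hQl : ell • Q = 0) (x : F) :
    x ∈ Sx l ell (Q.xRep 0) ↔ ∃ k : ℤ, ¬ (ell : ℤ) ∣ k ∧ (k • Q).xRep 0 = x := by
  have hp2 := hp.two_le
  rw [mem_Sx_def]
  constructor
  · rintro ⟨n, hn, rfl⟩
    rw [Finset.mem_Icc] at hn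
    have hnd : ¬ (ell : ℤ) ∣ (n : ℤ) := by
      rw [Int.natCast_dvd_natCast]
      intro hd
      have := Nat.le_of_dvd (by omega) hd
      omega
    have hnQ : n • Q ≠ 0 := by
      intro h
      apply hnd
      rw [← smul_ne_zero_iff hp hQ hQl, natCast_zsmul]
      exact h
    refine ⟨(n : ℤ), hnd, ?_⟩
    rw [(xm_point l h2 hl0 hl1 Q hQ n hnQ).1, natCast_zsmul]
  · rintro ⟨k, hk, rfl⟩
    have hl : (0 : ℤ) < ell := by exact_mod_cast hp.pos
    obtain ⟨r, hr⟩ : ∃ r : ℕ, (r : ℤ) = k % ell :=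
      ⟨(k % ell).toNat, Int.toNat_of_nonneg (Int.emod_nonneg k hl.ne')⟩
    have hrl : (r : ℤ) < ell := by rw [hr]; exact Int.emod_lt_of_pos k hl
    have hr0 : r ≠ 0 := by
      intro h0
      apply hk
      apply Int.dvd_of_emod_eq_zero
      rw [← hr, h0]
      rfl
    have hkr : k • Q = r • Q := by
      have h1 : k = k / ell * ell + r := by
        rw [hr]
        exact (Int.ediv_mul_add_emod k ell).symm
      conv_lhs => rw [h1]
      rw [add_smul, mul_smul, natCast_zsmul, natCast_zsmul, hQl, smul_zero, zero_add]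
    obtain ⟨c, hc⟩ := hodd
    by_cases hrm : r ≤ (ell - 1) / 2
    · refine ⟨r, Finset.mem_Icc.mpr ⟨by omega, hrm⟩, ?_⟩
      have hnQ : r • Q ≠ 0 := by
        intro h
        have h3 := (smul_ne_zero_iff hp hQ hQl (r : ℤ)).mp (by rw [natCast_zsmul]; exact h)
        rw [Int.natCast_dvd_natCast] at h3
        have := Nat.le_of_dvd (by omega) h3
        omega
      rw [(xm_point l h2 hl0 hl1 Q hQ r hnQ).1, hkr]
    · refine ⟨ell - r, Finset.mem_Icc.mpr ⟨by omega, by omega⟩, ?_⟩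
      have hnQ : (ell - r) • Q ≠ 0 := by
        intro h
        have h3 := (smul_ne_zero_iff hp hQ hQl ((ell - r : ℕ) : ℤ)).mp
          (by rw [natCast_zsmul]; exact h)
        rw [Int.natCast_dvd_natCast] at h3
        have := Nat.le_of_dvd (by omega) h3
        omega
      rw [(xm_point l h2 hl0 hl1 Q hQ (ell - r) hnQ).1, hkr]
      have h4 : (ell - r) • Q = -(r • Q) := by
        rw [eq_neg_iff_add_eq_zero, ← add_smul, Nat.sub_add_cancel (by omega), hQl]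
      rw [h4, Affine.Point.xRep_neg]

omit [IsAlgClosed F] in
private theorem Sx_multiple (h2 : (2 : F) ≠ 0) (hl0 : l ≠ 0) (hl1 : l ≠ 1) (ell : ℕ)
    (hp : ell.Prime) (hodd : Odd ell)
    (Q : (crv (-(1 + l)) l).toAffine.Point) (hQ : Q ≠ 0) (hQl : ell • Q = 0) (t : F)
    (ht : t ∈ Sx l ell (Q.xRep 0)) : Sx l ell t = Sx l ell (Q.xRep 0) := by
  obtain ⟨k, hk, rfl⟩ := (mem_Sx_iff l h2 hl0 hl1 ell hp hodd Q hQ hQl t).mp ht
  have hkQ : k • Q ≠ 0 := fun h => hk ((smul_ne_zero_iff hp hQ hQl k).mp h)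
  have hkQl : ell • (k • Q) = 0 := by
    rw [smul_comm, hQl, smul_zero]
  have hpi : Prime (ell : ℤ) := Nat.prime_iff_prime_int.mp hp
  have hcop : IsCoprime (ell : ℤ) k := by
    rw [Int.isCoprime_iff_gcd_eq_one]
    have := (Nat.Prime.coprime_iff_not_dvd hp (n := k.natAbs)).mpr
      (fun h => hk (Int.natCast_dvd.mpr h))
    simpa [Int.gcd] using this
  obtain ⟨u, v, huv⟩ := hcop
  ext x
  rw [mem_Sx_iff l h2 hl0 hl1 ell hp hodd (k • Q) hkQ hkQl,
    mem_Sx_iff l h2 hl0 hl1 ell hp hodd Q hQ hQl]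
  constructor
  · rintro ⟨j, hj, rfl⟩
    refine ⟨j * k, ?_, by rw [mul_smul]⟩
    intro h
    rcases hpi.dvd_or_dvd h with h | h
    · exact hj h
    · exact hk h
  · rintro ⟨j, hj, rfl⟩
    refine ⟨j * v, ?_, ?_⟩
    · intro h
      rcases hpi.dvd_or_dvd h with h | h
      · exact hj h
      · have h1 : (ell : ℤ) ∣ 1 := by
          rw [← huv]
          exact dvd_add (dvd_mul_left _ _) (dvd_mul_of_dvd_left h _)
        exact hpi.not_dvd_one h1
    · congr 1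
      rw [← mul_smul]
      have h1 : j = j * v * k + j * u * ell := by
        linear_combination -j * huv
      conv_rhs => rw [h1]
      rw [add_smul, mul_smul (j * u), natCast_zsmul, hQl, smul_zero, add_zero]

omit [IsAlgClosed F] in
private theorem Sx_card (h2 : (2 : F) ≠ 0) (hl0 : l ≠ 0) (hl1 : l ≠ 1) (ell : ℕ)
    (hp : ell.Prime) (hodd : Odd ell)
    (Q : (crv (-(1 + l)) l).toAffine.Point) (hQ : Q ≠ 0) (hQl : ell • Q = 0) :
    (Sx l ell (Q.xRep 0)).card = (ell - 1) / 2 := by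
  have hp2 := hp.two_le
  obtain ⟨c, hc⟩ := hodd
  have hne : ∀ n ∈ Finset.Icc 1 ((ell - 1) / 2), n • Q ≠ 0 := by
    intro n hn h
    rw [Finset.mem_Icc] at hn
    have h3 := (smul_ne_zero_iff hp hQ hQl (n : ℤ)).mp (by rw [natCast_zsmul]; exact h)
    rw [Int.natCast_dvd_natCast] at h3
    have := Nat.le_of_dvd (by omega) h3
    omega
  apply card_Sx_def
  intro n hn n' hn' he
  have hn1 := hn
  have hn1' := hn'
  rw [Finset.mem_coe, Finset.mem_Icc] at hn1 hn1'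
  rw [(xm_point l h2 hl0 hl1 Q hQ n (hne n hn)).1, (xm_point l h2 hl0 hl1 Q hQ n' (hne n' hn')).1]
    at he
  have hx : (n • Q).xRep = (n' • Q).xRep := by
    ext i
    fin_cases i
    · exact he
    · show (n • Q).xRep 1 = (n' • Q).xRep 1
      rw [xRep_one_of_ne (hne n hn), xRep_one_of_ne (hne n' hn')]
  rcases Affine.Point.eq_or_eq_neg_of_xRep_eq_xRep hx with h | h
  · have h1 : ((n : ℤ) - n') • Q = 0 := by
      rw [sub_smul, natCast_zsmul, natCast_zsmul, h, sub_self]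
    have h3 := (smul_ne_zero_iff hp hQ hQl _).mp h1
    by_contra hcon
    have h4 := Int.le_of_dvd (a := (ell : ℤ)) (b := |(n : ℤ) - n'|)
      (abs_pos.mpr (sub_ne_zero.mpr (by exact_mod_cast hcon))) ((dvd_abs _ _).mpr h3)
    have h5 : |(n : ℤ) - n'| ≤ (ell : ℤ) - 1 := by
      rw [abs_le]
      constructor <;> omega
    omega
  · exfalso
    have h1 : ((n : ℤ) + n') • Q = 0 := by
      rw [add_smul, natCast_zsmul, natCast_zsmul, h, neg_add_cancel]
    have h3 := (smul_ne_zero_iff hp hQ hQl _).mp h1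
    have h4 := Int.le_of_dvd (by omega) h3
    omega

/-- T5 (combinatorics of `XX`). -/
theorem XX_comb (h2 : (2 : F) ≠ 0) (hl0 : l ≠ 0) (hl1 : l ≠ 1) (ell : ℕ) (hp : ell.Prime)
    (hodd : Odd ell) (hell : (ell : F) ≠ 0) :
    (XX l ell).card = ell + 1 ∧ (∀ S ∈ XX l ell, S.card = (ell - 1) / 2 ∧ S ⊆ rts l ell) ∧
      (∀ S ∈ XX l ell, ∀ t ∈ S, Sx l ell t = S) ∧ (∀ t ∈ rts l ell, t ∈ Sx l ell t) ∧
      (∀ t ∈ rts l ell, ∀ n ∈ Finset.Icc 1 ((ell - 1) / 2), (xl l t n).2 ≠ 0) := by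
  have hp2 := hp.two_le
  have hm : 1 ≤ (ell - 1) / 2 := by
    obtain ⟨c, hc⟩ := hodd
    omega
  have hA : ∀ S ∈ XX l ell, S.card = (ell - 1) / 2 ∧ S ⊆ rts l ell := by
    intro S hS
    rw [mem_XX_def] at hS
    obtain ⟨t, ht, rfl⟩ := hS
    obtain ⟨Q, hQ, hQl, rfl⟩ := (mem_rts l h2 hl0 hl1 ell hodd hell t).mp ht
    refine ⟨Sx_card l h2 hl0 hl1 ell hp hodd Q hQ hQl, ?_⟩
    intro x hx
    obtain ⟨k, hk, rfl⟩ := (mem_Sx_iff l h2 hl0 hl1 ell hp hodd Q hQ hQl x).mp hx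
    rw [mem_rts l h2 hl0 hl1 ell hodd hell]
    refine ⟨k • Q, fun h => hk ((smul_ne_zero_iff hp hQ hQl k).mp h), ?_, rfl⟩
    rw [smul_comm, hQl, smul_zero]
  have hB : ∀ S ∈ XX l ell, ∀ t ∈ S, Sx l ell t = S := by
    intro S hS t ht
    rw [mem_XX_def] at hS
    obtain ⟨s, hs, rfl⟩ := hS
    obtain ⟨Q, hQ, hQl, rfl⟩ := (mem_rts l h2 hl0 hl1 ell hodd hell s).mp hs
    exact Sx_multiple l h2 hl0 hl1 ell hp hodd Q hQ hQl t ht
  have hC : ∀ t ∈ rts l ell, t ∈ Sx l ell t := by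
    intro t ht
    obtain ⟨Q, hQ, hQl, rfl⟩ := (mem_rts l h2 hl0 hl1 ell hodd hell t).mp ht
    rw [mem_Sx_iff l h2 hl0 hl1 ell hp hodd Q hQ hQl]
    refine ⟨1, ?_, by rw [one_smul]⟩
    exact (Nat.prime_iff_prime_int.mp hp).not_dvd_one
  refine ⟨?_, hA, hB, hC, ?_⟩
  · have hdis : ((XX l ell : Finset (Finset F)) : Set (Finset F)).PairwiseDisjoint id := by
      intro S hS S' hS' hne
      rw [Function.onFun, id, id, Finset.disjoint_left]
      intro t ht ht'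
      exact hne ((hB S hS t ht).symm.trans (hB S' hS' t ht'))
    have hun : (XX l ell).biUnion id = rts l ell := by
      ext t
      rw [Finset.mem_biUnion]
      constructor
      · rintro ⟨S, hS, ht⟩
        exact (hA S hS).2 ht
      · intro ht
        exact ⟨Sx l ell t, (mem_XX_def l ell _).mpr ⟨t, ht, rfl⟩, hC t ht⟩
    have hcard : (rts l ell).card = (XX l ell).card * ((ell - 1) / 2) := by
      rw [← hun, Finset.card_biUnion hdis]
      simp only [id]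
      rw [Finset.sum_congr rfl (g := fun _ => (ell - 1) / 2) (fun S hS => (hA S hS).1)]
      rw [Finset.sum_const, smul_eq_mul]
    rw [(rts_card l h2 hl0 hl1 ell hodd hell).1] at hcard
    obtain ⟨c, hc⟩ := hodd
    have e1 : (ell - 1) / 2 = c := by omega
    have e2 : (ell ^ 2 - 1) / 2 = (ell + 1) * c := by
      have : ell ^ 2 - 1 = 2 * ((ell + 1) * c) := by
        rw [hc]
        have : (2 * c + 1) ^ 2 = 2 * ((2 * c + 1 + 1) * c) + 1 := by ring
        omega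
      rw [this]
      simp
    rw [e1, e2] at hcard
    rw [e1] at hm
    exact (Nat.eq_of_mul_eq_mul_right hm hcard).symm
  · intro t ht n hn
    obtain ⟨Q, hQ, hQl, rfl⟩ := (mem_rts l h2 hl0 hl1 ell hodd hell t).mp ht
    rw [Finset.mem_Icc] at hn
    have hnQ : n • Q ≠ 0 := by
      intro h
      have h3 := (smul_ne_zero_iff hp hQ hQl (n : ℤ)).mp (by rw [natCast_zsmul]; exact h)
      rw [Int.natCast_dvd_natCast] at h3
      have := Nat.le_of_dvd (by omega) h3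
      omega
    exact (xm_point l h2 hl0 hl1 Q hQ n hnQ).2

end SSP
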