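import Pool.Agent.SSP.Defs
import Pool.Agent.SSP.Kummer
import Pool.Agent.SSP.Torsion
import Pool.Agent.SSP.XXIff
import Pool.Agent.SSP.XXComb

set_option autoImplicit false
set_option linter.unusedSectionVars false

namespace SSP

open Polynomial

section aux

variable {F : Type*} [Field F] [DecidableEq F]

theorem isoStar_rep_one {a b : F} {P : (crv a b).toAffine.Point} (hP : P ≠ 0) :
    P.xRep 1 = 1 := by
  match P with
  | 0 => exact absurd rfl hP
  | .some x y h => rfl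

theorem isoStar_eq_or {a b : F} {P Q : (crv a b).toAffine.Point} (hP : P ≠ 0) (hQ : Q ≠ 0)
    (h : P.xRep 0 = Q.xRep 0) : P = Q ∨ P = -Q := by
  rw [← WeierstrassCurve.Affine.Point.xRep_eq_xRep_iff]
  funext i
  fin_cases i
  · exact h
  · show P.xRep 1 = Q.xRep 1
    rw [isoStar_rep_one hP, isoStar_rep_one hQ]

variable (l : F)

theorem isoStar_kummer (h2 : (2 : F) ≠ 0) (hl0 : l ≠ 0) (hl1 : l ≠ 1)
    (P Q : (crv (-(1 + l)) l).toAffine.Point) :
    ∃ κ : F, κ ≠ 0 ∧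
      (P + Q).xRep 0 * (P - Q).xRep 0 =
        κ * (P.xRep 0 * Q.xRep 0 - l * P.xRep 1 * Q.xRep 1) ^ 2 ∧
      (P + Q).xRep 0 * (P - Q).xRep 1 + (P + Q).xRep 1 * (P - Q).xRep 0 =
        κ * (2 * (P.xRep 0 * Q.xRep 0 + l * P.xRep 1 * Q.xRep 1) *
            (P.xRep 0 * Q.xRep 1 + P.xRep 1 * Q.xRep 0)
          + 4 * (-(1 + l)) * P.xRep 0 * Q.xRep 0 * P.xRep 1 * Q.xRep 1) ∧
      (P + Q).xRep 1 * (P - Q).xRep 1 =
        κ * (P.xRep 0 * Q.xRep 1 - P.xRep 1 * Q.xRep 0) ^ 2 := by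
  refine kummer (-(1 + l)) l h2 hl0 ?_ P Q
  have h : (-(1 + l)) ^ 2 - 4 * l = (l - 1) ^ 2 := by ring
  rw [h]
  exact pow_ne_zero 2 (sub_ne_zero.mpr hl1)

/-- both sums -/
theorem isoStar_two (h2 : (2 : F) ≠ 0) (hl0 : l ≠ 0) (hl1 : l ≠ 1)
    (P R : (crv (-(1 + l)) l).toAffine.Point) (hP : P ≠ 0) (hR : R ≠ 0)
    (h1 : P.xRep 0 ≠ R.xRep 0) (z : F) :
    (P.xRep 0 - R.xRep 0) ^ 2 * ((z - (P + R).xRep 0) * (z - (P - R).xRep 0)) =
      (P.xRep 0 - R.xRep 0) ^ 2 * z ^ 2 - (2 * (P.xRep 0 + R.xRep 0) * (P.xRep 0 * R.xRep 0 + l)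
        - 4 * (1 + l) * P.xRep 0 * R.xRep 0) * z + (P.xRep 0 * R.xRep 0 - l) ^ 2 ∧
    (P.xRep 0 - R.xRep 0) ^ 2 * ((P + R).xRep 0 * (P - R).xRep 0) =
      (P.xRep 0 * R.xRep 0 - l) ^ 2 := by
  obtain ⟨κ, hκ, e1, e2, e3⟩ := isoStar_kummer l h2 hl0 hl1 P R
  have hs : P + R ≠ 0 := by
    intro h
    apply h1
    have h3 : P = -R := eq_neg_of_add_eq_zero_left h
    rw [h3, WeierstrassCurve.Affine.Point.xRep_neg]
  have hd : P - R ≠ 0 := by
    intro h
    apply h1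
    rw [sub_eq_zero.mp h]
  rw [isoStar_rep_one hP, isoStar_rep_one hR] at e1 e2 e3
  rw [isoStar_rep_one hs, isoStar_rep_one hd] at e3
  rw [isoStar_rep_one hs, isoStar_rep_one hd] at e2
  generalize (P + R).xRep 0 = u at *
  generalize (P - R).xRep 0 = v at *
  generalize P.xRep 0 = a at *
  generalize R.xRep 0 = t at *
  have hat : (a - t) ^ 2 ≠ 0 := pow_ne_zero 2 (sub_ne_zero.mpr h1)
  have e4 : κ * (a - t) ^ 2 = 1 := by linear_combination -e3
  constructor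
  · linear_combination (-(a - t) ^ 2 * z) * e2 + (a - t) ^ 2 * e1
      + ((a * t - l) ^ 2 - (2 * (a * t + l) * (a + t) + 4 * (-(1 + l)) * a * t) * z) * e4
  · linear_combination (a - t) ^ 2 * e1 + (a * t - l) ^ 2 * e4

end aux

section grp

variable {F : Type*} [Field F] [DecidableEq F] (l : F)

open Classical in
/-- pairing `R` and `-R` -/
theorem isoStar_pair (ell : ℕ) (hodd : Odd ell) (S : Finset F)
    (Q : (crv (-(1 + l)) l).toAffine.Point) (hQe : ell • Q = 0)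
    (hS : ∀ x : F, x ∈ S ↔ ∃ R ∈ AddSubgroup.zmultiples Q, R ≠ 0 ∧ R.xRep 0 = x)
    (Cs : Finset (crv (-(1 + l)) l).toAffine.Point)
    (hCs : ∀ R, R ∈ Cs ↔ R ∈ AddSubgroup.zmultiples Q)
    (φ : (crv (-(1 + l)) l).toAffine.Point → F) (ψ : F → F)
    (h : ∀ R ∈ AddSubgroup.zmultiples Q, R ≠ 0 → φ R * φ (-R) = ψ (R.xRep 0)) :
    ∏ R ∈ Cs, φ R = φ 0 * ∏ t ∈ S, ψ t := by
  have h0 : (0 : (crv (-(1 + l)) l).toAffine.Point) ∈ Cs := (hCs 0).mpr (zero_mem _)
  rw [← Finset.mul_prod_erase Cs φ h0]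
  congr 1
  have hmap : ∀ R ∈ Cs.erase 0, R.xRep 0 ∈ S := by
    intro R hR
    rw [Finset.mem_erase] at hR
    exact (hS _).mpr ⟨R, (hCs R).mp hR.2, hR.1, rfl⟩
  rw [← Finset.prod_fiberwise_of_maps_to hmap φ]
  refine Finset.prod_congr rfl fun t ht => ?_
  obtain ⟨R, hR, hR0, hRt⟩ := (hS t).mp ht
  have hne : R ≠ -R := by
    intro h1
    have h2 : (2 : ℕ) • R = 0 := by
      rw [two_nsmul]
      nth_rewrite 2 [h1]
      exact add_neg_cancel R
    have h3 : ell • R = 0 := by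
      obtain ⟨k, hk⟩ := AddSubgroup.mem_zmultiples_iff.mp hR
      rw [← hk, ← natCast_zsmul, zsmul_comm, natCast_zsmul, hQe, smul_zero]
    obtain ⟨m, hm⟩ := hodd
    apply hR0
    have h4 : ell • R = m • ((2 : ℕ) • R) + R := by
      rw [hm, add_smul, one_smul, mul_comm, mul_smul]
    rw [h2, smul_zero, zero_add, h3] at h4
    exact h4.symm
  have hfil : (Cs.erase 0).filter (fun R' => R'.xRep 0 = t) = {R, -R} := by
    ext R'
    rw [Finset.mem_filter, Finset.mem_erase, Finset.mem_insert, Finset.mem_singleton, hCs]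
    constructor
    · rintro ⟨⟨h1, h2⟩, h3⟩
      exact isoStar_eq_or h1 hR0 (h3.trans hRt.symm)
    · rintro (rfl | rfl)
      · exact ⟨⟨hR0, hR⟩, hRt⟩
      · refine ⟨⟨neg_ne_zero.mpr hR0, neg_mem hR⟩, ?_⟩
        rw [WeierstrassCurve.Affine.Point.xRep_neg, hRt]
  rw [hfil, Finset.prod_pair hne, h R hR hR0, hRt]

/-- `x(R) x(R') ≠ l` -/
theorem isoStar_mul_ne (h2 : (2 : F) ≠ 0) (hl0 : l ≠ 0) (hl1 : l ≠ 1) (S : Finset F)
    (Q : (crv (-(1 + l)) l).toAffine.Point)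
    (hS : ∀ x : F, x ∈ S ↔ ∃ R ∈ AddSubgroup.zmultiples Q, R ≠ 0 ∧ R.xRep 0 = x)
    (hS0 : ∀ t ∈ S, t ≠ 0) (t t' : F) (ht : t ∈ S) (ht' : t' ∈ S) : t * t' ≠ l := by
  intro h
  obtain ⟨R, hR, hR0, hRt⟩ := (hS t).mp ht
  obtain ⟨R', hR', hR0', hRt'⟩ := (hS t').mp ht'
  obtain ⟨κ, hκ, e1, e2, e3⟩ := isoStar_kummer l h2 hl0 hl1 R R'
  rw [isoStar_rep_one hR0, isoStar_rep_one hR0', hRt, hRt', h] at e1
  have e4 : (R + R').xRep 0 * (R - R').xRep 0 = 0 := by
    rw [e1]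
    ring
  have key : ∀ T ∈ AddSubgroup.zmultiples Q, T.xRep 0 ≠ 0 := by
    intro T hT h0
    by_cases hT0 : T = 0
    · subst hT0
      exact one_ne_zero h0
    · exact hS0 _ ((hS _).mpr ⟨T, hT, hT0, rfl⟩) h0
  rcases mul_eq_zero.mp e4 with h5 | h5
  · exact key _ (add_mem hR hR') h5
  · exact key _ (sub_mem hR hR') h5

section good

variable (h2 : (2 : F) ≠ 0) (hl0 : l ≠ 0) (hl1 : l ≠ 1) (ell : ℕ) (hodd : Odd ell) (S : Finset F)
    (Q : (crv (-(1 + l)) l).toAffine.Point) (hQe : ell • Q = 0)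
    (hS : ∀ x : F, x ∈ S ↔ ∃ R ∈ AddSubgroup.zmultiples Q, R ≠ 0 ∧ R.xRep 0 = x)
    (Cs : Finset (crv (-(1 + l)) l).toAffine.Point)
    (hCs : ∀ R, R ∈ Cs ↔ R ∈ AddSubgroup.zmultiples Q)

include h2 hl0 hl1 hodd hQe hS hCs in
theorem isoStar_A (P : (crv (-(1 + l)) l).toAffine.Point) (hP : P ∉ AddSubgroup.zmultiples Q)
    (z : F) :
    (∏ t ∈ S, (P.xRep 0 - t) ^ 2) * ∏ R ∈ Cs, (z - (P + R).xRep 0) =
      (z - P.xRep 0) * ∏ t ∈ S, ((P.xRep 0 - t) ^ 2 * z ^ 2 -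
        (2 * (P.xRep 0 + t) * (P.xRep 0 * t + l) - 4 * (1 + l) * P.xRep 0 * t) * z +
          (P.xRep 0 * t - l) ^ 2) ∧
    (∏ t ∈ S, (P.xRep 0 - t) ^ 2) * ∏ R ∈ Cs, (P + R).xRep 0 =
      P.xRep 0 * ∏ t ∈ S, (P.xRep 0 * t - l) ^ 2 := by
  have hP0 : P ≠ 0 := by
    rintro rfl
    exact hP (zero_mem _)
  have hne : ∀ R ∈ AddSubgroup.zmultiples Q, R ≠ 0 → P.xRep 0 ≠ R.xRep 0 := by
    intro R hR hR0 h
    rcases isoStar_eq_or hP0 hR0 h with h1 | h1
    · exact hP (h1 ▸ hR)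
    · exact hP (h1 ▸ neg_mem hR)
  have hneS : ∀ t ∈ S, (P.xRep 0 - t) ^ 2 ≠ 0 := by
    intro t ht
    obtain ⟨R, hR, hR0, hRt⟩ := (hS t).mp ht
    rw [← hRt]
    exact pow_ne_zero 2 (sub_ne_zero.mpr (hne R hR hR0))
  constructor
  · rw [isoStar_pair l ell hodd S Q hQe hS Cs hCs (fun R => z - (P + R).xRep 0)
      (fun t => ((P.xRep 0 - t) ^ 2 * z ^ 2 -
        (2 * (P.xRep 0 + t) * (P.xRep 0 * t + l) - 4 * (1 + l) * P.xRep 0 * t) * z +
          (P.xRep 0 * t - l) ^ 2) / (P.xRep 0 - t) ^ 2)]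
    · show _ * ((z - (P + 0).xRep 0) * _) = _
      rw [add_zero, mul_left_comm, ← Finset.prod_mul_distrib]
      congr 1
      refine Finset.prod_congr rfl fun t ht => ?_
      exact mul_div_cancel₀ _ (hneS t ht)
    · intro R hR hR0
      have h3 := (isoStar_two l h2 hl0 hl1 P R hP0 hR0 (hne R hR hR0) z).1
      have h4 : (P.xRep 0 - R.xRep 0) ^ 2 ≠ 0 := pow_ne_zero 2 (sub_ne_zero.mpr (hne R hR hR0))
      show (z - (P + R).xRep 0) * (z - (P + -R).xRep 0) = _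
      rw [eq_div_iff h4, ← sub_eq_add_neg, ← h3]
      ring
  · rw [isoStar_pair l ell hodd S Q hQe hS Cs hCs (fun R => (P + R).xRep 0)
      (fun t => (P.xRep 0 * t - l) ^ 2 / (P.xRep 0 - t) ^ 2)]
    · show _ * ((P + 0).xRep 0 * _) = _
      rw [add_zero, mul_left_comm, ← Finset.prod_mul_distrib]
      congr 1
      refine Finset.prod_congr rfl fun t ht => ?_
      exact mul_div_cancel₀ _ (hneS t ht)
    · intro R hR hR0
      have h3 := (isoStar_two l h2 hl0 hl1 P R hP0 hR0 (hne R hR hR0) z).2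
      have h4 : (P.xRep 0 - R.xRep 0) ^ 2 ≠ 0 := pow_ne_zero 2 (sub_ne_zero.mpr (hne R hR hR0))
      show (P + R).xRep 0 * (P + -R).xRep 0 = _
      rw [eq_div_iff h4, ← sub_eq_add_neg, ← h3]
      ring

include h2 hl0 hl1 hodd hQe hS hCs in
theorem isoStar_good (hcard : Cs.card = ell) (hSc : S.card = (ell - 1) / 2)
    (hS0 : ∀ t ∈ S, t ≠ 0)
    (P : (crv (-(1 + l)) l).toAffine.Point) (hP2 : P + P ∉ AddSubgroup.zmultiples Q) (z : F) :
    z * (∏ t ∈ S, (z - l / t) ^ 2) * (∏ t ∈ S, (P.xRep 0 - t) ^ 2) -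
        P.xRep 0 * (∏ t ∈ S, (P.xRep 0 - l / t) ^ 2) * (∏ t ∈ S, (z - t) ^ 2) =
      (z - P.xRep 0) * ∏ t ∈ S, ((P.xRep 0 - t) ^ 2 * z ^ 2 -
        (2 * (P.xRep 0 + t) * (P.xRep 0 * t + l) - 4 * (1 + l) * P.xRep 0 * t) * z
          + (P.xRep 0 * t - l) ^ 2) := by
  have hPC : P ∉ AddSubgroup.zmultiples Q := fun h => hP2 (add_mem h h)
  have hPR : ∀ R ∈ AddSubgroup.zmultiples Q, P + R ∉ AddSubgroup.zmultiples Q := by
    intro R hR h
    apply hPC
    have := sub_mem h hR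
    rwa [add_sub_cancel_right] at this
  have hPR0 : ∀ R ∈ AddSubgroup.zmultiples Q, P + R ≠ 0 := by
    intro R hR h
    apply hPR R hR
    rw [h]
    exact zero_mem _
  set T : F := ∏ t ∈ S, t ^ 2 with hT
  have hT0 : T ≠ 0 := Finset.prod_ne_zero_iff.mpr fun t ht => pow_ne_zero 2 (hS0 t ht)
  set Pi0 : F := ∏ R ∈ Cs, (P + R).xRep 0 with hPi
  set u : F := Pi0 / T with hu
  -- invariance of the product
  have hinv : ∀ R0 ∈ AddSubgroup.zmultiples Q, ∏ R ∈ Cs, ((P + R0) + R).xRep 0 = Pi0 := by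
    intro R0 hR0
    refine Finset.prod_equiv (Equiv.addLeft R0) ?_ ?_
    · intro R
      rw [hCs, hCs]
      show _ ↔ R0 + R ∈ _
      constructor
      · intro h
        exact add_mem hR0 h
      · intro h
        have := sub_mem h hR0
        rwa [add_sub_cancel_left] at this
    · intro R _
      show ((P + R0) + R).xRep 0 = (P + (R0 + R)).xRep 0
      rw [add_assoc]
  have hNU : ∀ R0 ∈ AddSubgroup.zmultiples Q,
      (P + R0).xRep 0 * (∏ t ∈ S, ((P + R0).xRep 0 - l / t) ^ 2) =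
        u * ∏ t ∈ S, ((P + R0).xRep 0 - t) ^ 2 := by
    intro R0 hR0
    have h3 := (isoStar_A l h2 hl0 hl1 ell hodd S Q hQe hS Cs hCs (P + R0) (hPR R0 hR0) 0).2
    rw [hinv R0 hR0] at h3
    have h4 : ∏ t ∈ S, ((P + R0).xRep 0 * t - l) ^ 2 =
        T * ∏ t ∈ S, ((P + R0).xRep 0 - l / t) ^ 2 := by
      rw [hT, ← Finset.prod_mul_distrib]
      refine Finset.prod_congr rfl fun t ht => ?_
      have := hS0 t ht
      rw [← mul_pow]
      congr 1
      field_simp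
    rw [h4] at h3
    rw [hu, div_mul_eq_mul_div, eq_div_iff hT0]
    linear_combination -h3
  -- the polynomial identity
  set p1 : F[X] := X * ∏ t ∈ S, (X - C (l / t)) ^ 2 with hp1
  set p2 : F[X] := ∏ t ∈ S, (X - C t) ^ 2 with hp2
  set p3 : F[X] := ∏ R ∈ Cs, (X - C ((P + R).xRep 0)) with hp3
  have hell : 2 * S.card + 1 = ell := by
    obtain ⟨m, hm⟩ := hodd
    omega
  have hm1' : (∏ t ∈ S, (X - C (l / t)) ^ 2 : F[X]).Monic :=
    monic_prod_of_monic _ _ fun t _ => (monic_X_sub_C _).pow 2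
  have hm1 : p1.Monic := monic_X.mul hm1'
  have hm2 : p2.Monic := monic_prod_of_monic _ _ fun t _ => (monic_X_sub_C _).pow 2
  have hm3 : p3.Monic := monic_prod_of_monic _ _ fun R _ => monic_X_sub_C _
  have hd0 : ∀ g : F → F, (∏ t ∈ S, (X - C (g t)) ^ 2 : F[X]).natDegree = 2 * S.card := by
    intro g
    rw [natDegree_prod_of_monic _ _ fun t _ => (monic_X_sub_C _).pow 2]
    rw [Finset.sum_congr rfl fun t _ => (show ((X - C (g t)) ^ 2 : F[X]).natDegree = 2 from by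
      rw [(monic_X_sub_C _).natDegree_pow, natDegree_X_sub_C])]
    rw [Finset.sum_const, smul_eq_mul, mul_comm]
  have hd1 : p1.natDegree = ell := by
    rw [hp1, monic_X.natDegree_mul hm1', natDegree_X, hd0 (fun t => l / t)]
    omega
  have hd2 : p2.natDegree = 2 * S.card := hd0 (fun t => t)
  have hd3 : p3.natDegree = ell := by
    rw [hp3, natDegree_prod_of_monic _ _ fun R _ => monic_X_sub_C _,
      Finset.sum_congr rfl fun R _ => natDegree_X_sub_C _, Finset.sum_const, smul_eq_mul, mul_one,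
      hcard]
  have hinj : Set.InjOn (fun R : (crv (-(1 + l)) l).toAffine.Point => (P + R).xRep 0)
      (Cs : Set (crv (-(1 + l)) l).toAffine.Point) := by
    intro R hR R' hR' h
    have hR1 := (hCs R).mp hR
    have hR1' := (hCs R').mp hR'
    rcases isoStar_eq_or (hPR0 R hR1) (hPR0 R' hR1') h with h4 | h4
    · exact add_left_cancel h4
    · exfalso
      apply hP2
      have h5 : P + P = -R - R' := by
        have h6 : (P + R) + (P + R') = 0 := by rw [h4]; exact neg_add_cancel _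
        have h7 : P + P + (R + R') = 0 := by rw [← h6]; abel
        rw [eq_neg_of_add_eq_zero_left h7]
        abel
      rw [h5]
      exact sub_mem (neg_mem hR1) hR1'
  have hzero : p1 - p3 - C u * p2 = 0 := by
    refine eq_zero_of_degree_lt_of_eval_index_eq_zero Cs hinj ?_ ?_
    · rw [hcard]
      have h4 : (p1 - p3).degree < (ell : WithBot ℕ) := by
        have h5 : p1.degree = p3.degree := by
          rw [degree_eq_natDegree hm1.ne_zero, degree_eq_natDegree hm3.ne_zero, hd1, hd3]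
        have h6 := degree_sub_lt_left h5 hm1.ne_zero (by rw [hm1.leadingCoeff, hm3.leadingCoeff])
        rwa [degree_eq_natDegree hm1.ne_zero, hd1] at h6
      have h7 : (C u * p2).degree < (ell : WithBot ℕ) := by
        refine lt_of_le_of_lt (b := p2.degree) (by rw [← smul_eq_C_mul]; exact degree_smul_le u p2) ?_
        rw [degree_eq_natDegree hm2.ne_zero, hd2]
        exact_mod_cast (by omega : 2 * S.card < ell)
      exact lt_of_le_of_lt (degree_sub_le _ _) (max_lt h4 h7)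
    · intro R hR
      have h4 : p3.eval ((P + R).xRep 0) = 0 := by
        rw [hp3, eval_prod]
        refine Finset.prod_eq_zero hR ?_
        rw [eval_sub, eval_X, eval_C, sub_self]
      have h5 := hNU R ((hCs R).mp hR)
      have h6 : p1.eval ((P + R).xRep 0) =
          (P + R).xRep 0 * (∏ t ∈ S, ((P + R).xRep 0 - l / t) ^ 2) := by
        rw [hp1, eval_mul, eval_X, eval_prod]
        congr 1
        refine Finset.prod_congr rfl fun t _ => ?_
        rw [eval_pow, eval_sub, eval_X, eval_C]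
      have h7 : p2.eval ((P + R).xRep 0) = ∏ t ∈ S, ((P + R).xRep 0 - t) ^ 2 := by
        rw [hp2, eval_prod]
        refine Finset.prod_congr rfl fun t _ => ?_
        rw [eval_pow, eval_sub, eval_X, eval_C]
      rw [eval_sub, eval_sub, h4, eval_C_mul, h6, h7, h5]
      ring
  have hz := congrArg (eval z) hzero
  have h6 : p1.eval z = z * (∏ t ∈ S, (z - l / t) ^ 2) := by
    rw [hp1, eval_mul, eval_X, eval_prod]
    congr 1
    refine Finset.prod_congr rfl fun t _ => ?_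
    rw [eval_pow, eval_sub, eval_X, eval_C]
  have h7 : p2.eval z = ∏ t ∈ S, (z - t) ^ 2 := by
    rw [hp2, eval_prod]
    refine Finset.prod_congr rfl fun t _ => ?_
    rw [eval_pow, eval_sub, eval_X, eval_C]
  have h8 : p3.eval z = ∏ R ∈ Cs, (z - (P + R).xRep 0) := by
    rw [hp3, eval_prod]
    refine Finset.prod_congr rfl fun R _ => ?_
    rw [eval_sub, eval_X, eval_C]
  rw [eval_sub, eval_sub, eval_C_mul, eval_zero, h6, h7, h8] at hz
  have h9 := (isoStar_A l h2 hl0 hl1 ell hodd S Q hQe hS Cs hCs P hPC z).1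
  have h10 := hNU 0 (zero_mem _)
  rw [add_zero] at h10
  rw [← h9, h10]
  linear_combination (∏ t ∈ S, (P.xRep 0 - t) ^ 2) * hz

end good

end grp

variable {F : Type*} [Field F] [IsAlgClosed F] (l : F)

/-- I0: the identity (*) of section 3 of the paper proof. -/
theorem iso_star (h2 : (2 : F) ≠ 0) (hl0 : l ≠ 0) (hl1 : l ≠ 1) (ell : ℕ) (hp : ell.Prime)
    (hodd : Odd ell) (hell : (ell : F) ≠ 0) (S : Finset F) (hS : S ∈ XX l ell) (a x : F) :
    x * (∏ t ∈ S, (x - l / t) ^ 2) * (∏ t ∈ S, (a - t) ^ 2) -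
        a * (∏ t ∈ S, (a - l / t) ^ 2) * (∏ t ∈ S, (x - t) ^ 2) =
      (x - a) * ∏ t ∈ S, ((a - t) ^ 2 * x ^ 2 -
        (2 * (a + t) * (a * t + l) - 4 * (1 + l) * a * t) * x + (a * t - l) ^ 2) := by
  classical
  obtain ⟨Q, hQ0, hQe, hSQ⟩ := (XX_iff l h2 hl0 hl1 ell hp hodd hell S).mp hS
  obtain ⟨-, hcomb, -, -, -⟩ := XX_comb l h2 hl0 hl1 ell hp hodd hell
  obtain ⟨hSc, hSr⟩ := hcomb S hS
  have hS0 : ∀ t ∈ S, t ≠ 0 := fun t ht =>
    ((rts_card l h2 hl0 hl1 ell hodd hell).2 t (hSr ht)).1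
  have hord : addOrderOf Q = ell := by
    have : Fact ell.Prime := ⟨hp⟩
    exact addOrderOf_eq_prime hQe hQ0
  have hfin : (AddSubgroup.zmultiples Q : Set (crv (-(1 + l)) l).toAffine.Point).Finite := by
    apply Nat.finite_of_card_ne_zero
    rw [SetLike.coe_sort_coe, Nat.card_zmultiples, hord]
    exact hp.ne_zero
  set Cs := hfin.toFinset with hCsdef
  have hCs : ∀ R, R ∈ Cs ↔ R ∈ AddSubgroup.zmultiples Q := by
    intro R
    rw [hCsdef, Set.Finite.mem_toFinset, SetLike.mem_coe]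
  have hcard : Cs.card = ell := by
    rw [hCsdef, ← Set.ncard_eq_toFinset_card _ hfin, ← Nat.card_coe_set_eq, SetLike.coe_sort_coe,
      Nat.card_zmultiples, hord]
  -- polynomials in `a`
  set fA : F[X] := X * (X - 1) * (X - C l) with hfA
  set bad : F[X] := C 4 * fA * ∏ t ∈ S, ((X ^ 2 - C l) ^ 2 - C (4 * t) * fA) with hbad
  set G : F[X] := C x * (∏ t ∈ S, (C x - C (l / t)) ^ 2) * (∏ t ∈ S, (X - C t) ^ 2) -
        X * (∏ t ∈ S, (X - C (l / t)) ^ 2) * (∏ t ∈ S, (C x - C t) ^ 2) -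
      (C x - X) * ∏ t ∈ S, ((X - C t) ^ 2 * C x ^ 2 -
        (2 * (X + C t) * (X * C t + C l) - 4 * (1 + C l) * X * C t) * C x + (X * C t - C l) ^ 2)
    with hG
  have hGe : ∀ a : F, eval a G = x * (∏ t ∈ S, (x - l / t) ^ 2) * (∏ t ∈ S, (a - t) ^ 2) -
        a * (∏ t ∈ S, (a - l / t) ^ 2) * (∏ t ∈ S, (x - t) ^ 2) -
      (x - a) * ∏ t ∈ S, ((a - t) ^ 2 * x ^ 2 -
        (2 * (a + t) * (a * t + l) - 4 * (1 + l) * a * t) * x + (a * t - l) ^ 2) := by
    intro a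
    rw [hG]
    simp only [eval_sub, eval_mul, eval_add, eval_prod, eval_pow, eval_X, eval_C, eval_ofNat,
      eval_one]
  have h4 : (4 : F) ≠ 0 := by
    have : (4 : F) = 2 * 2 := by norm_num
    rw [this]
    exact mul_ne_zero h2 h2
  have hfA0 : fA ≠ 0 := by
    rw [hfA]
    refine mul_ne_zero (mul_ne_zero X_ne_zero ?_) (X_sub_C_ne_zero l)
    have := X_sub_C_ne_zero (1 : F)
    rwa [C_1] at this
  have hfAd : fA.natDegree = 3 := by
    have h1 : (X - 1 : F[X]) = X - C 1 := by rw [C_1]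
    rw [hfA, h1, natDegree_mul, natDegree_mul, natDegree_X, natDegree_X_sub_C, natDegree_X_sub_C]
    · exact X_ne_zero
    · exact X_sub_C_ne_zero _
    · exact mul_ne_zero X_ne_zero (X_sub_C_ne_zero _)
    · exact X_sub_C_ne_zero _
  have hbad0 : bad ≠ 0 := by
    rw [hbad]
    refine mul_ne_zero (mul_ne_zero ?_ hfA0) ?_
    · rw [Ne, C_eq_zero]
      exact h4
    · refine Finset.prod_ne_zero_iff.mpr fun t _ => ?_
      intro h0
      have h5 : ((X ^ 2 - C l) ^ 2 : F[X]).natDegree = 4 := by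
        rw [natDegree_pow, natDegree_X_pow_sub_C]
      have h6 : (C (4 * t) * fA).natDegree ≤ 3 := by
        refine (natDegree_C_mul_le _ _).trans ?_
        rw [hfAd]
      rw [sub_eq_zero.mp h0] at h5
      omega
  have hprod : G * bad = 0 := by
    apply Polynomial.funext
    intro a
    rw [eval_mul, eval_zero]
    by_cases hb : eval a bad = 0
    · rw [hb, mul_zero]
    have hbe : eval a bad = 4 * (a * (a - 1) * (a - l)) *
        ∏ t ∈ S, ((a ^ 2 - l) ^ 2 - 4 * t * (a * (a - 1) * (a - l))) := by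
      rw [hbad, hfA]
      simp only [eval_sub, eval_mul, eval_prod, eval_pow, eval_X, eval_C, eval_one]
    rw [hbe] at hb
    have hf : a * (a - 1) * (a - l) ≠ 0 := right_ne_zero_of_mul (left_ne_zero_of_mul hb)
    have hS1 : ∀ t ∈ S, (a ^ 2 - l) ^ 2 - 4 * t * (a * (a - 1) * (a - l)) ≠ 0 :=
      Finset.prod_ne_zero_iff.mp (right_ne_zero_of_mul hb)
    obtain ⟨y, hy⟩ := IsAlgClosed.exists_pow_nat_eq (a * (a - 1) * (a - l)) zero_lt_two
    have hy0 : y ≠ 0 := by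
      rintro rfl
      apply hf
      rw [← hy]
      ring
    have hns : (crv (-(1 + l)) l).toAffine.Nonsingular a y := by
      rw [WeierstrassCurve.Affine.nonsingular_iff]
      constructor
      · rw [WeierstrassCurve.Affine.equation_iff]
        show y ^ 2 + 0 * a * y + 0 * y = a ^ 3 + -(1 + l) * a ^ 2 + l * a + 0
        rw [hy]
        ring
      · right
        show y ≠ -y - 0 * a - 0
        intro h
        apply hy0
        have h5 : 2 * y = 0 := by linear_combination h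
        exact (mul_eq_zero.mp h5).resolve_left h2
    set P : (crv (-(1 + l)) l).toAffine.Point := .some a y hns with hP
    have hPx : P.xRep 0 = a := rfl
    have hP0 : P ≠ 0 := by
      intro h
      rw [hP] at h
      exact WeierstrassCurve.Affine.Point.some_ne_zero hns h
    have hP2 : P + P ∉ AddSubgroup.zmultiples Q := by
      intro hmem
      obtain ⟨κ, hκ, e1, e2, e3⟩ := isoStar_kummer l h2 hl0 hl1 P P
      have hz0 : (P - P).xRep 0 = 1 := by rw [sub_self]; rfl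
      have hz1 : (P - P).xRep 1 = 0 := by rw [sub_self]; rfl
      rw [hz0, isoStar_rep_one hP0, hPx] at e1
      rw [hz0, hz1, isoStar_rep_one hP0, hPx] at e2
      by_cases hR0 : P + P = 0
      · rw [hR0] at e2
        have h5 : (0 : (crv (-(1 + l)) l).toAffine.Point).xRep 1 = 0 := rfl
        rw [h5] at e2
        have h6 : κ * (4 * (a * (a - 1) * (a - l))) = 0 := by linear_combination -e2
        rcases mul_eq_zero.mp h6 with h7 | h7
        · exact hκ h7
        · exact (mul_ne_zero h4 hf) h7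
      · rw [isoStar_rep_one hR0] at e2
        refine hS1 ((P + P).xRep 0) ((hSQ _).mpr ⟨_, hmem, hR0, rfl⟩) ?_
        have h6 : κ * (4 * (a * (a - 1) * (a - l))) = 1 := by linear_combination -e2
        have h7 : κ * ((a ^ 2 - l) ^ 2 - 4 * (P + P).xRep 0 * (a * (a - 1) * (a - l))) = 0 := by
          linear_combination -e1 - (P + P).xRep 0 * h6
        exact (mul_eq_zero.mp h7).resolve_left hκ
    have hgood := isoStar_good l h2 hl0 hl1 ell hodd S Q hQe hSQ Cs hCs hcard hSc hS0 P hP2 x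
    rw [hPx] at hgood
    rw [hGe a, hgood, sub_self, zero_mul]
  have hG0 : G = 0 := (mul_eq_zero.mp hprod).resolve_right hbad0
  have h5 := hGe a
  rw [hG0, eval_zero] at h5
  exact (sub_eq_zero.mp h5.symm)

/-- I0': `x(R + T₀) = l / x(R)` is not the x-coordinate of a point of the subgroup. -/
theorem iso_disjoint (h2 : (2 : F) ≠ 0) (hl0 : l ≠ 0) (hl1 : l ≠ 1) (ell : ℕ) (hp : ell.Prime)
    (hodd : Odd ell) (hell : (ell : F) ≠ 0) (S : Finset F) (hS : S ∈ XX l ell)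
    (t t' : F) (ht : t ∈ S) (ht' : t' ∈ S) : l / t ≠ t' := by
  classical
  obtain ⟨Q, hQ0, hQe, hSQ⟩ := (XX_iff l h2 hl0 hl1 ell hp hodd hell S).mp hS
  obtain ⟨-, hcomb, -, -, -⟩ := XX_comb l h2 hl0 hl1 ell hp hodd hell
  obtain ⟨hSc, hSr⟩ := hcomb S hS
  have hS0 : ∀ t ∈ S, t ≠ 0 := fun t ht =>
    ((rts_card l h2 hl0 hl1 ell hodd hell).2 t (hSr ht)).1
  intro h
  rw [div_eq_iff (hS0 t ht)] at h
  exact isoStar_mul_ne l h2 hl0 hl1 S Q hSQ hS0 t' t ht' ht h.symm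

end SSP
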