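import Pool.Agent.SSP.Defs
import Pool.Agent.SSP.Torsion
import Pool.Agent.SSP.XXComb
import Pool.Agent.SSP.IsoStar

set_option autoImplicit false

namespace SSP

open Polynomial

variable {F : Type*} [Field F] [IsAlgClosed F] (l : F)

/-- I1 (the quotient by a subgroup of order `ell`). -/
theorem iso_ids (h2 : (2 : F) ≠ 0) (hl0 : l ≠ 0) (hl1 : l ≠ 1) (ell : ℕ) (hp : ell.Prime)
    (hodd : Odd ell) (hell : (ell : F) ≠ 0) (S : Finset F) (hS : S ∈ XX l ell) :
    X * gP l S ^ 2 - C (eps l S ^ 2) * hP S ^ 2 = (X - 1) * g1P l S ^ 2 ∧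
    X * gP l S ^ 2 - C (rho l S * eps l S ^ 2) * hP S ^ 2 = (X - C l) * g2P l S ^ 2 ∧
    IsCoprime (X * gP l S ^ 2) (hP S ^ 2) ∧ eps l S ≠ 0 ∧ rho l S ≠ 0 ∧
      ∀ t ∈ S, t ≠ 0 ∧ t ≠ 1 ∧ t ≠ l := by
  classical
  haveI : Infinite F := IsAlgClosed.instInfinite
  have hstar := iso_star l h2 hl0 hl1 ell hp hodd hell S hS
  have hSr : S ⊆ rts l ell := ((XX_comb l h2 hl0 hl1 ell hp hodd hell).2.1 S hS).2
  have ht : ∀ t ∈ S, t ≠ 0 ∧ t ≠ 1 ∧ t ≠ l := fun t htS =>
    (rts_card l h2 hl0 hl1 ell hodd hell).2 t (hSr htS)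
  have evg : ∀ x, eval x (gP l S) = ∏ t ∈ S, (x - l / t) := by
    intro x
    simp [gP, eval_prod]
  have evh : ∀ x, eval x (hP S) = ∏ t ∈ S, (x - t) := by
    intro x
    simp [hP, eval_prod]
  have evg1 : ∀ x, eval x (g1P l S) = ∏ t ∈ S, (x - (t - l) / (t - 1)) := by
    intro x
    simp [g1P, eval_prod]
  have evg2 : ∀ x, eval x (g2P l S) = ∏ t ∈ S, (x - l * (t - 1) / (t - l)) := by
    intro x
    simp [g2P, eval_prod]
  refine ⟨?_, ?_, ?_, ?_, ?_, ht⟩
  · refine Polynomial.funext fun x => ?_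
    simp only [eval_sub, eval_mul, eval_pow, eval_X, eval_C, eval_one, evg, evh, evg1]
    have h := hstar 1 x
    have e1 : ∏ t ∈ S, ((1 - t) ^ 2 * x ^ 2 -
        (2 * (1 + t) * (1 * t + l) - 4 * (1 + l) * 1 * t) * x + (1 * t - l) ^ 2) =
        (∏ t ∈ S, (1 - t) ^ 2) * (∏ t ∈ S, (x - (t - l) / (t - 1))) ^ 2 := by
      rw [← Finset.prod_pow, ← Finset.prod_mul_distrib]
      refine Finset.prod_congr rfl fun t htS => ?_
      have h1 : t - 1 ≠ 0 := sub_ne_zero.mpr (ht t htS).2.1
      field_simp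
      ring
    have e2 : ∏ t ∈ S, ((1 : F) - l / t) ^ 2 = (∏ t ∈ S, (1 - t) ^ 2) * eps l S ^ 2 := by
      unfold eps
      rw [← Finset.prod_pow, ← Finset.prod_mul_distrib]
      refine Finset.prod_congr rfl fun t htS => ?_
      have h1 : t - 1 ≠ 0 := sub_ne_zero.mpr (ht t htS).2.1
      have h0 : t ≠ 0 := (ht t htS).1
      field_simp
      ring
    have e3 : (∏ t ∈ S, ((1 : F) - t) ^ 2) ≠ 0 := by
      refine Finset.prod_ne_zero_iff.mpr fun t htS => pow_ne_zero 2 ?_
      exact sub_ne_zero.mpr (ht t htS).2.1.symm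
    rw [e1, e2, Finset.prod_pow S 2 (fun t => x - l / t), Finset.prod_pow S 2 (fun t => x - t)] at h
    refine mul_left_cancel₀ e3 ?_
    linear_combination h
  · refine Polynomial.funext fun x => ?_
    simp only [eval_sub, eval_mul, eval_pow, eval_X, eval_C, evg, evh, evg2]
    have h := hstar l x
    have e1 : ∏ t ∈ S, ((l - t) ^ 2 * x ^ 2 -
        (2 * (l + t) * (l * t + l) - 4 * (1 + l) * l * t) * x + (l * t - l) ^ 2) =
        (∏ t ∈ S, (l - t) ^ 2) * (∏ t ∈ S, (x - l * (t - 1) / (t - l))) ^ 2 := by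
      rw [← Finset.prod_pow, ← Finset.prod_mul_distrib]
      refine Finset.prod_congr rfl fun t htS => ?_
      have h1 : t - l ≠ 0 := sub_ne_zero.mpr (ht t htS).2.2
      field_simp
      ring
    have e2 : l * ∏ t ∈ S, (l - l / t) ^ 2 =
        (∏ t ∈ S, (l - t) ^ 2) * (rho l S * eps l S ^ 2) := by
      unfold eps rho
      rw [pow_succ, pow_mul, ← Finset.prod_const, ← Finset.prod_pow]
      have e4 : (∏ t ∈ S, (l - t) ^ 2) * ((∏ _t ∈ S, l ^ 2) * l *
          (∏ t ∈ S, ((t - 1) / (t - l)) ^ 4) * ∏ t ∈ S, ((t - l) / (t * (t - 1))) ^ 2) =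
          l * ((∏ t ∈ S, (l - t) ^ 2) * (∏ _t ∈ S, l ^ 2) *
          (∏ t ∈ S, ((t - 1) / (t - l)) ^ 4) * ∏ t ∈ S, ((t - l) / (t * (t - 1))) ^ 2) := by
        ring
      rw [e4, ← Finset.prod_mul_distrib, ← Finset.prod_mul_distrib, ← Finset.prod_mul_distrib]
      congr 1
      refine Finset.prod_congr rfl fun t htS => ?_
      have h1 : t - l ≠ 0 := sub_ne_zero.mpr (ht t htS).2.2
      have h3 : t - 1 ≠ 0 := sub_ne_zero.mpr (ht t htS).2.1
      have h0 : t ≠ 0 := (ht t htS).1
      field_simp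
      ring
    have e3 : (∏ t ∈ S, (l - t) ^ 2) ≠ 0 := by
      refine Finset.prod_ne_zero_iff.mpr fun t htS => pow_ne_zero 2 ?_
      exact sub_ne_zero.mpr (ht t htS).2.2.symm
    rw [e1, e2, Finset.prod_pow S 2 (fun t => x - l / t), Finset.prod_pow S 2 (fun t => x - t)] at h
    refine mul_left_cancel₀ e3 ?_
    linear_combination h
  · refine IsCoprime.pow_right ?_
    unfold hP
    refine IsCoprime.prod_right fun t htS => ?_
    rw [isCoprime_comm, (irreducible_X_sub_C t).coprime_iff_not_dvd, dvd_iff_isRoot, IsRoot.def,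
      eval_mul, eval_pow, eval_X, evg]
    intro h0
    have ht0 := (ht t htS).1
    have h1 : (∏ s ∈ S, (t - l / s)) = 0 := by
      rcases mul_eq_zero.mp h0 with h1 | h1
      · exact absurd h1 ht0
      · exact pow_eq_zero_iff (by norm_num) |>.mp h1
    -- the polynomial in `a`
    set q : F → F[X] := fun s => (X - C s) ^ 2 * C (t ^ 2) -
      (2 * (X + C s) * (X * C s + C l) - 4 * (1 + C l) * X * C s) * C t + (X * C s - C l) ^ 2
      with hq
    have hq0 : ∀ s ∈ S, q s ≠ 0 := by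
      intro s hs hqs
      obtain ⟨hs0, hs1, hsl⟩ := ht s hs
      have c0 : eval 0 (q s) = 0 := by rw [hqs, eval_zero]
      have c1 : eval 1 (q s) = 0 := by rw [hqs, eval_zero]
      have c2 : eval (-1) (q s) = 0 := by rw [hqs, eval_zero]
      simp only [hq, eval_add, eval_sub, eval_mul, eval_pow, eval_X, eval_C, eval_one,
        eval_ofNat] at c0 c1 c2
      have d0 : s * t - l = 0 := by
        have : (s * t - l) ^ 2 = 0 := by linear_combination c0
        exact pow_eq_zero_iff (by norm_num) |>.mp this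
      have d2 : t - s = 0 := by
        have h3 : 2 * (t - s) ^ 2 = 0 := by
          linear_combination c1 + c2 - 2 * (s * t - l) * d0
        rcases mul_eq_zero.mp h3 with h3 | h3
        · exact absurd h3 h2
        · exact pow_eq_zero_iff (by norm_num) |>.mp h3
      have hts : t = s := sub_eq_zero.mp d2
      have hl' : l = s * s := by rw [hts] at d0; exact (sub_eq_zero.mp d0).symm
      have h3 : (2 * 2) * (s * (s - 1) * (s - l)) = 0 := by
        rw [hts] at c1 c2
        have : (2 * 2) * (s * (s - 1) * (s - l)) * 2 = 0 := by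
          linear_combination c2 - c1
        rcases mul_eq_zero.mp this with h4 | h4
        · exact h4
        · exact absurd h4 h2
      rcases mul_eq_zero.mp h3 with h4 | h4
      · rcases mul_eq_zero.mp h4 with h5 | h5 <;> exact h2 h5
      · rcases mul_eq_zero.mp h4 with h5 | h5
        · rcases mul_eq_zero.mp h5 with h6 | h6
          · exact hs0 h6
          · exact hs1 (sub_eq_zero.mp h6)
        · exact hsl (sub_eq_zero.mp h5)
    have hprod : (C t - X) * ∏ s ∈ S, q s ≠ 0 := by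
      refine mul_ne_zero ?_ (Finset.prod_ne_zero_iff.mpr hq0)
      rw [← neg_ne_zero, neg_sub]
      exact X_sub_C_ne_zero t
    refine hprod (Polynomial.funext fun a => ?_)
    have h := hstar a t
    rw [Finset.prod_pow S 2 (fun s => t - l / s), h1] at h
    have h5 : ∏ s ∈ S, (t - s) ^ 2 = 0 := by
      refine Finset.prod_eq_zero htS ?_
      ring
    rw [h5] at h
    rw [eval_mul, eval_prod, eval_sub, eval_C, eval_X, eval_zero]
    have h6 : ∀ s ∈ S, eval a (q s) = (a - s) ^ 2 * t ^ 2 -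
        (2 * (a + s) * (a * s + l) - 4 * (1 + l) * a * s) * t + (a * s - l) ^ 2 := by
      intro s _
      simp only [hq, eval_add, eval_sub, eval_mul, eval_pow, eval_X, eval_C, eval_one,
        eval_ofNat]
    rw [Finset.prod_congr rfl h6]
    linear_combination -h
  · unfold eps
    refine Finset.prod_ne_zero_iff.mpr fun t htS => ?_
    obtain ⟨h0, h1, hl⟩ := ht t htS
    exact div_ne_zero (sub_ne_zero.mpr hl) (mul_ne_zero h0 (sub_ne_zero.mpr h1))
  · unfold rho
    refine mul_ne_zero (pow_ne_zero _ hl0) (Finset.prod_ne_zero_iff.mpr fun t htS => ?_)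
    obtain ⟨h0, h1, hl⟩ := ht t htS
    exact pow_ne_zero _ (div_ne_zero (sub_ne_zero.mpr h1) (sub_ne_zero.mpr hl))

end SSP
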