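import Pool.Agent.SSP.Defs
import Pool.Agent.SSP.RatDeriv

set_option autoImplicit false

namespace SSP

open Polynomial

section

variable {k : Type*} [Field k]

private theorem sdc_D_poly (D : RatFunc k → RatFunc k) (hD : IsDX D) (p : k[X]) :
    D (algebraMap k[X] (RatFunc k) p) = algebraMap k[X] (RatFunc k) (derivative p) := by
  have hD0 : D 0 = 0 := by
    have := hD.C 0
    rwa [map_zero] at this
  have hpow : ∀ n : ℕ, D (RatFunc.X ^ (n + 1)) = ((n : RatFunc k) + 1) * RatFunc.X ^ n := by
    intro n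
    induction n with
    | zero => simp [hD.X]
    | succ n ih =>
      rw [pow_succ, hD.mul, ih, hD.X]
      push_cast
      ring
  induction p using Polynomial.induction_on' with
  | add p q hp hq => rw [map_add, hD.add, hp, hq, derivative_add, map_add]
  | monomial n a =>
    rw [← C_mul_X_pow_eq_monomial, map_mul, map_pow, RatFunc.algebraMap_C, RatFunc.algebraMap_X,
      hD.mul, hD.C, mul_zero, add_zero]
    cases n with
    | zero =>
      rw [pow_zero]
      have h1 : D 1 = 0 := by
        have := hD.C 1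
        rwa [map_one] at this
      rw [h1]
      simp
    | succ n =>
      rw [hpow, derivative_C_mul_X_pow]
      rw [map_mul, RatFunc.algebraMap_C, map_pow, RatFunc.algebraMap_X]
      push_cast
      simp
      ring

private theorem sdc_sq_dvd_der {g T : k[X]} (h : g ^ 2 ∣ T) : g ∣ derivative T := by
  obtain ⟨m, rfl⟩ := h
  rw [derivative_mul, derivative_pow]
  refine Dvd.intro (C ((2 : ℕ) : k) * g ^ (2 - 1 - 1 + 1 - 1) * derivative g * m + g * derivative m) ?_
  simp
  ring

private theorem sdc_W_dvd {g T S W : k[X]} (h : g ^ 2 ∣ T)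
    (hW : W = derivative T * S - T * derivative S ∨ W = -(derivative T * S - T * derivative S)) :
    g ∣ W := by
  have h1 : g ∣ derivative T := sdc_sq_dvd_der h
  have h2 : g ∣ T := (dvd_pow_self g two_ne_zero).trans h
  have h3 : g ∣ derivative T * S - T * derivative S :=
    dvd_sub (h1.mul_right S) (h2.mul_right _)
  rcases hW with rfl | rfl
  · exact h3
  · exact (dvd_neg).2 h3

private theorem sdc_W_deg {T S W : k[X]} {t n : ℕ} (hT : T.natDegree ≤ t) (hS : S.natDegree ≤ n)
    (hn : 0 < n)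
    (hW : W = derivative T * S - T * derivative S ∨ W = -(derivative T * S - T * derivative S)) :
    W.natDegree ≤ t + n - 1 := by
  have h3 : (derivative T * S - T * derivative S).natDegree ≤ t + n - 1 := by
    refine (natDegree_sub_le _ _).trans (max_le ?_ ?_)
    · rcases Nat.eq_zero_or_pos T.natDegree with h0 | h0
      · rw [eq_C_of_natDegree_eq_zero h0, derivative_C, zero_mul, natDegree_zero]
        exact Nat.zero_le _
      · refine natDegree_mul_le.trans ?_
        have := natDegree_derivative_lt (p := T) (by omega)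
        omega
    · refine natDegree_mul_le.trans ?_
      rcases Nat.eq_zero_or_pos S.natDegree with h0 | h0
      · rw [eq_C_of_natDegree_eq_zero h0, derivative_C, natDegree_zero]
        omega
      · have := natDegree_derivative_lt (p := S) (by omega)
        omega
  rcases hW with rfl | rfl
  · exact h3
  · rw [natDegree_neg]
    exact h3

/-- the product decomposition -/
private theorem sdc_dvd {Z T1 T2 T3 T4 W : k[X]} (h12 : IsCoprime T1 T2) (h13 : IsCoprime T1 T3)
    (h14 : IsCoprime T1 T4) (h23 : IsCoprime T2 T3) (h24 : IsCoprime T2 T4)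
    (h34 : IsCoprime T3 T4) (hZ : Z ^ 2 ∣ T1 * T2 * T3 * T4)
    (hW : ∀ g : k[X], (g ^ 2 ∣ T1 ∨ g ^ 2 ∣ T2 ∨ g ^ 2 ∣ T3 ∨ g ^ 2 ∣ T4) → g ∣ W) : Z ∣ W := by
  have hZ1 : Z ∣ T1 * T2 * T3 * T4 := (dvd_pow_self Z two_ne_zero).trans hZ
  obtain ⟨a, g4, ha, hg4, rfl⟩ := exists_dvd_and_dvd_of_dvd_mul hZ1
  obtain ⟨b, g3, hb, hg3, rfl⟩ := exists_dvd_and_dvd_of_dvd_mul ha
  obtain ⟨g1, g2, hg1, hg2, rfl⟩ := exists_dvd_and_dvd_of_dvd_mul hb
  have cop : ∀ {x y s t : k[X]}, x ∣ s → y ∣ t → IsCoprime s t → IsCoprime x y :=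
    fun hx hy h => IsCoprime.of_isCoprime_of_dvd_left (IsCoprime.of_isCoprime_of_dvd_right h hy) hx
  have e1 : g1 ^ 2 ∣ T1 := by
    have h : g1 ^ 2 ∣ T1 * T2 * T3 * T4 := by
      refine dvd_trans ?_ hZ
      rw [mul_pow, mul_pow, mul_pow]
      exact Dvd.intro (g2 ^ 2 * g3 ^ 2 * g4 ^ 2) (by ring)
    have c4 : IsCoprime (g1 ^ 2) T4 := (cop hg1 dvd_rfl h14).pow_left
    have c3 : IsCoprime (g1 ^ 2) T3 := (cop hg1 dvd_rfl h13).pow_left
    have c2 : IsCoprime (g1 ^ 2) T2 := (cop hg1 dvd_rfl h12).pow_left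
    exact c2.dvd_of_dvd_mul_right (c3.dvd_of_dvd_mul_right (c4.dvd_of_dvd_mul_right h))
  have e2 : g2 ^ 2 ∣ T2 := by
    have h : g2 ^ 2 ∣ T1 * T2 * T3 * T4 := by
      refine dvd_trans ?_ hZ
      rw [mul_pow, mul_pow, mul_pow]
      exact Dvd.intro (g1 ^ 2 * g3 ^ 2 * g4 ^ 2) (by ring)
    have c4 : IsCoprime (g2 ^ 2) T4 := (cop hg2 dvd_rfl h24).pow_left
    have c3 : IsCoprime (g2 ^ 2) T3 := (cop hg2 dvd_rfl h23).pow_left
    have c1 : IsCoprime (g2 ^ 2) T1 := (cop hg2 dvd_rfl h12.symm).pow_left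
    exact c1.dvd_of_dvd_mul_left (c3.dvd_of_dvd_mul_right (c4.dvd_of_dvd_mul_right h))
  have e3 : g3 ^ 2 ∣ T3 := by
    have h : g3 ^ 2 ∣ T1 * T2 * T3 * T4 := by
      refine dvd_trans ?_ hZ
      rw [mul_pow, mul_pow, mul_pow]
      exact Dvd.intro (g1 ^ 2 * g2 ^ 2 * g4 ^ 2) (by ring)
    have c4 : IsCoprime (g3 ^ 2) T4 := (cop hg3 dvd_rfl h34).pow_left
    have c1 : IsCoprime (g3 ^ 2) (T1 * T2) :=
      ((cop hg3 dvd_rfl h13.symm).pow_left).mul_right ((cop hg3 dvd_rfl h23.symm).pow_left)
    exact c1.dvd_of_dvd_mul_left (c4.dvd_of_dvd_mul_right h)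
  have e4 : g4 ^ 2 ∣ T4 := by
    have h : g4 ^ 2 ∣ T1 * T2 * T3 * T4 := by
      refine dvd_trans ?_ hZ
      rw [mul_pow, mul_pow, mul_pow]
      exact Dvd.intro (g1 ^ 2 * g2 ^ 2 * g3 ^ 2) (by ring)
    have c1 : IsCoprime (g4 ^ 2) (T1 * T2 * T3) :=
      (((cop hg4 dvd_rfl h14.symm).pow_left).mul_right
        ((cop hg4 dvd_rfl h24.symm).pow_left)).mul_right ((cop hg4 dvd_rfl h34.symm).pow_left)
    exact c1.dvd_of_dvd_mul_left h
  have w1 := hW g1 (Or.inl e1)
  have w2 := hW g2 (Or.inr (Or.inl e2))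
  have w3 := hW g3 (Or.inr (Or.inr (Or.inl e3)))
  have w4 := hW g4 (Or.inr (Or.inr (Or.inr e4)))
  have c12 : IsCoprime g1 g2 := cop hg1 hg2 h12
  have c13 : IsCoprime g1 g3 := cop hg1 hg3 h13
  have c14 : IsCoprime g1 g4 := cop hg1 hg4 h14
  have c23 : IsCoprime g2 g3 := cop hg2 hg3 h23
  have c24 : IsCoprime g2 g4 := cop hg2 hg4 h24
  have c34 : IsCoprime g3 g4 := cop hg3 hg4 h34
  exact IsCoprime.mul_dvd ((c14.mul_left c24).mul_left c34)
    (IsCoprime.mul_dvd (c13.mul_left c23) (IsCoprime.mul_dvd c12 w1 w2) w3) w4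

private theorem sdc_key (l d : k) (hl0 : l ≠ 0) (hl1 : l ≠ 1) (hd : d ≠ 0) (U V Z : k[X])
    (hUV : IsCoprime U V) (hZ : Z ≠ 0)
    (h : C d * (X * (X - 1) * (X - C l)) * Z ^ 2 = U * V * (U - V) * (U - C l * V)) :
    ∃ c : k, derivative U * V - U * derivative V = C c * Z := by
  set W : k[X] := derivative U * V - U * derivative V with hW
  have hlu : IsUnit (C l : k[X]) := isUnit_C.2 (isUnit_iff_ne_zero.2 hl0)
  have hl1u : IsUnit (C (1 - l) : k[X]) := isUnit_C.2 (isUnit_iff_ne_zero.2 (sub_ne_zero.2 hl1.symm))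
  have h12 := hUV
  have h13 : IsCoprime U (U - V) := by
    have := (hUV.neg_right).add_mul_left_right 1
    rw [mul_one] at this
    rw [show U - V = -V + U by ring]
    exact this
  have h14 : IsCoprime U (U - C l * V) := by
    have h1 : IsCoprime U (C l * V) := (isCoprime_mul_unit_left_right hlu U V).2 hUV
    have := (h1.neg_right).add_mul_left_right 1
    rw [mul_one] at this
    rw [show U - C l * V = -(C l * V) + U by ring]
    exact this
  have h23 : IsCoprime V (U - V) := by
    have := (hUV.symm).add_mul_left_right (-1)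
    rw [show U - V = U + V * (-1) by ring]
    exact this
  have h24 : IsCoprime V (U - C l * V) := by
    have := (hUV.symm).add_mul_left_right (-C l)
    rw [show U - C l * V = U + V * (-C l) by ring]
    exact this
  have h34 : IsCoprime (U - V) (U - C l * V) := by
    have h1 : IsCoprime (U - V) (C (1 - l) * V) :=
      (isCoprime_mul_unit_left_right hl1u (U - V) V).2 h23.symm
    have := h1.add_mul_left_right 1
    rw [mul_one] at this
    rw [show U - C l * V = C (1 - l) * V + (U - V) by rw [C_sub, C_1]; ring]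
    exact this
  have hW1 : W = derivative U * V - U * derivative V := rfl
  have hW2 : W = -(derivative V * U - V * derivative U) := by rw [hW]; ring
  have hW3 : W = derivative (U - V) * V - (U - V) * derivative V := by
    rw [hW, derivative_sub]; ring
  have hW4 : W = derivative (U - C l * V) * V - (U - C l * V) * derivative V := by
    rw [hW, derivative_sub, derivative_C_mul]; ring
  have hdvd : Z ∣ W := by
    refine sdc_dvd h12 h13 h14 h23 h24 h34 ⟨C d * (X * (X - 1) * (X - C l)), ?_⟩ ?_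
    · rw [← h]; ring
    · rintro g (hg | hg | hg | hg)
      · exact sdc_W_dvd hg (Or.inl hW1)
      · exact sdc_W_dvd hg (Or.inr hW2)
      · exact sdc_W_dvd hg (Or.inl hW3)
      · exact sdc_W_dvd hg (Or.inl hW4)
  -- degrees
  have hX0 : (X : k[X]) ≠ 0 := X_ne_zero
  have hX1 : (X - 1 : k[X]) ≠ 0 := by
    rw [← C_1]; exact X_sub_C_ne_zero 1
  have hXl : (X - C l : k[X]) ≠ 0 := X_sub_C_ne_zero l
  have hCd : (C d : k[X]) ≠ 0 := C_ne_zero.2 hd
  have hL : C d * (X * (X - 1) * (X - C l)) * Z ^ 2 ≠ 0 :=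
    mul_ne_zero (mul_ne_zero hCd (mul_ne_zero (mul_ne_zero hX0 hX1) hXl)) (pow_ne_zero 2 hZ)
  have hR := hL
  rw [h] at hR
  have h4ne : U - C l * V ≠ 0 := right_ne_zero_of_mul hR
  have h3ne : U - V ≠ 0 := right_ne_zero_of_mul (left_ne_zero_of_mul hR)
  have h2ne : V ≠ 0 := right_ne_zero_of_mul (left_ne_zero_of_mul (left_ne_zero_of_mul hR))
  have h1ne : U ≠ 0 := left_ne_zero_of_mul (left_ne_zero_of_mul (left_ne_zero_of_mul hR))
  have hdeg : 3 + 2 * Z.natDegree =
      U.natDegree + V.natDegree + (U - V).natDegree + (U - C l * V).natDegree := by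
    have e1 := congrArg natDegree h
    rw [natDegree_mul (left_ne_zero_of_mul (left_ne_zero_of_mul hR) |> fun h => mul_ne_zero h h3ne)
      h4ne, natDegree_mul (mul_ne_zero h1ne h2ne) h3ne, natDegree_mul h1ne h2ne] at e1
    rw [natDegree_mul (mul_ne_zero hCd (mul_ne_zero (mul_ne_zero hX0 hX1) hXl)) (pow_ne_zero 2 hZ),
      natDegree_mul hCd (mul_ne_zero (mul_ne_zero hX0 hX1) hXl), natDegree_mul
      (mul_ne_zero hX0 hX1) hXl, natDegree_mul hX0 hX1, natDegree_C, natDegree_X,
      natDegree_X_sub_C, natDegree_pow] at e1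
    have e2 : (X - 1 : k[X]).natDegree = 1 := by
      rw [← C_1]; exact natDegree_X_sub_C 1
    rw [e2] at e1
    omega
  set n := max U.natDegree V.natDegree with hn
  have u1 : U.natDegree ≤ n := le_max_left _ _
  have u2 : V.natDegree ≤ n := le_max_right _ _
  have u2' : (C l * V).natDegree = V.natDegree := natDegree_C_mul hl0
  have u3 : (U - V).natDegree ≤ n := (natDegree_sub_le _ _).trans (max_le u1 u2)
  have u4 : (U - C l * V).natDegree ≤ n :=
    (natDegree_sub_le _ _).trans (max_le u1 (by rw [u2']; exact u2))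
  have hmax : n = U.natDegree ∨ n = V.natDegree := by
    rcases max_choice U.natDegree V.natDegree with h | h
    · exact Or.inl h
    · exact Or.inr h
  -- two of the four forms determine the others
  have p13 : V.natDegree ≤ max U.natDegree (U - V).natDegree := by
    have : V = U - (U - V) := by ring
    conv_lhs => rw [this]
    exact natDegree_sub_le _ _
  have p23 : U.natDegree ≤ max (U - V).natDegree V.natDegree := by
    have : U = (U - V) + V := by ring
    conv_lhs => rw [this]
    exact natDegree_add_le _ _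
  have p14 : V.natDegree ≤ max U.natDegree (U - C l * V).natDegree := by
    rw [← u2']
    have : C l * V = U - (U - C l * V) := by ring
    conv_lhs => rw [this]
    exact natDegree_sub_le _ _
  have p24 : U.natDegree ≤ max (U - C l * V).natDegree V.natDegree := by
    have : U = (U - C l * V) + C l * V := by ring
    conv_lhs => rw [this]
    refine (natDegree_add_le _ _).trans ?_
    rw [u2']
  have p34 : V.natDegree ≤ max (U - V).natDegree (U - C l * V).natDegree := by
    have e : (C (1 - l) * V).natDegree = V.natDegree := natDegree_C_mul (sub_ne_zero.2 hl1.symm)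
    rw [← e]
    have : C (1 - l) * V = (U - C l * V) - (U - V) := by
      rw [C_sub, C_1]; ring
    conv_lhs => rw [this]
    refine (natDegree_sub_le _ _).trans ?_
    rw [max_comm]
  have hWdeg : W.natDegree ≤ Z.natDegree := by
    by_cases c1 : U.natDegree < n
    · have hb := sdc_W_deg (T := U) (S := V) (W := W) (t := U.natDegree) (n := n) le_rfl u2
        (by omega) (Or.inl hW1)
      omega
    · by_cases c2 : V.natDegree < n
      · have hb := sdc_W_deg (T := V) (S := U) (W := W) (t := V.natDegree) (n := n) le_rfl u1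
          (by omega) (Or.inr hW2)
        omega
      · by_cases c3 : (U - V).natDegree < n
        · have hb := sdc_W_deg (T := U - V) (S := V) (W := W) (t := (U - V).natDegree) (n := n)
            le_rfl u2 (by omega) (Or.inl hW3)
          omega
        · by_cases c4 : (U - C l * V).natDegree < n
          · have hb := sdc_W_deg (T := U - C l * V) (S := V) (W := W)
              (t := (U - C l * V).natDegree) (n := n) le_rfl u2 (by omega) (Or.inl hW4)
            omega
          · omega
  obtain ⟨q, hq⟩ := hdvd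
  by_cases hW0 : W = 0
  · exact ⟨0, by rw [hW0]; simp⟩
  · have hq0 : q ≠ 0 := by
      rintro rfl
      exact hW0 (by rw [hq, mul_zero])
    have : q.natDegree = 0 := by
      rw [hq, natDegree_mul hZ hq0] at hWdeg
      omega
    refine ⟨q.coeff 0, ?_⟩
    rw [hq, mul_comm]
    congr 1
    exact eq_C_of_natDegree_eq_zero this

/-- a rational function whose square times a squarefree polynomial is a polynomial -/
private theorem sdc_int (l d : k) (hl0 : l ≠ 0) (hl1 : l ≠ 1) (hd : d ≠ 0) (z : RatFunc k)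
    (G : k[X])
    (h : algebraMap k[X] (RatFunc k) (C d * (X * (X - 1) * (X - C l))) * z ^ 2 =
      algebraMap k[X] (RatFunc k) G) : ∃ Z : k[X], algebraMap k[X] (RatFunc k) Z = z := by
  set M := z.denom with hM
  set N := z.num with hN
  have hM0 : M ≠ 0 := z.denom_ne_zero
  have hz : z = algebraMap k[X] (RatFunc k) N / algebraMap k[X] (RatFunc k) M :=
    (RatFunc.num_div_denom z).symm
  have hM0' : algebraMap k[X] (RatFunc k) M ≠ 0 := RatFunc.algebraMap_ne_zero hM0
  have h1 : C d * (X * (X - 1) * (X - C l)) * N ^ 2 = G * M ^ 2 := by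
    apply RatFunc.algebraMap_injective k
    rw [map_mul, map_pow, map_mul (algebraMap k[X] (RatFunc k)) G, map_pow, ← h, hz]
    field_simp
  have hcop : IsCoprime (M ^ 2) (N ^ 2) := (RatFunc.isCoprime_num_denom z).symm.pow
  have h2 : M ^ 2 ∣ C d * (X * (X - 1) * (X - C l)) :=
    hcop.dvd_of_dvd_mul_right ⟨G, by rw [h1]; ring⟩
  have hdu : IsUnit (C d : k[X]) := isUnit_C.2 (isUnit_iff_ne_zero.2 hd)
  have h3 : M ^ 2 ∣ X * (X - 1) * (X - C l) := (hdu.dvd_mul_left).1 h2
  have hsep : (X * (X - 1) * (X - C l) : k[X]).Separable := by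
    have e0 : (X : k[X]) = X - C 0 := by rw [C_0, sub_zero]
    have e1 : (X - 1 : k[X]) = X - C 1 := by rw [C_1]
    have s0 : (X : k[X]).Separable := separable_X
    have s1 : (X - 1 : k[X]).Separable := by rw [e1]; exact separable_X_sub_C
    have sl : (X - C l : k[X]).Separable := separable_X_sub_C
    have cab : ∀ a b : k, a ≠ b → IsCoprime (X - C a : k[X]) (X - C b) := fun a b hab =>
      isCoprime_X_sub_C_of_isUnit_sub (isUnit_iff_ne_zero.2 (sub_ne_zero.2 hab))
    have c01 : IsCoprime (X : k[X]) (X - 1) := by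
      have := cab 0 1 zero_ne_one
      rwa [C_0, sub_zero, C_1] at this
    have c0l : IsCoprime (X : k[X]) (X - C l) := by
      have := cab 0 l hl0.symm
      rwa [C_0, sub_zero] at this
    have c1l : IsCoprime (X - 1 : k[X]) (X - C l) := by
      have := cab 1 l hl1.symm
      rwa [C_1] at this
    exact (s0.mul s1 c01).mul sl (c0l.mul_left c1l)
  have hMu : IsUnit M := by
    have := hsep.squarefree
    rw [sq] at h3
    exact this M h3
  obtain ⟨u, hu⟩ := hMu
  refine ⟨N * ↑u⁻¹, ?_⟩
  have hu' : (↑u⁻¹ : k[X]) * M = 1 := by rw [← hu]; simp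
  rw [hz, map_mul, eq_div_iff hM0', mul_assoc, ← map_mul, hu', map_one, mul_one]

end

/-- L3 (the invariant is constant). -/
theorem sD_const {k : Type*} [Field k] (l : k) (h2 : (2 : k) ≠ 0) (hl0 : l ≠ 0) (hl1 : l ≠ 1)
    (d : k) (hd : d ≠ 0) (D : RatFunc k → RatFunc k) (hD : IsDX D)
    (P : (Wt l (RatFunc.C d * fL l)).toAffine.Point) :
    ∃ c : k, sD D (RatFunc.C d * fL l) P = RatFunc.C c := by
  match P with
  | .zero => exact ⟨0, by simp [sD]⟩
  | .some x y hxy =>
    set φ : RatFunc k := RatFunc.C d * fL l with hφ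
    show ∃ c : k, D (x / φ) * φ ^ 2 / y = RatFunc.C c
    by_cases hy : y = 0
    · exact ⟨0, by rw [hy, div_zero, map_zero]⟩
    have hφpoly : φ = algebraMap k[X] (RatFunc k) (C d * (X * (X - 1) * (X - C l))) := by
      rw [hφ, fL]
      simp only [map_mul, map_sub, map_one, RatFunc.algebraMap_C, RatFunc.algebraMap_X]
    have hφ0 : φ ≠ 0 := by
      rw [hφpoly]
      apply RatFunc.algebraMap_ne_zero
      have hX1 : (X - 1 : k[X]) ≠ 0 := by
        rw [← C_1]; exact X_sub_C_ne_zero 1
      exact mul_ne_zero (C_ne_zero.2 hd) (mul_ne_zero (mul_ne_zero X_ne_zero hX1)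
        (X_sub_C_ne_zero l))
    have heq : y ^ 2 = x ^ 3 + (-(1 + RatFunc.C l) * φ) * x ^ 2 + (RatFunc.C l * φ ^ 2) * x := by
      have := (WeierstrassCurve.Affine.equation_iff x y).1 hxy.1
      simp only [Wt, crv] at this
      linear_combination this
    set Xc : RatFunc k := x / φ with hXc
    set Yc : RatFunc k := y / φ ^ 2 with hYc
    have hx : x = Xc * φ := by rw [hXc]; field_simp
    have hy' : y = Yc * φ ^ 2 := by rw [hYc]; field_simp
    have hYc0 : Yc ≠ 0 := div_ne_zero hy (pow_ne_zero 2 hφ0)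
    have hcur : φ * Yc ^ 2 = Xc * (Xc - 1) * (Xc - RatFunc.C l) := by
      have h3 : φ ^ 3 * (φ * Yc ^ 2) = φ ^ 3 * (Xc * (Xc - 1) * (Xc - RatFunc.C l)) := by
        rw [hx, hy'] at heq
        linear_combination heq
      exact mul_left_cancel₀ (pow_ne_zero 3 hφ0) h3
    set U := Xc.num with hU
    set V := Xc.denom with hV
    have hV0 : algebraMap k[X] (RatFunc k) V ≠ 0 := RatFunc.algebraMap_ne_zero Xc.denom_ne_zero
    have hXUV : Xc = algebraMap k[X] (RatFunc k) U / algebraMap k[X] (RatFunc k) V :=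
      (RatFunc.num_div_denom Xc).symm
    have hG : algebraMap k[X] (RatFunc k) (C d * (X * (X - 1) * (X - C l))) *
        (Yc * algebraMap k[X] (RatFunc k) V ^ 2) ^ 2 =
        algebraMap k[X] (RatFunc k) (U * V * (U - V) * (U - C l * V)) := by
      rw [← hφpoly]
      simp only [map_mul, map_sub, RatFunc.algebraMap_C]
      have h4 : φ * (Yc * algebraMap k[X] (RatFunc k) V ^ 2) ^ 2 =
          (φ * Yc ^ 2) * algebraMap k[X] (RatFunc k) V ^ 4 := by ring
      rw [h4, hcur, hXUV]
      field_simp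
    obtain ⟨Z, hZ⟩ := sdc_int l d hl0 hl1 hd _ _ hG
    have hZ0 : Z ≠ 0 := by
      rintro rfl
      rw [map_zero] at hZ
      exact mul_ne_zero hYc0 (pow_ne_zero 2 hV0) hZ.symm
    have hpoly : C d * (X * (X - 1) * (X - C l)) * Z ^ 2 = U * V * (U - V) * (U - C l * V) := by
      apply RatFunc.algebraMap_injective k
      rw [← hG, ← hZ, map_mul, map_pow]
    obtain ⟨c, hc⟩ := sdc_key l d hl0 hl1 hd U V Z (RatFunc.isCoprime_num_denom Xc) hZ0 hpoly
    refine ⟨c, ?_⟩
    -- derivative of the quotient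
    have hDq : D Xc * algebraMap k[X] (RatFunc k) V ^ 2 =
        algebraMap k[X] (RatFunc k) (derivative U * V - U * derivative V) := by
      have h5 : algebraMap k[X] (RatFunc k) U = Xc * algebraMap k[X] (RatFunc k) V := by
        rw [hXUV]; field_simp
      have h6 := congrArg D h5
      rw [hD.mul, sdc_D_poly D hD, sdc_D_poly D hD] at h6
      rw [map_sub, map_mul, map_mul, h6, h5]
      ring
    rw [hc, map_mul, RatFunc.algebraMap_C, hZ] at hDq
    have h7 : D Xc = RatFunc.C c * Yc := by
      have h8 : D Xc * algebraMap k[X] (RatFunc k) V ^ 2 =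
          (RatFunc.C c * Yc) * algebraMap k[X] (RatFunc k) V ^ 2 := by
        rw [hDq]; ring
      exact mul_right_cancel₀ (pow_ne_zero 2 hV0) h8
    rw [h7, hYc]
    field_simp

end SSP
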