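import Pool.Agent.SSP.Defs
import Pool.Agent.SSP.RatDeriv
import Pool.Agent.SSP.Torsion
import Pool.Agent.SSP.XXComb
import Pool.Agent.SSP.IsoIds
import Pool.Agent.SSP.SDConst
import Pool.Agent.SSP.Hasse
import Pool.Agent.SSP.Count

set_option autoImplicit false

namespace SSP

open Polynomial

section aux

variable {k : Type*} [Field k]

private theorem boi_der_neg {D : RatFunc k → RatFunc k} (hD : IsDX D) (x : RatFunc k) :
    D (-x) = - D x := by
  have h := hD.mul (-1) x
  have h1 : D (-1) = 0 := by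
    have := hD.C (-1)
    rwa [map_neg, map_one] at this
  rw [h1] at h
  rw [neg_one_mul] at h
  rw [h]; ring

private theorem boi_der_one {D : RatFunc k → RatFunc k} (hD : IsDX D) :
    D 1 = 0 := by
  have := hD.C 1
  rwa [map_one] at this

private theorem boi_der_div {D : RatFunc k → RatFunc k} (hD : IsDX D) (u v : RatFunc k)
    (hv : v ≠ 0) : D (u / v) * v ^ 2 = D u * v - u * D v := by
  have h := hD.mul (u / v) v
  rw [div_mul_cancel₀ _ hv] at h
  have : D (u / v) * v ^ 2 = v * (v * D (u / v)) := by ring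
  rw [this]
  have h2 : v * D (u / v) = D u - u / v * D v := by rw [h]; ring
  rw [h2]
  field_simp

/-- the s-invariant is constant, for the twist by minus one -/
private theorem boi_const (l : k) (h2 : (2 : k) ≠ 0) (hl0 : l ≠ 0) (hl1 : l ≠ 1)
    (D : RatFunc k → RatFunc k) (hD : IsDX D) (φ : RatFunc k) (hφ : φ = RatFunc.C (-1) * fL l)
    (P : (Wt l φ).toAffine.Point) :
    ∃ c : k, sD D φ P = RatFunc.C c := by
  subst hφ
  exact sD_const l h2 hl0 hl1 (-1) (by simp) D hD P

private theorem boi_fL_ne (l : k) : fL l ≠ 0 := by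
  unfold fL
  have hx : (RatFunc.X : RatFunc k) ≠ 0 := RatFunc.X_ne_zero
  have hc : ∀ c : k, (RatFunc.X : RatFunc k) - RatFunc.C c ≠ 0 := by
    intro c h
    have h1 : algebraMap k[X] (RatFunc k) (X - C c) = 0 := by
      rw [map_sub, RatFunc.algebraMap_X, RatFunc.algebraMap_C]; exact h
    have h2 := (map_eq_zero_iff _ (RatFunc.algebraMap_injective k)).mp h1
    exact X_sub_C_ne_zero c h2
  have h1 := hc 1
  rw [map_one] at h1
  exact mul_ne_zero (mul_ne_zero hx h1) (hc l)

/-- Coefficient comparison in the Wronskian. -/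
private theorem boi_lead (G H G1 G2 : k[X]) (m : ℕ) (hG : G.Monic) (hGd : G.natDegree = m)
    (hH : H.Monic) (hHd : H.natDegree = m) (hG1 : G1.Monic) (hG1d : G1.natDegree = m)
    (hG2 : G2.Monic) (hG2d : G2.natDegree = m) (e s : k)
    (h : C (-e) * (derivative (X * G ^ 2) * H ^ 2 - X * G ^ 2 * derivative (H ^ 2)) =
      C s * (G * G1 * G2 * H)) : -e = s := by
  have hU : (X * G ^ 2).Monic := monic_X.mul (hG.pow 2)
  have hUd : (X * G ^ 2).natDegree = 2 * m + 1 := by
    rw [monic_X.natDegree_mul (hG.pow 2), hG.natDegree_pow, natDegree_X, hGd]; ring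
  have hV : (H ^ 2).Monic := hH.pow 2
  have hVd : (H ^ 2).natDegree = 2 * m := by
    rw [hH.natDegree_pow, hHd]
  have hR : (G * G1 * G2 * H).Monic := ((hG.mul hG1).mul hG2).mul hH
  have hRd : (G * G1 * G2 * H).natDegree = 4 * m := by
    rw [((hG.mul hG1).mul hG2).natDegree_mul hH, (hG.mul hG1).natDegree_mul hG2,
      hG.natDegree_mul hG1]
    omega
  have hRc : (G * G1 * G2 * H).coeff (4 * m) = 1 := by
    rw [← hRd]; exact hR.coeff_natDegree
  have hU1 : (derivative (X * G ^ 2) * H ^ 2).coeff (4 * m) = 2 * (m : k) + 1 := by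
    have e1 : 4 * m = 2 * m + 2 * m := by ring
    rw [e1, coeff_mul_add_eq_of_natDegree_le]
    · rw [coeff_derivative]
      have : (X * G ^ 2).coeff (2 * m + 1) = 1 := by
        rw [← hUd]; exact hU.coeff_natDegree
      rw [this]
      have h3 : (H ^ 2).coeff (2 * m) = 1 := by
        rw [← hVd]; exact hV.coeff_natDegree
      rw [h3]
      push_cast; ring
    · refine (natDegree_derivative_le _).trans ?_
      omega
    · omega
  have hV1 : (X * G ^ 2 * derivative (H ^ 2)).coeff (4 * m) = 2 * (m : k) := by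
    rcases Nat.eq_zero_or_pos m with hm | hm
    · subst hm
      have : H = 1 := hH.natDegree_eq_zero.mp hHd
      rw [this]; simp
    · have e1 : 4 * m = (2 * m + 1) + (2 * m - 1) := by omega
      rw [e1, coeff_mul_add_eq_of_natDegree_le]
      · rw [coeff_derivative]
        have : (X * G ^ 2).coeff (2 * m + 1) = 1 := by
          rw [← hUd]; exact hU.coeff_natDegree
        rw [this]
        have e2 : 2 * m - 1 + 1 = 2 * m := by omega
        have h3 : (H ^ 2).coeff (2 * m) = 1 := by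
          rw [← hVd]; exact hV.coeff_natDegree
        rw [e2, h3]
        have e3 : ((2 * m - 1 : ℕ) : k) + 1 = ((2 * m : ℕ) : k) := by
          rw [← e2]; push_cast; simp
        rw [e3]; push_cast; ring
      · omega
      · refine (natDegree_derivative_le _).trans ?_
        omega
  have hc := congrArg (fun q : k[X] => q.coeff (4 * m)) h
  simp only [coeff_C_mul, coeff_sub, hU1, hV1, hRc] at hc
  linear_combination hc

/-- The point of the twist by minus one and its s-invariant. -/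
private theorem boi_point (l e : k) (h2 : (2 : k) ≠ 0) (hl0 : l ≠ 0) (hl1 : l ≠ 1)
    (D : RatFunc k → RatFunc k) (hD : IsDX D)
    (hDp : ∀ p : k[X], D (algebraMap k[X] (RatFunc k) p) =
      algebraMap k[X] (RatFunc k) (derivative p))
    (G H G1 G2 : k[X]) (m : ℕ) (hG : G.Monic) (hGd : G.natDegree = m)
    (hH : H.Monic) (hHd : H.natDegree = m) (hG1 : G1.Monic) (hG1d : G1.natDegree = m)
    (hG2 : G2.Monic) (hG2d : G2.natDegree = m) (he : e ≠ 0)
    (i1 : X * G ^ 2 - C (e ^ 2) * H ^ 2 = (X - 1) * G1 ^ 2)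
    (i2 : X * G ^ 2 - C ((1 - l) * e ^ 2) * H ^ 2 = (X - C l) * G2 ^ 2) :
    ∃ P : (Wt l (-fL l)).toAffine.Point, sD D (-fL l) P = RatFunc.C (-e) := by
  set A := algebraMap k[X] (RatFunc k) with hA
  have hAinj : Function.Injective A := RatFunc.algebraMap_injective k
  have hne : ∀ q : k[X], q.Monic → A q ≠ 0 := fun q hq h =>
    hq.ne_zero (hAinj (by rw [h, map_zero]))
  have hg := hne G hG
  have hh := hne H hH
  have hg1 := hne G1 hG1
  have hg2 := hne G2 hG2
  have hE : A (C e) = RatFunc.C e := RatFunc.algebraMap_C e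
  have hL : A (C l) = RatFunc.C l := RatFunc.algebraMap_C l
  have hX : A X = RatFunc.X := RatFunc.algebraMap_X
  have hCe : RatFunc.C e ≠ 0 := by
    intro h
    exact he (RatFunc.C.injective (by rw [h, map_zero]))
  have j1 : RatFunc.X * (A G) ^ 2 - (RatFunc.C e) ^ 2 * (A H) ^ 2 =
      (RatFunc.X - 1) * (A G1) ^ 2 := by
    have := congrArg A i1
    simp only [map_sub, map_mul, map_pow, map_one, hX, hE] at this
    exact this
  have j2 : RatFunc.X * (A G) ^ 2 - (1 - RatFunc.C l) * (RatFunc.C e) ^ 2 * (A H) ^ 2 =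
      (RatFunc.X - RatFunc.C l) * (A G2) ^ 2 := by
    have := congrArg A i2
    simp only [map_sub, map_mul, map_pow, map_one, hX, hE, hL] at this
    exact this
  have hfL : fL l = RatFunc.X * (RatFunc.X - 1) * (RatFunc.X - RatFunc.C l) := rfl
  have hφ0 : -fL l ≠ 0 := neg_ne_zero.mpr (boi_fL_ne l)
  have h2' : (2 : RatFunc k) ≠ 0 := by
    intro h
    apply h2
    apply RatFunc.C.injective
    rw [map_ofNat, h, map_zero]
  set Xc : RatFunc k := 1 - RatFunc.X * (A G) ^ 2 / ((RatFunc.C e) ^ 2 * (A H) ^ 2) with hXc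
  set Z : RatFunc k := A G * A G1 * A G2 / ((RatFunc.C e) ^ 3 * (A H) ^ 3) with hZ
  have hZ0 : Z ≠ 0 := by
    rw [hZ]
    exact div_ne_zero (mul_ne_zero (mul_ne_zero hg hg1) hg2)
      (mul_ne_zero (pow_ne_zero _ hCe) (pow_ne_zero _ hh))
  have hW : (RatFunc.C e) ^ 2 * (A H) ^ 2 ≠ 0 := mul_ne_zero (pow_ne_zero _ hCe) (pow_ne_zero _ hh)
  have k1 : Xc = -((RatFunc.X - 1) * (A G1) ^ 2) / ((RatFunc.C e) ^ 2 * (A H) ^ 2) := by
    rw [hXc, ← j1]; field_simp; ring
  have k2 : Xc - 1 = -(RatFunc.X * (A G) ^ 2) / ((RatFunc.C e) ^ 2 * (A H) ^ 2) := by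
    rw [hXc]; ring
  have k3 : Xc - RatFunc.C l =
      -((RatFunc.X - RatFunc.C l) * (A G2) ^ 2) / ((RatFunc.C e) ^ 2 * (A H) ^ 2) := by
    rw [hXc, ← j2]; field_simp; ring
  have hcurve : (-fL l) * Z ^ 2 = Xc * (Xc - 1) * (Xc - RatFunc.C l) := by
    rw [k2, k3, k1, hZ, hfL]
    field_simp
  have hns : (Wt l (-fL l)).toAffine.Nonsingular ((-fL l) * Xc) ((-fL l) ^ 2 * Z) := by
    rw [WeierstrassCurve.Affine.nonsingular_iff']
    constructor
    · rw [WeierstrassCurve.Affine.equation_iff']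
      simp only [Wt, crv]
      linear_combination ((-fL l) ^ 3) * hcurve
    · right
      simp only [Wt, crv]
      intro h
      have : 2 * ((-fL l) ^ 2 * Z) = 0 := by linear_combination h
      exact mul_ne_zero h2' (mul_ne_zero (pow_ne_zero _ hφ0) hZ0) this
  refine ⟨.some _ _ hns, ?_⟩
  obtain ⟨s, hs⟩ := boi_const l h2 hl0 hl1 D hD (-fL l) (by simp) (.some _ _ hns)
  rw [hs]
  congr 1
  symm
  have hs1 : D (-fL l * Xc / -fL l) * (-fL l) ^ 2 / ((-fL l) ^ 2 * Z) = RatFunc.C s := hs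
  rw [mul_div_cancel_left₀ _ hφ0,
    div_eq_iff (mul_ne_zero (pow_ne_zero _ hφ0) hZ0)] at hs1
  have hs2 : D Xc = RatFunc.C s * Z := by
    apply mul_right_cancel₀ (pow_ne_zero 2 hφ0)
    linear_combination hs1
  have hv : A (C (e ^ 2) * H ^ 2) = (RatFunc.C e) ^ 2 * (A H) ^ 2 := by
    rw [map_mul, C_pow, map_pow, map_pow, hE]
  have hu : A (X * G ^ 2) = RatFunc.X * (A G) ^ 2 := by
    rw [map_mul, map_pow, hX]
  have hXc2 : Xc = 1 + -(A (X * G ^ 2) / A (C (e ^ 2) * H ^ 2)) := by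
    rw [hXc, hv, hu]; ring
  have hv0 : A (C (e ^ 2) * H ^ 2) ≠ 0 := by rw [hv]; exact hW
  have hdd := boi_der_div hD (A (X * G ^ 2)) (A (C (e ^ 2) * H ^ 2)) hv0
  rw [hXc2, hD.add, boi_der_one hD, boi_der_neg hD, zero_add] at hs2
  have hs3 : -(RatFunc.C s * Z) * A (C (e ^ 2) * H ^ 2) ^ 2 =
      A (derivative (X * G ^ 2)) * A (C (e ^ 2) * H ^ 2) -
        A (X * G ^ 2) * A (derivative (C (e ^ 2) * H ^ 2)) := by
    rw [← hDp, ← hDp, ← hdd, ← hs2]; ring
  have hZv : Z * A (C (e ^ 2) * H ^ 2) ^ 2 = RatFunc.C e * A (G * G1 * G2 * H) := by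
    rw [hv, hZ, map_mul, map_mul, map_mul]
    field_simp
  have hder : A (derivative (C (e ^ 2) * H ^ 2)) =
      (RatFunc.C e) ^ 2 * A (derivative (H ^ 2)) := by
    rw [derivative_C_mul, map_mul, C_pow, map_pow, hE]
  have hS : A (C s) = RatFunc.C s := RatFunc.algebraMap_C s
  have hfin : A (C (-e) * (derivative (X * G ^ 2) * H ^ 2 - X * G ^ 2 * derivative (H ^ 2))) =
      A (C s * (G * G1 * G2 * H)) := by
    apply mul_left_cancel₀ hCe
    have e1 : A (C (-e) * (derivative (X * G ^ 2) * H ^ 2 - X * G ^ 2 * derivative (H ^ 2))) =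
        -RatFunc.C e * (A (derivative (X * G ^ 2)) * (A H) ^ 2 -
          A (X * G ^ 2) * A (derivative (H ^ 2))) := by
      rw [map_mul, C_neg, map_neg, hE, map_sub, map_mul, map_pow, map_mul A (X * G ^ 2)]
    have e2 : A (C s * (G * G1 * G2 * H)) = RatFunc.C s * A (G * G1 * G2 * H) := by
      rw [map_mul, hS]
    rw [e1, e2]
    rw [hder, hv] at hs3
    rw [hv] at hZv
    linear_combination hs3 + RatFunc.C s * hZv
  exact boi_lead G H G1 G2 m hG hGd hH hHd hG1 hG1d hG2 hG2d e s (hAinj hfin)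

/-- the normalising constant is fixed by the power map -/
private theorem boi_eps (p : ℕ) [Fact p.Prime] [CharP k p] (l : k) (S : Finset k) (t : ℕ)
    (hl : l ^ (p ^ t) = l) (hst : ∀ x ∈ S, x ^ (p ^ t) ∈ S) :
    (eps l S) ^ (p ^ t) = eps l S := by
  have : ExpChar k p := ExpChar.prime Fact.out
  have hinj : Function.Injective (fun x : k => x ^ (p ^ t)) := by
    intro x y hxy
    have h1 : iterateFrobenius k p t x = iterateFrobenius k p t y := by
      simpa [iterateFrobenius_def] using hxy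
    exact (iterateFrobenius k p t).injective h1
  unfold eps
  rw [← Finset.prod_pow]
  refine Finset.prod_nbij (fun x => x ^ (p ^ t)) hst (hinj.injOn) ?_ ?_
  · exact Finset.surjOn_of_injOn_of_card_le _ (fun x hx => hst x hx) hinj.injOn le_rfl
  · intro x _
    have h1 : (x - l) ^ (p ^ t) = x ^ (p ^ t) - l := by
      rw [sub_pow_expChar_pow, hl]
    have h2 : (x - 1) ^ (p ^ t) = x ^ (p ^ t) - 1 := by
      rw [sub_pow_expChar_pow, one_pow]
    simp only [div_pow, mul_pow, h1, h2]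

private theorem boi_pow (p : ℕ) (hp : Odd p) (s : k) (h : s + s ^ p = 0) (t : ℕ) :
    s ^ (p ^ t) = (-1) ^ t * s := by
  induction t with
  | zero => simp
  | succ n ih =>
    rw [pow_succ, pow_mul, ih, mul_pow, ← pow_mul, mul_comm n p, pow_mul, hp.neg_one_pow]
    have : s ^ p = -s := by linear_combination h
    rw [this, pow_succ]; ring

end aux

variable (p : ℕ) [Fact p.Prime] (l : ZMod p)

private theorem boi_main {k : Type*} [Field k] [IsAlgClosed k] (a : ZMod p →+* k)
    (hp4 : p % 4 = 3) (hl0 : l ≠ 0) (hl1 : l ≠ 1) (ell : ℕ) (hp : ell.Prime)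
    (hodd : Odd ell) (hne : ell ≠ p) (S : Finset k) (hS : S ∈ XX (a l) ell)
    (t : ℕ) (ht : Odd t) (hst : ∀ x ∈ S, x ^ (p ^ t) ∈ S) (hrho : rho (a l) S = 1 - a l) :
    Bal p l := by
  have hpp : p.Prime := Fact.out
  have hp2 : p ≠ 2 := by omega
  have hpo : Odd p := hpp.odd_of_ne_two hp2
  have : CharP k p := charP_of_injective_ringHom a.injective p
  have h2 : (2 : k) ≠ 0 := by
    intro h
    have h' : ((2 : ℕ) : k) = 0 := by exact_mod_cast h
    rw [CharP.cast_eq_zero_iff k p] at h'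
    have := (Nat.prime_dvd_prime_iff_eq hpp Nat.prime_two).mp h'
    exact hp2 this
  have hell : (ell : k) ≠ 0 := by
    intro h
    rw [CharP.cast_eq_zero_iff k p] at h
    exact hne ((Nat.prime_dvd_prime_iff_eq hpp hp).mp h).symm
  have hL0 : a l ≠ 0 := by
    intro h; exact hl0 (a.injective (by rw [h, map_zero]))
  have hL1 : a l ≠ 1 := by
    intro h; exact hl1 (a.injective (by rw [h, map_one]))
  have hLp : (a l) ^ p = a l := by
    rw [← map_pow, ZMod.pow_card]
  have hLt : (a l) ^ (p ^ t) = a l := by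
    rw [← map_pow, ZMod.pow_card_pow]
  obtain ⟨i1, i2, -, he, -, -⟩ := iso_ids (a l) h2 hL0 hL1 ell hp hodd hell S hS
  rw [hrho] at i2
  obtain ⟨D, hD, hDp⟩ := exists_deriv k
  have hmon : ∀ g : k → k, (∏ t ∈ S, (X - C (g t))).Monic ∧
      (∏ t ∈ S, (X - C (g t))).natDegree = S.card := by
    intro g
    constructor
    · exact monic_prod_of_monic _ _ (fun t _ => monic_X_sub_C _)
    · rw [natDegree_prod_of_monic _ _ (fun t _ => monic_X_sub_C _)]
      simp
  obtain ⟨hG, hGd⟩ := hmon (fun t => a l / t)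
  obtain ⟨hH, hHd⟩ := hmon (fun t => t)
  obtain ⟨hG1, hG1d⟩ := hmon (fun t => (t - a l) / (t - 1))
  obtain ⟨hG2, hG2d⟩ := hmon (fun t => a l * (t - 1) / (t - a l))
  obtain ⟨P, hP⟩ := boi_point (a l) (eps (a l) S) h2 hL0 hL1 D hD hDp
    (gP (a l) S) (SSP.hP S) (g1P (a l) S) (g2P (a l) S) S.card hG hGd hH hHd hG1 hG1d hG2 hG2d
    he i1 i2
  have hrel := hasse_rel p hp4 (a l) hLp D hD P _ hP
  have hne0 : -eps (a l) S + (-eps (a l) S) ^ p ≠ 0 := by
    intro h
    have h1 := boi_pow p hpo _ h t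
    have h3 := boi_eps p (a l) S t hLt hst
    rw [(hpo.pow).neg_pow, h3, ht.neg_one_pow] at h1
    have h4 : (2 : k) * eps (a l) S = 0 := by linear_combination -h1
    exact mul_ne_zero h2 he h4
  have hc := (mul_eq_zero.mp hrel).resolve_right hne0
  apply bal_of_coeff p hp2 l hl0 hl1
  apply a.injective
  rw [map_zero, ← hc, ← coeff_map]
  simp

/-- P1 (supersingularity). -/
theorem bal_of_iso (hp4 : p % 4 = 3) (hl0 : l ≠ 0) (hl1 : l ≠ 1) (ell : ℕ) (hp : ell.Prime)
    (hodd : Odd ell) (hne : ell ≠ p) (S : Finset (AlgebraicClosure (ZMod p)))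
    (hS : S ∈ XX (algebraMap (ZMod p) (AlgebraicClosure (ZMod p)) l) ell)
    (t : ℕ) (ht : Odd t) (hst : ∀ x ∈ S, x ^ (p ^ t) ∈ S)
    (hrho : rho (algebraMap (ZMod p) (AlgebraicClosure (ZMod p)) l) S =
      1 - algebraMap (ZMod p) (AlgebraicClosure (ZMod p)) l) :
    Bal p l :=
  boi_main p l (algebraMap (ZMod p) (AlgebraicClosure (ZMod p))) hp4 hl0 hl1 ell hp hodd hne S hS
    t ht hst hrho

end SSP
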