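import Pool.Agent.SSP.Defs

set_option autoImplicit false

namespace SSP

open Polynomial

section hm

variable {k R : Type*} [Field k] [CommRing R] [Algebra k R]

/-- value of the homogenized polynomial -/
private noncomputable def hm (d : ℕ) (A : k[X]) (U V : R) : R :=
  ∑ kl ∈ Finset.HasAntidiagonal.antidiagonal d, algebraMap k R (A.coeff kl.1) * (U ^ kl.1 * V ^ kl.2)

private lemma hm_eq (d : ℕ) (A : k[X]) (U V : R) :
    hm d A U V = MvPolynomial.aeval ![U, V] (A.homogenize d) := by
  unfold hm Polynomial.homogenize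
  rw [map_sum]
  refine Finset.sum_congr rfl fun kl _ => ?_
  rw [MvPolynomial.aeval_monomial, Finsupp.prod_fintype _ _ (fun i => pow_zero _)]
  simp [Fin.prod_univ_two]

private lemma hm_mul {d e : ℕ} {A B : k[X]} (hA : A.natDegree ≤ d) (hB : B.natDegree ≤ e) (U V : R) :
    hm (d + e) (A * B) U V = hm d A U V * hm e B U V := by
  rw [hm_eq, hm_eq, hm_eq, Polynomial.homogenize_mul A B hA hB, map_mul]

private lemma hm_add (d : ℕ) (A B : k[X]) (U V : R) :
    hm d (A + B) U V = hm d A U V + hm d B U V := by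
  rw [hm_eq, hm_eq, hm_eq, Polynomial.homogenize_add, map_add]

private lemma hm_one (d : ℕ) (U V : R) : hm d (1 : k[X]) U V = V ^ d := by
  rw [hm_eq, Polynomial.homogenize_one]
  simp

private lemma hm_dvd (d : ℕ) (A : k[X]) (U V : R) :
    V ∣ hm d A U V - algebraMap k R (A.coeff d) * U ^ d := by
  have hmem : (d, 0) ∈ Finset.HasAntidiagonal.antidiagonal d := by simp
  have h : hm d A U V - algebraMap k R (A.coeff d) * U ^ d =
      ∑ kl ∈ (Finset.HasAntidiagonal.antidiagonal d).erase (d, 0),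
        algebraMap k R (A.coeff kl.1) * (U ^ kl.1 * V ^ kl.2) := by
    unfold hm
    rw [← Finset.add_sum_erase _ _ hmem]
    simp
  rw [h]
  refine Finset.dvd_sum fun kl hkl => ?_
  have h1 := Finset.mem_erase.mp hkl
  have h2 := Finset.HasAntidiagonal.mem_antidiagonal.mp h1.2
  have h3 : kl.2 ≠ 0 := by
    intro h0
    apply h1.1
    ext
    · simp only
      omega
    · exact h0
  exact ((dvd_pow_self V h3).mul_left _).mul_left _

private lemma hm_coprime {A B : k[X]} (hAB : IsCoprime A B) {d : ℕ} (hA : A.natDegree ≤ d)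
    (hB : B.natDegree ≤ d) (hd : A.coeff d ≠ 0 ∨ B.coeff d ≠ 0) {U V : R} (hUV : IsCoprime U V) :
    IsCoprime (hm d A U V) (hm d B U V) := by
  obtain ⟨R1, S1, h1⟩ := hAB
  set e : ℕ := max R1.natDegree S1.natDegree with he
  have h2 : hm e R1 U V * hm d A U V + hm e S1 U V * hm d B U V = V ^ (e + d) := by
    rw [← hm_mul (le_max_left _ _) hA, ← hm_mul (le_max_right _ _) hB, ← hm_add, h1, hm_one]
  by_contra hn
  have hI : Ideal.span {hm d A U V, hm d B U V} ≠ ⊤ := by
    intro htop
    apply hn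
    have : (1 : R) ∈ Ideal.span {hm d A U V, hm d B U V} := by rw [htop]; trivial
    rw [Ideal.mem_span_pair] at this
    exact this
  obtain ⟨M, hM, hIM⟩ := Ideal.exists_le_maximal _ hI
  have hMp := hM.isPrime
  have hAM : hm d A U V ∈ M := hIM (Ideal.subset_span (by simp))
  have hBM : hm d B U V ∈ M := hIM (Ideal.subset_span (by simp))
  have hV : V ∈ M := by
    apply hMp.mem_of_pow_mem (e + d)
    rw [← h2]
    exact M.add_mem (M.mul_mem_left _ hAM) (M.mul_mem_left _ hBM)
  have key : ∀ P : k[X], hm d P U V ∈ M → P.coeff d ≠ 0 → U ∈ M := by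
    intro P hP hc
    obtain ⟨W, hW⟩ := hm_dvd d P U V
    have h3 : algebraMap k R (P.coeff d) * U ^ d ∈ M := by
      have : algebraMap k R (P.coeff d) * U ^ d = hm d P U V - V * W := by rw [← hW]; ring
      rw [this]
      exact M.sub_mem hP (M.mul_mem_right _ hV)
    have h4 : U ^ d ∈ M := by
      have : U ^ d = algebraMap k R (P.coeff d)⁻¹ * (algebraMap k R (P.coeff d) * U ^ d) := by
        rw [← mul_assoc, ← map_mul, inv_mul_cancel₀ hc, map_one, one_mul]
      rw [this]
      exact M.mul_mem_left _ h3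
    exact hMp.mem_of_pow_mem _ h4
  have hU : U ∈ M := by
    rcases hd with h | h
    · exact key A hAM h
    · exact key B hBM h
  obtain ⟨a, b, hab⟩ := hUV
  apply hM.ne_top
  rw [Ideal.eq_top_iff_one, ← hab]
  exact M.add_mem (M.mul_mem_left _ hU) (M.mul_mem_left _ hV)

end hm

private lemma hm_div {k K : Type*} [Field k] [Field K] [Algebra k K] {d : ℕ} {A : k[X]}
    (hA : A.natDegree ≤ d) (u v : K) (hv : v ≠ 0) :
    hm d A u v = v ^ d * aeval (u / v) A := by
  rw [aeval_eq_sum_range' (Nat.lt_succ_of_le hA), Finset.mul_sum]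
  unfold hm
  rw [Finset.Nat.sum_antidiagonal_eq_sum_range_succ_mk]
  refine Finset.sum_congr rfl fun i hi => ?_
  have hi' : i ≤ d := Nat.lt_succ_iff.mp (Finset.mem_range.mp hi)
  have h1 : v ^ d = v ^ i * v ^ (d - i) := by
    rw [← pow_add]
    congr 1
    omega
  rw [h1, div_pow, Algebra.smul_def]
  field_simp

private lemma hm_map {k R S : Type*} [Field k] [CommRing R] [Algebra k R] [CommRing S] [Algebra k S]
    (f : R →ₐ[k] S) (d : ℕ) (A : k[X]) (U V : R) : f (hm d A U V) = hm d A (f U) (f V) := by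
  unfold hm
  simp only [map_sum, map_mul, map_pow, AlgHom.commutes]

private lemma hm_coeff {k : Type*} [Field k] (d n : ℕ) (A U V : k[X]) (hU : U.natDegree ≤ n)
    (hV : V.natDegree ≤ n) :
    (hm d A U V).coeff (d * n) = hm d A (U.coeff n) (V.coeff n) ∧
      (hm d A U V).natDegree ≤ d * n := by
  unfold hm
  constructor
  · rw [finsetSum_coeff]
    refine Finset.sum_congr rfl fun kl hkl => ?_
    have h := Finset.HasAntidiagonal.mem_antidiagonal.mp hkl
    rw [← h, add_mul, Polynomial.algebraMap_apply, coeff_C_mul,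
      coeff_mul_add_eq_of_natDegree_le (natDegree_pow_le_of_le _ hU) (natDegree_pow_le_of_le _ hV),
      coeff_pow_of_natDegree_le hU, coeff_pow_of_natDegree_le hV]
  · refine natDegree_sum_le_of_forall_le _ _ fun kl hkl => ?_
    have h := Finset.HasAntidiagonal.mem_antidiagonal.mp hkl
    rw [← h, add_mul]
    refine (natDegree_C_mul_le _ _).trans ?_
    exact natDegree_mul_le_of_le (natDegree_pow_le_of_le _ hU) (natDegree_pow_le_of_le _ hV)

private lemma rdeg_div' {k : Type*} [Field k] {A B : k[X]} (hAB : IsCoprime A B) (hB : B ≠ 0) :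
    rdeg (algebraMap k[X] (RatFunc k) A / algebraMap k[X] (RatFunc k) B) =
      max A.natDegree B.natDegree := by
  set r : RatFunc k := algebraMap k[X] (RatFunc k) A / algebraMap k[X] (RatFunc k) B with hr
  have hinj := RatFunc.algebraMap_injective k
  have hB' : algebraMap k[X] (RatFunc k) B ≠ 0 := by
    rw [Ne, map_eq_zero_iff _ hinj]
    exact hB
  have hd' : algebraMap k[X] (RatFunc k) r.denom ≠ 0 := by
    rw [Ne, map_eq_zero_iff _ hinj]
    exact RatFunc.denom_ne_zero r
  have h1 : r.num * B = A * r.denom := by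
    apply hinj
    rw [map_mul, map_mul]
    have := RatFunc.num_div_denom r
    rw [div_eq_iff hd'] at this
    rw [this, hr]
    field_simp
  have hc := RatFunc.isCoprime_num_denom r
  have hBd : B ∣ r.denom := hAB.symm.dvd_of_dvd_mul_left ⟨r.num, by rw [← h1]; ring⟩
  have hdB : r.denom ∣ B := hc.symm.dvd_of_dvd_mul_left ⟨A, by rw [h1]; ring⟩
  have hAn : A ∣ r.num := hAB.dvd_of_dvd_mul_right ⟨r.denom, h1⟩
  have hnA : r.num ∣ A := hc.dvd_of_dvd_mul_right ⟨B, h1.symm⟩
  have e1 : r.denom.natDegree = B.natDegree :=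
    natDegree_eq_of_degree_eq
      (degree_eq_degree_of_associated (associated_of_dvd_dvd hdB hBd))
  have e2 : r.num.natDegree = A.natDegree :=
    natDegree_eq_of_degree_eq
      (degree_eq_degree_of_associated (associated_of_dvd_dvd hnA hAn))
  unfold rdeg
  rw [e1, e2]

private lemma rdeg_comp {k : Type*} [Field k] {A B : k[X]} (hAB : IsCoprime A B) {d : ℕ}
    (hA : A.natDegree ≤ d) (hB : B.natDegree ≤ d) (hd : A.coeff d ≠ 0 ∨ B.coeff d ≠ 0)
    (r : RatFunc k) (hr : aeval r B ≠ 0) :
    rdeg (aeval r A / aeval r B) = d * rdeg r := by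
  have hinj := RatFunc.algebraMap_injective k
  have hV : algebraMap k[X] (RatFunc k) r.denom ≠ 0 := by
    rw [Ne, map_eq_zero_iff _ hinj]
    exact RatFunc.denom_ne_zero r
  have hru : algebraMap k[X] (RatFunc k) r.num / algebraMap k[X] (RatFunc k) r.denom = r :=
    RatFunc.num_div_denom r
  have hh : ∀ P : k[X], P.natDegree ≤ d → algebraMap k[X] (RatFunc k) (hm d P r.num r.denom) =
      algebraMap k[X] (RatFunc k) r.denom ^ d * aeval r P := by
    intro P hP
    have h1 : algebraMap k[X] (RatFunc k) (hm d P r.num r.denom) =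
        hm d P (algebraMap k[X] (RatFunc k) r.num) (algebraMap k[X] (RatFunc k) r.denom) :=
      hm_map (IsScalarTower.toAlgHom k k[X] (RatFunc k)) d P r.num r.denom
    rw [h1, hm_div hP _ _ hV, hru]
  have e1 : aeval r A / aeval r B = algebraMap k[X] (RatFunc k) (hm d A r.num r.denom) /
      algebraMap k[X] (RatFunc k) (hm d B r.num r.denom) := by
    rw [hh A hA, hh B hB, mul_div_mul_left _ _ (pow_ne_zero _ hV)]
  have hc : IsCoprime (hm d A r.num r.denom) (hm d B r.num r.denom) :=
    hm_coprime hAB hA hB hd (RatFunc.isCoprime_num_denom r)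
  have hB0 : hm d B r.num r.denom ≠ 0 := by
    intro h0
    have h1 := hh B hB
    rw [h0, map_zero] at h1
    exact mul_ne_zero (pow_ne_zero _ hV) hr h1.symm
  rw [e1, rdeg_div' hc hB0]
  obtain ⟨c1, b1⟩ := hm_coeff d (rdeg r) A r.num r.denom (le_max_left _ _) (le_max_right _ _)
  obtain ⟨c2, b2⟩ := hm_coeff d (rdeg r) B r.num r.denom (le_max_left _ _) (le_max_right _ _)
  have huv : IsCoprime (r.num.coeff (rdeg r)) (r.denom.coeff (rdeg r)) := by
    have hne : r.num.coeff (rdeg r) ≠ 0 ∨ r.denom.coeff (rdeg r) ≠ 0 := by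
      rcases le_or_gt r.num.natDegree r.denom.natDegree with h | h
      · right
        have : rdeg r = r.denom.natDegree := max_eq_right h
        rw [this]
        exact leadingCoeff_ne_zero.mpr (RatFunc.denom_ne_zero r)
      · left
        have : rdeg r = r.num.natDegree := max_eq_left h.le
        rw [this]
        refine leadingCoeff_ne_zero.mpr ?_
        intro h0
        rw [h0] at h
        simp at h
    rcases hne with h | h
    · exact ⟨(r.num.coeff (rdeg r))⁻¹, 0, by rw [inv_mul_cancel₀ h]; ring⟩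
    · exact ⟨0, (r.denom.coeff (rdeg r))⁻¹, by rw [inv_mul_cancel₀ h]; ring⟩
  have hc2 := hm_coprime (R := k) hAB hA hB hd huv
  apply le_antisymm (max_le b1 b2)
  by_cases h : hm d A (r.num.coeff (rdeg r)) (r.denom.coeff (rdeg r)) = 0
  · refine le_max_of_le_right (le_natDegree_of_ne_zero ?_)
    rw [c2]
    intro h'
    rw [h, h'] at hc2
    exact not_isCoprime_zero_zero hc2
  · refine le_max_of_le_left (le_natDegree_of_ne_zero ?_)
    rw [c1]
    exact h

section fin

variable (p : ℕ) [Fact p.Prime] (l : ZMod p)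

/-- the polynomial `x (x - 1) (x - l)` -/
private noncomputable def ff : (ZMod p)[X] := X * (X - 1) * (X - C l)

/-- the points with a given value of the character -/
private noncomputable def ms (e : ℤ) : Finset (ZMod p) :=
  Finset.univ.filter (fun t => quadraticChar (ZMod p) (t * (t - 1) * (t - l)) = e)

private noncomputable def mp (e : ℤ) : (ZMod p)[X] := ∏ t ∈ ms p l e, (X - C t)

private lemma mp_deg (e : ℤ) : (mp p l e).natDegree = (ms p l e).card :=
  natDegree_finsetProd_X_sub_C_eq_card _ _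

private lemma mp_monic (e : ℤ) : (mp p l e).Monic :=
  monic_prod_of_monic _ _ fun _ _ => monic_X_sub_C _

private lemma prod_univ : ∏ t : ZMod p, (X - C t) = (X ^ p - X : (ZMod p)[X]) := by
  have h1 : (X ^ p - X : (ZMod p)[X]).Monic := by
    refine monic_X_pow_sub ?_
    rw [degree_X]
    exact_mod_cast (Fact.out : p.Prime).one_lt
  have h2 := FiniteField.roots_X_pow_card_sub_X (ZMod p)
  rw [ZMod.card] at h2
  have h3 : Multiset.card (X ^ p - X : (ZMod p)[X]).roots = (X ^ p - X : (ZMod p)[X]).natDegree := by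
    rw [h2, FiniteField.X_pow_card_sub_X_natDegree_eq _ (Fact.out : p.Prime).one_lt]
    simp [ZMod.card]
  have h4 := prod_multiset_X_sub_C_of_monic_of_roots_card_eq h1 h3
  rw [h2] at h4
  exact h4

private lemma ms_split : (Finset.univ : Finset (ZMod p)) = ms p l 0 ∪ (ms p l (-1) ∪ ms p l 1) := by
  ext t
  simp only [Finset.mem_univ, ms, Finset.mem_union, Finset.mem_filter, true_and, true_iff]
  rcases quadraticChar_isQuadratic (F := ZMod p) (t * (t - 1) * (t - l)) with h | h | h
  · exact Or.inl h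
  · exact Or.inr (Or.inr h)
  · exact Or.inr (Or.inl h)

private lemma ms_disj {e e' : ℤ} (h : e ≠ e') : Disjoint (ms p l e) (ms p l e') := by
  rw [Finset.disjoint_left]
  intro t h1 h2
  simp only [ms, Finset.mem_filter, Finset.mem_univ, true_and] at h1 h2
  exact h (h1.symm.trans h2)

private lemma ms_zero (hl0 : l ≠ 0) (hl1 : l ≠ 1) :
    mp p l 0 = ff p l ∧ (ms p l 0).card = 3 := by
  have h : ms p l 0 = {0, 1, l} := by
    ext t
    simp only [ms, Finset.mem_filter, Finset.mem_univ, true_and, Finset.mem_insert,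
      Finset.mem_singleton]
    rw [quadraticChar_eq_zero_iff, mul_eq_zero, mul_eq_zero, sub_eq_zero, sub_eq_zero, or_assoc]
  have h01 : (0 : ZMod p) ∉ ({1, l} : Finset (ZMod p)) := by
    simp only [Finset.mem_insert, Finset.mem_singleton, not_or]
    exact ⟨zero_ne_one, hl0.symm⟩
  have h1l : (1 : ZMod p) ∉ ({l} : Finset (ZMod p)) := by
    simp only [Finset.mem_singleton]
    exact hl1.symm
  constructor
  · unfold mp ff
    rw [h, Finset.prod_insert h01, Finset.prod_insert h1l, Finset.prod_singleton]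
    simp only [C_0, C_1, sub_zero]
    ring
  · rw [h, Finset.card_insert_of_notMem h01, Finset.card_insert_of_notMem h1l,
      Finset.card_singleton]

private lemma fact_univ (hl0 : l ≠ 0) (hl1 : l ≠ 1) :
    (X ^ p - X : (ZMod p)[X]) = ff p l * (mp p l (-1) * mp p l 1) := by
  rw [← prod_univ, ms_split p l, Finset.prod_union, Finset.prod_union, ← (ms_zero p l hl0 hl1).1]
  · rfl
  · exact ms_disj p l (by norm_num)
  · rw [Finset.disjoint_union_right]
    exact ⟨ms_disj p l (by norm_num), ms_disj p l (by norm_num)⟩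

private lemma ms_card (hl0 : l ≠ 0) (hl1 : l ≠ 1) (hB : Bal p l) :
    (ms p l (-1)).card = (ms p l 1).card ∧ 3 + 2 * (ms p l 1).card = p := by
  have h1 : (ms p l 0).card + ((ms p l (-1)).card + (ms p l 1).card) = p := by
    have := Finset.card_univ (α := ZMod p)
    rw [ZMod.card, ms_split p l, Finset.card_union_of_disjoint, Finset.card_union_of_disjoint]
      at this
    · exact this
    · exact ms_disj p l (by norm_num)
    · rw [Finset.disjoint_union_right]
      exact ⟨ms_disj p l (by norm_num), ms_disj p l (by norm_num)⟩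
  rw [(ms_zero p l hl0 hl1).2] at h1
  have h2 : (0 : ℤ) = (ms p l 1).card - (ms p l (-1)).card := by
    unfold Bal at hB
    rw [← hB]
    rw [ms_split p l, Finset.sum_union, Finset.sum_union]
    · have e : ∀ e : ℤ, ∑ t ∈ ms p l e, quadraticChar (ZMod p) (t * (t - 1) * (t - l)) =
          e * (ms p l e).card := by
        intro e
        rw [Finset.sum_congr rfl (g := fun _ => e)]
        · rw [Finset.sum_const, nsmul_eq_mul, mul_comm]
        · intro t ht
          exact (Finset.mem_filter.mp ht).2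
      rw [e, e, e]
      ring
    · exact ms_disj p l (by norm_num)
    · rw [Finset.disjoint_union_right]
      exact ⟨ms_disj p l (by norm_num), ms_disj p l (by norm_num)⟩
  omega

private lemma mp_dvd (hp2 : p ≠ 2) (e : ℤ) :
    mp p l e ∣ ff p l ^ (p / 2) - C ((e : ℤ) : ZMod p) := by
  unfold mp
  refine Finset.prod_dvd_of_coprime ?_ ?_
  · intro a _ b _ hab
    exact isCoprime_X_sub_C_of_isUnit_sub (sub_ne_zero.mpr hab).isUnit
  · intro t ht
    rw [dvd_iff_isRoot, IsRoot.def, eval_sub, eval_pow, eval_C, sub_eq_zero]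
    have h1 := (Finset.mem_filter.mp ht).2
    have hF : ringChar (ZMod p) ≠ 2 := by
      rw [ZMod.ringChar_zmod_n]
      exact hp2
    have h2 := quadraticChar_eq_pow_of_char_ne_two' hF (t * (t - 1) * (t - l))
    rw [h1, ZMod.card] at h2
    rw [h2]
    simp [ff]

/-- the numerator -/
private noncomputable def NN : (ZMod p)[X] :=
  (X + X ^ p) * (X ^ (p + 1) + C l) - 2 * (1 + C l) * X ^ (p + 1) + 2 * ff p l ^ (p / 2 + 1)

private lemma ff_pow : ff p l ^ p = X ^ p * (X ^ p - 1) * (X ^ p - C l) := by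
  unfold ff
  rw [mul_pow, mul_pow, sub_pow_char, sub_pow_char, one_pow, ← C_pow, ZMod.pow_card]

private lemma NN_eq (hp2 : p ≠ 2) : NN p l =
    ff p l * (1 + ff p l ^ (p / 2)) ^ 2 + (1 + C l - X - X ^ p) * (X ^ p - X) ^ 2 := by
  have hodd : 2 * (p / 2) + 1 = p := by
    have := (Fact.out : p.Prime).eq_two_or_odd
    omega
  have h1 : ff p l * (ff p l ^ (p / 2)) ^ 2 = X ^ p * (X ^ p - 1) * (X ^ p - C l) := by
    rw [← ff_pow, ← pow_mul, ← pow_succ']
    congr 1
    omega
  have h2 : ff p l = X * (X - 1) * (X - C l) := rfl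
  have h3 : ff p l * (1 + ff p l ^ (p / 2)) ^ 2 = ff p l + 2 * ff p l ^ (p / 2 + 1) +
      ff p l * (ff p l ^ (p / 2)) ^ 2 := by ring
  rw [h3, h1]
  unfold NN
  have h4 : (X ^ (p + 1) : (ZMod p)[X]) = X ^ p * X := pow_succ _ _
  rw [h4]
  generalize 2 * ff p l ^ (p / 2 + 1) = w
  rw [h2]
  ring

private lemma ff_deg : (ff p l).natDegree = 3 ∧ (ff p l).Monic := by
  have m1 : (X - 1 : (ZMod p)[X]).Monic := by
    rw [← C_1]
    exact monic_X_sub_C _
  have m2 : (X * (X - 1) : (ZMod p)[X]).Monic := monic_X.mul m1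
  have m3 : (X - C l : (ZMod p)[X]).Monic := monic_X_sub_C _
  refine ⟨?_, m2.mul m3⟩
  unfold ff
  rw [m2.natDegree_mul m3, monic_X.natDegree_mul m1, natDegree_X, natDegree_X_sub_C, ← C_1,
    natDegree_X_sub_C]

private lemma NN_deg (hp2 : p ≠ 2) : (NN p l).natDegree = 2 * p + 1 := by
  have hp := (Fact.out : p.Prime)
  have hodd : 2 * (p / 2) + 1 = p := by
    have := hp.eq_two_or_odd
    omega
  have hp3 : 3 ≤ p := by
    have := hp.two_le
    omega
  have h1 : NN p l = X ^ (2 * p + 1) + (X ^ (p + 2) + C l * (X + X ^ p) -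
      C (2 * (1 + l)) * X ^ (p + 1) + C 2 * ff p l ^ (p / 2 + 1)) := by
    unfold NN
    have e1 : (X ^ (2 * p + 1) : (ZMod p)[X]) = X ^ p * X ^ (p + 1) := by
      rw [← pow_add]
      congr 1
      ring
    have e2 : (X ^ (p + 2) : (ZMod p)[X]) = X * X ^ (p + 1) := by
      rw [← pow_succ']
    rw [e1, e2, C_mul, C_add, C_1]
    have e3 : (C 2 : (ZMod p)[X]) = 2 := rfl
    rw [e3]
    ring
  have h2 : (X ^ (p + 2) + C l * (X + X ^ p) - C (2 * (1 + l)) * X ^ (p + 1) +
      C 2 * ff p l ^ (p / 2 + 1) : (ZMod p)[X]).natDegree ≤ 2 * p := by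
    refine natDegree_add_le_of_degree_le ((natDegree_sub_le_of_le
      (natDegree_add_le_of_degree_le (n := 2 * p) ?_ ?_) (n := 2 * p) ?_).trans
        (max_self (2 * p)).le) ?_
    · rw [natDegree_X_pow]
      omega
    · refine (natDegree_C_mul_le _ _).trans (natDegree_add_le_of_degree_le ?_ ?_)
      · rw [natDegree_X]
        omega
      · rw [natDegree_X_pow]
        omega
    · refine (natDegree_C_mul_le _ _).trans ?_
      rw [natDegree_X_pow]
      omega
    · refine (natDegree_C_mul_le _ _).trans (natDegree_pow_le.trans ?_)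
      rw [(ff_deg p l).1]
      omega
  rw [h1, natDegree_add_eq_left_of_natDegree_lt]
  · rw [natDegree_X_pow]
  · rw [natDegree_X_pow]
    omega

private lemma NN_factor (hp2 : p ≠ 2) (hl0 : l ≠ 0) (hl1 : l ≠ 1) (hB : Bal p l) :
    ∃ g N1 D1 : (ZMod p)[X], NN p l = g * N1 ∧ (X ^ p - X) ^ 2 = g * D1 ∧ IsCoprime N1 D1 ∧
      N1.natDegree = p + 1 ∧ D1.natDegree ≤ p + 1 := by
  have hp := (Fact.out : p.Prime)
  have hodd : 2 * (p / 2) + 1 = p := by
    have := hp.eq_two_or_odd
    omega
  have hp3 : 3 ≤ p := by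
    have := hp.two_le
    omega
  have h2ne : (2 : ZMod p) ≠ 0 := by
    intro h
    have h' : ((2 : ℕ) : ZMod p) = 0 := by exact_mod_cast h
    rw [ZMod.natCast_eq_zero_iff] at h'
    have := Nat.le_of_dvd (by norm_num) h'
    omega
  obtain ⟨h2, hh⟩ := mp_dvd p l hp2 (-1)
  obtain ⟨q2, hq⟩ := mp_dvd p l hp2 1
  have hh' : mp p l (-1) * h2 = 1 + ff p l ^ (p / 2) := by
    rw [← hh]
    push_cast
    rw [C_neg, C_1]
    ring
  have hq' : mp p l 1 * q2 = ff p l ^ (p / 2) - 1 := by
    rw [← hq]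
    push_cast
    rw [C_1]
  have hfu := fact_univ p l hl0 hl1
  obtain ⟨hc1, hc2⟩ := ms_card p l hl0 hl1 hB
  refine ⟨ff p l * mp p l (-1) ^ 2, h2 ^ 2 + (1 + C l - X - X ^ p) * (ff p l * mp p l 1 ^ 2),
    ff p l * mp p l 1 ^ 2, ?_, ?_, ?_, ?_, ?_⟩
  · rw [NN_eq p l hp2, ← hh', hfu]
    ring
  · rw [hfu]
    ring
  · have e1 : IsCoprime h2 (ff p l) := by
      refine ⟨mp p l (-1), -ff p l ^ (p / 2 - 1), ?_⟩
      rw [hh', neg_mul, ← pow_succ]
      have : p / 2 - 1 + 1 = p / 2 := by omega
      rw [this]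
      ring
    have e2 : IsCoprime h2 (mp p l 1) := by
      refine ⟨C (2⁻¹) * mp p l (-1), -(C (2⁻¹) * q2), ?_⟩
      have : C (2⁻¹) * mp p l (-1) * h2 + -(C (2⁻¹) * q2) * mp p l 1 =
          C (2⁻¹ : ZMod p) * (mp p l (-1) * h2 - mp p l 1 * q2) := by ring
      rw [this, hh', hq']
      have e3 : (1 + ff p l ^ (p / 2) - (ff p l ^ (p / 2) - 1) : (ZMod p)[X]) = C 2 := by
        have : (C 2 : (ZMod p)[X]) = 2 := rfl
        rw [this]
        ring
      rw [e3, ← C_mul, inv_mul_cancel₀ h2ne, C_1]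
    have e3 : IsCoprime (h2 ^ 2) (ff p l * mp p l 1 ^ 2) :=
      (IsCoprime.mul_right e1 e2.pow_right).pow_left
    have e4 := e3.add_mul_left_left (1 + C l - X - X ^ p)
    rwa [mul_comm (ff p l * mp p l 1 ^ 2) (1 + C l - X - X ^ p)] at e4
  · set N1 := h2 ^ 2 + (1 + C l - X - X ^ p) * (ff p l * mp p l 1 ^ 2) with hN1
    have e1 : NN p l = ff p l * mp p l (-1) ^ 2 * N1 := by
      rw [NN_eq p l hp2, ← hh', hfu, hN1]
      ring
    have hg : (ff p l * mp p l (-1) ^ 2).Monic :=
      (ff_deg p l).2.mul ((mp_monic p l (-1)).pow 2)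
    have e2 := NN_deg p l hp2
    have hN0 : N1 ≠ 0 := by
      intro h0
      rw [h0, mul_zero] at e1
      rw [e1] at e2
      simp at e2
    rw [e1, hg.natDegree_mul' hN0, (ff_deg p l).2.natDegree_mul ((mp_monic p l (-1)).pow 2),
      (ff_deg p l).1, (mp_monic p l (-1)).natDegree_pow, mp_deg, hc1] at e2
    omega
  · rw [(ff_deg p l).2.natDegree_mul ((mp_monic p l 1).pow 2), (ff_deg p l).1,
      (mp_monic p l 1).natDegree_pow, mp_deg]
    omega

private lemma rdeg_NN (hp2 : p ≠ 2) (hl0 : l ≠ 0) (hl1 : l ≠ 1) (hB : Bal p l)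
    (r : RatFunc (ZMod p)) (hr : r ^ p ≠ r) :
    rdeg (aeval r (NN p l) / (r ^ p - r) ^ 2) = (p + 1) * rdeg r := by
  obtain ⟨g, N1, D1, h1, h2, h3, h4, h5⟩ := NN_factor p l hp2 hl0 hl1 hB
  have hD : (r ^ p - r) ^ 2 = aeval r g * aeval r D1 := by
    rw [← map_mul, ← h2]
    simp
  have hne : (r ^ p - r) ^ 2 ≠ 0 := pow_ne_zero _ (sub_ne_zero.mpr hr)
  rw [hD] at hne
  have hg : aeval r g ≠ 0 := left_ne_zero_of_mul hne
  have hD1 : aeval r D1 ≠ 0 := right_ne_zero_of_mul hne
  rw [hD, h1, map_mul, mul_div_mul_left _ _ hg]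
  refine rdeg_comp h3 h4.le h5 (Or.inl ?_) r hD1
  rw [← h4]
  refine leadingCoeff_ne_zero.mpr ?_
  intro h0
  rw [h0] at h4
  simp at h4

private lemma const_of_pow (r : RatFunc (ZMod p)) (hr : r ^ p = r) :
    ∃ t : ZMod p, r = RatFunc.C t := by
  have h1 : ∏ t : ZMod p, (r - RatFunc.C t) = 0 := by
    have h2 := congrArg (aeval r) (prod_univ p)
    rw [map_prod] at h2
    simp only [map_sub, map_pow, aeval_X, aeval_C] at h2
    rw [hr, sub_self] at h2
    rw [← h2]
    rfl
  rw [Finset.prod_eq_zero_iff] at h1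
  obtain ⟨t, _, ht⟩ := h1
  exact ⟨t, sub_eq_zero.mp ht⟩

private lemma rdeg_C (t : ZMod p) : rdeg (RatFunc.C t : RatFunc (ZMod p)) = 0 := by
  unfold rdeg
  rw [RatFunc.num_C, RatFunc.denom_C]
  simp

end fin

open Classical in
/-- L2d (Manin's computation). -/
theorem frob_count (p : ℕ) [Fact p.Prime] (hp2 : p ≠ 2) (l : ZMod p) (hl0 : l ≠ 0) (hl1 : l ≠ 1)
    (hB : Bal p l) (φ : RatFunc (ZMod p)) (hφ : φ ≠ 0)
    (J : (Wt l φ).toAffine.Point →+ (Wt l φ).toAffine.Point) (hJ : IsFrob p l φ J)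
    (P : (Wt l φ).toAffine.Point) : ht (P - J P) = (p + 1) * ht P := by
  have hodd : 2 * (p / 2) + 1 = p := by
    have := (Fact.out : p.Prime).eq_two_or_odd
    omega
  have hpm : (p - 1) / 2 = p / 2 := by omega
  rcases P with _ | ⟨x, y, h⟩
  · have h0 : (WeierstrassCurve.Affine.Point.zero : (Wt l φ).toAffine.Point) = 0 := rfl
    rw [h0, map_zero, sub_zero]
    rfl
  · obtain ⟨x2, y2, h2, hJP, hx2, hy2⟩ : ∃ x2 y2, ∃ h2 : (Wt l φ).toAffine.Nonsingular x2 y2,
        J (.some x y h) = .some x2 y2 h2 ∧ x2 = φ * (x / φ) ^ p ∧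
          y2 = φ ^ 2 * φ ^ (p / 2) * (y / φ ^ 2) ^ p := by
      obtain ⟨h', hJP⟩ := hJ x y h
      exact ⟨_, _, h', hJP, rfl, by rw [hpm]⟩
    rw [hJP]
    set r : RatFunc (ZMod p) := x / φ with hr
    set s : RatFunc (ZMod p) := y / φ ^ 2 with hs
    have hx : x = φ * r := by rw [hr]; field_simp
    have hy : y = φ ^ 2 * s := by rw [hs]; field_simp
    have heq : φ * s ^ 2 = r * (r - 1) * (r - RatFunc.C l) := by
      have h1 := h.left
      rw [WeierstrassCurve.Affine.equation_iff] at h1
      simp only [Wt, crv] at h1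
      rw [hx, hy] at h1
      have h2 : φ ^ 3 * (φ * s ^ 2) = φ ^ 3 * (r * (r - 1) * (r - RatFunc.C l)) := by
        linear_combination h1
      exact mul_left_cancel₀ (pow_ne_zero 3 hφ) h2
    have hy2' : y2 = φ ^ 2 * s * (φ * s ^ 2) ^ (p / 2) := by
      rw [hy2]
      have : s ^ p = s * (s ^ 2) ^ (p / 2) := by
        rw [← pow_mul, ← pow_succ']
        congr 1
        omega
      rw [this, mul_pow]
      ring
    have hht : ht (WeierstrassCurve.Affine.Point.some x y h) = rdeg r := rfl
    rw [hht]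
    by_cases hrp : r ^ p = r
    · obtain ⟨t, ht0⟩ := const_of_pow p r hrp
      have hr0 : rdeg r = 0 := by rw [ht0]; exact rdeg_C p t
      rw [hr0, mul_zero]
      have hxx : x = x2 := by rw [hx2, hrp, hx]
      rcases (WeierstrassCurve.Affine.Point.X_eq_iff (h₁ := h) (h₂ := h2)).mp hxx with h3 | h3
      · rw [← h3, sub_self]
        rfl
      · have h4 : WeierstrassCurve.Affine.Point.some x2 y2 h2 =
            -WeierstrassCurve.Affine.Point.some x y h := by rw [h3, neg_neg]
        rw [h4, sub_neg_eq_add]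
        by_cases hY : y = (Wt l φ).toAffine.negY x y
        · rw [WeierstrassCurve.Affine.Point.add_self_of_Y_eq hY]
          rfl
        · rw [WeierstrassCurve.Affine.Point.add_self_of_Y_ne hY]
          have e1 : (Wt l φ).toAffine.negY x y = -y := by
            simp [WeierstrassCurve.Affine.negY, Wt, crv]
          have hs0 : s ≠ 0 := by
            intro hs0
            apply hY
            rw [e1, hy, hs0]
            ring
          have h2ne : (2 : RatFunc (ZMod p)) ≠ 0 := by
            intro h20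
            apply hY
            rw [e1]
            linear_combination y * h20
          show rdeg ((Wt l φ).toAffine.addX x x ((Wt l φ).toAffine.slope x x y y) / φ) = 0
          rw [WeierstrassCurve.Affine.slope_of_Y_ne rfl hY, e1]
          have hf0 : r * (r - 1) * (r - RatFunc.C l) ≠ 0 := by
            rw [← heq]
            exact mul_ne_zero hφ (pow_ne_zero 2 hs0)
          have e2 : (Wt l φ).toAffine.addX x x
              ((3 * x ^ 2 + 2 * (Wt l φ).a₂ * x + (Wt l φ).a₄ - (Wt l φ).a₁ * y) / (y - -y)) / φ =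
              (3 * r ^ 2 - 2 * (1 + RatFunc.C l) * r + RatFunc.C l) ^ 2 /
                (4 * (r * (r - 1) * (r - RatFunc.C l))) + (1 + RatFunc.C l) - 2 * r := by
            rw [← heq]
            simp only [WeierstrassCurve.Affine.addX, Wt, crv]
            rw [hx, hy]
            have h4ne : (4 : RatFunc (ZMod p)) ≠ 0 := by
              have : (4 : RatFunc (ZMod p)) = 2 * 2 := by norm_num
              rw [this]
              exact mul_ne_zero h2ne h2ne
            have e3 : (φ ^ 2 * s - -(φ ^ 2 * s)) = 2 * φ ^ 2 * s := by ring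
            rw [e3]
            field_simp
            ring
          rw [e2, ht0]
          have e5 : (3 * (RatFunc.C t : RatFunc (ZMod p)) ^ 2 - 2 * (1 + RatFunc.C l) * RatFunc.C t +
              RatFunc.C l) ^ 2 / (4 * (RatFunc.C t * (RatFunc.C t - 1) * (RatFunc.C t - RatFunc.C l)))
                + (1 + RatFunc.C l) - 2 * RatFunc.C t =
              RatFunc.C ((3 * t ^ 2 - 2 * (1 + l) * t + l) ^ 2 / (4 * (t * (t - 1) * (t - l))) +
                (1 + l) - 2 * t) := by
            simp only [map_add, map_sub, map_mul, map_pow, map_div₀, map_one, map_ofNat]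
          rw [e5]
          exact rdeg_C p _
    · have hxne : x ≠ x2 := by
        intro h3
        apply hrp
        rw [hx2, hx] at h3
        exact (mul_left_cancel₀ hφ h3).symm
      rw [sub_eq_add_neg, WeierstrassCurve.Affine.Point.neg_some,
        WeierstrassCurve.Affine.Point.add_of_X_ne hxne]
      show rdeg ((Wt l φ).toAffine.addX x x2 ((Wt l φ).toAffine.slope x x2 y
        ((Wt l φ).toAffine.negY x2 y2)) / φ) = (p + 1) * rdeg r
      rw [← rdeg_NN p l hp2 hl0 hl1 hB r hrp]
      congr 1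
      rw [WeierstrassCurve.Affine.slope_of_X_ne hxne]
      have e1 : (Wt l φ).toAffine.negY x2 y2 = -y2 := by
        simp [WeierstrassCurve.Affine.negY, Wt, crv]
      rw [e1, NN_eq p l hp2]
      have e2 : aeval r (ff p l * (1 + ff p l ^ (p / 2)) ^ 2 +
          (1 + C l - X - X ^ p) * (X ^ p - X) ^ 2) =
          φ * s ^ 2 * (1 + (φ * s ^ 2) ^ (p / 2)) ^ 2 +
            (1 + RatFunc.C l - r - r ^ p) * (r ^ p - r) ^ 2 := by
        rw [heq]
        simp [ff]
      rw [e2, hy2']
      simp only [WeierstrassCurve.Affine.addX, Wt, crv]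
      rw [hx2, hx, hy]
      generalize (φ * s ^ 2) ^ (p / 2) = w
      have hne : r ^ p - r ≠ 0 := sub_ne_zero.mpr hrp
      have e3 : φ * r - φ * r ^ p = -(φ * (r ^ p - r)) := by ring
      rw [e3]
      generalize r ^ p - r = z at hne ⊢
      field_simp
      ring

end SSP
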