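import Pool.Agent.SSP.Defs

set_option autoImplicit false

namespace SSP

open Polynomial

section tw

variable {K : Type*} [Field K] (W : WeierstrassCurve K) (σ : K →+* K) (v : K)

theorem tw_eq (h1 : W.a₁ = 0) (h3 : W.a₃ = 0) (h6 : W.a₆ = 0)
    (e2 : v ^ 2 * σ W.a₂ = W.a₂) (e4 : v ^ 4 * σ W.a₄ = W.a₄) {x y : K}
    (h : W.toAffine.Equation x y) : W.toAffine.Equation (v ^ 2 * σ x) (v ^ 3 * σ y) := by
  rw [WeierstrassCurve.Affine.equation_iff] at h ⊢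
  rw [h1, h3, h6] at h ⊢
  have h' := congrArg σ h
  simp only [map_add, map_mul, map_pow, map_zero] at h'
  linear_combination v ^ 6 * h' + (v ^ 4 * (σ x) ^ 2) * e2 + (v ^ 2 * σ x) * e4

theorem tw_ns (hv : v ≠ 0) (h1 : W.a₁ = 0) (h3 : W.a₃ = 0) (h6 : W.a₆ = 0)
    (e2 : v ^ 2 * σ W.a₂ = W.a₂) (e4 : v ^ 4 * σ W.a₄ = W.a₄) {x y : K}
    (h : W.toAffine.Nonsingular x y) : W.toAffine.Nonsingular (v ^ 2 * σ x) (v ^ 3 * σ y) := by
  rw [WeierstrassCurve.Affine.nonsingular_iff] at h ⊢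
  refine ⟨tw_eq W σ v h1 h3 h6 e2 e4 h.1, ?_⟩
  have h2 := h.2
  rw [h1, h3] at h2 ⊢
  rcases h2 with h2 | h2
  · left
    intro hcon
    apply h2
    have h5 : σ (0 * y) = σ (3 * x ^ 2 + 2 * W.a₂ * x + W.a₄) := by
      simp only [map_add, map_mul, map_pow, map_zero, map_ofNat]
      apply mul_left_cancel₀ (pow_ne_zero 4 hv)
      linear_combination hcon - 2 * (v ^ 2 * σ x) * e2 - e4
    exact σ.injective h5
  · right
    intro hcon
    apply h2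
    have h5 : σ y = σ (-y - 0 * x - 0) := by
      simp only [map_sub, map_mul, map_neg, map_zero]
      apply mul_left_cancel₀ (pow_ne_zero 3 hv)
      linear_combination hcon
    exact σ.injective h5

open Classical in
theorem tw_slope (hv : v ≠ 0) (h1 : W.a₁ = 0) (h3 : W.a₃ = 0)
    (e2 : v ^ 2 * σ W.a₂ = W.a₂) (e4 : v ^ 4 * σ W.a₄ = W.a₄) (x₁ x₂ y₁ y₂ : K) :
    W.toAffine.slope (v ^ 2 * σ x₁) (v ^ 2 * σ x₂) (v ^ 3 * σ y₁) (v ^ 3 * σ y₂) =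
      v * σ (W.toAffine.slope x₁ x₂ y₁ y₂) := by
  have hneg : ∀ x y, W.toAffine.negY x y = -y := by
    intro x y
    simp [WeierstrassCurve.Affine.negY, h1, h3]
  have hx : (v ^ 2 * σ x₁ = v ^ 2 * σ x₂) ↔ x₁ = x₂ := by
    rw [mul_right_inj' (pow_ne_zero 2 hv), σ.injective.eq_iff]
  have hy : (v ^ 3 * σ y₁ = -(v ^ 3 * σ y₂)) ↔ y₁ = -y₂ := by
    rw [← mul_neg, ← map_neg, mul_right_inj' (pow_ne_zero 3 hv), σ.injective.eq_iff]
  by_cases hxx : x₁ = x₂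
  · by_cases hyy : y₁ = -y₂
    · rw [WeierstrassCurve.Affine.slope_of_Y_eq (hx.2 hxx) (by rw [hneg]; exact hy.2 hyy),
        WeierstrassCurve.Affine.slope_of_Y_eq hxx (by rw [hneg]; exact hyy)]
      simp
    · rw [WeierstrassCurve.Affine.slope_of_Y_ne (hx.2 hxx)
          (by rw [hneg]; exact fun h => hyy (hy.1 h)),
        WeierstrassCurve.Affine.slope_of_Y_ne hxx (by rw [hneg]; exact hyy)]
      simp only [hneg, h1]
      rw [map_div₀]
      simp only [map_add, map_mul, map_pow, map_zero, map_sub, map_neg, map_ofNat]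
      have e : 3 * (v ^ 2 * σ x₁) ^ 2 + 2 * W.a₂ * (v ^ 2 * σ x₁) + W.a₄ - 0 * (v ^ 3 * σ y₁) =
          v ^ 4 * (3 * σ x₁ ^ 2 + 2 * σ W.a₂ * σ x₁ + σ W.a₄ - 0 * σ y₁) := by
        linear_combination -2 * (v ^ 2 * σ x₁) * e2 - e4
      have e' : v ^ 3 * σ y₁ - -(v ^ 3 * σ y₁) = v ^ 3 * (σ y₁ - -σ y₁) := by ring
      rw [e, e']
      have : v ^ 4 = v ^ 3 * v := by ring
      rw [this, mul_assoc, mul_div_mul_left _ _ (pow_ne_zero 3 hv), mul_div_assoc]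
  · rw [WeierstrassCurve.Affine.slope_of_X_ne (fun h => hxx (hx.1 h)),
      WeierstrassCurve.Affine.slope_of_X_ne hxx, map_div₀, map_sub, map_sub]
    have e : v ^ 3 * σ y₁ - v ^ 3 * σ y₂ = v ^ 2 * (v * (σ y₁ - σ y₂)) := by ring
    have e' : v ^ 2 * σ x₁ - v ^ 2 * σ x₂ = v ^ 2 * (σ x₁ - σ x₂) := by ring
    rw [e, e', mul_div_mul_left _ _ (pow_ne_zero 2 hv), mul_div_assoc]

open Classical in
/-- the twisted semilinear endomorphism -/
noncomputable def twHom (hv : v ≠ 0) (h1 : W.a₁ = 0) (h3 : W.a₃ = 0) (h6 : W.a₆ = 0)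
    (e2 : v ^ 2 * σ W.a₂ = W.a₂) (e4 : v ^ 4 * σ W.a₄ = W.a₄) :
    W.toAffine.Point →+ W.toAffine.Point where
  toFun P := match P with
    | .zero => .zero
    | .some _ _ h => .some _ _ (tw_ns W σ v hv h1 h3 h6 e2 e4 h)
  map_zero' := rfl
  map_add' := by
    have hneg : ∀ x y, W.toAffine.negY x y = -y := by
      intro x y
      simp [WeierstrassCurve.Affine.negY, h1, h3]
    rintro (_ | ⟨x₁, y₁, h₁⟩) (_ | ⟨x₂, y₂, h₂⟩)
    any_goals rfl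
    by_cases hxy : x₁ = x₂ ∧ y₁ = W.toAffine.negY x₂ y₂
    · have hx' : v ^ 2 * σ x₁ = v ^ 2 * σ x₂ := by rw [hxy.1]
      have hy' : v ^ 3 * σ y₁ = W.toAffine.negY (v ^ 2 * σ x₂) (v ^ 3 * σ y₂) := by
        have h2 := hxy.2
        rw [hneg] at h2 ⊢
        rw [h2, map_neg]; ring
      rw [WeierstrassCurve.Affine.Point.add_of_Y_eq hxy.1 hxy.2]
      show (0 : W.toAffine.Point) = WeierstrassCurve.Affine.Point.some _ _ _ +
        WeierstrassCurve.Affine.Point.some _ _ _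
      rw [WeierstrassCurve.Affine.Point.add_of_Y_eq hx' hy']
    · have hxy' : ¬ (v ^ 2 * σ x₁ = v ^ 2 * σ x₂ ∧
          v ^ 3 * σ y₁ = W.toAffine.negY (v ^ 2 * σ x₂) (v ^ 3 * σ y₂)) := by
        rintro ⟨ha, hb⟩
        apply hxy
        refine ⟨σ.injective (mul_left_cancel₀ (pow_ne_zero 2 hv) ha), ?_⟩
        rw [hneg] at hb ⊢
        apply σ.injective
        apply mul_left_cancel₀ (pow_ne_zero 3 hv)
        rw [hb, map_neg]; ring
      rw [WeierstrassCurve.Affine.Point.add_some hxy]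
      show WeierstrassCurve.Affine.Point.some _ _ _ = WeierstrassCurve.Affine.Point.some _ _ _ +
        WeierstrassCurve.Affine.Point.some _ _ _
      rw [WeierstrassCurve.Affine.Point.add_some hxy']
      have hs := tw_slope W σ v hv h1 h3 e2 e4 x₁ x₂ y₁ y₂
      have hX : W.toAffine.addX (v ^ 2 * σ x₁) (v ^ 2 * σ x₂)
          (v * σ (W.toAffine.slope x₁ x₂ y₁ y₂)) =
          v ^ 2 * σ (W.toAffine.addX x₁ x₂ (W.toAffine.slope x₁ x₂ y₁ y₂)) := by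
        simp only [WeierstrassCurve.Affine.addX, h1, map_add, map_sub, map_mul, map_pow, map_zero]
        linear_combination e2
      have hY : W.toAffine.addY (v ^ 2 * σ x₁) (v ^ 2 * σ x₂) (v ^ 3 * σ y₁)
          (v * σ (W.toAffine.slope x₁ x₂ y₁ y₂)) =
          v ^ 3 * σ (W.toAffine.addY x₁ x₂ y₁ (W.toAffine.slope x₁ x₂ y₁ y₂)) := by
        simp only [WeierstrassCurve.Affine.addY, WeierstrassCurve.Affine.negAddY, hneg, hX,
          map_neg, map_add, map_mul, map_sub]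
        ring
      simp only [WeierstrassCurve.Affine.Point.some.injEq]
      rw [hs]
      exact ⟨hX.symm, hY.symm⟩

end tw

open Classical in
/-- L2a: the Frobenius is a group homomorphism. -/
theorem exists_frob (p : ℕ) [Fact p.Prime] (hp2 : p ≠ 2) (l : ZMod p) (hl0 : l ≠ 0) (hl1 : l ≠ 1)
    (φ : RatFunc (ZMod p)) (hφ : φ ≠ 0) :
    ∃ J : (Wt l φ).toAffine.Point →+ (Wt l φ).toAffine.Point, IsFrob p l φ J := by
  have hp : p.Prime := Fact.out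
  obtain ⟨m, hm⟩ := hp.odd_of_ne_two hp2
  have hm2 : (p - 1) / 2 = m := by omega
  have hCl : (RatFunc.C l : RatFunc (ZMod p)) ^ p = RatFunc.C l := by
    rw [← map_pow, ZMod.pow_card]
  have hv : (φ ^ m)⁻¹ ≠ 0 := inv_ne_zero (pow_ne_zero m hφ)
  have pw : ∀ z : RatFunc (ZMod p), z ^ p = (z ^ m) ^ 2 * z := fun z =>
    (congrArg (fun n => z ^ n) hm).trans (by ring)
  have hneg : ((-1 : RatFunc (ZMod p))) ^ p = -1 := Odd.neg_one_pow ⟨m, hm⟩
  have hcl1 : ((1 : RatFunc (ZMod p)) + RatFunc.C l) ^ p = 1 + RatFunc.C l := by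
    have := add_pow_char (R := RatFunc (ZMod p)) (p := p) 1 (RatFunc.C l)
    rw [this, one_pow, hCl]
  have e2 : ((φ ^ m)⁻¹) ^ 2 * frobenius (RatFunc (ZMod p)) p (Wt l φ).a₂ = (Wt l φ).a₂ := by
    show ((φ ^ m)⁻¹) ^ 2 * (-(1 + RatFunc.C l) * φ) ^ p = -(1 + RatFunc.C l) * φ
    rw [mul_pow, neg_pow, hneg, hcl1]
    have : φ ^ p = (φ ^ m) ^ 2 * φ := pw φ
    rw [this]
    field_simp
  have e4 : ((φ ^ m)⁻¹) ^ 4 * frobenius (RatFunc (ZMod p)) p (Wt l φ).a₄ = (Wt l φ).a₄ := by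
    show ((φ ^ m)⁻¹) ^ 4 * (RatFunc.C l * φ ^ 2) ^ p = RatFunc.C l * φ ^ 2
    rw [mul_pow, hCl]
    have : (φ ^ 2) ^ p = (φ ^ m) ^ 4 * φ ^ 2 := by rw [pw (φ ^ 2)]; ring
    rw [this]
    field_simp
  refine ⟨twHom (Wt l φ) (frobenius (RatFunc (ZMod p)) p) (φ ^ m)⁻¹ hv rfl rfl rfl e2 e4, ?_⟩
  intro x y h
  have ex : φ * (x / φ) ^ p = ((φ ^ m)⁻¹) ^ 2 * frobenius (RatFunc (ZMod p)) p x := by
    show φ * (x / φ) ^ p = ((φ ^ m)⁻¹) ^ 2 * x ^ p
    have : φ ^ p = (φ ^ m) ^ 2 * φ := pw φ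
    rw [div_pow, this]
    field_simp
  have ey : φ ^ 2 * φ ^ ((p - 1) / 2) * (y / φ ^ 2) ^ p =
      ((φ ^ m)⁻¹) ^ 3 * frobenius (RatFunc (ZMod p)) p y := by
    show φ ^ 2 * φ ^ ((p - 1) / 2) * (y / φ ^ 2) ^ p = ((φ ^ m)⁻¹) ^ 3 * y ^ p
    have : (φ ^ 2) ^ p = (φ ^ m) ^ 4 * φ ^ 2 := by rw [pw (φ ^ 2)]; ring
    rw [hm2, div_pow, this]
    field_simp
  have key : ∀ (x' y' : RatFunc (ZMod p)),
      x' = ((φ ^ m)⁻¹) ^ 2 * frobenius (RatFunc (ZMod p)) p x →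
      y' = ((φ ^ m)⁻¹) ^ 3 * frobenius (RatFunc (ZMod p)) p y →
      ∃ h', twHom (Wt l φ) (frobenius (RatFunc (ZMod p)) p) (φ ^ m)⁻¹ hv rfl rfl rfl e2 e4
        (.some x y h) = .some x' y' h' := by
    rintro _ _ rfl rfl
    exact ⟨_, rfl⟩
  exact key _ _ ex ey

end SSP
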