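import Pool.Agent.SSP.Defs
import Pool.Agent.SSP.RatDeriv

set_option autoImplicit false

namespace SSP

open Polynomial

/-- degree of a reduced fraction -/
private theorem rdeg_frac {k : Type*} [Field k] (a b : k[X]) (hab : IsCoprime a b) (hb : b ≠ 0) :
    rdeg (algebraMap k[X] (RatFunc k) a / algebraMap k[X] (RatFunc k) b) =
      max a.natDegree b.natDegree := by
  set r := algebraMap k[X] (RatFunc k) a / algebraMap k[X] (RatFunc k) b with hr
  have hA : Function.Injective (algebraMap k[X] (RatFunc k)) := RatFunc.algebraMap_injective k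
  have hb' : algebraMap k[X] (RatFunc k) b ≠ 0 := by
    intro h
    exact hb (hA (by rw [h, map_zero]))
  have hd : r.denom ≠ 0 := RatFunc.denom_ne_zero r
  have hd' : algebraMap k[X] (RatFunc k) r.denom ≠ 0 := by
    intro h
    exact hd (hA (by rw [h, map_zero]))
  have h1 : r.num * b = a * r.denom := by
    apply hA
    rw [map_mul, map_mul]
    have h := RatFunc.num_div_denom r
    have h3 : algebraMap k[X] (RatFunc k) r.num / algebraMap k[X] (RatFunc k) r.denom
      = algebraMap k[X] (RatFunc k) a / algebraMap k[X] (RatFunc k) b := by rw [h]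
    rwa [div_eq_div_iff hd' hb'] at h3
  have hc : IsCoprime r.num r.denom := RatFunc.isCoprime_num_denom r
  have d1 : a ∣ r.num := hab.dvd_of_dvd_mul_right (Dvd.intro _ h1.symm)
  have d2 : r.num ∣ a := hc.dvd_of_dvd_mul_right (Dvd.intro _ h1)
  have d3 : b ∣ r.denom := hab.symm.dvd_of_dvd_mul_left (Dvd.intro_left _ h1)
  have d4 : r.denom ∣ b := hc.symm.dvd_of_dvd_mul_left (Dvd.intro_left _ h1.symm)
  have e1 : r.num.natDegree = a.natDegree := by
    by_cases ha : a = 0
    · rw [ha] at d1 ⊢
      rw [zero_dvd_iff.mp d1]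
    · have hn : r.num ≠ 0 := by
        intro h
        rw [h, zero_dvd_iff] at d2
        exact ha d2
      exact le_antisymm (natDegree_le_of_dvd d2 ha) (natDegree_le_of_dvd d1 hn)
  have e2 : r.denom.natDegree = b.natDegree :=
    le_antisymm (natDegree_le_of_dvd d4 hb) (natDegree_le_of_dvd d3 hd)
  unfold rdeg
  rw [e1, e2]

private theorem rdeg_pow' {k : Type*} [Field k] (r : RatFunc k) (n : ℕ) :
    rdeg (r ^ n) = n * rdeg r := by
  have hd : r.denom ≠ 0 := RatFunc.denom_ne_zero r
  have hc : IsCoprime r.num r.denom := RatFunc.isCoprime_num_denom r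
  have h1 : r ^ n = algebraMap k[X] (RatFunc k) (r.num ^ n) /
      algebraMap k[X] (RatFunc k) (r.denom ^ n) := by
    conv_lhs => rw [← RatFunc.num_div_denom r]
    rw [div_pow, map_pow, map_pow]
  rw [h1, rdeg_frac _ _ (hc.pow) (pow_ne_zero _ hd), natDegree_pow, natDegree_pow]
  unfold rdeg
  rw [Nat.mul_max_mul_left]

open Classical in
/-- L2b. -/
theorem frob_ht (p : ℕ) [Fact p.Prime] (hp2 : p ≠ 2) (l : ZMod p) (φ : RatFunc (ZMod p))
    (hφ : φ ≠ 0) (J : (Wt l φ).toAffine.Point →+ (Wt l φ).toAffine.Point) (hJ : IsFrob p l φ J)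
    (P : (Wt l φ).toAffine.Point) : ht (J P) = p * ht P := by
  rcases P with _ | ⟨x, y, h⟩
  · have h0 : J (WeierstrassCurve.Affine.Point.zero) = WeierstrassCurve.Affine.Point.zero :=
      map_zero J
    rw [h0]
    rfl
  · obtain ⟨h', e⟩ := hJ x y h
    rw [e]
    show rdeg (φ * (x / φ) ^ p / φ) = p * rdeg (x / φ)
    rw [mul_div_cancel_left₀ _ hφ, rdeg_pow']

/-- a derivation of `k(x)` on polynomials -/
private theorem isDX_poly {k : Type*} [Field k] {D : RatFunc k → RatFunc k} (hD : IsDX D)
    (q : k[X]) : D (algebraMap k[X] (RatFunc k) q) = algebraMap k[X] (RatFunc k) (derivative q) := by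
  induction q using Polynomial.induction_on' with
  | add p q hp hq => rw [map_add, hD.add, hp, hq, map_add, map_add]
  | monomial n a =>
    induction n with
    | zero =>
      rw [monomial_zero_left, RatFunc.algebraMap_C, hD.C, derivative_C, map_zero]
    | succ n ih =>
      have e : (monomial (n + 1) a : k[X]) = monomial n a * X := by
        rw [monomial_mul_X]
      rw [e, map_mul, hD.mul, ih, RatFunc.algebraMap_X, hD.X, derivative_mul, map_add, map_mul,
        map_mul, derivative_X, map_one, RatFunc.algebraMap_X]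
      ring

private theorem isDer_zero {K : Type*} [Field K] {D : K → K} (hD : IsDer D) : D 0 = 0 := by
  have h := hD.add 0 0
  rw [add_zero] at h
  exact left_eq_add.mp h

private theorem isDer_pow {K : Type*} [Field K] {D : K → K} (hD : IsDer D) (h1 : D 1 = 0) (b : K)
    (n : ℕ) : D (b ^ n) = n * b ^ (n - 1) * D b := by
  induction n with
  | zero => simp [h1]
  | succ n ih =>
    rw [pow_succ, hD.mul, ih]
    rcases n with _ | n
    · simp
    · simp only [Nat.add_sub_cancel]
      push_cast
      ring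

/-- the constants of the derivation of `𝔽_p(x)` are the `p`-th powers -/
private theorem exists_pow_of_D (p : ℕ) [Fact p.Prime] {D : RatFunc (ZMod p) → RatFunc (ZMod p)}
    (hD : IsDX D) (r : RatFunc (ZMod p)) (hr : D r = 0) : ∃ U : RatFunc (ZMod p), r = U ^ p := by
  have hp : p ≠ 0 := (Fact.out : p.Prime).ne_zero
  have hA : Function.Injective (algebraMap (ZMod p)[X] (RatFunc (ZMod p))) :=
    RatFunc.algebraMap_injective _
  have hd : r.denom ≠ 0 := RatFunc.denom_ne_zero r
  have hd' : algebraMap (ZMod p)[X] (RatFunc (ZMod p)) r.denom ≠ 0 := by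
    intro h
    exact hd (hA (by rw [h, map_zero]))
  set b := algebraMap (ZMod p)[X] (RatFunc (ZMod p)) r.denom with hb
  have h1 : D 1 = 0 := by
    have := hD.C 1
    rwa [map_one] at this
  have hbp : D (b ^ p) = 0 := by
    rw [isDer_pow hD.toIsDer h1, CharP.cast_eq_zero (RatFunc (ZMod p)) p]
    ring
  have hrb : D (r * b ^ p) = 0 := by
    rw [hD.mul, hbp, hr]
    ring
  have e1 : r * b ^ p = algebraMap (ZMod p)[X] (RatFunc (ZMod p)) (r.num * r.denom ^ (p - 1)) := by
    have h2 : r * b = algebraMap (ZMod p)[X] (RatFunc (ZMod p)) r.num := by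
      have h3 := RatFunc.num_div_denom r
      rw [← hb] at h3
      nth_rewrite 1 [← h3]
      rw [div_mul_cancel₀ _ hd']
    have h4 : b ^ p = b * b ^ (p - 1) := by
      rw [← pow_succ']
      congr 1
      omega
    rw [map_mul, map_pow, h4, ← mul_assoc, h2]
  rw [e1, isDX_poly hD] at hrb
  have h5 : derivative (r.num * r.denom ^ (p - 1)) = 0 := hA (by rw [hrb, map_zero])
  have h6 := expand_contract p h5 hp
  rw [ZMod.expand_card] at h6
  refine ⟨algebraMap (ZMod p)[X] (RatFunc (ZMod p)) (contract p (r.num * r.denom ^ (p - 1))) / b,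
    ?_⟩
  rw [div_pow, ← map_pow, h6, ← e1, mul_div_cancel_right₀ _ (pow_ne_zero _ hd')]

open Classical in
/-- L2c: inseparable points are in the image of the Frobenius. -/
theorem frob_ker (p : ℕ) [Fact p.Prime] (hp2 : p ≠ 2) (l : ZMod p) (hl0 : l ≠ 0) (hl1 : l ≠ 1)
    (φ : RatFunc (ZMod p)) (hφ : φ ≠ 0)
    (J : (Wt l φ).toAffine.Point →+ (Wt l φ).toAffine.Point) (hJ : IsFrob p l φ J)
    (D : RatFunc (ZMod p) → RatFunc (ZMod p)) (hD : IsDX D)
    (P : (Wt l φ).toAffine.Point) (hP : sD D φ P = 0) : ∃ Q, P = J Q := by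
  have hp : p.Prime := Fact.out
  have hodd : p = 2 * ((p - 1) / 2) + 1 := by
    have := hp.eq_two_or_odd
    omega
  set m := (p - 1) / 2 with hm
  rcases P with _ | ⟨x, y, h⟩
  · exact ⟨0, (map_zero J).symm⟩
  · have heq : y ^ 2 = x ^ 3 + (-(1 + RatFunc.C l) * φ) * x ^ 2 + (RatFunc.C l * φ ^ 2) * x := by
      have h1 := (WeierstrassCurve.Affine.equation_iff ..).mp h.left
      simp only [Wt, crv] at h1
      linear_combination h1
    by_cases hy : y = 0
    · -- points of order two
      refine ⟨.some x y h, ?_⟩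
      obtain ⟨h', e⟩ := hJ x y h
      rw [e]
      have h2 : x * (x - φ) * (x - RatFunc.C l * φ) = 0 := by
        rw [hy] at heq
        linear_combination -heq
      have h3 : ∃ c : ZMod p, x = RatFunc.C c * φ := by
        rcases mul_eq_zero.mp h2 with h3 | h3
        · rcases mul_eq_zero.mp h3 with h4 | h4
          · exact ⟨0, by rw [h4, map_zero, zero_mul]⟩
          · exact ⟨1, by rw [map_one, one_mul]; exact sub_eq_zero.mp h4⟩
        · exact ⟨l, sub_eq_zero.mp h3⟩
      obtain ⟨c, hc⟩ := h3
      have h4 : φ * (x / φ) ^ p = x := by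
        rw [hc, mul_div_cancel_right₀ _ hφ, ← map_pow, ZMod.pow_card, mul_comm]
      have h5 : φ ^ 2 * φ ^ ((p - 1) / 2) * (y / φ ^ 2) ^ p = y := by
        rw [hy, zero_div, zero_pow hp.ne_zero, mul_zero]
      simp only [h4, h5]
    · have hDX : D (x / φ) = 0 := by
        have h1 : D (x / φ) * φ ^ 2 / y = 0 := hP
        rw [div_eq_zero_iff, mul_eq_zero] at h1
        rcases h1 with (h1 | h1) | h1
        · exact h1
        · exact absurd h1 (pow_ne_zero _ hφ)
        · exact absurd h1 hy
      obtain ⟨U, hU⟩ := exists_pow_of_D p hD _ hDX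
      have hx : x = φ * U ^ p := by
        rw [← hU, mul_div_cancel₀ _ hφ]
      set F := U * (U - 1) * (U - RatFunc.C l) with hF
      have hCl : (RatFunc.C l : RatFunc (ZMod p)) ^ p = RatFunc.C l := by
        rw [← map_pow, ZMod.pow_card]
      have hFp : F ^ p = U ^ p * (U ^ p - 1) * (U ^ p - RatFunc.C l) := by
        rw [hF, mul_pow, mul_pow, sub_pow_char, sub_pow_char, one_pow, hCl]
      have hyF : y ^ 2 = φ ^ 3 * F ^ p := by
        rw [heq, hx, hFp]
        ring
      have hF0 : F ≠ 0 := by
        intro h0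
        rw [h0, zero_pow hp.ne_zero, mul_zero] at hyF
        exact hy (pow_eq_zero_iff (two_ne_zero) |>.mp hyF)
      -- the preimage
      set V := y / φ ^ 2 / F ^ m with hV
      have hV2 : φ * V ^ 2 = F := by
        have hFm : F ^ p = F ^ (2 * m + 1) := congrArg (fun n : ℕ => F ^ n) hodd
        rw [hV, div_pow, div_pow, hyF, hFm]
        have hFm0 : F ^ m ≠ 0 := pow_ne_zero _ hF0
        rw [show F ^ (2 * m + 1) = (F ^ m) ^ 2 * F by ring]
        field_simp
      have hVp : φ ^ m * V ^ p = y / φ ^ 2 := by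
        have e1 : V ^ p = V * (V ^ 2) ^ m := by
          rw [← pow_mul, ← pow_succ']
          exact congrArg (fun n : ℕ => V ^ n) hodd
        have e2 : φ ^ m * V ^ p = V * (φ * V ^ 2) ^ m := by
          rw [e1, mul_pow]
          ring
        rw [e2, hV2, hV, div_mul_cancel₀ _ (pow_ne_zero _ hF0)]
      have hV0 : V ≠ 0 := by
        rw [hV]
        exact div_ne_zero (div_ne_zero hy (pow_ne_zero _ hφ)) (pow_ne_zero _ hF0)
      have h2 : (2 : RatFunc (ZMod p)) ≠ 0 := by
        have _ : CharP (RatFunc (ZMod p)) p := inferInstance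
        intro h2
        have h3 : ((2 : ℕ) : RatFunc (ZMod p)) = 0 := by exact_mod_cast h2
        rw [CharP.cast_eq_zero_iff (RatFunc (ZMod p)) p] at h3
        have := (Nat.prime_dvd_prime_iff_eq hp Nat.prime_two).mp h3
        exact hp2 this
      have hns : (Wt l φ).toAffine.Nonsingular (φ * U) (φ ^ 2 * V) := by
        rw [WeierstrassCurve.Affine.nonsingular_iff]
        refine ⟨?_, Or.inr ?_⟩
        · rw [WeierstrassCurve.Affine.equation_iff]
          simp only [Wt, crv]
          have e1 : φ ^ 4 * V ^ 2 = φ ^ 3 * F := by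
            rw [← hV2]
            ring
          rw [hF] at e1
          linear_combination e1
        · simp only [Wt, crv]
          intro h3
          have h4 : 2 * (φ ^ 2 * V) = 0 := by linear_combination h3
          rcases mul_eq_zero.mp h4 with h5 | h5
          · exact h2 h5
          · exact (mul_ne_zero (pow_ne_zero _ hφ) hV0) h5
      refine ⟨.some (φ * U) (φ ^ 2 * V) hns, ?_⟩
      obtain ⟨h', e⟩ := hJ _ _ hns
      rw [e]
      have h4 : φ * (φ * U / φ) ^ p = x := by
        rw [mul_div_cancel_left₀ _ hφ, hx]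
      have h5 : φ ^ 2 * φ ^ ((p - 1) / 2) * (φ ^ 2 * V / φ ^ 2) ^ p = y := by
        rw [mul_div_cancel_left₀ _ (pow_ne_zero _ hφ), ← hm, mul_assoc, hVp,
          mul_div_cancel₀ _ (pow_ne_zero _ hφ)]
      simp only [h4, h5]

end SSP
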