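import Pool.Agent.SSP.Defs
import Pool.Agent.SSP.Kummer

set_option autoImplicit false

namespace SSP

open Polynomial

universe u

private lemma prl_symA {D : Type*} [CommRing D] [IsDomain D] {a b a' b' : D}
    (h : ¬ (a = 0 ∧ b = 0)) (h' : ¬ (a' = 0 ∧ b' = 0)) (e0 : a * a' = 0)
    (e1 : a * b' + b * a' = 0) (e2 : b * b' = 0) : False := by
  rcases mul_eq_zero.mp e0 with ha | ha <;> rcases mul_eq_zero.mp e2 with hb | hb
  · exact h ⟨ha, hb⟩
  · subst ha hb
    have : b * a' = 0 := by simpa using e1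
    rcases mul_eq_zero.mp this with hc | hc
    · exact h ⟨rfl, hc⟩
    · exact h' ⟨hc, rfl⟩
  · subst ha hb
    have : a * b' = 0 := by simpa using e1
    rcases mul_eq_zero.mp this with hc | hc
    · exact h ⟨hc, rfl⟩
    · exact h' ⟨rfl, hc⟩
  · exact h' ⟨ha, hb⟩

private lemma prl_symB {D : Type*} [CommRing D] [IsDomain D] {l p q p' q' : D}
    (h2 : (2 : D) ≠ 0) (hl0 : l ≠ 0) (hl1 : l ≠ 1)
    (h : ¬ (p = 0 ∧ q = 0)) (h' : ¬ (p' = 0 ∧ q' = 0))
    (e0 : p * p' - l * (q * q') = 0)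
    (e1 : 2 * (p * p' + l * (q * q')) * (p * q' + q * p') - 4 * (1 + l) * (p * p' * (q * q')) = 0)
    (e2 : p * q' - q * p' = 0) : False := by
  have hq : q ≠ 0 := by
    intro hq
    subst hq
    have hp : p ≠ 0 := fun hp => h ⟨hp, rfl⟩
    have e0' : p * p' = 0 := by simpa using e0
    have e2' : p * q' = 0 := by simpa using e2
    exact h' ⟨(mul_eq_zero.mp e0').resolve_left hp, (mul_eq_zero.mp e2').resolve_left hp⟩
  have hq' : q' ≠ 0 := by
    intro hq'
    subst hq'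
    have hp' : p' ≠ 0 := fun hp => h' ⟨hp, rfl⟩
    have e2' : q * p' = 0 := by simpa using e2
    exact (mul_ne_zero hq hp') e2'
  have e0' : p * p' = l * (q * q') := sub_eq_zero.mp e0
  have e2' : p * q' = q * p' := sub_eq_zero.mp e2
  -- `8 l p q q'^2 = 4 (1 + l) l q^2 q'^2`
  have key : (2 : D) * 2 * l * q * q' ^ 2 * (2 * p - (1 + l) * q) = 0 := by
    linear_combination e1 - (2 * (p * q' + q * p') - 4 * (1 + l) * (q * q')) * e0' +
      4 * l * (q * q') * e2'
  have k2 : 2 * p - (1 + l) * q = 0 := by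
    rcases mul_eq_zero.mp key with hk | hk
    · exact absurd hk (mul_ne_zero (mul_ne_zero (mul_ne_zero (mul_ne_zero h2 h2) hl0) hq)
        (pow_ne_zero _ hq'))
    · exact hk
  -- `p^2 q' = l q^2 q'`
  have k3 : q' * (p ^ 2 - l * q ^ 2) = 0 := by
    linear_combination q * e0' + p * e2'
  have k4 : p ^ 2 - l * q ^ 2 = 0 := (mul_eq_zero.mp k3).resolve_left hq'
  have k5 : q ^ 2 * (l - 1) ^ 2 = 0 := by
    linear_combination 4 * k4 - (2 * p + (1 + l) * q) * k2
  rcases mul_eq_zero.mp k5 with hk | hk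
  · exact hq (pow_eq_zero_iff (two_ne_zero) |>.mp hk)
  · exact hl1 (sub_eq_zero.mp (pow_eq_zero_iff (two_ne_zero) |>.mp hk))

private lemma prl_alg {F : Type*} [Field F] (φ L κ X Z X' Z' Xs Zs Xd Zd c p q c' p' q' s ps qs
    d pd qd : F)
    (k0 : Xs * Xd = κ * (X * X' - L * φ ^ 2 * Z * Z') ^ 2)
    (k1 : Xs * Zd + Zs * Xd = κ * (2 * (X * X' + L * φ ^ 2 * Z * Z') * (X * Z' + Z * X') +
        4 * (-(1 + L) * φ) * X * X' * Z * Z'))
    (k2 : Zs * Zd = κ * (X * Z' - Z * X') ^ 2)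
    (x0 : X = c * p) (x1 : φ * Z = c * q) (x0' : X' = c' * p') (x1' : φ * Z' = c' * q')
    (xs0 : Xs = s * ps) (xs1 : φ * Zs = s * qs) (xd0 : Xd = d * pd) (xd1 : φ * Zd = d * qd) :
    (s * d * (ps * pd) = κ * c ^ 2 * c' ^ 2 * (p * p' - L * (q * q')) ^ 2) ∧
    (s * d * (ps * qd + qs * pd) = κ * c ^ 2 * c' ^ 2 * (2 * (p * p' + L * (q * q')) *
      (p * q' + q * p') - 4 * (1 + L) * (p * p' * (q * q')))) ∧
    (s * d * (qs * qd) = κ * c ^ 2 * c' ^ 2 * (p * q' - q * p') ^ 2) := by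
  refine ⟨?_, ?_, ?_⟩
  · calc s * d * (ps * pd) = (s * ps) * (d * pd) := by ring
      _ = Xs * Xd := by rw [xs0, xd0]
      _ = κ * (X * X' - L * ((φ * Z) * (φ * Z'))) ^ 2 := by rw [k0]; ring
      _ = κ * c ^ 2 * c' ^ 2 * (p * p' - L * (q * q')) ^ 2 := by rw [x0, x1, x0', x1']; ring
  · calc s * d * (ps * qd + qs * pd) = (s * ps) * (d * qd) + (s * qs) * (d * pd) := by ring
      _ = Xs * (φ * Zd) + (φ * Zs) * Xd := by rw [xs0, xd0, xs1, xd1]
      _ = φ * (Xs * Zd + Zs * Xd) := by ring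
      _ = κ * (2 * (X * X' + L * ((φ * Z) * (φ * Z'))) * (X * (φ * Z') + (φ * Z) * X') -
          4 * (1 + L) * (X * X' * ((φ * Z) * (φ * Z')))) := by rw [k1]; ring
      _ = κ * c ^ 2 * c' ^ 2 * (2 * (p * p' + L * (q * q')) *
          (p * q' + q * p') - 4 * (1 + L) * (p * p' * (q * q'))) := by
        rw [x0, x1, x0', x1']; ring
  · calc s * d * (qs * qd) = (s * qs) * (d * qd) := by ring
      _ = (φ * Zs) * (φ * Zd) := by rw [xs1, xd1]
      _ = φ ^ 2 * (Zs * Zd) := by ring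
      _ = κ * (X * (φ * Z') - (φ * Z) * X') ^ 2 := by rw [k2]; ring
      _ = κ * c ^ 2 * c' ^ 2 * (p * q' - q * p') ^ 2 := by rw [x0, x1, x0', x1']; ring

/-- primitive vector of a point -/
private lemma prl_vec {k : Type*} [Field k] {l : k} {φ : RatFunc k} (hφ : φ ≠ 0)
    (P : (Wt l φ).toAffine.Point) :
    ∃ (c : RatFunc k) (p q : k[X]), c ≠ 0 ∧ IsCoprime p q ∧
      ht P = max p.natDegree q.natDegree ∧
      P.xRep 0 = c * algebraMap k[X] (RatFunc k) p ∧
      φ * P.xRep 1 = c * algebraMap k[X] (RatFunc k) q := by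
  cases P with
  | zero =>
    refine ⟨1, 1, 0, one_ne_zero, isCoprime_one_left, ?_, ?_, ?_⟩
    · simp [ht]
    · simp [WeierstrassCurve.Affine.Point.xRep]
    · simp [WeierstrassCurve.Affine.Point.xRep]
  | some x y h =>
    have hd : algebraMap k[X] (RatFunc k) (x / φ).denom ≠ 0 :=
      RatFunc.algebraMap_ne_zero (RatFunc.denom_ne_zero _)
    refine ⟨φ / algebraMap k[X] (RatFunc k) (x / φ).denom, (x / φ).num, (x / φ).denom,
      div_ne_zero hφ hd, RatFunc.isCoprime_num_denom _, ?_, ?_, ?_⟩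
    · simp [ht, rdeg]
    · have e := RatFunc.num_div_denom (x / φ)
      simp only [WeierstrassCurve.Affine.Point.xRep_some, Matrix.cons_val_zero]
      rw [div_mul_eq_mul_div, mul_div_assoc, e]
      field_simp
    · have e1 : (WeierstrassCurve.Affine.Point.some x y h : (Wt l φ).toAffine.Point).xRep 1 = 1 := rfl
      rw [e1]
      field_simp

private lemma prl_top {k : Type*} [Field k] {p q : k[X]} (h : IsCoprime p q) :
    ¬ (p.coeff (max p.natDegree q.natDegree) = 0 ∧ q.coeff (max p.natDegree q.natDegree) = 0) := by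
  rintro ⟨h1, h2⟩
  have hne : ¬ (p = 0 ∧ q = 0) := by
    rintro ⟨rfl, rfl⟩
    exact not_isUnit_zero (isCoprime_zero_left.mp h)
  rcases le_total p.natDegree q.natDegree with hle | hle
  · rw [max_eq_right hle] at h1 h2
    have hq : q = 0 := leadingCoeff_eq_zero.mp h2
    subst hq
    have hp : p.natDegree = 0 := by simpa using hle
    simp only [natDegree_zero] at h1
    apply hne
    refine ⟨?_, rfl⟩
    rw [eq_C_of_natDegree_eq_zero hp, h1, C_0]
  · rw [max_eq_left hle] at h1 h2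
    have hp : p = 0 := leadingCoeff_eq_zero.mp h1
    subst hp
    have hq : q.natDegree = 0 := by simpa using hle
    simp only [natDegree_zero] at h2
    apply hne
    refine ⟨rfl, ?_⟩
    rw [eq_C_of_natDegree_eq_zero hq, h2, C_0]

/-- the residue map at a prime polynomial -/
private lemma prl_res {k : Type u} [Field k] {π : k[X]} (hπ : Prime π) :
    ∃ (D : Type u) (_ : CommRing D) (_ : IsDomain D) (f : k[X] →+* D),
      ∀ r, f r = 0 ↔ π ∣ r := by
  have hP : (Ideal.span {π}).IsPrime := (Ideal.span_singleton_prime hπ.ne_zero).mpr hπ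
  refine ⟨k[X] ⧸ Ideal.span {π}, inferInstance, Ideal.Quotient.isDomain _,
    Ideal.Quotient.mk _, fun r => ?_⟩
  rw [Ideal.Quotient.eq_zero_iff_mem, Ideal.mem_span_singleton]

private lemma prl_not_both {k : Type*} [Field k] {π p q : k[X]} (hπ : Prime π)
    (h : IsCoprime p q) : ¬ (π ∣ p ∧ π ∣ q) := by
  rintro ⟨h1, h2⟩
  exact hπ.not_isUnit (h.isUnit_of_dvd' h1 h2)

private lemma prl_const {k : Type*} [Field k] {π : k[X]} (hπ : Prime π) {c : k} (hc : c ≠ 0) :
    ¬ π ∣ C c := fun h => hπ.not_isUnit (isUnit_of_dvd_unit h (isUnit_C.mpr hc.isUnit))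

/-- the quadratic forms -/
private noncomputable def G0 {k : Type*} [Field k] (l : k) (p q p' q' : k[X]) : k[X] :=
  p * p' - C l * (q * q')

private noncomputable def G1 {k : Type*} [Field k] (l : k) (p q p' q' : k[X]) : k[X] :=
  C 2 * (p * p' + C l * (q * q')) * (p * q' + q * p') - C (4 * (1 + l)) * (p * p' * (q * q'))

private noncomputable def G2 {k : Type*} [Field k] (p q p' q' : k[X]) : k[X] :=
  p * q' - q * p'

private lemma prl_primB {k : Type*} [Field k] {l : k} (h2 : (2 : k) ≠ 0) (hl0 : l ≠ 0)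
    (hl1 : l ≠ 1) {π p q p' q' : k[X]} (hπ : Prime π) (h : IsCoprime p q) (h' : IsCoprime p' q')
    (d0 : π ∣ G0 l p q p' q' ^ 2) (d1 : π ∣ G1 l p q p' q') (d2 : π ∣ G2 p q p' q' ^ 2) :
    False := by
  obtain ⟨D, _, _, f, hf⟩ := prl_res hπ
  have d0' := hπ.dvd_of_dvd_pow d0
  have d2' := hπ.dvd_of_dvd_pow d2
  rw [← hf] at d0' d1 d2'
  have n2 : (2 : D) ≠ 0 := by
    intro h0
    refine prl_const hπ h2 ((hf _).mp ?_)
    rw [map_ofNat, map_ofNat]
    exact h0
  have n0 : f (C l) ≠ 0 := fun h0 => prl_const hπ hl0 ((hf _).mp h0)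
  have n1 : f (C l) ≠ 1 := by
    intro h0
    refine prl_const hπ (sub_ne_zero.mpr hl1) ((hf _).mp ?_)
    rw [map_sub, map_sub, h0]
    simp
  have m : ¬ (f p = 0 ∧ f q = 0) := by
    rw [hf, hf]
    exact prl_not_both hπ h
  have m' : ¬ (f p' = 0 ∧ f q' = 0) := by
    rw [hf, hf]
    exact prl_not_both hπ h'
  refine prl_symB n2 n0 n1 m m' ?_ ?_ ?_
  · simpa [G0] using d0'
  · have : f (G1 l p q p' q') = 2 * (f p * f p' + f (C l) * (f q * f q')) *
        (f p * f q' + f q * f p') - 4 * (1 + f (C l)) * (f p * f p' * (f q * f q')) := by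
      simp only [G1, map_sub, map_mul, map_add, map_ofNat, map_one]
    rw [← this]
    exact d1
  · simpa [G2] using d2'

private lemma prl_primA {k : Type*} [Field k] {π p q p' q' : k[X]} (hπ : Prime π)
    (h : IsCoprime p q) (h' : IsCoprime p' q')
    (d0 : π ∣ p * p') (d1 : π ∣ p * q' + q * p') (d2 : π ∣ q * q') : False := by
  obtain ⟨D, _, _, f, hf⟩ := prl_res hπ
  rw [← hf] at d0 d1 d2
  have m : ¬ (f p = 0 ∧ f q = 0) := by
    rw [hf, hf]
    exact prl_not_both hπ h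
  have m' : ¬ (f p' = 0 ∧ f q' = 0) := by
    rw [hf, hf]
    exact prl_not_both hπ h'
  exact prl_symA m m' (by simpa using d0) (by simpa using d1) (by simpa using d2)

/-- a proportionality factor between two primitive vectors is a constant -/
private lemma prl_unit {k : Type*} [Field k] {K : RatFunc k} (hK : K ≠ 0) {A B : Fin 3 → k[X]}
    (hA : ∀ π, Prime π → ¬ ∀ i, π ∣ A i) (hB : ∀ π, Prime π → ¬ ∀ i, π ∣ B i)
    (h : ∀ i, algebraMap k[X] (RatFunc k) (A i) = K * algebraMap k[X] (RatFunc k) (B i)) :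
    ∃ c : k, c ≠ 0 ∧ ∀ i, A i = C c * B i := by
  have hN : K.denom ≠ 0 := RatFunc.denom_ne_zero _
  have hM : K.num ≠ 0 := RatFunc.num_ne_zero hK
  have hco := RatFunc.isCoprime_num_denom K
  have e : ∀ i, K.denom * A i = K.num * B i := by
    intro i
    apply RatFunc.algebraMap_injective k
    rw [map_mul, map_mul, h i]
    have hd : algebraMap k[X] (RatFunc k) K.denom ≠ 0 := RatFunc.algebraMap_ne_zero hN
    conv_lhs => rw [← RatFunc.num_div_denom K]
    rw [RatFunc.num_div_denom K]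
    have := RatFunc.num_div_denom K
    rw [div_eq_iff hd] at this
    rw [this]
    ring
  have uM : IsUnit K.num := by
    by_contra hu
    obtain ⟨π, hi, hd⟩ := WfDvdMonoid.exists_irreducible_factor hu hM
    have hπ : Prime π := hi.prime
    refine hA π hπ fun i => ?_
    have h1 : π ∣ K.denom * A i := by
      rw [e i]
      exact hd.mul_right _
    rcases hπ.dvd_or_dvd h1 with h2 | h2
    · exact absurd ⟨hd, h2⟩ (prl_not_both hπ hco)
    · exact h2
  have uN : IsUnit K.denom := by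
    by_contra hu
    obtain ⟨π, hi, hd⟩ := WfDvdMonoid.exists_irreducible_factor hu hN
    have hπ : Prime π := hi.prime
    refine hB π hπ fun i => ?_
    have h1 : π ∣ K.num * B i := by
      rw [← e i]
      exact hd.mul_right _
    rcases hπ.dvd_or_dvd h1 with h2 | h2
    · exact absurd ⟨h2, hd⟩ (prl_not_both hπ hco)
    · exact h2
  obtain ⟨m, hm, hm'⟩ := Polynomial.isUnit_iff.mp uM
  obtain ⟨n, hn, hn'⟩ := Polynomial.isUnit_iff.mp uN
  refine ⟨m / n, div_ne_zero hm.ne_zero hn.ne_zero, fun i => ?_⟩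
  have e' := e i
  rw [← hm', ← hn'] at e'
  have hn0 : (C n : k[X]) ≠ 0 := by
    rw [Ne, C_eq_zero]
    exact hn.ne_zero
  apply mul_left_cancel₀ hn0
  rw [e', ← mul_assoc, ← C_mul, mul_div_cancel₀ _ hn.ne_zero]

private lemma prl_mul {k : Type*} [Field k] {a b : k[X]} {m n : ℕ} (ha : a.natDegree ≤ m)
    (hb : b.natDegree ≤ n) :
    (a * b).natDegree ≤ m + n ∧ (a * b).coeff (m + n) = a.coeff m * b.coeff n :=
  ⟨natDegree_mul_le_of_le ha hb, coeff_mul_add_eq_of_natDegree_le ha hb⟩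

private lemma prl_sub {k : Type*} [Field k] {a b : k[X]} {m : ℕ} (ha : a.natDegree ≤ m)
    (hb : b.natDegree ≤ m) : (a - b).natDegree ≤ m := by
  simpa using natDegree_sub_le_of_le ha hb

private lemma prl_deg {k : Type*} [Field k] {A B : Fin 3 → k[X]} {a b : ℕ} {c : k} (hc : c ≠ 0)
    (hAd : ∀ i, (A i).natDegree ≤ a) (hBd : ∀ i, (B i).natDegree ≤ b)
    (hA : ¬ ∀ i, (A i).coeff a = 0) (hB : ¬ ∀ i, (B i).coeff b = 0)
    (h : ∀ i, A i = C c * B i) : a = b := by
  rcases lt_trichotomy a b with hlt | heq | hlt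
  · exfalso
    apply hB
    intro i
    have h1 : (A i).coeff b = 0 := coeff_eq_zero_of_natDegree_lt ((hAd i).trans_lt hlt)
    rw [h i, coeff_C_mul] at h1
    exact (mul_eq_zero.mp h1).resolve_left hc
  · exact heq
  · exfalso
    apply hA
    intro i
    rw [h i, coeff_C_mul, coeff_eq_zero_of_natDegree_lt ((hBd i).trans_lt hlt), mul_zero]

private lemma prl_degG {k : Type*} [Field k] (l : k) {p q p' q' : k[X]} {n n' : ℕ}
    (hp : p.natDegree ≤ n) (hq : q.natDegree ≤ n) (hp' : p'.natDegree ≤ n')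
    (hq' : q'.natDegree ≤ n') :
    ((G0 l p q p' q' ^ 2).natDegree ≤ 2 * n + 2 * n' ∧
      (G0 l p q p' q' ^ 2).coeff (2 * n + 2 * n') =
        (p.coeff n * p'.coeff n' - l * (q.coeff n * q'.coeff n')) ^ 2) ∧
    ((G1 l p q p' q').natDegree ≤ 2 * n + 2 * n' ∧
      (G1 l p q p' q').coeff (2 * n + 2 * n') =
        2 * (p.coeff n * p'.coeff n' + l * (q.coeff n * q'.coeff n')) *
          (p.coeff n * q'.coeff n' + q.coeff n * p'.coeff n') -
          4 * (1 + l) * (p.coeff n * p'.coeff n' * (q.coeff n * q'.coeff n'))) ∧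
    ((G2 p q p' q' ^ 2).natDegree ≤ 2 * n + 2 * n' ∧
      (G2 p q p' q' ^ 2).coeff (2 * n + 2 * n') =
        (p.coeff n * q'.coeff n' - q.coeff n * p'.coeff n') ^ 2) := by
  have hN : 2 * n + 2 * n' = (n + n') + (n + n') := by ring
  rw [hN]
  obtain ⟨pp1, pp2⟩ := prl_mul hp hp'
  obtain ⟨qq1, qq2⟩ := prl_mul hq hq'
  obtain ⟨pq1, pq2⟩ := prl_mul hp hq'
  obtain ⟨qp1, qp2⟩ := prl_mul hq hp'
  have lqq1 : (C l * (q * q')).natDegree ≤ n + n' := (natDegree_C_mul_le _ _).trans qq1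
  have a0 : (G0 l p q p' q').natDegree ≤ n + n' := prl_sub pp1 lqq1
  have c0 : (G0 l p q p' q').coeff (n + n') =
      p.coeff n * p'.coeff n' - l * (q.coeff n * q'.coeff n') := by
    rw [G0, coeff_sub, coeff_C_mul, pp2, qq2]
  have a2 : (G2 p q p' q').natDegree ≤ n + n' := prl_sub pq1 qp1
  have c2 : (G2 p q p' q').coeff (n + n') =
      p.coeff n * q'.coeff n' - q.coeff n * p'.coeff n' := by
    rw [G2, coeff_sub, pq2, qp2]
  have s1 : (p * p' + C l * (q * q')).natDegree ≤ n + n' := natDegree_add_le_of_degree_le pp1 lqq1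
  have s1' : (C 2 * (p * p' + C l * (q * q'))).natDegree ≤ n + n' :=
    (natDegree_C_mul_le _ _).trans s1
  have s2 : (p * q' + q * p').natDegree ≤ n + n' := natDegree_add_le_of_degree_le pq1 qp1
  obtain ⟨t1, t2⟩ := prl_mul s1' s2
  obtain ⟨u1, u2⟩ := prl_mul pp1 qq1
  have u1' : (C (4 * (1 + l)) * (p * p' * (q * q'))).natDegree ≤ (n + n') + (n + n') :=
    (natDegree_C_mul_le _ _).trans u1
  refine ⟨?_, ⟨prl_sub t1 u1', ?_⟩, ?_⟩
  · obtain ⟨v1, v2⟩ := prl_mul a0 a0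
    rw [pow_two, pow_two, v2, c0]
    exact ⟨v1, rfl⟩
  · have w : (C (4 * (1 + l)) * (p * p' * (q * q'))).coeff (n + n' + (n + n')) =
        4 * (1 + l) * (p.coeff n * p'.coeff n' * (q.coeff n * q'.coeff n')) := by
      rw [coeff_C_mul, u2, pp2, qq2]
    rw [G1, coeff_sub, t2, w, coeff_C_mul, coeff_add, coeff_add, coeff_C_mul,
      pp2, qq2, pq2, qp2]
  · obtain ⟨v1, v2⟩ := prl_mul a2 a2
    rw [pow_two, pow_two, v2, c2]
    exact ⟨v1, rfl⟩

open Classical in
/-- L1 (parallelogram law). -/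
theorem ht_parallelogram {k : Type*} [Field k] (l : k) (φ : RatFunc k) (h2 : (2 : k) ≠ 0)
    (hl0 : l ≠ 0) (hl1 : l ≠ 1) (hφ : φ ≠ 0) (P Q : (Wt l φ).toAffine.Point) :
    ht (P + Q) + ht (P - Q) = 2 * ht P + 2 * ht Q := by
  have inj : Function.Injective (RatFunc.C : k →+* RatFunc k) := RingHom.injective _
  have h2' : (2 : RatFunc k) ≠ 0 := by
    intro h0
    apply h2
    apply inj
    rw [map_ofNat, map_zero]
    exact h0
  have hlC : (RatFunc.C l : RatFunc k) ≠ 0 := (_root_.map_ne_zero _).mpr hl0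
  have hl1C : (RatFunc.C l : RatFunc k) - 1 ≠ 0 := by
    intro h0
    apply hl1
    apply inj
    rw [map_one]
    exact sub_eq_zero.mp h0
  have hb : RatFunc.C l * φ ^ 2 ≠ 0 := mul_ne_zero hlC (pow_ne_zero _ hφ)
  have hab : (-(1 + RatFunc.C l) * φ) ^ 2 - 4 * (RatFunc.C l * φ ^ 2) ≠ 0 := by
    have : (-(1 + RatFunc.C l) * φ) ^ 2 - 4 * (RatFunc.C l * φ ^ 2) =
        ((RatFunc.C l - 1) * φ) ^ 2 := by ring
    rw [this]
    exact pow_ne_zero _ (mul_ne_zero hl1C hφ)
  obtain ⟨κ, hκ, k0, k1, k2⟩ := kummer (-(1 + RatFunc.C l) * φ) (RatFunc.C l * φ ^ 2) h2' hb hab P Q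
  obtain ⟨c, p, q, hc, hpq, hh, x0, x1⟩ := prl_vec hφ P
  obtain ⟨c', p', q', hc', hpq', hh', x0', x1'⟩ := prl_vec hφ Q
  obtain ⟨s, ps, qs, hs, hpqs, hhs, xs0, xs1⟩ := prl_vec hφ (P + Q)
  obtain ⟨d, pd, qd, hd, hpqd, hhd, xd0, xd1⟩ := prl_vec hφ (P - Q)
  set ι := algebraMap k[X] (RatFunc k) with hι
  have hιl : ι (C l) = RatFunc.C l := by
    rw [hι, RatFunc.algebraMap_C]
  set K : RatFunc k := κ * c ^ 2 * c' ^ 2 / (s * d) with hKdef
  have hsd : s * d ≠ 0 := mul_ne_zero hs hd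
  have hK : K ≠ 0 := div_ne_zero (mul_ne_zero (mul_ne_zero hκ (pow_ne_zero _ hc))
    (pow_ne_zero _ hc')) hsd
  have hKsd : (s * d) * K = κ * c ^ 2 * c' ^ 2 := by
    rw [hKdef, mul_div_cancel₀ _ hsd]
  have hι2 : ι (C 2) = 2 := by
    rw [hι, RatFunc.algebraMap_C, map_ofNat]
  have hι4 : ι (C 4) = 4 := by
    rw [hι, RatFunc.algebraMap_C, map_ofNat]
  obtain ⟨r0, r1, r2⟩ := prl_alg φ (RatFunc.C l) κ _ _ _ _ _ _ _ _ c (ι p) (ι q) c' (ι p') (ι q')
    s (ι ps) (ι qs) d (ι pd) (ι qd) k0 k1 k2 x0 x1 x0' x1' xs0 xs1 xd0 xd1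
  let A : Fin 3 → k[X] := ![ps * pd, ps * qd + qs * pd, qs * qd]
  let B : Fin 3 → k[X] := ![G0 l p q p' q' ^ 2, G1 l p q p' q', G2 p q p' q' ^ 2]
  have hAB : ∀ i, ι (A i) = K * ι (B i) := by
    intro i
    apply mul_left_cancel₀ hsd
    fin_cases i
    · show (s * d) * ι (ps * pd) = (s * d) * (K * ι (G0 l p q p' q' ^ 2))
      rw [← mul_assoc, hKsd]
      simp only [G0, map_mul, map_sub, map_pow, hιl]
      exact r0
    · show (s * d) * ι (ps * qd + qs * pd) = (s * d) * (K * ι (G1 l p q p' q'))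
      rw [← mul_assoc, hKsd]
      simp only [G1, map_mul, map_sub, map_add, map_one, hιl, hι2, hι4]
      exact r1
    · show (s * d) * ι (qs * qd) = (s * d) * (K * ι (G2 p q p' q' ^ 2))
      rw [← mul_assoc, hKsd]
      simp only [G2, map_mul, map_sub, map_pow]
      exact r2
  have hA : ∀ π, Prime π → ¬ ∀ i, π ∣ A i := by
    intro π hπ h
    exact prl_primA hπ hpqs hpqd (h 0) (h 1) (h 2)
  have hB : ∀ π, Prime π → ¬ ∀ i, π ∣ B i := by
    intro π hπ h
    exact prl_primB h2 hl0 hl1 hπ hpq hpq' (h 0) (h 1) (h 2)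
  obtain ⟨t, ht0, hABt⟩ := prl_unit hK hA hB hAB
  rw [hhs, hhd, hh, hh']
  set n := max p.natDegree q.natDegree with hn
  set n' := max p'.natDegree q'.natDegree with hn'
  set ns := max ps.natDegree qs.natDegree with hns
  set nd := max pd.natDegree qd.natDegree with hnd
  obtain ⟨⟨g01, g02⟩, ⟨g11, g12⟩, ⟨g21, g22⟩⟩ := prl_degG l (le_max_left p.natDegree q.natDegree)
    (le_max_right p.natDegree q.natDegree) (le_max_left p'.natDegree q'.natDegree)
    (le_max_right p'.natDegree q'.natDegree)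
  rw [← hn, ← hn'] at g01 g02 g11 g12 g21 g22
  obtain ⟨a01, a02⟩ := prl_mul (le_max_left ps.natDegree qs.natDegree)
    (le_max_left pd.natDegree qd.natDegree)
  obtain ⟨b01, b02⟩ := prl_mul (le_max_left ps.natDegree qs.natDegree)
    (le_max_right pd.natDegree qd.natDegree)
  obtain ⟨c01, c02⟩ := prl_mul (le_max_right ps.natDegree qs.natDegree)
    (le_max_left pd.natDegree qd.natDegree)
  obtain ⟨d01, d02⟩ := prl_mul (le_max_right ps.natDegree qs.natDegree)
    (le_max_right pd.natDegree qd.natDegree)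
  rw [← hns, ← hnd] at a01 a02 b01 b02 c01 c02 d01 d02
  refine prl_deg ht0 ?_ ?_ ?_ ?_ hABt
  · intro i
    fin_cases i
    · exact a01
    · exact natDegree_add_le_of_degree_le b01 c01
    · exact d01
  · intro i
    fin_cases i
    · exact g01
    · exact g11
    · exact g21
  · intro h
    refine prl_symA (prl_top hpqs) (prl_top hpqd) ?_ ?_ ?_
    · rw [← a02]; exact h 0
    · rw [← b02, ← c02, ← coeff_add]; exact h 1
    · rw [← d02]; exact h 2
  · intro h
    refine prl_symB h2 hl0 hl1 (prl_top hpq) (prl_top hpq') ?_ ?_ ?_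
    · exact pow_eq_zero_iff (two_ne_zero) |>.mp (g02 ▸ h 0)
    · rw [← g12]; exact h 1
    · exact pow_eq_zero_iff (two_ne_zero) |>.mp (g22 ▸ h 2)

end SSP
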