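import Pool.Agent.SSP.Defs
import Pool.Agent.SSP.RatDeriv
import Pool.Agent.SSP.DiffAdd
import Pool.Agent.SSP.Parallelogram
import Pool.Agent.SSP.FrobHom
import Pool.Agent.SSP.FrobHt
import Pool.Agent.SSP.FrobCount
import Pool.Agent.SSP.SDConst

set_option autoImplicit false

namespace SSP

open Polynomial

section Abstract

variable {G : Type*} [AddCommGroup G] {h : G → ℤ}

/-- The pairing of a quadratic form. -/
private def pr (h : G → ℤ) (P Q : G) : ℤ := h (P + Q) - h P - h Q

private theorem par_zero (par : ∀ P Q, h (P + Q) + h (P - Q) = 2 * h P + 2 * h Q) : h 0 = 0 := by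
  have := par 0 0
  rw [add_zero, sub_zero] at this
  linarith

private theorem par_neg (par : ∀ P Q, h (P + Q) + h (P - Q) = 2 * h P + 2 * h Q) (P : G) :
    h (-P) = h P := by
  have h1 := par 0 P
  rw [zero_add, zero_sub, par_zero par] at h1
  linarith

private theorem pr_comm (P Q : G) : pr h P Q = pr h Q P := by
  unfold pr
  rw [add_comm P Q]
  ring

private theorem pr_add (par : ∀ P Q, h (P + Q) + h (P - Q) = 2 * h P + 2 * h Q) (x y z : G) :
    pr h x (y + z) = pr h x y + pr h x z := by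
  have hA := par (x + y) z
  have hB := par (x - z) y
  have hC := par x (y + z)
  have hD := par x z
  have e1 : x + y - z = x - z + y := by abel
  have e2 : x - z - y = x - (y + z) := by abel
  have e3 : x + y + z = x + (y + z) := by abel
  rw [e1, e3] at hA
  rw [e2] at hB
  unfold pr
  linarith

private theorem pr_neg (par : ∀ P Q, h (P + Q) + h (P - Q) = 2 * h P + 2 * h Q) (x y : G) :
    pr h x (-y) = -pr h x y := by
  have := pr_add par x y (-y)
  rw [add_neg_cancel] at this
  have h0 : pr h x 0 = 0 := by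
    unfold pr
    rw [add_zero, par_zero par]
    ring
  linarith

private theorem pr_zsmul (par : ∀ P Q, h (P + Q) + h (P - Q) = 2 * h P + 2 * h Q) (x y : G)
    (c : ℤ) : pr h x (c • y) = c * pr h x y := by
  have h0 : pr h x 0 = 0 := by
    unfold pr
    rw [add_zero, par_zero par]
    ring
  induction c using Int.induction_on with
  | zero => rw [zero_smul, h0, zero_mul]
  | succ n ih =>
    rw [add_smul, one_smul, pr_add par, ih]
    ring
  | pred n ih =>
    rw [sub_smul, one_smul, sub_eq_add_neg, pr_add par, pr_neg par, ih]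
    ring

private theorem pr_zl (par : ∀ P Q, h (P + Q) + h (P - Q) = 2 * h P + 2 * h Q) (x y : G)
    (c : ℤ) : pr h (c • x) y = c * pr h x y := by
  rw [pr_comm, pr_zsmul par, pr_comm]

private theorem pr_self (par : ∀ P Q, h (P + Q) + h (P - Q) = 2 * h P + 2 * h Q) (x : G) :
    pr h x x = 2 * h x := by
  have := par x x
  rw [sub_self, par_zero par] at this
  unfold pr
  linarith

private theorem h_add (h : G → ℤ) (x y : G) : h (x + y) = h x + h y + pr h x y := by
  unfold pr
  ring

private theorem h_zsmul (par : ∀ P Q, h (P + Q) + h (P - Q) = 2 * h P + 2 * h Q) (x : G) (c : ℤ) :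
    h (c • x) = c ^ 2 * h x := by
  have h1 := pr_self par (c • x)
  rw [pr_zsmul par, pr_comm, pr_zsmul par, pr_self par] at h1
  linarith

/-- The form of the argument. -/
private def DD (h : G → ℤ) (J : G →+ G) (p : ℤ) (A B : G) : ℤ :=
  p * (4 * h A * h B - pr h A B ^ 2) - pr h A (J B) ^ 2

variable {J : G →+ G} {p : ℕ}

private theorem pr_J (hJ : ∀ P, h (J P) = p * h P) (A B : G) :
    pr h (J A) (J B) = p * pr h A B := by
  unfold pr
  rw [← map_add, hJ, hJ, hJ]
  ring

private theorem pr_JJ (par : ∀ P Q, h (P + Q) + h (P - Q) = 2 * h P + 2 * h Q)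
    (hJ : ∀ P, h (J P) = p * h P) (orth : ∀ P, h (P - J P) = (p + 1) * h P) (P : G) :
    pr h P (J P) = 0 := by
  have h1 : pr h P (-J P) = 0 := by
    unfold pr
    rw [← sub_eq_add_neg, orth, par_neg par, hJ]
    ring
  rw [pr_neg par] at h1
  linarith

private theorem pr_skew (par : ∀ P Q, h (P + Q) + h (P - Q) = 2 * h P + 2 * h Q)
    (hJ : ∀ P, h (J P) = p * h P) (orth : ∀ P, h (P - J P) = (p + 1) * h P) (A B : G) :
    pr h A (J B) = -pr h B (J A) := by
  have h1 := pr_JJ par hJ orth (A + B)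
  rw [map_add, pr_add par, pr_comm, pr_add par, pr_comm (A + B), pr_add par, pr_comm (J A) A,
    pr_JJ par hJ orth, pr_comm (J B) B, pr_JJ par hJ orth, pr_comm (J A) B, pr_comm (J B) A] at h1
  linarith

private theorem DD_comm (par : ∀ P Q, h (P + Q) + h (P - Q) = 2 * h P + 2 * h Q)
    (hJ : ∀ P, h (J P) = p * h P) (orth : ∀ P, h (P - J P) = (p + 1) * h P) (A B : G) :
    DD h J p A B = DD h J p B A := by
  unfold DD
  rw [pr_skew par hJ orth A B, pr_comm A B]
  ring

private theorem DD_nonneg (hnn : ∀ P, 0 ≤ h P)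
    (par : ∀ P Q, h (P + Q) + h (P - Q) = 2 * h P + 2 * h Q)
    (hJ : ∀ P, h (J P) = p * h P) (orth : ∀ P, h (P - J P) = (p + 1) * h P) (hp : 0 < p)
    (A B : G) : 0 ≤ DD h J p A B := by
  have hp' : (0 : ℤ) < p := by exact_mod_cast hp
  have zero_case : ∀ C : G, h C = 0 → pr h A C = 0 := by
    intro C hC
    have h1 := hnn (A + (-(h A + 1) * pr h A C) • C)
    rw [h_add h, h_zsmul par, pr_zsmul par, hC] at h1
    have h2 : 0 ≤ h A := hnn A
    have h3 : (h A + 1) * pr h A C ^ 2 ≤ h A := by nlinarith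
    by_contra h4
    have h5 : 1 ≤ pr h A C ^ 2 := by
      have := sq_nonneg (pr h A C)
      have h6 : pr h A C ^ 2 ≠ 0 := pow_ne_zero 2 h4
      omega
    nlinarith
  rcases (hnn B).eq_or_lt with hB | hB
  · have h1 := zero_case B hB.symm
    have h2 := zero_case (J B) (by rw [hJ, ← hB, mul_zero])
    unfold DD
    rw [h1, h2, ← hB]
    simp
  · have h1 := hnn ((2 * p * h B) • A + ((-(p * pr h A B)) • B + (-(pr h A (J B))) • J B))
    have e : h ((2 * p * h B) • A + ((-(p * pr h A B)) • B + (-(pr h A (J B))) • J B)) =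
        p * h B * DD h J p A B := by
      rw [h_add h, h_add h, pr_add par, h_zsmul par, h_zsmul par, h_zsmul par, hJ]
      simp only [pr_zsmul par, pr_zl par, pr_JJ par hJ orth]
      unfold DD
      ring
    rw [e] at h1
    have h2 : 0 < (p : ℤ) * h B := mul_pos hp' hB
    exact nonneg_of_mul_nonneg_right h1 h2

private theorem DD_add (par : ∀ P Q, h (P + Q) + h (P - Q) = 2 * h P + 2 * h Q)
    (hJ : ∀ P, h (J P) = p * h P) (orth : ∀ P, h (P - J P) = (p + 1) * h P) (A B : G) (c : ℤ) :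
    DD h J p A (B + c • A) = DD h J p A B := by
  unfold DD
  rw [h_add h, h_zsmul par, pr_zsmul par, pr_add par, pr_zsmul par, pr_self par, map_add,
    pr_add par, map_zsmul, pr_zsmul par, pr_JJ par hJ orth, pr_comm B A]
  ring

private theorem DD_J (par : ∀ P Q, h (P + Q) + h (P - Q) = 2 * h P + 2 * h Q)
    (hJ : ∀ P, h (J P) = p * h P) (orth : ∀ P, h (P - J P) = (p + 1) * h P) (A B : G) :
    DD h J p A (J B) = p * DD h J p A B := by
  unfold DD
  rw [pr_skew par hJ orth A (J B), pr_J hJ, hJ, pr_comm B A]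
  ring

private theorem rank_two_abs (hnn : ∀ P, 0 ≤ h P)
    (par : ∀ P Q, h (P + Q) + h (P - Q) = 2 * h P + 2 * h Q)
    (hJ : ∀ P, h (J P) = p * h P) (orth : ∀ P, h (P - J P) = (p + 1) * h P) [hp : Fact p.Prime]
    (s : G → ZMod p) (hs : ∀ P Q, s (P + Q) = s P + s Q) (hker : ∀ P, s P = 0 → ∃ Q, P = J Q)
    (P Q : G) : ∃ t u : ℤ, (p : ℤ) * (4 * h P * h Q - t ^ 2) = u ^ 2 := by
  have hp1 : 1 < p := hp.out.one_lt
  have hsz : ∀ (c : ℤ) (A : G), s (c • A) = c * s A := by
    intro c A
    have : s (c • A) = c • s A := map_zsmul (AddMonoidHom.mk' s hs) c A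
    rw [this, zsmul_eq_mul]
  have step : ∀ A B, ∃ A' B', DD h J p A B = p * DD h J p A' B' := by
    intro A B
    by_cases hA : s A = 0
    · obtain ⟨A', rfl⟩ := hker A hA
      refine ⟨B, A', ?_⟩
      rw [DD_comm par hJ orth, DD_J par hJ orth]
    · obtain ⟨c, hc⟩ := ZMod.intCast_surjective (-(s B / s A))
      obtain ⟨B', hB'⟩ := hker (B + c • A) (by
        rw [hs, hsz, hc]
        field_simp
        ring)
      refine ⟨A, B', ?_⟩
      rw [← DD_add par hJ orth A B c, hB', DD_J par hJ orth]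
  have key : ∀ n : ℕ, ∀ A B, DD h J p A B = n → n = 0 := by
    intro n
    induction n using Nat.strong_induction_on with
    | _ n ih =>
      intro A B hn
      by_contra hne
      obtain ⟨A', B', h1⟩ := step A B
      have h2 := DD_nonneg hnn par hJ orth (by omega) A' B'
      obtain ⟨m, hm⟩ := Int.eq_ofNat_of_zero_le h2
      rw [hn, hm] at h1
      have h3 : n = p * m := by exact_mod_cast h1
      have h4 : m ≠ 0 := by
        rintro rfl
        omega
      have h5 : m < n := by
        rw [h3]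
        have : 0 < m := Nat.pos_of_ne_zero h4
        nlinarith
      exact h4 (ih m h5 A' B' hm)
  have h2 := DD_nonneg hnn par hJ orth (by omega) P Q
  obtain ⟨m, hm⟩ := Int.eq_ofNat_of_zero_le h2
  have h3 := key m P Q hm
  rw [h3] at hm
  refine ⟨pr h P Q, pr h P (J Q), ?_⟩
  unfold DD at hm
  push_cast at hm
  linarith

end Abstract

/-- L4 (the lattice has rank two). -/
theorem rank_two (p : ℕ) [Fact p.Prime] (hp2 : p ≠ 2) (l : ZMod p) (hl0 : l ≠ 0) (hl1 : l ≠ 1)
    (hB : Bal p l) (P Q : (Wt l (-fL l)).toAffine.Point) :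
    ∃ t u : ℤ, (p : ℤ) * (4 * ht P * ht Q - t ^ 2) = u ^ 2 := by
  classical
  have e : (-fL l : RatFunc (ZMod p)) = RatFunc.C (-1) * fL l := by
    rw [map_neg, map_one, neg_one_mul]
  suffices main : ∀ φ : RatFunc (ZMod p), φ = RatFunc.C (-1) * fL l →
      ∀ P Q : (Wt l φ).toAffine.Point,
        ∃ t u : ℤ, (p : ℤ) * (4 * ht P * ht Q - t ^ 2) = u ^ 2 from main _ e P Q
  intro φ hφd P Q
  have h2 : (2 : ZMod p) ≠ 0 := by
    intro h
    have h' : ((2 : ℕ) : ZMod p) = 0 := by exact_mod_cast h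
    rw [ZMod.natCast_eq_zero_iff] at h'
    exact hp2 ((Nat.prime_dvd_prime_iff_eq (Fact.out : p.Prime) Nat.prime_two).mp h')
  have hX : (RatFunc.X : RatFunc (ZMod p)) ≠ 0 := RatFunc.X_ne_zero
  have hXC : ∀ c : ZMod p, (RatFunc.X - RatFunc.C c : RatFunc (ZMod p)) ≠ 0 := by
    intro c h
    rw [← RatFunc.algebraMap_X, ← RatFunc.algebraMap_C, ← map_sub] at h
    exact X_sub_C_ne_zero c ((map_eq_zero_iff _ (RatFunc.algebraMap_injective _)).mp h)
  have hf : fL l ≠ 0 := by
    unfold fL
    refine mul_ne_zero (mul_ne_zero hX ?_) (hXC l)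
    have := hXC 1
    rwa [map_one] at this
  have hφ : φ ≠ 0 := by
    rw [hφd]
    refine mul_ne_zero ?_ hf
    rw [map_neg, map_one]
    exact neg_ne_zero.mpr one_ne_zero
  obtain ⟨J, hJ⟩ := exists_frob p hp2 l hl0 hl1 φ hφ
  obtain ⟨D, hD, -⟩ := exists_deriv (ZMod p)
  have hc : ∀ P : (Wt l φ).toAffine.Point, ∃ c, sD D φ P = RatFunc.C c := by
    subst hφd
    exact fun P => sD_const l h2 hl0 hl1 (-1) (neg_ne_zero.mpr one_ne_zero) D hD P
  choose s hs using hc
  have hadd : ∀ P Q : (Wt l φ).toAffine.Point, sD D φ (P + Q) = sD D φ P + sD D φ Q := by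
    intro P Q
    have h2' : (2 : RatFunc (ZMod p)) ≠ 0 := by
      have : (2 : RatFunc (ZMod p)) = RatFunc.C 2 := (map_ofNat RatFunc.C 2).symm
      rw [this]
      exact fun h => h2 ((map_eq_zero_iff _ RatFunc.C_injective).mp h)
    refine sD_add D hD.toIsDer (-(1 + RatFunc.C l)) (RatFunc.C l) φ h2' hφ ?_ ?_ ?_ ?_ P Q
    · exact fun h => hl0 ((map_eq_zero_iff _ RatFunc.C_injective).mp h)
    · have : (-(1 + RatFunc.C l)) ^ 2 - 4 * RatFunc.C l = RatFunc.C ((1 - l) ^ 2) := by
        simp only [map_pow, map_sub, map_one]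
        ring
      rw [this]
      intro h
      have h3 := (map_eq_zero_iff _ RatFunc.C_injective).mp h
      have h4 := pow_eq_zero_iff (two_ne_zero) |>.mp h3
      exact hl1 (sub_eq_zero.mp h4).symm
    · have : (-(1 + RatFunc.C l) : RatFunc (ZMod p)) = RatFunc.C (-(1 + l)) := by simp
      rw [this]
      exact hD.C _
    · exact hD.C _
  have key := rank_two_abs (h := fun P : (Wt l φ).toAffine.Point => (ht P : ℤ)) (J := J) (p := p)
    (fun P => Int.natCast_nonneg _)
    (fun P Q => by exact_mod_cast ht_parallelogram l φ h2 hl0 hl1 hφ P Q)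
    (fun P => by exact_mod_cast frob_ht p hp2 l φ hφ J hJ P)
    (fun P => by exact_mod_cast frob_count p hp2 l hl0 hl1 hB φ hφ J hJ P)
    s (fun P Q => by
      have h3 := hadd P Q
      rw [hs, hs, hs, ← map_add] at h3
      exact RatFunc.C_injective h3)
    (fun P hP => frob_ker p hp2 l hl0 hl1 φ hφ J hJ D hD P (by rw [hs, hP, map_zero]))
    P Q
  exact key

end SSP
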