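import Pool.Agent.SSP.Defs
import Pool.Agent.SSP.RankTwo

set_option autoImplicit false

namespace SSP

open Polynomial

/-- L5. -/
theorem cov_pair (p : ℕ) [Fact p.Prime] (hp2 : p ≠ 2) (hp17 : p ≠ 17)
    (hB : Bal p (16 / 17)) (l1 l2 : ℕ) (h1 : Cov p l1) (h2 : Cov p l2) :
    ∃ t n : ℤ, 4 * (l1 : ℤ) * l2 = t ^ 2 + p * n ^ 2 := by
  have hp : p.Prime := Fact.out
  have c17 : (17 : ZMod p) ≠ 0 := by
    intro h
    have h3 : ((17 : ℕ) : ZMod p) = 0 := by exact_mod_cast h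
    rw [ZMod.natCast_eq_zero_iff] at h3
    exact hp17 ((Nat.prime_dvd_prime_iff_eq hp (by norm_num)).mp h3)
  have c16 : (16 : ZMod p) ≠ 0 := by
    intro h
    have h3 : ((16 : ℕ) : ZMod p) = 0 := by exact_mod_cast h
    rw [ZMod.natCast_eq_zero_iff, show 16 = 2 ^ 4 by norm_num] at h3
    exact hp2 ((Nat.prime_dvd_prime_iff_eq hp Nat.prime_two).mp (hp.dvd_of_dvd_pow h3))
  have hl0 : (16 / 17 : ZMod p) ≠ 0 := div_ne_zero c16 c17
  have hl1 : (16 / 17 : ZMod p) ≠ 1 := by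
    intro h
    rw [div_eq_one_iff_eq c17] at h
    have h4 : (1 : ZMod p) = 0 := by linear_combination -h
    exact one_ne_zero h4
  obtain ⟨i1, P, hP⟩ := h1
  obtain ⟨i2, Q, hQ⟩ := h2
  obtain ⟨t, u, h⟩ := rank_two p hp2 (16 / 17) hl0 hl1 hB P Q
  have hP' : ht P = l1 := hP
  have hQ' : ht Q = l2 := hQ
  rw [hP', hQ'] at h
  have hdvd : (p : ℤ) ∣ u := by
    have h5 : (p : ℤ) ∣ u ^ 2 := Dvd.intro _ h
    exact Int.Prime.dvd_pow' hp h5
  obtain ⟨n, hn⟩ := hdvd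
  refine ⟨t, n, ?_⟩
  have hp0 : (p : ℤ) ≠ 0 := by exact_mod_cast hp.ne_zero
  have h6 : (p : ℤ) * (4 * (l1 : ℤ) * l2) = p * (t ^ 2 + p * n ^ 2) := by
    rw [hn] at h
    linear_combination h
  exact mul_left_cancel₀ hp0 h6

end SSP
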