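import Pool.Agent.SSP.Defs

set_option autoImplicit false

namespace SSP

open Filter

namespace CoverFew

/-- The number of the `l < X` with `4 a l = t ^ 2 + p n ^ 2`. -/
theorem count (p a X : ℕ) (hp : 0 < p) (ha : a.Prime) (haX : a < X) (F : Finset ℕ)
    (hF : ∀ l ∈ F, l < X ∧ ∃ t n : ℕ, 4 * a * l = t ^ 2 + p * n ^ 2 ∧ 1 ≤ n) :
    (F.card : ℝ) ≤ 12 * X / Real.sqrt p := by
  classical
  haveI : Fact a.Prime := ⟨ha⟩
  have ha0 : 0 < a := ha.pos
  have h1 : ∀ l, ∃ t n : ℕ, l ∈ F → 4 * a * l = t ^ 2 + p * n ^ 2 ∧ 1 ≤ n := by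
    intro l
    by_cases hl : l ∈ F
    · obtain ⟨_, t, n, h⟩ := hF l hl
      exact ⟨t, n, fun _ => h⟩
    · exact ⟨0, 0, fun h => absurd h hl⟩
  choose tt nn hn using h1
  set r : ℕ → ZMod a := fun n => Classical.epsilon (fun r : ZMod a => r ^ 2 = -(p * n ^ 2)) with hr
  set N : ℕ := Nat.sqrt (4 * a * X / p) with hN
  set M : ℕ := Nat.sqrt (4 * a * X) with hM
  have hroot : ∀ l ∈ F, (tt l : ZMod a) = r (nn l) ∨ (tt l : ZMod a) = -r (nn l) := by
    intro l hl
    have h2 := (hn l hl).1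
    have h3 : (tt l : ZMod a) ^ 2 = -((p : ZMod a) * (nn l : ZMod a) ^ 2) := by
      have h4 : ((4 * a * l : ℕ) : ZMod a) = ((tt l ^ 2 + p * nn l ^ 2 : ℕ) : ZMod a) := by
        rw [h2]
      push_cast at h4
      rw [CharP.cast_eq_zero (ZMod a) a] at h4
      have h5 : (0 : ZMod a) = (tt l : ZMod a) ^ 2 + (p : ZMod a) * (nn l : ZMod a) ^ 2 := by
        rw [← h4]; ring
      exact eq_neg_of_add_eq_zero_left h5.symm
    have h6 : (r (nn l)) ^ 2 = -((p : ZMod a) * (nn l : ZMod a) ^ 2) :=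
      Classical.epsilon_spec (p := fun r : ZMod a => r ^ 2 = -((p : ZMod a) * (nn l : ZMod a) ^ 2))
        ⟨_, h3⟩
    exact sq_eq_sq_iff_eq_or_eq_neg.mp (h3.trans h6.symm)
  have hcard : F.card ≤ (Finset.Icc 1 N ×ˢ (Finset.range (M / a + 1) ×ˢ
      (Finset.univ : Finset Bool))).card := by
    refine Finset.card_le_card_of_injOn
      (fun l => (nn l, tt l / a, decide ((tt l : ZMod a) = r (nn l)))) ?_ ?_
    · intro l hl
      have hl' : l ∈ F := hl
      obtain ⟨h2, h3⟩ := hn l hl'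
      have h4 := (hF l hl').1
      have h5 : 4 * a * l ≤ 4 * a * X := Nat.mul_le_mul_left _ h4.le
      simp only [Finset.coe_product, Set.mem_prod, Finset.mem_coe, Finset.mem_Icc,
        Finset.mem_range, Finset.mem_univ, and_true]
      refine ⟨⟨h3, ?_⟩, ?_⟩
      · rw [hN, Nat.le_sqrt', Nat.le_div_iff_mul_le hp]
        have : nn l ^ 2 * p = p * nn l ^ 2 := mul_comm _ _
        omega
      · refine Nat.lt_succ_of_le (Nat.div_le_div_right ?_)
        rw [hM, Nat.le_sqrt']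
        omega
    · intro l hl l' hl' heq
      have hlF : l ∈ F := hl
      have hlF' : l' ∈ F := hl'
      simp only [Prod.mk.injEq] at heq
      obtain ⟨e1, e2, e3⟩ := heq
      have h7 : (tt l : ZMod a) = (tt l' : ZMod a) := by
        by_cases hb : (tt l : ZMod a) = r (nn l)
        · rw [decide_eq_true hb] at e3
          have := of_decide_eq_true e3.symm
          rw [hb, this, e1]
        · rw [decide_eq_false hb] at e3
          have hb' := of_decide_eq_false e3.symm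
          rw [(hroot l hlF).resolve_left hb, (hroot l' hlF').resolve_left hb', e1]
      have h8 : tt l % a = tt l' % a := by
        rwa [ZMod.natCast_eq_natCast_iff] at h7
      have h9 : tt l = tt l' := by
        rw [← Nat.div_add_mod (tt l) a, ← Nat.div_add_mod (tt l') a, e2, h8]
      have h10 : 4 * a * l = 4 * a * l' := by
        rw [(hn l hlF).1, (hn l' hlF').1, h9, e1]
      exact Nat.eq_of_mul_eq_mul_left (by omega) h10
  rw [Finset.card_product, Finset.card_product, Nat.card_Icc, Finset.card_range,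
    Finset.card_univ, Fintype.card_bool] at hcard
  have hNr : (N : ℝ) ≤ 2 * (Real.sqrt a * Real.sqrt X) / Real.sqrt p := by
    have h2 : (N : ℝ) ≤ Real.sqrt (4 * a * X / p) := by
      refine Real.le_sqrt_of_sq_le ?_
      have h3 : N ^ 2 ≤ 4 * a * X / p := Nat.sqrt_le' _
      calc (N : ℝ) ^ 2 = ((N ^ 2 : ℕ) : ℝ) := by push_cast; rfl
        _ ≤ ((4 * a * X / p : ℕ) : ℝ) := by exact_mod_cast h3
        _ ≤ ((4 * a * X : ℕ) : ℝ) / (p : ℝ) := Nat.cast_div_le
        _ = 4 * a * X / p := by push_cast; rfl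
    refine h2.trans (le_of_eq ?_)
    rw [Real.sqrt_div (by positivity), Real.sqrt_mul (by positivity),
      Real.sqrt_mul (by norm_num)]
    have : Real.sqrt 4 = 2 := by
      rw [show (4 : ℝ) = 2 ^ 2 by norm_num, Real.sqrt_sq (by norm_num)]
    rw [this]
    ring
  have hMr : ((M / a + 1 : ℕ) : ℝ) ≤ 3 * (Real.sqrt X / Real.sqrt a) := by
    have h2 : (M : ℝ) ≤ 2 * (Real.sqrt a * Real.sqrt X) := by
      have h3 : (M : ℝ) ≤ Real.sqrt (4 * a * X) := by
        refine Real.le_sqrt_of_sq_le ?_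
        have h4 : M ^ 2 ≤ 4 * a * X := Nat.sqrt_le' _
        exact_mod_cast h4
      refine h3.trans (le_of_eq ?_)
      rw [Real.sqrt_mul (by positivity), Real.sqrt_mul (by norm_num)]
      have : Real.sqrt 4 = 2 := by
        rw [show (4 : ℝ) = 2 ^ 2 by norm_num, Real.sqrt_sq (by norm_num)]
      rw [this]
      ring
    have ha' : (0 : ℝ) < a := by exact_mod_cast ha0
    have hsa : 0 < Real.sqrt a := Real.sqrt_pos.mpr ha'
    have h3 : (1 : ℝ) ≤ Real.sqrt X / Real.sqrt a := by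
      rw [one_le_div hsa]
      exact Real.sqrt_le_sqrt (by exact_mod_cast haX.le)
    have h4 : ((M / a : ℕ) : ℝ) ≤ 2 * (Real.sqrt X / Real.sqrt a) := by
      refine Nat.cast_div_le.trans ?_
      rw [div_le_iff₀ ha']
      refine h2.trans (le_of_eq ?_)
      have h5 : Real.sqrt a * Real.sqrt a = a := Real.mul_self_sqrt ha'.le
      have h6 : 2 * (Real.sqrt X / Real.sqrt a) * (Real.sqrt a * Real.sqrt a) =
          2 * (Real.sqrt a * Real.sqrt X) := by
        field_simp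
      rw [h5] at h6
      exact h6.symm
    push_cast
    push_cast at h4
    linarith
  have hp' : (0 : ℝ) < p := by exact_mod_cast hp
  have hsp : 0 < Real.sqrt p := Real.sqrt_pos.mpr hp'
  have ha' : (0 : ℝ) < a := by exact_mod_cast ha0
  have hsa : 0 < Real.sqrt a := Real.sqrt_pos.mpr ha'
  have hX : (0 : ℝ) ≤ X := Nat.cast_nonneg X
  calc (F.card : ℝ) ≤ (((N + 1 - 1) * ((M / a + 1) * 2) : ℕ) : ℝ) := by exact_mod_cast hcard
    _ = (N : ℝ) * (((M / a + 1 : ℕ) : ℝ) * 2) := by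
        rw [Nat.add_sub_cancel]
        push_cast
        ring
    _ ≤ (2 * (Real.sqrt a * Real.sqrt X) / Real.sqrt p) *
          ((3 * (Real.sqrt X / Real.sqrt a)) * 2) := by
        refine mul_le_mul hNr (mul_le_mul_of_nonneg_right hMr (by norm_num)) (by positivity)
          (by positivity)
    _ = 12 * (Real.sqrt X * Real.sqrt X) / Real.sqrt p := by
        field_simp
        ring
    _ = 12 * X / Real.sqrt p := by rw [Real.mul_self_sqrt hX]

end CoverFew

/-- B5 (a prime `p` covers few `ell`). -/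
theorem cover_few : ∃ C : ℝ, 0 < C ∧ ∀ (p : ℕ) (T : Set ℕ) (a : ℕ), p.Prime → (∀ l ∈ T, l.Prime) →
    a ∈ T → (∀ l ∈ T, a ≤ l) →
    (∀ l ∈ T, l ≠ a → ∃ t n : ℤ, 4 * (a : ℤ) * l = t ^ 2 + p * n ^ 2) →
    ∀ η : ℝ, 0 < η → η ≤ 1 →
      (∀ F : Finset ℕ, (∀ l ∈ F, l ∈ T ∧ l ≠ a) →
        ∑ l ∈ F, Real.log l / (l : ℝ) ^ (1 + η) ≤ C / (η ^ 2 * Real.sqrt p)) := by
  classical
  refine ⟨96, by norm_num, ?_⟩
  intro p T a hp hT haT hmin hq η hη hη1 F hF
  have ha : a.Prime := hT a haT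
  have hp0 : 0 < p := hp.pos
  have hrep : ∀ l ∈ F, a < l ∧ ∃ t n : ℕ, 4 * a * l = t ^ 2 + p * n ^ 2 ∧ 1 ≤ n := by
    intro l hl
    obtain ⟨hlT, hla⟩ := hF l hl
    have hal : a < l := lt_of_le_of_ne (hmin l hlT) (Ne.symm hla)
    refine ⟨hal, ?_⟩
    obtain ⟨t, n, h⟩ := hq l hlT hla
    have h1 : 4 * a * l = t.natAbs ^ 2 + p * n.natAbs ^ 2 := by
      zify
      rw [sq_abs, sq_abs]
      exact h
    refine ⟨t.natAbs, n.natAbs, h1, ?_⟩
    by_contra hn
    have hn0 : n.natAbs = 0 := by omega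
    rw [hn0] at h1
    have hlp : l.Prime := hT l hlT
    have h2 : 4 * a * l = t.natAbs ^ 2 := by rw [h1]; ring
    have h3 : l ∣ t.natAbs := hlp.dvd_of_dvd_pow (Dvd.intro_left _ h2)
    obtain ⟨s, hs⟩ := h3
    rw [hs] at h2
    have h4 : 4 * a = l * s ^ 2 := by
      have h5 : (4 * a) * l = (l * s ^ 2) * l := by rw [h2]; ring
      exact Nat.eq_of_mul_eq_mul_right hlp.pos h5
    have h5 : l ∣ 4 * a := Dvd.intro _ h4.symm
    have h6 : 2 ≤ a := ha.two_le
    rcases hlp.dvd_mul.mp h5 with h7 | h7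
    · have h8 : l ∣ 2 := by
        have : l ∣ 2 ^ 2 := by norm_num; exact h7
        exact hlp.dvd_of_dvd_pow this
      have := Nat.le_of_dvd (by norm_num) h8
      omega
    · have := Nat.le_of_dvd (by omega) h7
      omega
  -- the geometric ratio
  set r : ℝ := (1 / 2 : ℝ) ^ η with hr
  have hr0 : 0 < r := Real.rpow_pos_of_pos (by norm_num) _
  have hr1 : r ≤ 1 - η / 2 := by
    have h1 := rpow_one_add_le_one_add_mul_self (s := -(1 / 2 : ℝ)) (by norm_num)
      (p := η) hη.le hη1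
    have h2 : (1 : ℝ) + -(1 / 2) = 1 / 2 := by norm_num
    rw [h2] at h1
    rw [hr]
    linarith
  have hrlt : r < 1 := by linarith
  have hsp : 0 < Real.sqrt p := Real.sqrt_pos.mpr (by exact_mod_cast hp0)
  have hterm : ∀ k : ℕ, ∑ l ∈ F.filter (fun l => Nat.log 2 l = k),
      Real.log l / (l : ℝ) ^ (1 + η) ≤ 24 / Real.sqrt p * (((k + 1 : ℕ) : ℝ) * r ^ k) := by
    intro k
    rcases (F.filter (fun l => Nat.log 2 l = k)).eq_empty_or_nonempty with hemp | ⟨l0, hl0⟩
    · rw [hemp, Finset.sum_empty]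
      positivity
    have hmem : ∀ l ∈ F.filter (fun l => Nat.log 2 l = k), 2 ^ k ≤ l ∧ l < 2 ^ (k + 1) := by
      intro l hl
      rw [Finset.mem_filter] at hl
      have hl0 : l ≠ 0 := by
        have := (hrep l hl.1).1
        omega
      constructor
      · rw [← hl.2]
        exact Nat.pow_log_le_self 2 hl0
      · rw [← hl.2]
        exact Nat.lt_pow_succ_log_self (by norm_num) l
    have hc := CoverFew.count p a (2 ^ (k + 1)) hp0 ha
      (lt_trans (hrep l0 (Finset.mem_filter.mp hl0).1).1 (hmem l0 hl0).2)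
      (F.filter (fun l => Nat.log 2 l = k))
      (fun l hl => ⟨(hmem l hl).2, (hrep l (Finset.mem_filter.mp hl).1).2⟩)
    have hone : ∀ l ∈ F.filter (fun l => Nat.log 2 l = k),
        Real.log l / (l : ℝ) ^ (1 + η) ≤ ((k + 1 : ℕ) : ℝ) * r ^ k / 2 ^ k := by
      intro l hl
      obtain ⟨h1, h2⟩ := hmem l hl
      have h1' : ((2 : ℝ) ^ k) ≤ l := by exact_mod_cast h1
      have h2' : (l : ℝ) ≤ (2 : ℝ) ^ (k + 1) := by exact_mod_cast h2.le
      have hl0 : (0 : ℝ) < l := lt_of_lt_of_le (by positivity) h1'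
      have hlog : Real.log l ≤ ((k + 1 : ℕ) : ℝ) := by
        have h3 := Real.log_le_log hl0 h2'
        rw [Real.log_pow] at h3
        have h4 := Real.log_two_lt_d9
        have h5 : ((k + 1 : ℕ) : ℝ) * Real.log 2 ≤ ((k + 1 : ℕ) : ℝ) * 1 :=
          mul_le_mul_of_nonneg_left (by linarith) (by positivity)
        linarith
      have hpow : (2 : ℝ) ^ k / r ^ k ≤ (l : ℝ) ^ (1 + η) := by
        rw [Real.rpow_add hl0, Real.rpow_one]
        have h3 : ((2 : ℝ) ^ k) ^ η ≤ (l : ℝ) ^ η :=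
          Real.rpow_le_rpow (by positivity) h1' hη.le
        have h4 : ((2 : ℝ) ^ k) ^ η * r ^ k = 1 := by
          rw [← Real.rpow_natCast 2 k, ← Real.rpow_mul (by norm_num), mul_comm (k : ℝ) η,
            Real.rpow_mul (by norm_num), Real.rpow_natCast, ← mul_pow, hr,
            ← Real.mul_rpow (by norm_num) (by norm_num)]
          norm_num
        have h5 : (2 : ℝ) ^ k / r ^ k = (2 : ℝ) ^ k * ((2 : ℝ) ^ k) ^ η := by
          rw [div_eq_iff (by positivity), mul_assoc, h4, mul_one]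
        rw [h5]
        exact mul_le_mul h1' h3 (by positivity) hl0.le
      have hlog0 : 0 ≤ Real.log (l : ℝ) := Real.log_natCast_nonneg l
      calc Real.log l / (l : ℝ) ^ (1 + η) ≤ ((k + 1 : ℕ) : ℝ) / ((2 : ℝ) ^ k / r ^ k) :=
            div_le_div₀ (by positivity) hlog (by positivity) hpow
        _ = ((k + 1 : ℕ) : ℝ) * r ^ k / 2 ^ k := by
            field_simp
    calc ∑ l ∈ F.filter (fun l => Nat.log 2 l = k), Real.log l / (l : ℝ) ^ (1 + η)
        ≤ (F.filter (fun l => Nat.log 2 l = k)).card • (((k + 1 : ℕ) : ℝ) * r ^ k / 2 ^ k) :=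
          Finset.sum_le_card_nsmul _ _ _ hone
      _ = ((F.filter (fun l => Nat.log 2 l = k)).card : ℝ) *
            (((k + 1 : ℕ) : ℝ) * r ^ k / 2 ^ k) := by rw [nsmul_eq_mul]
      _ ≤ (12 * ((2 ^ (k + 1) : ℕ) : ℝ) / Real.sqrt p) *
            (((k + 1 : ℕ) : ℝ) * r ^ k / 2 ^ k) :=
          mul_le_mul_of_nonneg_right hc (by positivity)
      _ = 24 / Real.sqrt p * (((k + 1 : ℕ) : ℝ) * r ^ k) := by
          push_cast
          field_simp
          ring
  have hsum := Finset.sum_fiberwise_of_maps_to (s := F) (t := F.image (Nat.log 2))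
    (g := Nat.log 2) (fun l hl => Finset.mem_image_of_mem _ hl)
    (fun l : ℕ => Real.log l / (l : ℝ) ^ (1 + η))
  rw [← hsum]
  have hgeo := hasSum_choose_mul_geometric_of_norm_lt_one (𝕜 := ℝ) 1 (r := r)
    (by rw [Real.norm_eq_abs, abs_of_pos hr0]; exact hrlt)
  have hle : ∑ k ∈ F.image (Nat.log 2), (((k + 1 : ℕ) : ℝ) * r ^ k) ≤ 1 / (1 - r) ^ 2 := by
    have h1 := sum_le_hasSum (F.image (Nat.log 2)) (fun k _ => by positivity) hgeo
    refine le_trans (le_of_eq ?_) h1
    refine Finset.sum_congr rfl fun k _ => ?_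
    rw [Nat.choose_one_right]
  calc ∑ k ∈ F.image (Nat.log 2), ∑ l ∈ F.filter (fun l => Nat.log 2 l = k),
        Real.log l / (l : ℝ) ^ (1 + η)
      ≤ ∑ k ∈ F.image (Nat.log 2), 24 / Real.sqrt p * (((k + 1 : ℕ) : ℝ) * r ^ k) :=
        Finset.sum_le_sum fun k _ => hterm k
    _ = 24 / Real.sqrt p * ∑ k ∈ F.image (Nat.log 2), (((k + 1 : ℕ) : ℝ) * r ^ k) := by
        rw [Finset.mul_sum]
    _ ≤ 24 / Real.sqrt p * (1 / (1 - r) ^ 2) := mul_le_mul_of_nonneg_left hle (by positivity)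
    _ ≤ 24 / Real.sqrt p * (1 / (η / 2) ^ 2) := by
        refine mul_le_mul_of_nonneg_left ?_ (by positivity)
        refine one_div_le_one_div_of_le (by positivity) ?_
        exact pow_le_pow_left₀ (by positivity) (by linarith) 2
    _ = 96 / (η ^ 2 * Real.sqrt p) := by
        field_simp
        ring

end SSP
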