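import Pool.Agent.SSP.Defs

set_option autoImplicit false

namespace SSP

open Filter

/-- everything except nonprincipality -/
private structure Pre (q : ℕ) (f : ℕ → ℝ) : Prop where
  pos : 0 < q
  one : f 1 = 1
  mul : ∀ m n, f (m * n) = f m * f n
  per : ∀ n, f (n + q) = f n
  val : ∀ n, f n = -1 ∨ f n = 0 ∨ f n = 1
  cop : ∀ n, f n = 0 ↔ ¬ Nat.Coprime n q

private theorem Pre.per_mul {q : ℕ} {f : ℕ → ℝ} (h : Pre q f) (n k : ℕ) :
    f (n + q * k) = f n := by
  induction k with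
  | zero => simp
  | succ k ih => rw [Nat.mul_succ, ← add_assoc, h.per, ih]

private theorem Pre.mod {q : ℕ} {f : ℕ → ℝ} (h : Pre q f) (n : ℕ) : f (n % q) = f n := by
  conv_rhs => rw [← Nat.mod_add_div n q]
  rw [h.per_mul]

private theorem Pre.mulPre {q q' Q : ℕ} {f g : ℕ → ℝ} (h : Pre q f) (h' : Pre q' g)
    (hQ : 0 < Q) (h1 : q ∣ Q) (h2 : q' ∣ Q)
    (hc : ∀ n, Nat.Coprime n Q ↔ Nat.Coprime n q ∧ Nat.Coprime n q') :
    Pre Q (fun n => f n * g n) := by
  refine ⟨hQ, ?_, ?_, ?_, ?_, ?_⟩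
  · simp [h.one, h'.one]
  · intro m n
    simp only [h.mul, h'.mul]
    ring
  · intro n
    obtain ⟨k, rfl⟩ := h1
    obtain ⟨k', hk'⟩ := h2
    have e1 : f (n + q * k) = f n := h.per_mul n k
    have e2 : g (n + q * k) = g n := by rw [hk', h'.per_mul]
    simp only [e1, e2]
  · intro n
    rcases h.val n with a | a | a <;> rcases h'.val n with b | b | b <;> simp [a, b]
  · intro n
    rw [mul_eq_zero, h.cop, h'.cop, hc]
    tauto

private theorem Pre.real {q : ℕ} {f : ℕ → ℝ} (h : Pre q f) {a : ℕ} (ha : f a = -1) :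
    RealChar q f := by
  refine ⟨h.pos, h.one, h.mul, h.per, h.val, h.cop, ?_⟩
  have hcop : Nat.Coprime a q := by
    by_contra hh
    rw [← h.cop, ha] at hh
    norm_num at hh
  have : NeZero q := ⟨h.pos.ne'⟩
  have hsum : ∑ n ∈ Finset.range q, f n = ∑ x : ZMod q, f x.val := by
    obtain ⟨k, rfl⟩ : ∃ k, q = k + 1 := ⟨q - 1, by have := h.pos; omega⟩
    exact (Fin.sum_univ_eq_sum_range f (k + 1)).symm
  let u : (ZMod q)ˣ := ZMod.unitOfCoprime a hcop
  have hbij : ∑ x : ZMod q, f x.val = ∑ x : ZMod q, f (((u : ZMod q) * x).val) :=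
    (Fintype.sum_equiv (Units.mulLeft u) _ _ (fun x => rfl)).symm
  have hval : ∀ x : ZMod q, f (((u : ZMod q) * x).val) = - f x.val := by
    intro x
    have : ((u : ZMod q) * x).val = (a * x.val) % q := by
      have h1 : ((u : ZMod q) * x) = ((a * x.val : ℕ) : ZMod q) := by
        simp [u, ZMod.coe_unitOfCoprime]
      rw [h1, ZMod.val_natCast]
    rw [this, h.mod, h.mul, ha]
    ring
  rw [hsum]
  have : ∑ x : ZMod q, f x.val = - ∑ x : ZMod q, f x.val := by
    conv_lhs => rw [hbij]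
    rw [← Finset.sum_neg_distrib]
    exact Finset.sum_congr rfl (fun x _ => hval x)
  linarith

private theorem pre_chi4 : Pre 4 (fun n => ((ZMod.χ₄ (n : ZMod 4) : ℤ) : ℝ)) := by
  refine ⟨by norm_num, by simp, ?_, ?_, ?_, ?_⟩
  · intro m n
    rw [Nat.cast_mul, map_mul, Int.cast_mul]
  · intro n
    have : ((n + 4 : ℕ) : ZMod 4) = (n : ZMod 4) := by
      push_cast
      have : (4 : ZMod 4) = 0 := by decide
      rw [this, add_zero]
    simp only [this]
  · intro n
    have key : ∀ x : ZMod 4, ZMod.χ₄ x = -1 ∨ ZMod.χ₄ x = 0 ∨ ZMod.χ₄ x = 1 := by decide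
    rcases key (n : ZMod 4) with h | h | h <;> simp [h]
  · intro n
    have key : ∀ x : ZMod 4, ZMod.χ₄ x = 0 ↔ x.val % 2 = 0 := by decide
    have h1 : ((ZMod.χ₄ (n : ZMod 4) : ℤ) : ℝ) = 0 ↔ ZMod.χ₄ (n : ZMod 4) = 0 := by
      exact_mod_cast Iff.rfl
    rw [h1, key, ZMod.val_natCast]
    have h4 : Nat.Coprime n 4 ↔ Nat.Coprime n 2 := by
      rw [show (4 : ℕ) = 2 ^ 2 by norm_num, Nat.coprime_pow_right_iff (by norm_num)]
    rw [h4, Nat.coprime_two_right, Nat.not_odd_iff_even, Nat.even_iff]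
    omega

private theorem pre_one : Pre 1 (fun _ => 1) := by
  refine ⟨by norm_num, rfl, ?_, ?_, ?_, ?_⟩ <;> simp

private theorem pre_jac {p : ℕ} (hp : 0 < p) :
    Pre p (fun n => ((jacobiSym (n : ℤ) p : ℤ) : ℝ)) := by
  have : NeZero p := ⟨hp.ne'⟩
  refine ⟨hp, ?_, ?_, ?_, ?_, ?_⟩
  · simp [jacobiSym.one_left]
  · intro m n
    push_cast
    rw [jacobiSym.mul_left]
    push_cast
    rfl
  · intro n
    have : jacobiSym ((n + p : ℕ) : ℤ) p = jacobiSym (n : ℤ) p := by
      rw [jacobiSym.mod_left ((n + p : ℕ) : ℤ), jacobiSym.mod_left (n : ℤ)]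
      congr 1
      push_cast
      simp
    simp only [this]
  · intro n
    rcases jacobiSym.trichotomy (n : ℤ) p with h | h | h <;> simp [h]
  · intro n
    have h1 : ((jacobiSym (n : ℤ) p : ℤ) : ℝ) = 0 ↔ jacobiSym (n : ℤ) p = 0 := by
      exact_mod_cast Iff.rfl
    rw [h1, jacobiSym.eq_zero_iff_not_coprime]
    simp [Nat.Coprime]

private theorem pre_prod (I : Finset ℕ) (hI : ∀ p ∈ I, 0 < p) :
    Pre (∏ p ∈ I, p) (fun n => ∏ p ∈ I, ((jacobiSym (n : ℤ) p : ℤ) : ℝ)) := by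
  classical
  induction I using Finset.induction_on with
  | empty => simpa using pre_one
  | insert a s ha ih =>
    have h1 := pre_jac (hI a (Finset.mem_insert_self a s))
    have h2 := ih (fun p hp => hI p (Finset.mem_insert_of_mem hp))
    have h3 := h1.mulPre h2 (Q := a * ∏ p ∈ s, p) (Nat.mul_pos h1.pos h2.pos)
      (Dvd.intro _ rfl) (Dvd.intro_left _ rfl) (fun n => Nat.coprime_mul_iff_right)
    simpa [Finset.prod_insert ha] using h3

private theorem pre_chi (e : Bool) (I : Finset ℕ) (hI : ∀ p ∈ I, p.Prime ∧ p ≠ 2) :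
    Pre (chiMod e I) (chi e I) := by
  have h2 := pre_prod I (fun p hp => (hI p hp).1.pos)
  cases e
  · have := pre_one.mulPre h2 (Q := 1 * ∏ p ∈ I, p) (Nat.mul_pos one_pos h2.pos)
      (Dvd.intro _ rfl) (Dvd.intro_left _ rfl) (fun n => Nat.coprime_mul_iff_right)
    have e1 : chi false I = fun n : ℕ => 1 * ∏ p ∈ I, ((jacobiSym (n : ℤ) p : ℤ) : ℝ) := by
      funext n; simp [chi]
    rw [e1]
    simpa only [chiMod, Bool.false_eq_true, if_false] using this
  · have := pre_chi4.mulPre h2 (Q := 4 * ∏ p ∈ I, p) (Nat.mul_pos (by norm_num) h2.pos)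
      (Dvd.intro _ rfl) (Dvd.intro_left _ rfl) (fun n => Nat.coprime_mul_iff_right)
    have e1 : chi true I = fun n : ℕ => ((ZMod.χ₄ (n : ZMod 4) : ℤ) : ℝ) *
        ∏ p ∈ I, ((jacobiSym (n : ℤ) p : ℤ) : ℝ) := by
      funext n; simp only [chi, if_true]
    rw [e1]
    simpa only [chiMod, if_true] using this

private theorem crt (J : Finset ℕ) (hJ : ∀ p ∈ J, p.Prime ∧ p ≠ 2) (b : ℕ) (c : ℕ → ℕ) :
    ∃ a : ℕ, a ≡ b [MOD 4] ∧ ∀ p ∈ J, a ≡ c p [MOD p] := by
  classical
  have h2 : 2 ∉ J := fun h => (hJ 2 h).2 rfl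
  let s : ℕ → ℕ := fun p => if p = 2 then 4 else p
  let v : ℕ → ℕ := fun p => if p = 2 then b else c p
  have hs : ∀ i ∈ insert 2 J, s i ≠ 0 := by
    intro i hi
    rcases Finset.mem_insert.1 hi with rfl | hi
    · simp [s]
    · have := (hJ i hi).1.ne_zero
      simp only [s]
      split_ifs
      · norm_num
      · exact this
  have hcop2 : ∀ p ∈ J, Nat.Coprime 4 p := by
    intro p hp
    have := (Nat.coprime_primes Nat.prime_two (hJ p hp).1).2 (Ne.symm (hJ p hp).2)
    have := Nat.Coprime.pow_left 2 this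
    simpa using this
  have pp : Set.Pairwise (↑(insert 2 J : Finset ℕ)) (Function.onFun Nat.Coprime s) := by
    intro i hi j hj hij
    have hi' : i = 2 ∨ i ∈ J := by simpa using hi
    have hj' : j = 2 ∨ j ∈ J := by simpa using hj
    show Nat.Coprime (s i) (s j)
    rcases hi' with rfl | hi' <;> rcases hj' with rfl | hj'
    · exact absurd rfl hij
    · simp only [s, if_true, if_neg (hJ j hj').2]
      exact hcop2 j hj'
    · simp only [s, if_true, if_neg (hJ i hi').2]
      exact (hcop2 i hi').symm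
    · simp only [s, if_neg (hJ i hi').2, if_neg (hJ j hj').2]
      exact (Nat.coprime_primes (hJ i hi').1 (hJ j hj').1).2 hij
  obtain ⟨k, hk⟩ := Nat.chineseRemainderOfFinset v s (insert 2 J) hs pp
  refine ⟨k, ?_, ?_⟩
  · simpa [s, v] using hk 2 (Finset.mem_insert_self _ _)
  · intro p hp
    simpa [s, v, (hJ p hp).2] using hk p (Finset.mem_insert_of_mem hp)

private theorem jac_congr {a b p : ℕ} (h : a ≡ b [MOD p]) :
    jacobiSym (a : ℤ) p = jacobiSym (b : ℤ) p := by
  rw [jacobiSym.mod_left (a : ℤ), jacobiSym.mod_left (b : ℤ)]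
  congr 1
  exact_mod_cast h

private theorem chi4_congr {a b : ℕ} (h : a ≡ b [MOD 4]) :
    ZMod.χ₄ (a : ZMod 4) = ZMod.χ₄ (b : ZMod 4) := by
  rw [(ZMod.natCast_eq_natCast_iff a b 4).2 h]

private theorem exists_nonres {p : ℕ} (hp : p.Prime) (hp2 : p ≠ 2) :
    ∃ r : ℕ, jacobiSym (r : ℤ) p = -1 := by
  have : Fact p.Prime := ⟨hp⟩
  obtain ⟨x, hx⟩ := quadraticChar_exists_neg_one (F := ZMod p) (by
    rw [ZMod.ringChar_zmod_n]; exact hp2)
  refine ⟨x.val, ?_⟩
  rw [← jacobiSym.legendreSym.to_jacobiSym, legendreSym]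
  simpa using hx

/-- B0 (the characters). -/
theorem chi_realChar (e : Bool) (I : Finset ℕ) (hI : ∀ p ∈ I, p.Prime ∧ p ≠ 2)
    (hne : e = true ∨ I.Nonempty) : RealChar (chiMod e I) (chi e I) := by
  classical
  rcases hne with rfl | ⟨p0, hp0⟩
  · obtain ⟨a, ha, hc⟩ := crt I hI 3 (fun _ => 1)
    refine (pre_chi true I hI).real (a := a) ?_
    have h1 : ∏ p ∈ I, ((jacobiSym (a : ℤ) p : ℤ) : ℝ) = 1 := by
      apply Finset.prod_eq_one
      intro p hp
      rw [jac_congr (hc p hp)]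
      simp [jacobiSym.one_left]
    have h2 : ZMod.χ₄ (a : ZMod 4) = -1 := by
      rw [chi4_congr ha]
      decide
    simp only [chi, h1, h2, if_true]
    norm_num
  · obtain ⟨r, hr⟩ := exists_nonres (hI p0 hp0).1 (hI p0 hp0).2
    obtain ⟨a, ha, hc⟩ := crt I hI 1 (fun p => if p = p0 then r else 1)
    refine (pre_chi e I hI).real (a := a) ?_
    have h1 : ∏ p ∈ I, ((jacobiSym (a : ℤ) p : ℤ) : ℝ) = -1 := by
      rw [Finset.prod_eq_single_of_mem p0 hp0]
      · rw [jac_congr (hc p0 hp0), if_pos rfl, hr]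
        norm_num
      · intro p hp hne
        rw [jac_congr (hc p hp), if_neg hne]
        simp [jacobiSym.one_left]
    have h2 : ZMod.χ₄ (a : ZMod 4) = 1 := by
      rw [chi4_congr ha]
      decide
    simp only [chi, h1, h2]
    cases e <;> norm_num

private theorem chiMod_dvd {e e' : Bool} {I I' : Finset ℕ} (h : e = true → e' = true)
    (hI : I ⊆ I') : chiMod e I ∣ chiMod e' I' := by
  unfold chiMod
  refine Nat.mul_dvd_mul ?_ (Finset.prod_dvd_prod_of_subset _ _ _ hI)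
  cases e
  · simp
  · simp [h rfl]

private theorem coprime_chiMod {e : Bool} {I : Finset ℕ} (n : ℕ) :
    Nat.Coprime n (chiMod e I) ↔ (e = true → Nat.Coprime n 4) ∧ ∀ p ∈ I, Nat.Coprime n p := by
  unfold chiMod
  rw [Nat.coprime_mul_iff_right, Nat.coprime_prod_right_iff]
  cases e <;> simp

/-- B0' (products of two of them). -/
theorem chi_mul_realChar (e e' : Bool) (I I' : Finset ℕ) (hI : ∀ p ∈ I ∪ I', p.Prime ∧ p ≠ 2)
    (hne : (e, I) ≠ (e', I')) :
    RealChar (chiMod (e || e') (I ∪ I')) (fun n => chi e I n * chi e' I' n) := by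
  classical
  have hI1 : ∀ p ∈ I, p.Prime ∧ p ≠ 2 := fun p hp => hI p (Finset.mem_union_left _ hp)
  have hI2 : ∀ p ∈ I', p.Prime ∧ p ≠ 2 := fun p hp => hI p (Finset.mem_union_right _ hp)
  have hpre : Pre (chiMod (e || e') (I ∪ I')) (fun n => chi e I n * chi e' I' n) := by
    refine (pre_chi e I hI1).mulPre (pre_chi e' I' hI2) ?_ ?_ ?_ ?_
    · exact (pre_chi (e || e') (I ∪ I') hI).pos
    · exact chiMod_dvd (by intro h; simp [h]) Finset.subset_union_left
    · exact chiMod_dvd (by intro h; simp [h]) Finset.subset_union_right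
    · intro n
      simp only [coprime_chiMod, Bool.or_eq_true, Finset.mem_union]
      constructor
      · rintro ⟨h1, h2⟩
        exact ⟨⟨fun h => h1 (Or.inl h), fun p hp => h2 p (Or.inl hp)⟩,
          ⟨fun h => h1 (Or.inr h), fun p hp => h2 p (Or.inr hp)⟩⟩
      · rintro ⟨⟨h1, h2⟩, ⟨h3, h4⟩⟩
        exact ⟨fun h => h.elim h1 h3, fun p hp => hp.elim (h2 p) (h4 p)⟩
  by_cases hee : e = e'
  · subst hee
    have hII : I ≠ I' := fun h => hne (by rw [h])
    obtain ⟨p0, hp0⟩ : ∃ p0, ¬ (p0 ∈ I ↔ p0 ∈ I') := by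
      by_contra hh
      push Not at hh
      exact hII (Finset.ext hh)
    have hp0U : p0 ∈ I ∪ I' := by
      rw [Finset.mem_union]
      by_contra hh
      push Not at hh
      exact hp0 (iff_of_false hh.1 hh.2)
    obtain ⟨r, hr⟩ := exists_nonres (hI p0 hp0U).1 (hI p0 hp0U).2
    obtain ⟨a, ha, hc⟩ := crt (I ∪ I') hI 1 (fun p => if p = p0 then r else 1)
    refine hpre.real (a := a) ?_
    have h2 : ZMod.χ₄ (a : ZMod 4) = 1 := by
      rw [chi4_congr ha]
      decide
    have h3 : ∀ J : Finset ℕ, J ⊆ I ∪ I' → ∏ p ∈ J, ((jacobiSym (a : ℤ) p : ℤ) : ℝ) =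
        if p0 ∈ J then -1 else 1 := by
      intro J hJ
      split_ifs with hm
      · rw [Finset.prod_eq_single_of_mem p0 hm]
        · rw [jac_congr (hc p0 (hJ hm)), if_pos rfl, hr]
          norm_num
        · intro p hp hne
          rw [jac_congr (hc p (hJ hp)), if_neg hne]
          simp [jacobiSym.one_left]
      · apply Finset.prod_eq_one
        intro p hp
        rw [jac_congr (hc p (hJ hp)), if_neg (fun h : p = p0 => hm (h ▸ hp))]
        simp [jacobiSym.one_left]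
    have h4 : (if e = true then ((ZMod.χ₄ (a : ZMod 4) : ℤ) : ℝ) else 1) = 1 := by
      rw [h2]; cases e <;> norm_num
    simp only [chi, h3 I Finset.subset_union_left, h3 I' Finset.subset_union_right, h4]
    by_cases hm : p0 ∈ I <;> by_cases hm' : p0 ∈ I' <;> simp [hm, hm'] at hp0 ⊢
  · obtain ⟨a, ha, hc⟩ := crt (I ∪ I') hI 3 (fun _ => 1)
    refine hpre.real (a := a) ?_
    have h2 : ZMod.χ₄ (a : ZMod 4) = -1 := by
      rw [chi4_congr ha]
      decide
    have h3 : ∀ J : Finset ℕ, J ⊆ I ∪ I' → ∏ p ∈ J, ((jacobiSym (a : ℤ) p : ℤ) : ℝ) = 1 := by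
      intro J hJ
      apply Finset.prod_eq_one
      intro p hp
      rw [jac_congr (hc p (hJ hp))]
      simp [jacobiSym.one_left]
    simp only [chi, h3 I Finset.subset_union_left, h3 I' Finset.subset_union_right, h2]
    cases e <;> cases e' <;> simp at hee ⊢

end SSP
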