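import Pool.Agent.SSP.Defs

set_option autoImplicit false

namespace SSP

open Filter

namespace RealChar

variable {q : ℕ} {f : ℕ → ℝ}

theorem mod' (hf : RealChar q f) (m k : ℕ) : f (m + q * k) = f m := by
  induction k with
  | zero => simp
  | succ k ih =>
    rw [Nat.mul_succ, ← add_assoc, hf.per, ih]

theorem mod (hf : RealChar q f) (n : ℕ) : f (n % q) = f n := by
  conv_rhs => rw [← Nat.mod_add_div n q]
  rw [hf.mod']

theorem abs_le (hf : RealChar q f) (n : ℕ) : |f n| ≤ 1 := by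
  rcases hf.val n with h | h | h <;> rw [h] <;> norm_num

theorem three_le (hf : RealChar q f) : 3 ≤ q := by
  by_contra hlt
  have hpos := hf.pos
  have h12 : q = 1 ∨ q = 2 := by omega
  rcases h12 with rfl | rfl
  · have h := hf.sum
    rw [Finset.sum_range_one] at h
    exact (hf.cop 0).mp h (by norm_num)
  · have h := hf.sum
    have h0 : f 0 = 0 := (hf.cop 0).mpr (by norm_num)
    rw [Finset.sum_range_succ, Finset.sum_range_one, h0, hf.one] at h
    norm_num at h

theorem zero (hf : RealChar q f) : f 0 = 0 := by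
  refine (hf.cop 0).mpr ?_
  have := hf.three_le
  rw [Nat.coprime_zero_left]
  omega

theorem one_le_log (hf : RealChar q f) : 1 ≤ Real.log q := by
  have h3 := hf.three_le
  rw [Real.le_log_iff_exp_le (by have : 0 < q := hf.pos; exact_mod_cast this)]
  have h1 := Real.exp_one_lt_d9
  have h2 : (3 : ℝ) ≤ q := by exact_mod_cast h3
  linarith

theorem sum_abs_le (hf : RealChar q f) (N : ℕ) : |∑ k ∈ Finset.range N, f k| ≤ q := by
  induction N using Nat.strong_induction_on with
  | _ N ih =>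
    by_cases h : N ≤ q
    · calc |∑ k ∈ Finset.range N, f k| ≤ ∑ k ∈ Finset.range N, |f k| :=
            Finset.abs_sum_le_sum_abs _ _
        _ ≤ ∑ _k ∈ Finset.range N, (1 : ℝ) := Finset.sum_le_sum fun k _ => hf.abs_le k
        _ = N := by simp
        _ ≤ q := by exact_mod_cast h
    · have hq := hf.pos
      obtain ⟨M, rfl⟩ : ∃ M, N = q + M := ⟨N - q, by omega⟩
      rw [Finset.sum_range_add, hf.sum, zero_add]
      have e : ∀ k, f (q + k) = f k := fun k => by rw [add_comm, hf.per]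
      simp only [e]
      exact ih M (by omega)

/-- the Dirichlet character of a real character -/
theorem exists_char (hf : RealChar q f) : ∃ χ : DirichletCharacter ℂ q, χ ≠ 1 ∧ χ ^ 2 = 1 ∧
    ∀ n : ℕ, χ n = (f n : ℂ) := by
  have : NeZero q := ⟨hf.pos.ne'⟩
  have hq := hf.three_le
  have hunit : ∀ a : ZMod q, IsUnit a ↔ a.val.Coprime q := by
    intro a
    conv_lhs => rw [← ZMod.natCast_zmod_val a]
    exact ZMod.isUnit_iff_coprime a.val q
  let χ : DirichletCharacter ℂ q :=
    { toFun := fun a => (f a.val : ℂ)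
      map_one' := by
        have : (1 : ZMod q).val = 1 % q := ZMod.val_one_eq_one_mod q
        rw [this, hf.mod, hf.one, Complex.ofReal_one]
      map_mul' := by
        intro a b
        rw [ZMod.val_mul, hf.mod, hf.mul, Complex.ofReal_mul]
      map_nonunit' := by
        intro a ha
        rw [hunit] at ha
        show (f a.val : ℂ) = 0
        rw [(hf.cop a.val).mpr ha, Complex.ofReal_zero] }
  have hχ : ∀ n : ℕ, χ n = (f n : ℂ) := by
    intro n
    show (f (n : ZMod q).val : ℂ) = (f n : ℂ)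
    rw [ZMod.val_natCast, hf.mod]
  refine ⟨χ, ?_, ?_, hχ⟩
  · intro h1
    have hnn : ∀ n : ℕ, 0 ≤ f n := by
      intro n
      by_cases hn : n.Coprime q
      · have h2 : χ n = 1 := by
          rw [h1]
          exact MulChar.one_apply ((ZMod.isUnit_iff_coprime n q).mpr hn)
        rw [hχ] at h2
        have h3 : f n = 1 := by exact_mod_cast h2
        rw [h3]
        norm_num
      · rw [(hf.cop n).mpr hn]
    have h4 := hf.sum
    have h5 : (0 : ℝ) < ∑ n ∈ Finset.range q, f n := by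
      refine Finset.sum_pos' (fun n _ => hnn n) ⟨1, Finset.mem_range.mpr (by omega), ?_⟩
      rw [hf.one]
      norm_num
    linarith
  · ext a
    rw [MulChar.pow_apply_coe, MulChar.one_apply_coe]
    have h2 : χ (a : ZMod q) = (f (a : ZMod q).val : ℂ) := rfl
    rw [h2]
    have h3 : f (a : ZMod q).val ≠ 0 := by
      intro h0
      exact (hf.cop _).mp h0 ((hunit _).mp a.isUnit)
    rcases hf.val (a : ZMod q).val with h | h | h
    · rw [h]; norm_num
    · exact absurd h h3
    · rw [h]; norm_num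

theorem abel_partial (hf : RealChar q f) (g : ℕ → ℝ) (hg0 : ∀ n, q ≤ n → 0 ≤ g n)
    (hg : ∀ n, q ≤ n → g (n + 1) ≤ g n) (N : ℕ) :
    |∑ k ∈ Finset.range N, f (k + q) * g (k + q)| ≤ q * g q := by
  have e : ∀ k, f (k + q) = f k := fun k => hf.per k
  simp only [e]
  have key : ∀ N : ℕ, |∑ k ∈ Finset.range N, f k * g (k + q) -
      (∑ k ∈ Finset.range N, f k) * g (N + q)| ≤ q * (g q - g (N + q)) := by
    intro N
    induction N with
    | zero => simp
    | succ N ih =>
      have hS := hf.sum_abs_le (N + 1)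
      have hd : 0 ≤ g (N + q) - g (N + 1 + q) := by
        have := hg (N + q) (by omega)
        rw [show N + 1 + q = N + q + 1 by ring]
        linarith
      have e2 : ∑ k ∈ Finset.range (N + 1), f k * g (k + q) -
          (∑ k ∈ Finset.range (N + 1), f k) * g (N + 1 + q) =
          (∑ k ∈ Finset.range N, f k * g (k + q) - (∑ k ∈ Finset.range N, f k) * g (N + q)) +
          (∑ k ∈ Finset.range (N + 1), f k) * (g (N + q) - g (N + 1 + q)) := by
        rw [Finset.sum_range_succ, Finset.sum_range_succ]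
        ring
      rw [e2]
      refine (abs_add_le _ _).trans ?_
      have h3 : |(∑ k ∈ Finset.range (N + 1), f k) * (g (N + q) - g (N + 1 + q))| ≤
          q * (g (N + q) - g (N + 1 + q)) := by
        rw [abs_mul, abs_of_nonneg hd]
        exact mul_le_mul_of_nonneg_right hS hd
      linarith
  have h1 := key N
  have hS := hf.sum_abs_le N
  have hgN := hg0 (N + q) (by omega)
  have h2 : |(∑ k ∈ Finset.range N, f k) * g (N + q)| ≤ q * g (N + q) := by
    rw [abs_mul, abs_of_nonneg hgN]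
    exact mul_le_mul_of_nonneg_right hS hgN
  have h3 : ∑ k ∈ Finset.range N, f k * g (k + q) =
      (∑ k ∈ Finset.range N, f k * g (k + q) - (∑ k ∈ Finset.range N, f k) * g (N + q)) +
      (∑ k ∈ Finset.range N, f k) * g (N + q) := by ring
  rw [h3]
  refine (abs_add_le _ _).trans ?_
  linarith

theorem abel_bound (hf : RealChar q f) (g : ℕ → ℝ) (hg0 : ∀ n, q ≤ n → 0 ≤ g n)
    (hg : ∀ n, q ≤ n → g (n + 1) ≤ g n) (hs : Summable (fun n => f n * g n)) :
    |∑' n, f n * g n| ≤ ∑ n ∈ Finset.range q, |g n| + q * g q := by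
  rw [← hs.sum_add_tsum_nat_add q]
  refine (abs_add_le _ _).trans (add_le_add ?_ ?_)
  · refine (Finset.abs_sum_le_sum_abs _ _).trans (Finset.sum_le_sum fun n _ => ?_)
    rw [abs_mul]
    exact mul_le_of_le_one_left (abs_nonneg _) (hf.abs_le n)
  · have hs' : Summable (fun n => f (n + q) * g (n + q)) := (summable_nat_add_iff q).mpr hs
    have ht := (hs'.hasSum.tendsto_sum_nat).abs
    exact le_of_tendsto' ht fun N => hf.abel_partial g hg0 hg N

end RealChar

theorem sum_inv_le (q : ℕ) (hq : 1 ≤ q) :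
    ∑ n ∈ Finset.range q, 1 / (n : ℝ) ≤ 1 + Real.log q := by
  obtain ⟨m, rfl⟩ : ∃ m, q = m + 1 := ⟨q - 1, by omega⟩
  rw [Finset.sum_range_succ']
  have h := harmonic_le_one_add_log m
  rw [harmonic] at h
  push_cast at h
  have e : ∑ k ∈ Finset.range m, 1 / ((k + 1 : ℕ) : ℝ) = ∑ i ∈ Finset.range m, ((i : ℝ) + 1)⁻¹ := by
    refine Finset.sum_congr rfl fun k _ => ?_
    push_cast
    rw [one_div]
  rw [e]
  simp only [Nat.cast_zero, div_zero, add_zero]
  refine h.trans (add_le_add le_rfl ?_)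
  rcases Nat.eq_zero_or_pos m with rfl | hm
  · simp
  · have hm' : (0 : ℝ) < m := by exact_mod_cast hm
    refine Real.log_le_log hm' (by push_cast; linarith)

/-- real L-series as complex L-series -/
theorem LSeries_ofReal' (a : ℕ → ℝ) (h0 : a 0 = 0) (s : ℝ) :
    LSeries (fun n => (a n : ℂ)) (s : ℂ) = ((∑' n : ℕ, a n / (n : ℝ) ^ s : ℝ) : ℂ) := by
  rw [LSeries, Complex.ofReal_tsum]
  congr 1
  funext n
  rcases eq_or_ne n 0 with rfl | hn
  · simp [h0]
  · rw [LSeries.term_of_ne_zero hn, Complex.ofReal_div, Complex.ofReal_cpow (Nat.cast_nonneg n)]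
    simp

open scoped ComplexOrder in
/-- positivity of `L(s, f)` -/
theorem Ls_pos_gt (q : ℕ) (f : ℕ → ℝ) (hf : RealChar q f) (s : ℝ) (hs : 1 < s) : 0 < Ls f s := by
  obtain ⟨χ, -, hχ2, hχ⟩ := hf.exists_char
  have hs' : 1 < (s : ℂ).re := by simpa using hs
  have e1 : LSeries (fun n => χ n) (s : ℂ) = ((Ls f s : ℝ) : ℂ) := by
    simp only [hχ]
    exact LSeries_ofReal' f hf.zero s
  have e2 : LSeries χ.zetaMul (s : ℂ) = riemannZeta s * LSeries (fun n => χ n) (s : ℂ) := by
    rw [DirichletCharacter.zetaMul, ← ArithmeticFunction.coe_mul, LSeries_convolution']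
    · congr 1
      · simp_rw [← ArithmeticFunction.LSeries_zeta_eq_riemannZeta hs',
          ← ArithmeticFunction.natCoe_apply]
      · exact (LSeries_congr χ.apply_eq_toArithmeticFunction_apply s).symm
    · exact ArithmeticFunction.LSeriesSummable_zeta_iff.mpr hs'
    · exact (LSeriesSummable_congr _ fun h ↦ (χ.apply_eq_toArithmeticFunction_apply h).symm).mpr <|
        DirichletCharacter.LSeriesSummable_of_one_lt_re χ hs'
  have hab : LSeries.abscissaOfAbsConv χ.zetaMul < (s : EReal) := by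
    refine lt_of_le_of_lt (LSeries.abscissaOfAbsConv_le_of_forall_lt_LSeriesSummable (x := 1)
      fun y hy => χ.LSeriesSummable_zetaMul (by simpa using hy)) ?_
    exact_mod_cast hs
  have h3 : 0 < LSeries χ.zetaMul (s : ℂ) := by
    refine LSeries.positive (fun n => DirichletCharacter.zetaMul_nonneg hχ2 n) ?_ hab
    rw [χ.isMultiplicative_zetaMul.map_one]
    exact zero_lt_one
  rw [e2, e1] at h3
  have hz := riemannZeta_re_pos_of_one_lt hs
  have hzi := riemannZeta_im_eq_zero_of_one_lt hs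
  have h4 := (Complex.lt_def.mp h3).1
  rw [Complex.mul_re, hzi, Complex.ofReal_re] at h4
  simp only [Complex.zero_re, zero_mul, sub_zero] at h4
  exact (pos_iff_pos_of_mul_pos h4).mp hz

theorem summable_real (q : ℕ) (f : ℕ → ℝ) (hf : RealChar q f) (s : ℝ) (hs : 1 < s) :
    Summable (fun n : ℕ => f n * (1 / (n : ℝ) ^ s)) := by
  refine Summable.of_norm_bounded (Real.summable_one_div_nat_rpow.mpr hs) fun n => ?_
  rw [Real.norm_eq_abs, abs_mul]
  have h : 0 ≤ 1 / (n : ℝ) ^ s := by positivity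
  rw [abs_of_nonneg h]
  exact mul_le_of_le_one_left h (hf.abs_le n)

theorem one_div_rpow_le (n : ℕ) (s : ℝ) (hs : 1 ≤ s) : 1 / (n : ℝ) ^ s ≤ 1 / (n : ℝ) := by
  rcases Nat.eq_zero_or_pos n with rfl | hn
  · have : (0 : ℝ) ^ s = 0 := Real.zero_rpow (by linarith)
    simp [this]
  · have hn' : (1 : ℝ) ≤ n := by exact_mod_cast hn
    refine one_div_le_one_div_of_le (by linarith) ?_
    calc (n : ℝ) = (n : ℝ) ^ (1 : ℝ) := (Real.rpow_one _).symm
      _ ≤ (n : ℝ) ^ s := Real.rpow_le_rpow_of_exponent_le hn' hs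

theorem Ls_le (q : ℕ) (f : ℕ → ℝ) (hf : RealChar q f) (s : ℝ) (hs : 1 < s) :
    Ls f s ≤ 3 * Real.log q := by
  have hq := hf.pos
  have hq' : (0 : ℝ) < q := by exact_mod_cast hq
  have e : Ls f s = ∑' n : ℕ, f n * (1 / (n : ℝ) ^ s) := by
    unfold Ls
    refine tsum_congr fun n => ?_
    rw [mul_one_div]
  have h := hf.abel_bound (fun n : ℕ => 1 / (n : ℝ) ^ s) (fun n _ => by positivity) (fun n hn => by
    have hn' : (0 : ℝ) < n := by
      have : 0 < n := lt_of_lt_of_le hq hn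
      exact_mod_cast this
    refine one_div_le_one_div_of_le (by positivity) ?_
    refine Real.rpow_le_rpow hn'.le (by push_cast; linarith) (by linarith))
    (summable_real q f hf s hs)
  have h1 : ∑ n ∈ Finset.range q, |1 / (n : ℝ) ^ s| ≤ 1 + Real.log q := by
    refine le_trans (Finset.sum_le_sum fun n _ => ?_) (sum_inv_le q hq)
    rw [abs_of_nonneg (by positivity)]
    exact one_div_rpow_le n s hs.le
  have h2 : (q : ℝ) * (1 / (q : ℝ) ^ s) ≤ 1 := by
    have := one_div_rpow_le q s hs.le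
    calc (q : ℝ) * (1 / (q : ℝ) ^ s) ≤ q * (1 / q) := by gcongr
      _ = 1 := by field_simp
  have h3 := hf.one_le_log
  rw [← e] at h
  have h4 := le_abs_self (Ls f s)
  linarith

theorem g_anti (s s' : ℝ) (h1 : 1 ≤ s) (h2 : s ≤ s') :
    AntitoneOn (fun x : ℝ => x ^ (-s) - x ^ (-s')) (Set.Ici 3) := by
  have hd : ∀ x : ℝ, 0 < x → HasDerivAt (fun x : ℝ => x ^ (-s) - x ^ (-s'))
      ((-s) * x ^ (-s - 1) - (-s') * x ^ (-s' - 1)) x := by
    intro x hx
    exact (Real.hasDerivAt_rpow_const (Or.inl hx.ne')).sub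
      (Real.hasDerivAt_rpow_const (Or.inl hx.ne'))
  refine antitoneOn_of_deriv_nonpos (convex_Ici 3) ?_ ?_ ?_
  · intro x hx
    exact (hd x (by have : (3 : ℝ) ≤ x := hx; linarith)).continuousAt.continuousWithinAt
  · intro x hx
    rw [interior_Ici] at hx
    exact (hd x (by have : (3 : ℝ) < x := hx; linarith)).differentiableAt.differentiableWithinAt
  · intro x hx
    rw [interior_Ici] at hx
    have hx3 : (3 : ℝ) < x := hx
    have hx0 : 0 < x := by linarith
    rw [(hd x hx0).deriv]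
    have hlog : 1 ≤ Real.log x := by
      rw [Real.le_log_iff_exp_le hx0]
      have := Real.exp_one_lt_d9
      linarith
    have e1 : x ^ (-s' - 1) = x ^ (-s - 1) * x ^ (-(s' - s)) := by
      rw [← Real.rpow_add hx0]
      congr 1
      ring
    have h3 : 1 + (s' - s) ≤ x ^ (s' - s) := by
      rw [Real.rpow_def_of_pos hx0]
      have h4 := Real.add_one_le_exp (Real.log x * (s' - s))
      have h5 : s' - s ≤ Real.log x * (s' - s) := by nlinarith
      linarith
    have h6 : x ^ (-(s' - s)) * (1 + (s' - s)) ≤ 1 := by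
      rw [Real.rpow_neg hx0.le]
      have h7 : 0 < x ^ (s' - s) := Real.rpow_pos_of_pos hx0 _
      rw [inv_mul_le_iff₀ h7]
      linarith
    have h8 : s' * x ^ (-(s' - s)) ≤ s := by
      have h9 : 0 ≤ x ^ (-(s' - s)) := (Real.rpow_pos_of_pos hx0 _).le
      have h10 : s' * x ^ (-(s' - s)) ≤ s * (1 + (s' - s)) * x ^ (-(s' - s)) := by
        refine mul_le_mul_of_nonneg_right ?_ h9
        nlinarith
      have h11 : s * (1 + (s' - s)) * x ^ (-(s' - s)) ≤ s * 1 := by
        have : s * (1 + (s' - s)) * x ^ (-(s' - s)) = s * (x ^ (-(s' - s)) * (1 + (s' - s))) := by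
          ring
        rw [this]
        exact mul_le_mul_of_nonneg_left h6 (by linarith)
      linarith
    have h12 : 0 < x ^ (-s - 1) := Real.rpow_pos_of_pos hx0 _
    rw [e1]
    nlinarith [mul_le_mul_of_nonneg_left h8 h12.le]

theorem g_le (n : ℕ) (s s' : ℝ) (h1 : 1 ≤ s) (h2 : s ≤ s') :
    |1 / (n : ℝ) ^ s - 1 / (n : ℝ) ^ s'| ≤ (s' - s) * (Real.log n * (1 / n)) := by
  rcases Nat.eq_zero_or_pos n with rfl | hn
  · have e1 : (0 : ℝ) ^ s = 0 := Real.zero_rpow (by linarith)
    have e2 : (0 : ℝ) ^ s' = 0 := Real.zero_rpow (by linarith)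
    simp [e1, e2]
  · have hn' : (1 : ℝ) ≤ n := by exact_mod_cast hn
    have hn0 : (0 : ℝ) < n := by linarith
    have hlog : 0 ≤ Real.log n := Real.log_nonneg hn'
    have e1 : 1 / (n : ℝ) ^ s' = 1 / (n : ℝ) ^ s * (n : ℝ) ^ (-(s' - s)) := by
      rw [one_div, one_div, ← Real.rpow_neg hn0.le, ← Real.rpow_neg hn0.le,
        ← Real.rpow_add hn0]
      congr 1
      ring
    have h3 : 1 - (s' - s) * Real.log n ≤ (n : ℝ) ^ (-(s' - s)) := by
      rw [Real.rpow_def_of_pos hn0]
      have := Real.add_one_le_exp (Real.log n * -(s' - s))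
      linarith
    have h4 : (n : ℝ) ^ (-(s' - s)) ≤ 1 := by
      refine Real.rpow_le_one_of_one_le_of_nonpos hn' (by linarith)
    have h5 : 0 ≤ 1 / (n : ℝ) ^ s := by positivity
    have h6 := one_div_rpow_le n s h1
    have h7 : 0 ≤ (s' - s) * Real.log n := mul_nonneg (by linarith) hlog
    rw [e1, abs_of_nonneg (by nlinarith)]
    calc 1 / (n : ℝ) ^ s - 1 / (n : ℝ) ^ s * (n : ℝ) ^ (-(s' - s)) =
        1 / (n : ℝ) ^ s * (1 - (n : ℝ) ^ (-(s' - s))) := by ring
      _ ≤ 1 / (n : ℝ) ^ s * ((s' - s) * Real.log n) := by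
          refine mul_le_mul_of_nonneg_left (by linarith) h5
      _ ≤ 1 / (n : ℝ) * ((s' - s) * Real.log n) := mul_le_mul_of_nonneg_right h6 h7
      _ = (s' - s) * (Real.log n * (1 / n)) := by ring

theorem sum_log_le (q : ℕ) (hq : 1 ≤ q) :
    ∑ n ∈ Finset.range q, Real.log n * (1 / (n : ℝ)) ≤ Real.log q * (1 + Real.log q) := by
  have h0 : 0 ≤ Real.log q := Real.log_natCast_nonneg q
  calc ∑ n ∈ Finset.range q, Real.log n * (1 / (n : ℝ)) ≤
      ∑ n ∈ Finset.range q, Real.log q * (1 / (n : ℝ)) := by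
        refine Finset.sum_le_sum fun n hn => ?_
        have hn' := Finset.mem_range.mp hn
        rcases Nat.eq_zero_or_pos n with rfl | hn0
        · simp
        · have hn0' : (0 : ℝ) < n := by exact_mod_cast hn0
          have : (n : ℝ) ≤ q := by exact_mod_cast hn'.le
          exact mul_le_mul_of_nonneg_right (Real.log_le_log hn0' this) (by positivity)
    _ = Real.log q * ∑ n ∈ Finset.range q, (1 / (n : ℝ)) := by rw [Finset.mul_sum]
    _ ≤ _ := mul_le_mul_of_nonneg_left (sum_inv_le q hq) h0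

theorem Ls_lip (q : ℕ) (f : ℕ → ℝ) (hf : RealChar q f) (s s' : ℝ) (hs : 1 < s) (hss : s ≤ s') :
    |Ls f s' - Ls f s| ≤ 3 * Real.log q ^ 2 * (s' - s) := by
  have hq := hf.pos
  have hq3 := hf.three_le
  have hq' : (0 : ℝ) < q := by exact_mod_cast hq
  have hsum1 := summable_real q f hf s hs
  have hsum2 := summable_real q f hf s' (by linarith)
  have e : Ls f s - Ls f s' = ∑' n : ℕ, f n * (1 / (n : ℝ) ^ s - 1 / (n : ℝ) ^ s') := by
    have e1 : ∀ t : ℝ, Ls f t = ∑' n : ℕ, f n * (1 / (n : ℝ) ^ t) := by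
      intro t
      unfold Ls
      refine tsum_congr fun n => ?_
      rw [mul_one_div]
    rw [e1, e1, ← hsum1.tsum_sub hsum2]
    refine tsum_congr fun n => ?_
    ring
  have hsum : Summable (fun n : ℕ => f n * (1 / (n : ℝ) ^ s - 1 / (n : ℝ) ^ s')) := by
    refine (hsum1.sub hsum2).congr fun n => ?_
    ring
  have hanti : ∀ n : ℕ, q ≤ n → 1 / ((n + 1 : ℕ) : ℝ) ^ s - 1 / ((n + 1 : ℕ) : ℝ) ^ s' ≤
      1 / (n : ℝ) ^ s - 1 / (n : ℝ) ^ s' := by
    intro n hn
    have hn3 : (3 : ℝ) ≤ n := by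
      have : 3 ≤ n := le_trans hq3 hn
      exact_mod_cast this
    have h := g_anti s s' hs.le hss (a := (n : ℝ)) (b := ((n + 1 : ℕ) : ℝ)) hn3
      (by show (3 : ℝ) ≤ ((n + 1 : ℕ) : ℝ); push_cast; linarith) (by push_cast; linarith)
    simp only at h
    rw [Real.rpow_neg (by linarith), Real.rpow_neg (by linarith), Real.rpow_neg (by positivity),
      Real.rpow_neg (by positivity)] at h
    simpa only [one_div] using h
  have hnonneg : ∀ n : ℕ, q ≤ n → 0 ≤ 1 / (n : ℝ) ^ s - 1 / (n : ℝ) ^ s' := by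
    intro n hn
    have hn1 : (1 : ℝ) ≤ n := by
      have : 1 ≤ n := le_trans (by omega) hn
      exact_mod_cast this
    rw [sub_nonneg]
    refine one_div_le_one_div_of_le (by positivity) ?_
    exact Real.rpow_le_rpow_of_exponent_le hn1 hss
  have h := hf.abel_bound (fun n : ℕ => 1 / (n : ℝ) ^ s - 1 / (n : ℝ) ^ s') hnonneg hanti hsum
  have h1 : ∑ n ∈ Finset.range q, |1 / (n : ℝ) ^ s - 1 / (n : ℝ) ^ s'| ≤
      (s' - s) * (Real.log q * (1 + Real.log q)) := by
    refine le_trans (Finset.sum_le_sum fun n _ => g_le n s s' hs.le hss) ?_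
    rw [← Finset.mul_sum]
    exact mul_le_mul_of_nonneg_left (sum_log_le q hq) (by linarith)
  have h2 : (q : ℝ) * (1 / (q : ℝ) ^ s - 1 / (q : ℝ) ^ s') ≤ (s' - s) * Real.log q := by
    have := (le_abs_self _).trans (g_le q s s' hs.le hss)
    calc (q : ℝ) * (1 / (q : ℝ) ^ s - 1 / (q : ℝ) ^ s') ≤
        q * ((s' - s) * (Real.log q * (1 / q))) := mul_le_mul_of_nonneg_left this hq'.le
      _ = (s' - s) * Real.log q := by field_simp
  have h3 := hf.one_le_log
  rw [← e] at h
  rw [abs_sub_comm]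
  have h4 : (s' - s) * (Real.log q * (1 + Real.log q)) + (s' - s) * Real.log q ≤
      3 * Real.log q ^ 2 * (s' - s) := by
    have h5 : Real.log q * (1 + Real.log q) + Real.log q ≤ 3 * Real.log q ^ 2 := by nlinarith
    have h6 : 0 ≤ s' - s := by linarith
    nlinarith [mul_le_mul_of_nonneg_left h5 h6]
  linarith

theorem log_summable (q : ℕ) (f : ℕ → ℝ) (hf : RealChar q f) (s : ℝ) (hs : 1 < s) :
    Summable (fun n : ℕ => f n * (Real.log n / (n : ℝ) ^ s)) := by
  have hε : 0 < (s - 1) / 2 := by linarith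
  have hsum : Summable (fun n : ℕ => (1 / ((s - 1) / 2)) * (1 / (n : ℝ) ^ (s - (s - 1) / 2))) :=
    (Real.summable_one_div_nat_rpow.mpr (by linarith)).mul_left _
  refine Summable.of_norm_bounded hsum fun n => ?_
  rcases Nat.eq_zero_or_pos n with rfl | hn
  · simp only [Nat.cast_zero, Real.log_zero, zero_div, mul_zero, norm_zero]
    positivity
  · have hn0 : (0 : ℝ) < n := by exact_mod_cast hn
    have hlog : 0 ≤ Real.log n := Real.log_natCast_nonneg n
    rw [Real.norm_eq_abs, abs_mul, abs_of_nonneg (a := Real.log n / (n : ℝ) ^ s) (by positivity)]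
    refine (mul_le_of_le_one_left (by positivity) (hf.abs_le n)).trans ?_
    have h1 := Real.log_le_rpow_div hn0.le hε
    have e1 : (n : ℝ) ^ s = (n : ℝ) ^ (s - (s - 1) / 2) * (n : ℝ) ^ ((s - 1) / 2) := by
      rw [← Real.rpow_add hn0]
      congr 1
      ring
    have h2 : 0 < (n : ℝ) ^ (s - (s - 1) / 2) := Real.rpow_pos_of_pos hn0 _
    have h3 : 0 < (n : ℝ) ^ ((s - 1) / 2) := Real.rpow_pos_of_pos hn0 _
    calc Real.log n / (n : ℝ) ^ s ≤ ((n : ℝ) ^ ((s - 1) / 2) / ((s - 1) / 2)) / (n : ℝ) ^ s := by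
          gcongr
      _ = (1 / ((s - 1) / 2)) * (1 / (n : ℝ) ^ (s - (s - 1) / 2)) := by
          rw [e1]
          field_simp

theorem log_bound (q : ℕ) (f : ℕ → ℝ) (hf : RealChar q f) (s : ℝ) (hs : 1 < s) :
    |∑' n : ℕ, f n * (Real.log n / (n : ℝ) ^ s)| ≤ 3 * Real.log q ^ 2 := by
  have hq := hf.pos
  have hq3 := hf.three_le
  have hq' : (0 : ℝ) < q := by exact_mod_cast hq
  have hlq : 0 ≤ Real.log q := Real.log_natCast_nonneg q
  have hle : ∀ n : ℕ, |Real.log n / (n : ℝ) ^ s| ≤ Real.log n * (1 / (n : ℝ)) := by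
    intro n
    have hlog : 0 ≤ Real.log n := Real.log_natCast_nonneg n
    rw [abs_of_nonneg (by positivity), div_eq_mul_one_div]
    exact mul_le_mul_of_nonneg_left (one_div_rpow_le n s hs.le) hlog
  have hanti : ∀ n : ℕ, q ≤ n → Real.log ((n + 1 : ℕ) : ℝ) / ((n + 1 : ℕ) : ℝ) ^ s ≤
      Real.log n / (n : ℝ) ^ s := by
    intro n hn
    have hn3 : (3 : ℝ) ≤ n := by
      have : 3 ≤ n := le_trans hq3 hn
      exact_mod_cast this
    have he : Real.exp s⁻¹ ≤ 3 := by
      have h1 : Real.exp s⁻¹ ≤ Real.exp 1 := by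
        refine Real.exp_le_exp.mpr ?_
        exact inv_le_one_of_one_le₀ hs.le
      have h2 := Real.exp_one_lt_d9
      linarith
    exact Real.log_div_self_rpow_antitoneOn (by linarith : (0 : ℝ) < s)
      (show Real.exp s⁻¹ ≤ (n : ℝ) by linarith)
      (show Real.exp s⁻¹ ≤ ((n + 1 : ℕ) : ℝ) by push_cast; linarith) (by push_cast; linarith)
  have h := hf.abel_bound (fun n : ℕ => Real.log n / (n : ℝ) ^ s)
    (fun n _ => by
      have hlog : 0 ≤ Real.log n := Real.log_natCast_nonneg n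
      positivity) hanti (log_summable q f hf s hs)
  have h1 : ∑ n ∈ Finset.range q, |Real.log n / (n : ℝ) ^ s| ≤
      Real.log q * (1 + Real.log q) :=
    le_trans (Finset.sum_le_sum fun n _ => hle n) (sum_log_le q hq)
  have h2 : (q : ℝ) * (Real.log q / (q : ℝ) ^ s) ≤ Real.log q := by
    have := (le_abs_self _).trans (hle q)
    calc (q : ℝ) * (Real.log q / (q : ℝ) ^ s) ≤ q * (Real.log q * (1 / q)) :=
          mul_le_mul_of_nonneg_left this hq'.le
      _ = Real.log q := by field_simp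
  have h3 := hf.one_le_log
  nlinarith

/-- logarithmic derivative -/
theorem log_deriv_eq (q : ℕ) (f : ℕ → ℝ) (hf : RealChar q f) (s : ℝ) (hs : 1 < s) :
    (∑' n : ℕ, ArithmeticFunction.vonMangoldt n * f n / (n : ℝ) ^ s) * Ls f s =
      ∑' n : ℕ, f n * (Real.log n / (n : ℝ) ^ s) := by
  obtain ⟨χ, -, -, hχ⟩ := hf.exists_char
  have hs' : 1 < (s : ℂ).re := by simpa using hs
  have e1 : LSeries (fun n => χ n) (s : ℂ) = ((Ls f s : ℝ) : ℂ) := by
    simp only [hχ]
    exact LSeries_ofReal' f hf.zero s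
  have e2 : LSeries ((fun n : ℕ => χ n) * fun n : ℕ => ((ArithmeticFunction.vonMangoldt n : ℝ) : ℂ))
      (s : ℂ) = ((∑' n : ℕ, ArithmeticFunction.vonMangoldt n * f n / (n : ℝ) ^ s : ℝ) : ℂ) := by
    rw [← LSeries_ofReal' (fun n => ArithmeticFunction.vonMangoldt n * f n) (by simp) s]
    congr 1
    funext n
    simp only [Pi.mul_apply, hχ, Complex.ofReal_mul]
    ring
  have h3 := DirichletCharacter.LSeries_twist_vonMangoldt_eq χ hs'
  have hab : LSeries.abscissaOfAbsConv (fun n : ℕ => χ n) < ((s : ℂ).re : EReal) := by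
    rw [DirichletCharacter.absicssaOfAbsConv_eq_one hf.pos.ne' χ]
    exact_mod_cast hs'
  rw [LSeries_deriv hab, neg_neg] at h3
  have e4 : LSeries (LSeries.logMul (fun n : ℕ => χ n)) (s : ℂ) =
      ((∑' n : ℕ, f n * (Real.log n / (n : ℝ) ^ s) : ℝ) : ℂ) := by
    have : (fun n : ℕ => f n * (Real.log n / (n : ℝ) ^ s)) =
        fun n : ℕ => (Real.log n * f n) / (n : ℝ) ^ s := by
      funext n
      ring
    rw [this, ← LSeries_ofReal' (fun n => Real.log n * f n) (by simp) s]
    congr 1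
    funext n
    simp only [LSeries.logMul, hχ, Complex.ofReal_mul, Complex.natCast_log]
  have hne : LSeries (fun n => χ n) (s : ℂ) ≠ 0 := by
    rw [e1]
    exact_mod_cast (Ls_pos_gt q f hf s hs).ne'
  have h5 : LSeries ((fun n : ℕ => χ n) * fun n : ℕ =>
      ((ArithmeticFunction.vonMangoldt n : ℝ) : ℂ)) (s : ℂ) * LSeries (fun n => χ n) (s : ℂ) =
      LSeries (LSeries.logMul (fun n : ℕ => χ n)) (s : ℂ) := by
    rw [h3]
    field_simp
  rw [e1, e2, e4] at h5
  exact_mod_cast h5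

/-- B1 (upper bounds for `L` and `L'`). -/
theorem Ls_bounds : ∃ C : ℝ, 0 < C ∧ ∀ (q : ℕ) (f : ℕ → ℝ), RealChar q f →
    (∀ s : ℝ, 1 < s → s ≤ 2 → 0 < Ls f s ∧ Ls f s ≤ C * Real.log q) ∧
    (∀ s s' : ℝ, 1 < s → s ≤ s' → s' ≤ 2 → |Ls f s' - Ls f s| ≤ C * Real.log q ^ 2 * (s' - s)) ∧
    (∀ s : ℝ, 1 < s → s ≤ 2 →
      |∑' n : ℕ, ArithmeticFunction.vonMangoldt n * f n / (n : ℝ) ^ s| * Ls f s ≤
        C * Real.log q ^ 2) := by
  refine ⟨3, by norm_num, fun q f hf => ⟨fun s hs _ => ⟨Ls_pos_gt q f hf s hs,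
    Ls_le q f hf s hs⟩, fun s s' hs hss _ => Ls_lip q f hf s s' hs hss, fun s hs _ => ?_⟩⟩
  have h1 := log_deriv_eq q f hf s hs
  have h2 := log_bound q f hf s hs
  rw [← h1, abs_mul, abs_of_pos (Ls_pos_gt q f hf s hs)] at h2
  exact h2

end SSP
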