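import Pool.Agent.SSP.Defs
import Pool.Agent.SSP.LsBounds

set_option autoImplicit false

namespace SSP

open Filter

/-- B2 (non-vanishing at `1`). -/
theorem Ls_pos (q : ℕ) (f : ℕ → ℝ) (hf : RealChar q f) :
    ∃ δ : ℝ, 0 < δ ∧ ∀ s : ℝ, 1 < s → s ≤ 2 → δ ≤ Ls f s := by
  obtain ⟨χ, hχ1, -, hχ⟩ := hf.exists_char
  have : NeZero q := ⟨hf.pos.ne'⟩
  set G : ℝ → ℝ := fun s => (DirichletCharacter.LFunction χ (s : ℂ)).re with hG
  have hcont : Continuous (fun s : ℝ => DirichletCharacter.LFunction χ (s : ℂ)) :=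
    (DirichletCharacter.differentiable_LFunction hχ1).continuous.comp Complex.continuous_ofReal
  have hGc : Continuous G := Complex.continuous_re.comp hcont
  have hGeq : ∀ s : ℝ, 1 < s → DirichletCharacter.LFunction χ (s : ℂ) = ((Ls f s : ℝ) : ℂ) := by
    intro s hs
    have hs' : 1 < (s : ℂ).re := by simpa using hs
    rw [DirichletCharacter.LFunction_eq_LSeries χ hs']
    simp only [hχ]
    exact LSeries_ofReal' f hf.zero s
  have hGs : ∀ s : ℝ, 1 < s → G s = Ls f s := by
    intro s hs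
    simp only [hG, hGeq s hs, Complex.ofReal_re]
  -- at `1` the value is real, nonzero and nonnegative
  have htend : Tendsto (fun s : ℝ => s) (nhdsWithin 1 (Set.Ioi 1)) (nhds 1) :=
    tendsto_id.mono_left nhdsWithin_le_nhds
  have him : (DirichletCharacter.LFunction χ ((1 : ℝ) : ℂ)).im = 0 := by
    have h1 : Tendsto (fun s : ℝ => (DirichletCharacter.LFunction χ (s : ℂ)).im)
        (nhdsWithin 1 (Set.Ioi 1)) (nhds (DirichletCharacter.LFunction χ ((1 : ℝ) : ℂ)).im) :=
      ((Complex.continuous_im.comp hcont).tendsto 1).comp htend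
    have h2 : Tendsto (fun s : ℝ => (DirichletCharacter.LFunction χ (s : ℂ)).im)
        (nhdsWithin 1 (Set.Ioi 1)) (nhds 0) := by
      refine tendsto_const_nhds.congr' ?_
      filter_upwards [self_mem_nhdsWithin] with s hs
      rw [hGeq s hs, Complex.ofReal_im]
    exact tendsto_nhds_unique h1 h2
  have hre : 0 ≤ G 1 := by
    have h1 : Tendsto G (nhdsWithin 1 (Set.Ioi 1)) (nhds (G 1)) := (hGc.tendsto 1).comp htend
    refine ge_of_tendsto h1 ?_
    filter_upwards [self_mem_nhdsWithin] with s hs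
    rw [hGs s hs]
    exact (Ls_pos_gt q f hf s hs).le
  have hne : DirichletCharacter.LFunction χ 1 ≠ 0 :=
    DirichletCharacter.LFunction_apply_one_ne_zero hχ1
  have hpos1 : 0 < G 1 := by
    refine lt_of_le_of_ne hre fun h0 => hne ?_
    have h1 : DirichletCharacter.LFunction χ ((1 : ℝ) : ℂ) = 0 := by
      refine Complex.ext ?_ him
      exact h0.symm
    simpa using h1
  have hposI : ∀ s ∈ Set.Icc (1 : ℝ) 2, 0 < G s := by
    intro s hs
    rcases eq_or_lt_of_le hs.1 with h | h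
    · rw [← h]
      exact hpos1
    · rw [hGs s h]
      exact Ls_pos_gt q f hf s h
  obtain ⟨x, hx, hmin⟩ := isCompact_Icc.exists_isMinOn
    (Set.nonempty_Icc.mpr (by norm_num : (1 : ℝ) ≤ 2)) hGc.continuousOn
  refine ⟨G x, hposI x hx, fun s hs1 hs2 => ?_⟩
  rw [← hGs s hs1]
  exact hmin ⟨hs1.le, hs2⟩

end SSP
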