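import Pool.Agent.SSP.Defs
import Pool.Agent.SSP.LsBounds

set_option autoImplicit false

namespace SSP

open Filter

namespace Repulsion

/-- the terms of a Dirichlet series with completely multiplicative coefficients -/
private noncomputable def hom (u : ℕ → ℝ) (h1 : u 1 = 1) (hm : ∀ m n, u (m * n) = u m * u n)
    (s : ℝ) (hs : s ≠ 0) : ℕ →*₀ ℝ where
  toFun n := u n / (n : ℝ) ^ s
  map_zero' := by
    rw [Nat.cast_zero, Real.zero_rpow hs, div_zero]
  map_one' := by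
    rw [Nat.cast_one, Real.one_rpow, h1, div_one]
  map_mul' m n := by
    rw [Nat.cast_mul, Real.mul_rpow (Nat.cast_nonneg m) (Nat.cast_nonneg n), hm]
    ring

private theorem hom_apply (u : ℕ → ℝ) (h1 : u 1 = 1) (hm : ∀ m n, u (m * n) = u m * u n)
    (s : ℝ) (hs : s ≠ 0) (n : ℕ) : hom u h1 hm s hs n = u n / (n : ℝ) ^ s := rfl

/-- Euler product -/
private theorem euler (u : ℕ → ℝ) (h1 : u 1 = 1) (hm : ∀ m n, u (m * n) = u m * u n)
    (hb : ∀ n, |u n| ≤ 1) (s : ℝ) (hs : 1 < s) :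
    HasProd (fun p : Nat.Primes => (1 - u p * ((p : ℕ) : ℝ) ^ (-s))⁻¹) (Ls u s) := by
  have hs0 : s ≠ 0 := by linarith
  have hsum : Summable (fun n => ‖hom u h1 hm s hs0 n‖) := by
    refine Summable.of_nonneg_of_le (fun n => norm_nonneg _) (fun n => ?_)
      (Real.summable_one_div_nat_rpow.2 hs)
    rw [hom_apply, norm_div, Real.norm_eq_abs, Real.norm_eq_abs,
      abs_of_nonneg (Real.rpow_nonneg (Nat.cast_nonneg n) s)]
    exact div_le_div_of_nonneg_right (hb n) (Real.rpow_nonneg (Nat.cast_nonneg n) s)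
  have h := EulerProduct.eulerProduct_completely_multiplicative_hasProd hsum
  have e1 : (fun p : Nat.Primes => (1 - u p * ((p : ℕ) : ℝ) ^ (-s))⁻¹) =
      fun p : Nat.Primes => (1 - hom u h1 hm s hs0 p)⁻¹ := by
    funext p
    rw [hom_apply, Real.rpow_neg (Nat.cast_nonneg _), div_eq_mul_inv]
  rw [e1]
  exact h

private theorem x_bounds (p : Nat.Primes) (s : ℝ) (hs : 1 < s) :
    0 < ((p : ℕ) : ℝ) ^ (-s) ∧ ((p : ℕ) : ℝ) ^ (-s) < 1 := by
  have hp : (1 : ℝ) < ((p : ℕ) : ℝ) := by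
    exact_mod_cast p.2.one_lt
  refine ⟨Real.rpow_pos_of_pos (by linarith) _, ?_⟩
  exact Real.rpow_lt_one_of_one_lt_of_neg hp (by linarith)

private theorem Ls_nonneg (u : ℕ → ℝ) (h1 : u 1 = 1) (hm : ∀ m n, u (m * n) = u m * u n)
    (hb : ∀ n, |u n| ≤ 1) (s : ℝ) (hs : 1 < s) : 0 ≤ Ls u s := by
  have h := euler u h1 hm hb s hs
  refine ge_of_tendsto' h fun S => ?_
  refine Finset.prod_nonneg fun p _ => ?_
  obtain ⟨h2, h3⟩ := x_bounds p s hs
  have h4 := (abs_le.1 (hb p)).2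
  rw [inv_nonneg]
  nlinarith

/-- the Euler factors -/
private theorem factor (a b x : ℝ) (ha : a = -1 ∨ a = 0 ∨ a = 1) (hb : b = -1 ∨ b = 0 ∨ b = 1)
    (hx0 : 0 < x) (hx1 : x < 1) :
    1 ≤ (1 - 1 * x)⁻¹ * (1 - a * x)⁻¹ * (1 - b * x)⁻¹ * (1 - (a * b) * x)⁻¹ := by
  have p1 : 0 < 1 - x := by linarith
  have p2 : 0 < 1 + x := by linarith
  have key : 0 < (1 - 1 * x) * (1 - a * x) * (1 - b * x) * (1 - (a * b) * x) ∧
      (1 - 1 * x) * (1 - a * x) * (1 - b * x) * (1 - (a * b) * x) ≤ 1 := by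
    have q1 : (1 - x) ≤ 1 := by linarith
    have q2 : (1 - x) * (1 + x) ≤ 1 := by nlinarith
    have q3 : 0 < (1 - x) * (1 + x) := mul_pos p1 p2
    rcases ha with rfl | rfl | rfl <;> rcases hb with rfl | rfl | rfl
    · have e : (1 - 1 * x) * (1 - -1 * x) * (1 - -1 * x) * (1 - -1 * -1 * x) =
        ((1 - x) * (1 + x)) ^ 2 := by ring
      rw [e]
      exact ⟨by positivity, pow_le_one₀ q3.le q2⟩
    · have e : (1 - 1 * x) * (1 - -1 * x) * (1 - 0 * x) * (1 - -1 * 0 * x) =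
        (1 - x) * (1 + x) := by ring
      rw [e]
      exact ⟨q3, q2⟩
    · have e : (1 - 1 * x) * (1 - -1 * x) * (1 - 1 * x) * (1 - -1 * 1 * x) =
        ((1 - x) * (1 + x)) ^ 2 := by ring
      rw [e]
      exact ⟨by positivity, pow_le_one₀ q3.le q2⟩
    · have e : (1 - 1 * x) * (1 - 0 * x) * (1 - -1 * x) * (1 - 0 * -1 * x) =
        (1 - x) * (1 + x) := by ring
      rw [e]
      exact ⟨q3, q2⟩
    · have e : (1 - 1 * x) * (1 - 0 * x) * (1 - 0 * x) * (1 - 0 * 0 * x) = 1 - x := by ring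
      rw [e]
      exact ⟨p1, q1⟩
    · have e : (1 - 1 * x) * (1 - 0 * x) * (1 - 1 * x) * (1 - 0 * 1 * x) = (1 - x) ^ 2 := by ring
      rw [e]
      exact ⟨by positivity, pow_le_one₀ p1.le q1⟩
    · have e : (1 - 1 * x) * (1 - 1 * x) * (1 - -1 * x) * (1 - 1 * -1 * x) =
        ((1 - x) * (1 + x)) ^ 2 := by ring
      rw [e]
      exact ⟨by positivity, pow_le_one₀ q3.le q2⟩
    · have e : (1 - 1 * x) * (1 - 1 * x) * (1 - 0 * x) * (1 - 1 * 0 * x) = (1 - x) ^ 2 := by ring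
      rw [e]
      exact ⟨by positivity, pow_le_one₀ p1.le q1⟩
    · have e : (1 - 1 * x) * (1 - 1 * x) * (1 - 1 * x) * (1 - 1 * 1 * x) = (1 - x) ^ 4 := by ring
      rw [e]
      exact ⟨by positivity, pow_le_one₀ p1.le q1⟩
  rw [← mul_inv, ← mul_inv, ← mul_inv]
  exact (one_le_inv₀ key.1).2 key.2

/-- upper bound for the zeta function -/
private theorem zeta_le (η : ℝ) (hη : 0 < η) : Ls (fun _ => (1 : ℝ)) (1 + η) ≤ 1 + 1 / η := by
  have key : ∀ n : ℕ, 1 ≤ n → (1 : ℝ) / ((n + 1 : ℕ) : ℝ) ^ (1 + η) ≤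
      ((n : ℝ) ^ (-η) - ((n + 1 : ℕ) : ℝ) ^ (-η)) / η := by
    intro n hn
    have hn0 : (0 : ℝ) < n := by exact_mod_cast hn
    have hm0 : (0 : ℝ) < ((n + 1 : ℕ) : ℝ) := by positivity
    set m : ℝ := ((n + 1 : ℕ) : ℝ) with hm
    have hmn : m = n + 1 := by rw [hm]; push_cast; ring
    have h1 : (n : ℝ) ^ (-η) = m ^ (-η) * (n / m) ^ (-η) := by
      rw [← Real.mul_rpow hm0.le (by positivity)]
      congr 1
      field_simp
    have h2 : 1 + η / m ≤ (n / m) ^ (-η) := by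
      rw [Real.rpow_def_of_pos (by positivity)]
      have h3 : Real.log (n / m) ≤ n / m - 1 := Real.log_le_sub_one_of_pos (by positivity)
      have h4 : n / m - 1 = -(1 / m) := by
        field_simp
        rw [hmn]
        ring
      rw [h4] at h3
      have h5 := Real.add_one_le_exp (Real.log (n / m) * -η)
      have h6 : η / m ≤ Real.log (n / m) * -η := by
        have h7 : Real.log (n / m) * η ≤ -(1 / m) * η := mul_le_mul_of_nonneg_right h3 hη.le
        have h8 : -(1 / m) * η = -(η / m) := by ring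
        rw [h8] at h7
        linarith
      linarith
    rw [h1, le_div_iff₀ hη]
    have h9 : 1 / m ^ (1 + η) = m ^ (-η) * (1 / m) := by
      rw [Real.rpow_add hm0, Real.rpow_one, Real.rpow_neg hm0.le]
      field_simp
    rw [h9]
    have h10 : 0 < m ^ (-η) := Real.rpow_pos_of_pos hm0 _
    have h11 : m ^ (-η) * (1 + η / m) ≤ m ^ (-η) * (n / m) ^ (-η) :=
      mul_le_mul_of_nonneg_left h2 h10.le
    have h12 : m ^ (-η) * (1 + η / m) = m ^ (-η) + m ^ (-η) * (1 / m) * η := by ring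
    linarith
  have hpart : ∀ N : ℕ, ∑ n ∈ Finset.range (N + 2), (1 : ℝ) / ((n : ℕ) : ℝ) ^ (1 + η) ≤
      1 + (1 - ((N + 1 : ℕ) : ℝ) ^ (-η)) / η := by
    intro N
    induction N with
    | zero =>
      rw [Finset.sum_range_succ, Finset.sum_range_succ, Finset.sum_range_zero]
      have e0 : ((0 : ℕ) : ℝ) ^ (1 + η) = 0 := by
        rw [Nat.cast_zero, Real.zero_rpow (by linarith)]
      rw [e0]
      simp
    | succ N ih =>
      rw [Finset.sum_range_succ]
      have h := key (N + 1) (by omega)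
      have e : ((1 : ℝ) - ((N + 1 + 1 : ℕ) : ℝ) ^ (-η)) / η =
        (1 - ((N + 1 : ℕ) : ℝ) ^ (-η)) / η +
          (((N + 1 : ℕ) : ℝ) ^ (-η) - ((N + 1 + 1 : ℕ) : ℝ) ^ (-η)) / η := by ring
      rw [e]
      linarith
  unfold Ls
  refine Real.tsum_le_of_sum_range_le (fun n => ?_) (fun n => ?_)
  · positivity
  · have h1 : ∑ i ∈ Finset.range n, (1 : ℝ) / (i : ℝ) ^ (1 + η) ≤
        ∑ i ∈ Finset.range (n + 2), (1 : ℝ) / (i : ℝ) ^ (1 + η) := by
      refine Finset.sum_le_sum_of_subset_of_nonneg ?_ (fun i _ _ => by positivity)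
      intro i hi
      rw [Finset.mem_range] at hi ⊢
      omega
    refine h1.trans ((hpart n).trans ?_)
    have h2 : 0 < ((n + 1 : ℕ) : ℝ) ^ (-η) := Real.rpow_pos_of_pos (by positivity) _
    have h3 : (1 - ((n + 1 : ℕ) : ℝ) ^ (-η)) / η ≤ 1 / η :=
      div_le_div_of_nonneg_right (by linarith) hη.le
    linarith

private theorem four (q1 q2 : ℕ) (f g : ℕ → ℝ) (hf : RealChar q1 f) (hg : RealChar q2 g)
    (s : ℝ) (hs : 1 < s) :
    1 ≤ Ls (fun _ => (1 : ℝ)) s * Ls f s * Ls g s * Ls (fun n => f n * g n) s := by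
  have bf : ∀ n, |f n| ≤ 1 := by
    intro n
    rcases hf.val n with h | h | h <;> rw [h] <;> norm_num
  have bg : ∀ n, |g n| ≤ 1 := by
    intro n
    rcases hg.val n with h | h | h <;> rw [h] <;> norm_num
  have e1 := euler (fun _ => (1 : ℝ)) rfl (fun _ _ => (one_mul _).symm)
    (fun _ => by rw [abs_one]) s hs
  have e2 := euler f hf.one hf.mul bf s hs
  have e3 := euler g hg.one hg.mul bg s hs
  have e4 := euler (fun n => f n * g n) (by rw [hf.one, hg.one, one_mul])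
    (fun m n => by rw [hf.mul, hg.mul]; ring)
    (fun n => by
      rw [abs_mul]
      exact mul_le_one₀ (bf n) (abs_nonneg _) (bg n)) s hs
  have h := ((e1.mul e2).mul e3).mul e4
  refine ge_of_tendsto' h fun S => ?_
  have h2 : ∀ p ∈ S, (1 : ℝ) ≤ (1 - 1 * ((p : ℕ) : ℝ) ^ (-s))⁻¹ *
      (1 - f p * ((p : ℕ) : ℝ) ^ (-s))⁻¹ * (1 - g p * ((p : ℕ) : ℝ) ^ (-s))⁻¹ *
      (1 - f p * g p * ((p : ℕ) : ℝ) ^ (-s))⁻¹ := by
    intro p _
    obtain ⟨h3, h4⟩ := x_bounds p s hs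
    exact factor (f p) (g p) _ (hf.val p) (hg.val p) h3 h4
  calc (1 : ℝ) = ∏ _p ∈ S, (1 : ℝ) := by rw [Finset.prod_const_one]
    _ ≤ _ := Finset.prod_le_prod (fun _ _ => zero_le_one) h2

end Repulsion

/-- B4 (repulsion of two small values). -/
theorem repulsion : ∃ C : ℝ, 0 < C ∧ ∀ (q q1 q2 : ℕ) (f g : ℕ → ℝ), RealChar q1 f →
    RealChar q2 g → RealChar q (fun n => f n * g n) → ∀ η K : ℝ, 0 < η → η ≤ 1 → 1 ≤ K →
    Ls f (1 + η) ≤ K * η → Ls g (1 + η) ≤ K * η → 1 / η ≤ C * K ^ 2 * Real.log q := by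
  obtain ⟨C, hC, hB⟩ := Ls_bounds
  refine ⟨2 * C, by linarith, ?_⟩
  intro q q1 q2 f g hf hg hfg η K hη hη1 hK h1 h2
  have hs : (1 : ℝ) < 1 + η := by linarith
  have hs2 : 1 + η ≤ 2 := by linarith
  have bf : ∀ n, |f n| ≤ 1 := by
    intro n
    rcases hf.val n with h | h | h <;> rw [h] <;> norm_num
  have bg : ∀ n, |g n| ≤ 1 := by
    intro n
    rcases hg.val n with h | h | h <;> rw [h] <;> norm_num
  have nf := Repulsion.Ls_nonneg f hf.one hf.mul bf (1 + η) hs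
  have ng := Repulsion.Ls_nonneg g hg.one hg.mul bg (1 + η) hs
  have hfour := Repulsion.four q1 q2 f g hf hg (1 + η) hs
  obtain ⟨n3, h3⟩ := (hB q _ hfg).1 (1 + η) hs hs2
  have hz := Repulsion.zeta_le η hη
  have hz2 : Ls (fun _ => (1 : ℝ)) (1 + η) ≤ 2 / η := by
    refine hz.trans ?_
    rw [le_div_iff₀ hη, add_mul, one_div, inv_mul_cancel₀ hη.ne']
    linarith
  have hKη : 0 ≤ K * η := by positivity
  have s1 : Ls (fun _ => (1 : ℝ)) (1 + η) * Ls f (1 + η) ≤ 2 / η * (K * η) :=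
    mul_le_mul hz2 h1 nf (by positivity)
  have s2 : Ls (fun _ => (1 : ℝ)) (1 + η) * Ls f (1 + η) * Ls g (1 + η) ≤
      2 / η * (K * η) * (K * η) :=
    mul_le_mul s1 h2 ng (by positivity)
  have s3 : Ls (fun _ => (1 : ℝ)) (1 + η) * Ls f (1 + η) * Ls g (1 + η) *
      Ls (fun n => f n * g n) (1 + η) ≤ 2 / η * (K * η) * (K * η) * (C * Real.log q) :=
    mul_le_mul s2 h3 n3.le (by positivity)
  have s4 : 2 / η * (K * η) * (K * η) * (C * Real.log q) =
      2 * C * K ^ 2 * Real.log q * η := by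
    field_simp
  rw [s4] at s3
  rw [div_le_iff₀ hη]
  linarith

end SSP
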