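import Pool.Agent.SSP.Defs
import Pool.Agent.SSP.ChiReal
import Pool.Agent.SSP.LsBounds
import Pool.Agent.SSP.LsPos
import Pool.Agent.SSP.Repulsion

set_option autoImplicit false

namespace SSP

open Filter

namespace ExistsEta

/-- The moduli of the characters which are considered are small. -/
theorem modulus (Pset : Set ℕ) (hP : ∀ p ∈ Pset, p.Prime ∧ p ≠ 2) (C1 : ℝ)
    (hC1 : ∀ᶠ x : ℝ in atTop,
      (Nat.card {p : ℕ // p ∈ Pset ∧ (p : ℝ) ≤ x} : ℝ) ≤ C1 * Real.log (Real.log x)) :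
    ∃ y1 : ℝ, 2 ≤ y1 ∧ ∀ η : ℝ, 0 < η → y1 ≤ Real.log (1 / η) → ∀ (e : Bool) (I : Finset ℕ),
      (∀ p ∈ I, p ∈ Pset ∧ (p : ℝ) ≤ (1 / η) ^ 8) →
      Real.log (chiMod e I) ≤ Real.log (1 / η) ^ 2 := by
  obtain ⟨x0, hx0⟩ := Filter.eventually_atTop.mp hC1
  have hc : (0 : ℝ) < 1 / (128 * (|C1| + 1)) := by positivity
  have hlog := Real.isLittleO_log_id_atTop.def hc
  obtain ⟨z0, hz0⟩ := Filter.eventually_atTop.mp hlog
  refine ⟨max 2 (max |x0| |z0|), le_max_left _ _, ?_⟩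
  intro η hη hy e I hI
  set y : ℝ := Real.log (1 / η) with hydef
  have hy2 : 2 ≤ y := le_trans (le_max_left _ _) hy
  have hyx : x0 ≤ y := le_trans (le_abs_self _)
    (le_trans (le_trans (le_max_left _ _) (le_max_right _ _)) hy)
  have hyz : z0 ≤ y := le_trans (le_abs_self _)
    (le_trans (le_trans (le_max_right _ _) (le_max_right _ _)) hy)
  have hL : (1 / η) ^ 8 = Real.exp (8 * y) := by
    have h1 : 1 / η = Real.exp y := by
      rw [hydef, Real.exp_log (by positivity)]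
    rw [h1, ← Real.exp_nat_mul]
    norm_num
  have hx : x0 ≤ (1 / η) ^ 8 := by
    rw [hL]
    have := Real.add_one_le_exp (8 * y)
    linarith
  have hcard := hx0 _ hx
  have hll : Real.log (Real.log ((1 / η) ^ 8)) = Real.log (8 * y) := by
    rw [hL, Real.log_exp]
  rw [hll] at hcard
  have hlog8 : Real.log (8 * y) ≤ 1 / (128 * (|C1| + 1)) * (8 * y) := by
    have h1 := hz0 (8 * y) (by linarith)
    simp only [id] at h1
    rw [Real.norm_eq_abs, Real.norm_eq_abs, abs_of_pos (show (0 : ℝ) < 8 * y by linarith)] at h1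
    exact (le_abs_self _).trans h1
  have hlog8' : 0 ≤ Real.log (8 * y) := Real.log_nonneg (by linarith)
  have hfin : ({p : ℕ | p ∈ Pset ∧ (p : ℝ) ≤ (1 / η) ^ 8}).Finite := by
    refine (Set.finite_Iic ⌊(1 / η) ^ 8⌋₊).subset ?_
    rintro p ⟨_, hp⟩
    exact Nat.le_floor hp
  have hIcard : (I.card : ℝ) ≤ |C1| * Real.log (8 * y) := by
    have h1 : I.card ≤ Nat.card {p : ℕ // p ∈ Pset ∧ (p : ℝ) ≤ (1 / η) ^ 8} := by
      have h2 : Nat.card {p : ℕ // p ∈ Pset ∧ (p : ℝ) ≤ (1 / η) ^ 8} =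
          ({p : ℕ | p ∈ Pset ∧ (p : ℝ) ≤ (1 / η) ^ 8}).ncard := rfl
      rw [h2, ← Set.ncard_coe_finset]
      exact Set.ncard_le_ncard (fun p hp => hI p hp) hfin
    calc (I.card : ℝ) ≤ (Nat.card {p : ℕ // p ∈ Pset ∧ (p : ℝ) ≤ (1 / η) ^ 8} : ℝ) := by
          exact_mod_cast h1
      _ ≤ C1 * Real.log (8 * y) := hcard
      _ ≤ |C1| * Real.log (8 * y) := mul_le_mul_of_nonneg_right (le_abs_self _) hlog8'
  have hpos : ∀ p ∈ I, (0 : ℝ) < p := fun p hp => by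
    exact_mod_cast (hP p (hI p hp).1).1.pos
  have hprod : Real.log (∏ p ∈ I, (p : ℝ)) ≤ I.card * (8 * y) := by
    rw [Real.log_prod fun p hp => (hpos p hp).ne', ← nsmul_eq_mul]
    refine Finset.sum_le_card_nsmul _ _ _ fun p hp => ?_
    have h1 := (hI p hp).2
    rw [hL] at h1
    exact (Real.log_le_iff_le_exp (hpos p hp)).mpr h1
  have hmod : Real.log (chiMod e I) ≤ 2 + I.card * (8 * y) := by
    unfold chiMod
    push_cast
    have hpp : (0 : ℝ) < ∏ p ∈ I, (p : ℝ) := Finset.prod_pos hpos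
    have h4 : Real.log 4 ≤ 2 := by
      have h5 : Real.log 4 = 2 * Real.log 2 := by
        rw [show (4 : ℝ) = 2 ^ 2 by norm_num, Real.log_pow]
        norm_num
      have := Real.log_two_lt_d9
      rw [h5]
      linarith
    cases e
    · simp only [Bool.false_eq_true, if_false, one_mul]
      linarith
    · simp only [if_true]
      rw [Real.log_mul (by norm_num) hpp.ne']
      linarith
  have hA : 0 ≤ |C1| := abs_nonneg _
  have h3 : (I.card : ℝ) * (8 * y) ≤ y ^ 2 / 2 := by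
    have h4 : (I.card : ℝ) ≤ |C1| * (1 / (128 * (|C1| + 1)) * (8 * y)) :=
      hIcard.trans (mul_le_mul_of_nonneg_left hlog8 hA)
    calc (I.card : ℝ) * (8 * y) ≤ |C1| * (1 / (128 * (|C1| + 1)) * (8 * y)) * (8 * y) :=
          mul_le_mul_of_nonneg_right h4 (by linarith)
      _ = (|C1| / (|C1| + 1)) * (y ^ 2 / 2) := by
          field_simp
          ring
      _ ≤ 1 * (y ^ 2 / 2) := by
          refine mul_le_mul_of_nonneg_right ?_ (by positivity)
          rw [div_le_one (by linarith)]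
          linarith
      _ = y ^ 2 / 2 := one_mul _
  nlinarith

/-- At most one character is exceptional. -/
theorem two (Pset : Set ℕ) (hP : ∀ p ∈ Pset, p.Prime ∧ p ≠ 2) (C1 : ℝ)
    (hC1 : ∀ᶠ x : ℝ in atTop,
      (Nat.card {p : ℕ // p ∈ Pset ∧ (p : ℝ) ≤ x} : ℝ) ≤ C1 * Real.log (Real.log x)) :
    ∃ η1 : ℝ, 0 < η1 ∧ η1 ≤ 1 ∧ ∀ η : ℝ, 0 < η → η < η1 → ∀ (e e' : Bool) (I I' : Finset ℕ),
      (∀ p ∈ I, p ∈ Pset ∧ (p : ℝ) ≤ (1 / η) ^ 8) →
      (∀ p ∈ I', p ∈ Pset ∧ (p : ℝ) ≤ (1 / η) ^ 8) →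
      (e = true ∨ I.Nonempty) → (e' = true ∨ I'.Nonempty) → (e, I) ≠ (e', I') →
      Ls (chi e I) (1 + η) ≤ η ^ ((1 : ℝ) / 3) → Ls (chi e' I') (1 + η) ≤ η ^ ((1 : ℝ) / 3) →
      False := by
  classical
  obtain ⟨C, hC, hB⟩ := Ls_bounds
  obtain ⟨C', hC', hR⟩ := repulsion
  obtain ⟨y1, hy1, hM⟩ := modulus Pset hP C1 hC1
  set M : ℝ := 3 ^ 11 * (Nat.factorial 11 : ℝ) * (C' * (1 + C) ^ 2) with hMdef
  refine ⟨Real.exp (-(max y1 (M + 1))), Real.exp_pos _, ?_, ?_⟩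
  · rw [Real.exp_le_one_iff]
    have := le_max_left y1 (M + 1)
    linarith
  intro η hη hη1 e e' I I' hI hI' hne hne' hdiff h1 h2
  set y : ℝ := Real.log (1 / η) with hydef
  have hlogη : Real.log η = -y := by
    rw [hydef, one_div, Real.log_inv, neg_neg]
  have hy : max y1 (M + 1) < y := by
    have := (Real.log_lt_iff_lt_exp hη).mpr hη1
    linarith
  have hyy1 : y1 ≤ y := (le_max_left _ _).trans hy.le
  have hyM : M + 1 < y := lt_of_le_of_lt (le_max_right _ _) hy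
  have hy2 : 2 ≤ y := hy1.trans hyy1
  have hηlt1 : η < 1 := by
    have h3 : Real.log η < 0 := by linarith
    exact (Real.log_neg_iff hη).mp h3
  -- the auxiliary point
  set η' : ℝ := η ^ ((1 : ℝ) / 3) with hη'
  have hη'pos : 0 < η' := Real.rpow_pos_of_pos hη _
  have hη'le : η' ≤ 1 := Real.rpow_le_one hη.le hηlt1.le (by norm_num)
  have hηη' : η ≤ η' := by
    have := Real.rpow_le_rpow_of_exponent_ge hη hηlt1.le (show (1 : ℝ) / 3 ≤ 1 by norm_num)
    rwa [Real.rpow_one] at this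
  have hinv : 1 / η' = Real.exp (y / 3) := by
    rw [hη', Real.rpow_def_of_pos hη, hlogη, one_div, ← Real.exp_neg]
    congr 1
    ring
  have hIU : ∀ p ∈ I ∪ I', p ∈ Pset ∧ (p : ℝ) ≤ (1 / η) ^ 8 := by
    intro p hp
    rcases Finset.mem_union.mp hp with hp | hp
    · exact hI p hp
    · exact hI' p hp
  have c1 : RealChar (chiMod e I) (chi e I) :=
    chi_realChar e I (fun p hp => hP p (hI p hp).1) hne
  have c2 : RealChar (chiMod e' I') (chi e' I') :=
    chi_realChar e' I' (fun p hp => hP p (hI' p hp).1) hne'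
  have c3 := chi_mul_realChar e e' I I' (fun p hp => hP p (hIU p hp).1) hdiff
  have m1 := hM η hη hyy1 e I hI
  have m2 := hM η hη hyy1 e' I' hI'
  have m3 := hM η hη hyy1 (e || e') (I ∪ I') hIU
  have step : ∀ (q : ℕ) (f : ℕ → ℝ), RealChar q f → Real.log q ≤ y ^ 2 →
      Ls f (1 + η) ≤ η' → Ls f (1 + η') ≤ (1 + C * y ^ 4) * η' := by
    intro q f hf hq hle
    have h3 := (hB q f hf).2.1 (1 + η) (1 + η') (by linarith) (by linarith) (by linarith)
    have h4 : Real.log q ^ 2 ≤ y ^ 4 := by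
      have h5 : 0 ≤ Real.log (q : ℝ) := Real.log_natCast_nonneg q
      calc Real.log q ^ 2 ≤ (y ^ 2) ^ 2 := pow_le_pow_left₀ h5 hq 2
        _ = y ^ 4 := by ring
    have h5 : C * Real.log q ^ 2 * (1 + η' - (1 + η)) ≤ C * y ^ 4 * η' := by
      have h6 : C * Real.log q ^ 2 ≤ C * y ^ 4 := mul_le_mul_of_nonneg_left h4 hC.le
      have h7 : 1 + η' - (1 + η) ≤ η' := by linarith
      have h8 : 0 ≤ 1 + η' - (1 + η) := by linarith
      exact mul_le_mul h6 h7 h8 (by positivity)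
    have h6 := (abs_le.mp h3).2
    linarith
  have s1 := step _ _ c1 m1 h1
  have s2 := step _ _ c2 m2 h2
  have hK : (1 : ℝ) ≤ 1 + C * y ^ 4 := by
    have : 0 ≤ C * y ^ 4 := by positivity
    linarith
  have hfin := hR _ _ _ _ _ c1 c2 c3 η' (1 + C * y ^ 4) hη'pos hη'le hK s1 s2
  rw [hinv] at hfin
  have hy0 : (0 : ℝ) < y := by linarith
  have hbound : Real.exp (y / 3) ≤ C' * (1 + C) ^ 2 * y ^ 10 := by
    refine hfin.trans ?_
    have hKle : 1 + C * y ^ 4 ≤ (1 + C) * y ^ 4 := by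
      have : (1 : ℝ) ≤ y ^ 4 := one_le_pow₀ (by linarith)
      nlinarith
    have hK0 : (0 : ℝ) ≤ 1 + C * y ^ 4 := by linarith
    calc C' * (1 + C * y ^ 4) ^ 2 * Real.log (chiMod (e || e') (I ∪ I'))
        ≤ C' * (1 + C * y ^ 4) ^ 2 * y ^ 2 := mul_le_mul_of_nonneg_left m3 (by positivity)
      _ ≤ C' * ((1 + C) * y ^ 4) ^ 2 * y ^ 2 := by
          refine mul_le_mul_of_nonneg_right ?_ (by positivity)
          exact mul_le_mul_of_nonneg_left (pow_le_pow_left₀ hK0 hKle 2) hC'.le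
      _ = C' * (1 + C) ^ 2 * y ^ 10 := by ring
  have hexp := Real.pow_div_factorial_le_exp (y / 3) (by positivity) 11
  have h9 : (y / 3) ^ 11 / (Nat.factorial 11 : ℝ) ≤ C' * (1 + C) ^ 2 * y ^ 10 := hexp.trans hbound
  have hfac : (0 : ℝ) < (Nat.factorial 11 : ℝ) := by positivity
  rw [div_le_iff₀ hfac] at h9
  have h10 : y * y ^ 10 ≤ M * y ^ 10 := by
    have e1 : (y / 3) ^ 11 * 3 ^ 11 = y * y ^ 10 := by
      rw [← mul_pow, div_mul_cancel₀ _ (by norm_num : (3 : ℝ) ≠ 0)]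
      ring
    calc y * y ^ 10 = (y / 3) ^ 11 * 3 ^ 11 := e1.symm
      _ ≤ (C' * (1 + C) ^ 2 * y ^ 10 * (Nat.factorial 11 : ℝ)) * 3 ^ 11 :=
          mul_le_mul_of_nonneg_right h9 (by positivity)
      _ = M * y ^ 10 := by rw [hMdef]; ring
  have h11 : y ≤ M := le_of_mul_le_mul_right h10 (by positivity)
  linarith

end ExistsEta

/-- B7 (good values of `η`). -/
theorem exists_eta (Pset : Set ℕ) (hP : ∀ p ∈ Pset, p.Prime ∧ p ≠ 2) (C1 : ℝ)
    (hC1 : ∀ᶠ x : ℝ in atTop,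
      (Nat.card {p : ℕ // p ∈ Pset ∧ (p : ℝ) ≤ x} : ℝ) ≤ C1 * Real.log (Real.log x))
    (η0 : ℝ) (hη0 : 0 < η0) :
    ∃ η : ℝ, 0 < η ∧ η < η0 ∧ ∀ (e : Bool) (I : Finset ℕ),
      (∀ p ∈ I, p ∈ Pset ∧ (p : ℝ) ≤ (1 / η) ^ 8) → (e = true ∨ I.Nonempty) →
      η ^ ((1 : ℝ) / 3) ≤ Ls (chi e I) (1 + η) := by
  classical
  obtain ⟨η1, hη1, hη1', htwo⟩ := ExistsEta.two Pset hP C1 hC1
  set ηa : ℝ := min η0 η1 / 2 with hηa
  have hmin : 0 < min η0 η1 := lt_min hη0 hη1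
  have ha0 : 0 < ηa := by rw [hηa]; linarith
  have ha1 : ηa < η0 := by
    rw [hηa]
    have := min_le_left η0 η1
    linarith
  have ha2 : ηa < η1 := by
    rw [hηa]
    have := min_le_right η0 η1
    linarith
  by_cases hex : ∀ (e : Bool) (I : Finset ℕ),
      (∀ p ∈ I, p ∈ Pset ∧ (p : ℝ) ≤ (1 / ηa) ^ 8) → (e = true ∨ I.Nonempty) →
      ηa ^ ((1 : ℝ) / 3) ≤ Ls (chi e I) (1 + ηa)
  · exact ⟨ηa, ha0, ha1, hex⟩
  push Not at hex
  obtain ⟨e, I, hI, hne, hlt⟩ := hex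
  have c1 : RealChar (chiMod e I) (chi e I) :=
    chi_realChar e I (fun p hp => hP p (hI p hp).1) hne
  obtain ⟨C, hC, hB⟩ := Ls_bounds
  obtain ⟨δ, hδ, hpos⟩ := Ls_pos _ _ c1
  set t0 : ℝ := min (δ ^ 3) ηa with ht0
  have ht0pos : 0 < t0 := lt_min (by positivity) ha0
  have ht0a : t0 ≤ ηa := min_le_right _ _
  have hlip := (hB _ _ c1).2.1
  set K : ℝ := C * Real.log (chiMod e I) ^ 2 with hK
  have hK0 : 0 ≤ K := by positivity
  have hcont : ContinuousOn (fun t : ℝ => Ls (chi e I) (1 + t) - t ^ ((1 : ℝ) / 3))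
      (Set.Icc t0 ηa) := by
    refine ContinuousOn.sub ?_ ?_
    · have hL : LipschitzOnWith (Real.toNNReal K) (fun t : ℝ => Ls (chi e I) (1 + t))
          (Set.Icc t0 ηa) := by
        refine LipschitzOnWith.of_dist_le_mul fun a ha b hb => ?_
        rw [Real.coe_toNNReal _ hK0, Real.dist_eq, Real.dist_eq]
        rcases le_total a b with hab | hab
        · have h1 := hlip (1 + a) (1 + b) (by linarith [ha.1]) (by linarith)
            (by linarith [hb.2])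
          rw [abs_sub_comm, abs_sub_comm a b, abs_of_nonneg (sub_nonneg.mpr hab)]
          have e1 : (1 + b) - (1 + a) = b - a := by ring
          rw [e1] at h1
          exact h1
        · have h1 := hlip (1 + b) (1 + a) (by linarith [hb.1]) (by linarith)
            (by linarith [ha.2])
          rw [abs_of_nonneg (sub_nonneg.mpr hab)]
          have e1 : (1 + a) - (1 + b) = a - b := by ring
          rw [e1] at h1
          exact h1
      exact hL.continuousOn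
    · intro t _
      exact (Real.continuousAt_rpow_const t _ (Or.inr (by norm_num))).continuousWithinAt
  have hF0 : 0 ≤ Ls (chi e I) (1 + t0) - t0 ^ ((1 : ℝ) / 3) := by
    have h1 := hpos (1 + t0) (by linarith) (by linarith)
    have h2 : t0 ^ ((1 : ℝ) / 3) ≤ δ := by
      have h3 : t0 ^ ((1 : ℝ) / 3) ≤ (δ ^ 3) ^ ((1 : ℝ) / 3) :=
        Real.rpow_le_rpow ht0pos.le (min_le_left _ _) (by norm_num)
      have h4 : (δ ^ 3) ^ ((1 : ℝ) / 3) = δ := by
        rw [← Real.rpow_natCast δ 3, ← Real.rpow_mul hδ.le]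
        norm_num
      rwa [h4] at h3
    linarith
  have hFa : Ls (chi e I) (1 + ηa) - ηa ^ ((1 : ℝ) / 3) ≤ 0 := by linarith
  obtain ⟨η, hη, hηF⟩ := intermediate_value_Icc' ht0a hcont ⟨hFa, hF0⟩
  have hηpos : 0 < η := lt_of_lt_of_le ht0pos hη.1
  have hηeq : Ls (chi e I) (1 + η) = η ^ ((1 : ℝ) / 3) := by
    simp only at hηF
    linarith
  refine ⟨η, hηpos, lt_of_le_of_lt hη.2 ha1, ?_⟩
  intro e' I' hI' hne'
  by_contra hcon
  push Not at hcon
  have hdiff : (e, I) ≠ (e', I') := by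
    intro h
    rw [Prod.mk.injEq] at h
    obtain ⟨rfl, rfl⟩ := h
    rw [hηeq] at hcon
    exact lt_irrefl _ hcon
  have hI2 : ∀ p ∈ I, p ∈ Pset ∧ (p : ℝ) ≤ (1 / η) ^ 8 := by
    intro p hp
    refine ⟨(hI p hp).1, (hI p hp).2.trans ?_⟩
    exact pow_le_pow_left₀ (by positivity) (one_div_le_one_div_of_le hηpos hη.2) 8
  exact htwo η hηpos (lt_of_le_of_lt hη.2 ha2) e e' I I' hI2 hI' hne hne' hdiff hηeq.le hcon.le

end SSP
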