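import Pool.Agent.SSP.Defs

set_option autoImplicit false

namespace SSP

open Filter

/-- B3 (zeta). -/
theorem zeta_bounds : ∃ C : ℝ, 0 < C ∧ ∀ s : ℝ, 1 < s → s ≤ 2 →
    1 / (s - 1) - C ≤ (∑' n : ℕ, ArithmeticFunction.vonMangoldt n / (n : ℝ) ^ s) := by
  obtain ⟨C, hC⟩ := ArithmeticFunction.vonMangoldt.LSeries_residueClass_lower_bound
    (q := 1) (a := 1) isUnit_one
  refine ⟨max C 1, by positivity, fun s hs1 hs2 => ?_⟩
  have h := hC (x := s) ⟨hs1, hs2⟩
  have e : ∀ n : ℕ, ArithmeticFunction.vonMangoldt.residueClass (1 : ZMod 1) n =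
      ArithmeticFunction.vonMangoldt n := by
    intro n
    refine Set.indicator_of_mem ?_ _
    show ((n : ZMod 1)) = 1
    exact Subsingleton.elim _ _
  simp only [e, Nat.totient_one, Nat.cast_one, inv_one] at h
  have := le_max_left C 1
  linarith

end SSP
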