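import Pool.Agent.SSP.Defs
import Pool.Agent.SSP.ChiReal
import Pool.Agent.SSP.LsBounds
import Pool.Agent.SSP.ZetaBounds

set_option autoImplicit false

namespace SSP

open Filter

private theorem gp_summable (s : ℝ) (hs : 1 < s) :
    Summable (fun n : ℕ => ArithmeticFunction.vonMangoldt n / (n : ℝ) ^ s) := by
  have h := ArithmeticFunction.LSeriesSummable_vonMangoldt (s := (s : ℂ)) (by simpa using hs)
  have h2 := h.norm
  refine h2.congr fun n => ?_
  rw [LSeries.norm_term_eq]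
  rcases eq_or_ne n 0 with rfl | hn
  · simp
  · rw [if_neg hn, Complex.ofReal_re, Complex.norm_real, Real.norm_eq_abs,
      abs_of_nonneg ArithmeticFunction.vonMangoldt_nonneg]

private theorem gp_summable' (s : ℝ) (hs : 1 < s) (f : ℕ → ℝ) (hf : ∀ n, |f n| ≤ 1) :
    Summable (fun n : ℕ => ArithmeticFunction.vonMangoldt n * f n / (n : ℝ) ^ s) := by
  refine Summable.of_norm_bounded (gp_summable s hs) fun n => ?_
  have h0 : 0 ≤ ArithmeticFunction.vonMangoldt n / (n : ℝ) ^ s :=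
    div_nonneg ArithmeticFunction.vonMangoldt_nonneg (by positivity)
  have e : ArithmeticFunction.vonMangoldt n * f n / (n : ℝ) ^ s =
      f n * (ArithmeticFunction.vonMangoldt n / (n : ℝ) ^ s) := by ring
  rw [e, Real.norm_eq_abs, abs_mul, abs_of_nonneg h0]
  exact mul_le_of_le_one_left h0 (hf n)

private theorem gp_chi4 (n : ℕ) : ((ZMod.χ₄ (n : ZMod 4) : ℤ) : ℝ) = -1 ∨
    ((ZMod.χ₄ (n : ZMod 4) : ℤ) : ℝ) = 0 ∨ ((ZMod.χ₄ (n : ZMod 4) : ℤ) : ℝ) = 1 := by
  rw [ZMod.χ₄_nat_eq_if_mod_four]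
  split_ifs <;> norm_num

private theorem gp_jac (n p : ℕ) : ((jacobiSym (n : ℤ) p : ℤ) : ℝ) = -1 ∨
    ((jacobiSym (n : ℤ) p : ℤ) : ℝ) = 0 ∨ ((jacobiSym (n : ℤ) p : ℤ) : ℝ) = 1 := by
  rcases jacobiSym.trichotomy (n : ℤ) p with h | h | h
  · right; left; rw [h]; norm_num
  · right; right; rw [h]; norm_num
  · left; rw [h]; norm_num

private theorem gp_chi_abs (e : Bool) (I : Finset ℕ) (n : ℕ) : |chi e I n| ≤ 1 := by
  unfold chi
  rw [abs_mul, Finset.abs_prod]
  have h1 : |(if e then ((ZMod.χ₄ (n : ZMod 4) : ℤ) : ℝ) else 1)| ≤ 1 := by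
    split_ifs
    · rcases gp_chi4 n with h | h | h <;> rw [h] <;> norm_num
    · norm_num
  have h2 : ∏ p ∈ I, |((jacobiSym (n : ℤ) p : ℤ) : ℝ)| ≤ 1 := by
    refine Finset.prod_le_one (fun p _ => abs_nonneg _) fun p _ => ?_
    rcases gp_jac n p with h | h | h <;> rw [h] <;> norm_num
  exact mul_le_one₀ h1 (Finset.prod_nonneg fun p _ => abs_nonneg _) h2

/-- the weight -/
private noncomputable def gpW (Q : Finset ℕ) (ε : ℕ → ℤ) (n : ℕ) : ℝ :=
  (1 / 2) ^ (Q.card + 1) * ((1 + ((ZMod.χ₄ (n : ZMod 4) : ℤ) : ℝ)) *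
    ∏ p ∈ Q, (1 + (ε p : ℝ) * ((jacobiSym (n : ℤ) p : ℤ) : ℝ)))

private theorem gpW_expand (Q : Finset ℕ) (ε : ℕ → ℤ) (n : ℕ) :
    gpW Q ε n = (1 / 2) ^ (Q.card + 1) * ∑ I ∈ Q.powerset, (∏ p ∈ I, (ε p : ℝ)) *
      (chi false I n + chi true I n) := by
  unfold gpW
  rw [Finset.prod_one_add, Finset.mul_sum]
  congr 1
  refine Finset.sum_congr rfl fun I _ => ?_
  rw [Finset.prod_mul_distrib]
  unfold chi
  simp only [Bool.false_eq_true, if_false, if_true, one_mul]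
  ring

private theorem gp_factor (ε : ℤ) (hε : ε = 1 ∨ ε = -1) (n p : ℕ) :
    0 ≤ 1 + (ε : ℝ) * ((jacobiSym (n : ℤ) p : ℤ) : ℝ) ∧
    1 + (ε : ℝ) * ((jacobiSym (n : ℤ) p : ℤ) : ℝ) ≤ 2 := by
  rcases hε with h | h <;> rcases gp_jac n p with h' | h' | h' <;> rw [h, h'] <;> norm_num

private theorem gpW_bounds (Q : Finset ℕ) (ε : ℕ → ℤ) (hε : ∀ p ∈ Q, ε p = 1 ∨ ε p = -1) (n : ℕ) :
    0 ≤ gpW Q ε n ∧ gpW Q ε n ≤ 1 := by
  have h1 : 0 ≤ 1 + ((ZMod.χ₄ (n : ZMod 4) : ℤ) : ℝ) ∧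
      1 + ((ZMod.χ₄ (n : ZMod 4) : ℤ) : ℝ) ≤ 2 := by
    rcases gp_chi4 n with h | h | h <;> rw [h] <;> norm_num
  have h2 : 0 ≤ ∏ p ∈ Q, (1 + (ε p : ℝ) * ((jacobiSym (n : ℤ) p : ℤ) : ℝ)) :=
    Finset.prod_nonneg fun p hp => (gp_factor (ε p) (hε p hp) n p).1
  have h3 : ∏ p ∈ Q, (1 + (ε p : ℝ) * ((jacobiSym (n : ℤ) p : ℤ) : ℝ)) ≤ 2 ^ Q.card := by
    rw [← Finset.prod_const]
    exact Finset.prod_le_prod (fun p hp => (gp_factor (ε p) (hε p hp) n p).1)
      fun p hp => (gp_factor (ε p) (hε p hp) n p).2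
  constructor
  · unfold gpW
    have := h1.1
    positivity
  · unfold gpW
    have h4 : (1 + ((ZMod.χ₄ (n : ZMod 4) : ℤ) : ℝ)) *
        ∏ p ∈ Q, (1 + (ε p : ℝ) * ((jacobiSym (n : ℤ) p : ℤ) : ℝ)) ≤ 2 * 2 ^ Q.card :=
      mul_le_mul h1.2 h3 h2 (by norm_num)
    calc _ ≤ (1 / 2 : ℝ) ^ (Q.card + 1) * (2 * 2 ^ Q.card) :=
          mul_le_mul_of_nonneg_left h4 (by positivity)
      _ = 1 := by
          rw [← pow_succ', ← mul_pow]
          norm_num

/-- the weight at primes outside `2` and `Q` -/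
private theorem gpW_prime (Q : Finset ℕ) (ε : ℕ → ℤ) (hQ : ∀ p ∈ Q, p.Prime ∧ p ≠ 2)
    (hε : ∀ p ∈ Q, ε p = 1 ∨ ε p = -1) (l : ℕ) (hl : l.Prime) (hl2 : l ≠ 2) (hlQ : l ∉ Q)
    (hbad : ¬ (l % 4 = 1 ∧ ∀ p ∈ Q, jacobiSym (l : ℤ) p = ε p)) : gpW Q ε l = 0 := by
  unfold gpW
  by_cases h4 : l % 4 = 1
  · have h5 : ¬ ∀ p ∈ Q, jacobiSym (l : ℤ) p = ε p := fun h => hbad ⟨h4, h⟩
    push Not at h5
    obtain ⟨p, hp, hne⟩ := h5
    have hcop : Int.gcd (l : ℤ) p = 1 := by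
      rw [Int.gcd_natCast_natCast]
      rw [Nat.coprime_primes hl (hQ p hp).1 |>.mpr]
      rintro rfl
      exact hlQ hp
    have hJ := jacobiSym.eq_one_or_neg_one hcop
    have hz : 1 + (ε p : ℝ) * ((jacobiSym (l : ℤ) p : ℤ) : ℝ) = 0 := by
      rcases hε p hp with h | h <;> rcases hJ with h' | h' <;> rw [h, h'] at hne ⊢ <;>
        first | (exact absurd rfl hne) | norm_num
    rw [Finset.prod_eq_zero hp hz]
    ring
  · have h3 : l % 4 = 3 := by
      have := hl.eq_two_or_odd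
      omega
    have : ((ZMod.χ₄ (l : ZMod 4) : ℤ) : ℝ) = -1 := by
      rw [ZMod.χ₄_nat_three_mod_four h3]
      norm_num
    rw [this]
    ring

/-- B6 (many primes in prescribed residue classes). -/
theorem good_primes : ∃ C : ℝ, 0 < C ∧ ∀ (Q : Finset ℕ) (ε : ℕ → ℤ) (η δ : ℝ),
    (∀ p ∈ Q, p.Prime ∧ p ≠ 2 ∧ (ε p = 1 ∨ ε p = -1)) → 0 < η → η ≤ 1 → 0 < δ →
    (∀ (e : Bool) (I : Finset ℕ), I ⊆ Q → (e = true ∨ I.Nonempty) → δ ≤ Ls (chi e I) (1 + η)) →
    (1 / 2) ^ (Q.card + 1) * (1 / η - C) - C * Real.log (chiMod true Q) ^ 2 / δ - C - Q.card ≤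
      ∑' l : {l : ℕ // l.Prime ∧ l % 4 = 1 ∧ ∀ p ∈ Q, jacobiSym (l : ℤ) p = ε p},
        Real.log (l : ℕ) / ((l : ℕ) : ℝ) ^ (1 + η) := by
  obtain ⟨C1, hC1, hL⟩ := Ls_bounds
  obtain ⟨C2, hC2, hZ⟩ := zeta_bounds
  have hnp := ArithmeticFunction.vonMangoldt.summable_residueClass_non_primes_div (a := (1 : ZMod 1))
  have hres : ∀ n : ℕ, ArithmeticFunction.vonMangoldt.residueClass (1 : ZMod 1) n =
      ArithmeticFunction.vonMangoldt n := by
    intro n
    refine Set.indicator_of_mem ?_ _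
    show ((n : ZMod 1)) = 1
    exact Subsingleton.elim _ _
  simp only [hres] at hnp
  set C3 : ℝ := ∑' n : ℕ, (if n.Prime then 0 else ArithmeticFunction.vonMangoldt n) / (n : ℝ)
    with hC3
  have hC3nn : 0 ≤ C3 := tsum_nonneg fun n => by
    refine div_nonneg ?_ (Nat.cast_nonneg n)
    split_ifs
    · exact le_rfl
    · exact ArithmeticFunction.vonMangoldt_nonneg
  refine ⟨C1 + C2 + C3 + 1, by positivity, fun Q ε η δ hQ hη0 hη1 hδ hLs => ?_⟩
  set s : ℝ := 1 + η with hs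
  have hs1 : 1 < s := by linarith
  have hs2 : s ≤ 2 := by linarith
  set LQ : ℝ := Real.log (chiMod true Q) with hLQ
  -- the twisted sums
  set A : Bool → Finset ℕ → ℝ := fun e I =>
    ∑' n : ℕ, ArithmeticFunction.vonMangoldt n * chi e I n / (n : ℝ) ^ s with hA
  have hA0 : 1 / η - C2 ≤ A false ∅ := by
    have h := hZ s hs1 hs2
    have e1 : s - 1 = η := by rw [hs]; ring
    rw [e1] at h
    refine h.trans (le_of_eq ?_)
    simp only [hA]
    refine tsum_congr fun n => ?_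
    simp [chi]
  have hmod : ∀ (e : Bool) (I : Finset ℕ), I ⊆ Q → 0 ≤ Real.log (chiMod e I) ∧
      Real.log (chiMod e I) ≤ LQ := by
    intro e I hI
    have hpos : 1 ≤ chiMod e I := by
      unfold chiMod
      refine Nat.one_le_iff_ne_zero.mpr (Nat.mul_ne_zero ?_ ?_)
      · split_ifs <;> norm_num
      · exact Finset.prod_ne_zero_iff.mpr fun p hp => (hQ p (hI hp)).1.ne_zero
    have hle : chiMod e I ≤ chiMod true Q := by
      unfold chiMod
      refine Nat.mul_le_mul ?_ ?_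
      · cases e <;> simp
      · exact Finset.prod_le_prod_of_subset_of_one_le' hI fun p hp _ => (hQ p hp).1.one_le
    have hpos' : (0 : ℝ) < chiMod e I := by
      have : 0 < chiMod e I := hpos
      exact_mod_cast this
    refine ⟨Real.log_natCast_nonneg _, Real.log_le_log hpos' (by exact_mod_cast hle)⟩
  have hLQ0 : 0 ≤ LQ := (hmod true Q (Finset.Subset.refl Q)).1
  have hAb : ∀ (e : Bool) (I : Finset ℕ), I ⊆ Q → (e = true ∨ I.Nonempty) →
      |A e I| ≤ C1 * LQ ^ 2 / δ := by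
    intro e I hI hne
    have hRC := chi_realChar e I (fun p hp => ⟨(hQ p (hI hp)).1, (hQ p (hI hp)).2.1⟩) hne
    have h3 := (hL _ _ hRC).2.2 s hs1 hs2
    have h4 := hLs e I hI hne
    rw [le_div_iff₀ hδ]
    have h5 : |A e I| * δ ≤ |A e I| * Ls (chi e I) s := mul_le_mul_of_nonneg_left h4 (abs_nonneg _)
    have h6 : C1 * Real.log (chiMod e I) ^ 2 ≤ C1 * LQ ^ 2 := by
      have := hmod e I hI
      exact mul_le_mul_of_nonneg_left (pow_le_pow_left₀ this.1 this.2 2) hC1.le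
    exact h5.trans (h3.trans h6)
  have hBnn : 0 ≤ C1 * LQ ^ 2 / δ := by positivity
  -- the weighted sum
  have hsumchi : ∀ (e : Bool) (I : Finset ℕ), Summable (fun n : ℕ =>
      ArithmeticFunction.vonMangoldt n * chi e I n / (n : ℝ) ^ s) :=
    fun e I => gp_summable' s hs1 (chi e I) (gp_chi_abs e I)
  have hWexp : ∑' n : ℕ, ArithmeticFunction.vonMangoldt n * gpW Q ε n / (n : ℝ) ^ s =
      (1 / 2) ^ (Q.card + 1) * ∑ I ∈ Q.powerset, (∏ p ∈ I, (ε p : ℝ)) *
        (A false I + A true I) := by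
    have e1 : (fun n : ℕ => ArithmeticFunction.vonMangoldt n * gpW Q ε n / (n : ℝ) ^ s) =
        fun n : ℕ => (1 / 2) ^ (Q.card + 1) * ∑ I ∈ Q.powerset, (∏ p ∈ I, (ε p : ℝ)) *
          (ArithmeticFunction.vonMangoldt n * chi false I n / (n : ℝ) ^ s +
            ArithmeticFunction.vonMangoldt n * chi true I n / (n : ℝ) ^ s) := by
      funext n
      rw [gpW_expand, mul_comm (ArithmeticFunction.vonMangoldt n), mul_assoc, mul_div_assoc,
        Finset.sum_mul, Finset.sum_div]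
      congr 1
      refine Finset.sum_congr rfl fun I _ => ?_
      ring
    rw [e1, tsum_mul_left, Summable.tsum_finsetSum]
    · congr 1
      refine Finset.sum_congr rfl fun I _ => ?_
      rw [tsum_mul_left, (hsumchi false I).tsum_add (hsumchi true I)]
    · intro I _
      exact ((hsumchi false I).add (hsumchi true I)).mul_left _
  have hεabs : ∀ I ∈ Q.powerset, |∏ p ∈ I, (ε p : ℝ)| = 1 := by
    intro I hI
    rw [Finset.abs_prod]
    refine Finset.prod_eq_one fun p hp => ?_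
    rcases (hQ p (Finset.mem_powerset.mp hI hp)).2.2 with h | h <;> rw [h] <;> norm_num
  have hlow : 1 / η - C2 - 2 ^ (Q.card + 1) * (C1 * LQ ^ 2 / δ) ≤
      ∑ I ∈ Q.powerset, (∏ p ∈ I, (ε p : ℝ)) * (A false I + A true I) := by
    have h1 : ∑ I ∈ Q.powerset, (∏ p ∈ I, (ε p : ℝ)) * (A false I + A true I) =
        A false ∅ + ((∑ I ∈ Q.powerset.erase ∅, (∏ p ∈ I, (ε p : ℝ)) * A false I) +
          ∑ I ∈ Q.powerset, (∏ p ∈ I, (ε p : ℝ)) * A true I) := by
      have h2 : ∑ I ∈ Q.powerset, (∏ p ∈ I, (ε p : ℝ)) * A false I =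
          A false ∅ + ∑ I ∈ Q.powerset.erase ∅, (∏ p ∈ I, (ε p : ℝ)) * A false I := by
        rw [← Finset.add_sum_erase _ _ (Finset.empty_mem_powerset Q)]
        simp
      simp only [mul_add]
      rw [Finset.sum_add_distrib, h2]
      ring
    have h3 : |∑ I ∈ Q.powerset.erase ∅, (∏ p ∈ I, (ε p : ℝ)) * A false I| ≤
        2 ^ Q.card * (C1 * LQ ^ 2 / δ) := by
      refine (Finset.abs_sum_le_sum_abs _ _).trans ?_
      calc ∑ I ∈ Q.powerset.erase ∅, |(∏ p ∈ I, (ε p : ℝ)) * A false I| ≤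
          ∑ I ∈ Q.powerset.erase ∅, C1 * LQ ^ 2 / δ := by
            refine Finset.sum_le_sum fun I hI => ?_
            have hI' := Finset.mem_erase.mp hI
            rw [abs_mul, hεabs I hI'.2, one_mul]
            exact hAb false I (Finset.mem_powerset.mp hI'.2)
              (Or.inr (Finset.nonempty_iff_ne_empty.mpr hI'.1))
        _ ≤ ∑ I ∈ Q.powerset, C1 * LQ ^ 2 / δ :=
            Finset.sum_le_sum_of_subset_of_nonneg (Finset.erase_subset _ _) fun _ _ _ => hBnn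
        _ = 2 ^ Q.card * (C1 * LQ ^ 2 / δ) := by
            rw [Finset.sum_const, Finset.card_powerset, nsmul_eq_mul]
            push_cast
            ring
    have h4 : |∑ I ∈ Q.powerset, (∏ p ∈ I, (ε p : ℝ)) * A true I| ≤
        2 ^ Q.card * (C1 * LQ ^ 2 / δ) := by
      refine (Finset.abs_sum_le_sum_abs _ _).trans ?_
      calc ∑ I ∈ Q.powerset, |(∏ p ∈ I, (ε p : ℝ)) * A true I| ≤
          ∑ I ∈ Q.powerset, C1 * LQ ^ 2 / δ := by
            refine Finset.sum_le_sum fun I hI => ?_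
            rw [abs_mul, hεabs I hI, one_mul]
            exact hAb true I (Finset.mem_powerset.mp hI) (Or.inl rfl)
        _ = 2 ^ Q.card * (C1 * LQ ^ 2 / δ) := by
            rw [Finset.sum_const, Finset.card_powerset, nsmul_eq_mul]
            push_cast
            ring
    rw [h1]
    have h5 := (abs_le.mp h3).1
    have h6 := (abs_le.mp h4).1
    have h7 : (2 : ℝ) ^ (Q.card + 1) * (C1 * LQ ^ 2 / δ) =
        2 ^ Q.card * (C1 * LQ ^ 2 / δ) + 2 ^ Q.card * (C1 * LQ ^ 2 / δ) := by ring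
    linarith
  have hlow2 : (1 / 2) ^ (Q.card + 1) * (1 / η - C2) - C1 * LQ ^ 2 / δ ≤
      ∑' n : ℕ, ArithmeticFunction.vonMangoldt n * gpW Q ε n / (n : ℝ) ^ s := by
    rw [hWexp]
    have h8 := mul_le_mul_of_nonneg_left hlow (by positivity : (0 : ℝ) ≤ (1 / 2) ^ (Q.card + 1))
    refine le_trans (le_of_eq ?_) h8
    have h9 : ((1 : ℝ) / 2) ^ (Q.card + 1) * 2 ^ (Q.card + 1) = 1 := by
      rw [← mul_pow]
      norm_num
    calc (1 / 2) ^ (Q.card + 1) * (1 / η - C2) - C1 * LQ ^ 2 / δ =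
        (1 / 2) ^ (Q.card + 1) * (1 / η - C2) -
          ((1 / 2) ^ (Q.card + 1) * 2 ^ (Q.card + 1)) * (C1 * LQ ^ 2 / δ) := by rw [h9, one_mul]
      _ = _ := by ring
  -- upper bound
  set G : Set ℕ := {l : ℕ | l.Prime ∧ l % 4 = 1 ∧ ∀ p ∈ Q, jacobiSym (l : ℤ) p = ε p} with hG
  have hup1 : ∀ n : ℕ, ArithmeticFunction.vonMangoldt n * gpW Q ε n / (n : ℝ) ^ s ≤
      G.indicator (fun l : ℕ => Real.log l / (l : ℝ) ^ s) n +
      ((if n.Prime then 0 else ArithmeticFunction.vonMangoldt n) / (n : ℝ) +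
        (if n ∈ insert 2 Q then 1 else 0)) := by
    intro n
    have hW := gpW_bounds Q ε (fun p hp => (hQ p hp).2.2) n
    have hΛ : 0 ≤ ArithmeticFunction.vonMangoldt n := ArithmeticFunction.vonMangoldt_nonneg
    have hi1 : 0 ≤ G.indicator (fun l : ℕ => Real.log l / (l : ℝ) ^ s) n := by
      refine Set.indicator_nonneg (fun l _ => ?_) n
      exact div_nonneg (Real.log_natCast_nonneg l) (by positivity)
    have hi2 : 0 ≤ (if n.Prime then 0 else ArithmeticFunction.vonMangoldt n) / (n : ℝ) := by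
      refine div_nonneg ?_ (Nat.cast_nonneg n)
      split_ifs
      · exact le_rfl
      · exact hΛ
    have hi3 : (0 : ℝ) ≤ (if n ∈ insert 2 Q then 1 else 0) := by split_ifs <;> norm_num
    have hbase : ArithmeticFunction.vonMangoldt n * gpW Q ε n / (n : ℝ) ^ s ≤
        ArithmeticFunction.vonMangoldt n / (n : ℝ) ^ s := by
      refine div_le_div_of_nonneg_right ?_ (by positivity)
      exact mul_le_of_le_one_right hΛ hW.2
    by_cases hp : n.Prime
    · have hn1 : (1 : ℝ) ≤ n := by exact_mod_cast hp.one_le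
      have hn0 : (0 : ℝ) < n := by linarith
      by_cases hS : n ∈ insert 2 Q
      · have h10 : ArithmeticFunction.vonMangoldt n / (n : ℝ) ^ s ≤ 1 := by
          rw [ArithmeticFunction.vonMangoldt_apply_prime hp, div_le_one (by positivity)]
          have h11 : (n : ℝ) ≤ (n : ℝ) ^ s := by
            calc (n : ℝ) = (n : ℝ) ^ (1 : ℝ) := (Real.rpow_one _).symm
              _ ≤ (n : ℝ) ^ s := Real.rpow_le_rpow_of_exponent_le hn1 hs1.le
          have h12 := Real.log_le_sub_one_of_pos hn0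
          linarith
        rw [if_pos hS] at hi3 ⊢
        linarith
      · have hn2 : n ≠ 2 := fun h => hS (by rw [h]; exact Finset.mem_insert_self _ _)
        have hnQ : n ∉ Q := fun h => hS (Finset.mem_insert_of_mem h)
        by_cases hg : n % 4 = 1 ∧ ∀ p ∈ Q, jacobiSym (n : ℤ) p = ε p
        · have hmem : n ∈ G := ⟨hp, hg⟩
          rw [Set.indicator_of_mem hmem]
          rw [ArithmeticFunction.vonMangoldt_apply_prime hp] at hbase hi2 ⊢
          linarith
        · rw [gpW_prime Q ε (fun p hp => ⟨(hQ p hp).1, (hQ p hp).2.1⟩)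
            (fun p hp => (hQ p hp).2.2) n hp hn2 hnQ hg, mul_zero, zero_div]
          linarith
    · have h13 : ArithmeticFunction.vonMangoldt n / (n : ℝ) ^ s ≤
          ArithmeticFunction.vonMangoldt n / (n : ℝ) := by
        rcases Nat.eq_zero_or_pos n with rfl | hn0
        · simp
        · have hn1 : (1 : ℝ) ≤ n := by exact_mod_cast hn0
          refine div_le_div_of_nonneg_left hΛ (by linarith) ?_
          calc (n : ℝ) = (n : ℝ) ^ (1 : ℝ) := (Real.rpow_one _).symm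
            _ ≤ (n : ℝ) ^ s := Real.rpow_le_rpow_of_exponent_le hn1 hs1.le
      rw [if_neg hp] at hi2 ⊢
      linarith
  have hsG : Summable (G.indicator (fun l : ℕ => Real.log l / (l : ℝ) ^ s)) := by
    refine Summable.of_nonneg_of_le (fun n => ?_) (fun n => ?_) (gp_summable s hs1)
    · refine Set.indicator_nonneg (fun l _ => ?_) n
      exact div_nonneg (Real.log_natCast_nonneg l) (by positivity)
    · by_cases hmem : n ∈ G
      · rw [Set.indicator_of_mem hmem, ArithmeticFunction.vonMangoldt_apply_prime hmem.1]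
      · rw [Set.indicator_of_notMem hmem]
        exact div_nonneg ArithmeticFunction.vonMangoldt_nonneg (by positivity)
  have hs3 : Summable (fun n : ℕ => if n ∈ insert 2 Q then (1 : ℝ) else 0) := by
    refine summable_of_ne_finset_zero (s := insert 2 Q) fun n hn => ?_
    rw [if_neg hn]
  have ht3 : ∑' n : ℕ, (if n ∈ insert 2 Q then (1 : ℝ) else 0) ≤ Q.card + 1 := by
    rw [tsum_eq_sum (s := insert 2 Q) (fun n hn => by rw [if_neg hn])]
    rw [Finset.sum_ite_mem, Finset.inter_self, Finset.sum_const, nsmul_eq_mul, mul_one]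
    exact_mod_cast Finset.card_insert_le 2 Q
  have hup2 : ∑' n : ℕ, ArithmeticFunction.vonMangoldt n * gpW Q ε n / (n : ℝ) ^ s ≤
      (∑' n : ℕ, G.indicator (fun l : ℕ => Real.log l / (l : ℝ) ^ s) n) + (C3 + (Q.card + 1)) := by
    have hsW : Summable (fun n : ℕ =>
        ArithmeticFunction.vonMangoldt n * gpW Q ε n / (n : ℝ) ^ s) := by
      refine gp_summable' s hs1 (gpW Q ε) fun n => ?_
      have hW := gpW_bounds Q ε (fun p hp => (hQ p hp).2.2) n
      rw [abs_of_nonneg hW.1]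
      exact hW.2
    refine (hsW.tsum_le_tsum hup1 (hsG.add (hnp.add hs3))).trans ?_
    rw [hsG.tsum_add (hnp.add hs3), hnp.tsum_add hs3]
    linarith
  have hsub : ∑' l : {l : ℕ // l.Prime ∧ l % 4 = 1 ∧ ∀ p ∈ Q, jacobiSym (l : ℤ) p = ε p},
      Real.log (l : ℕ) / ((l : ℕ) : ℝ) ^ s =
      ∑' n : ℕ, G.indicator (fun l : ℕ => Real.log l / (l : ℝ) ^ s) n :=
    tsum_subtype G (fun l : ℕ => Real.log l / (l : ℝ) ^ s)
  rw [hsub]
  have hfin := hlow2.trans hup2
  have h14 : (1 / 2 : ℝ) ^ (Q.card + 1) * (1 / η - (C1 + C2 + C3 + 1)) ≤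
      (1 / 2) ^ (Q.card + 1) * (1 / η - C2) :=
    mul_le_mul_of_nonneg_left (by linarith) (by positivity)
  have h15 : C1 * LQ ^ 2 / δ ≤ (C1 + C2 + C3 + 1) * LQ ^ 2 / δ := by
    refine div_le_div_of_nonneg_right ?_ hδ.le
    exact mul_le_mul_of_nonneg_right (by linarith) (by positivity)
  linarith

end SSP
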