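import Pool.Agent.SSP.Defs
import Pool.Agent.SSP.CoverFew
import Pool.Agent.SSP.GoodPrimes
import Pool.Agent.SSP.ExistsEta

set_option autoImplicit false

namespace SSP

open Filter

namespace CovAux

/-- rank summation -/
theorem rank_sum (F : Finset ℕ) (K : ℝ) (g : ℕ → ℝ) (hK : 0 ≤ K)
    (h : ∀ a ∈ F, (((F.filter (· ≤ a)).card : ℕ) : ℝ) ^ 2 * g a ≤ K) :
    ∑ a ∈ F, g a ≤ 2 * K := by
  have hr : ∀ a ∈ F, 1 ≤ (F.filter (· ≤ a)).card := fun a ha =>
    Finset.card_pos.2 ⟨a, by simp [ha]⟩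
  have h1 : ∑ a ∈ F, g a ≤ ∑ a ∈ F, K * ((((F.filter (· ≤ a)).card : ℕ) : ℝ) ^ 2)⁻¹ := by
    refine Finset.sum_le_sum fun a ha => ?_
    have hpos : (0 : ℝ) < (((F.filter (· ≤ a)).card : ℕ) : ℝ) ^ 2 := by
      have := hr a ha
      positivity
    rw [← div_eq_mul_inv, le_div_iff₀ hpos]
    linarith [h a ha]
  have hinj : Set.InjOn (fun a => (F.filter (· ≤ a)).card) F := by
    have key : ∀ a ∈ F, ∀ b ∈ F, a < b → (F.filter (· ≤ a)).card < (F.filter (· ≤ b)).card := by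
      intro a ha b hb hab
      apply Finset.card_lt_card
      refine ⟨fun x hx => ?_, fun hsub => ?_⟩
      · simp only [Finset.mem_filter] at hx ⊢
        exact ⟨hx.1, by omega⟩
      · have := hsub (by simp [hb] : b ∈ F.filter (· ≤ b))
        simp only [Finset.mem_filter] at this
        omega
    intro a ha b hb hab
    rcases lt_trichotomy a b with hlt | heq | hgt
    · exact absurd hab (key a ha b hb hlt).ne
    · exact heq
    · exact absurd hab (key b hb a ha hgt).ne'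
  have h2 : ∑ a ∈ F, K * ((((F.filter (· ≤ a)).card : ℕ) : ℝ) ^ 2)⁻¹ =
      ∑ j ∈ F.image (fun a => (F.filter (· ≤ a)).card), K * (((j : ℕ) : ℝ) ^ 2)⁻¹ :=
    (Finset.sum_image (f := fun j : ℕ => K * ((j : ℝ) ^ 2)⁻¹) hinj).symm
  have h3 : F.image (fun a => (F.filter (· ≤ a)).card) ⊆ Finset.Ioo 0 (F.card + 1) := by
    intro j hj
    obtain ⟨a, ha, rfl⟩ := Finset.mem_image.1 hj
    have e1 := hr a ha
    have e2 := Finset.card_filter_le F (· ≤ a)
    rw [Finset.mem_Ioo]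
    omega
  have h4 := sum_Ioo_inv_sq_le (α := ℝ) 0 (F.card + 1)
  calc ∑ a ∈ F, g a ≤ _ := h1
    _ = _ := h2
    _ ≤ ∑ j ∈ Finset.Ioo 0 (F.card + 1), K * (((j : ℕ) : ℝ) ^ 2)⁻¹ :=
        Finset.sum_le_sum_of_subset_of_nonneg h3 (fun _ _ _ => by positivity)
    _ = K * ∑ j ∈ Finset.Ioo 0 (F.card + 1), (((j : ℕ) : ℝ) ^ 2)⁻¹ := by rw [Finset.mul_sum]
    _ ≤ K * 2 := by
        apply mul_le_mul_of_nonneg_left _ hK
        refine h4.trans ?_
        norm_num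
    _ = 2 * K := by ring

/-- the counting function -/
noncomputable def cnt (Pset : Set ℕ) (x : ℝ) : ℕ := Nat.card {p : ℕ // p ∈ Pset ∧ (p : ℝ) ≤ x}

theorem cnt_fin (Pset : Set ℕ) (x : ℝ) : {p : ℕ | p ∈ Pset ∧ (p : ℝ) ≤ x}.Finite := by
  apply (Set.finite_Iic ⌊x⌋₊).subset
  intro p hp
  exact Nat.le_floor hp.2

theorem card_le_cnt (Pset : Set ℕ) (x : ℝ) (F : Finset ℕ)
    (hF : ∀ p ∈ F, p ∈ Pset ∧ (p : ℝ) ≤ x) : F.card ≤ cnt Pset x := by
  have h1 : (F : Set ℕ) ⊆ {p : ℕ | p ∈ Pset ∧ (p : ℝ) ≤ x} := fun p hp => hF p hp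
  have h2 := Set.ncard_le_ncard h1 (cnt_fin Pset x)
  rw [Set.ncard_coe_finset] at h2
  exact h2

theorem cnt_mono (Pset : Set ℕ) {x y : ℝ} (h : x ≤ y) : cnt Pset x ≤ cnt Pset y := by
  have h1 : {p : ℕ | p ∈ Pset ∧ (p : ℝ) ≤ x} ⊆ {p : ℕ | p ∈ Pset ∧ (p : ℝ) ≤ y} :=
    fun p hp => ⟨hp.1, hp.2.trans h⟩
  exact Set.ncard_le_ncard h1 (cnt_fin Pset y)

/-- asymptotics -/
theorem asym (C1 C2 M : ℝ) (h2 : 0 < C2) (hM : 0 ≤ M) : ∃ x0 : ℝ, 1 ≤ x0 ∧ ∀ x : ℝ, x0 ≤ x →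
    1 ≤ Real.log x ∧ C1 * Real.log (8 * Real.log x) ≤ 1 / 3 * Real.log x ∧ C2 ≤ x / 2 ∧
    C2 * (2 + 8 * (1 / 3 * Real.log x) * Real.log x) ^ 2 * x ^ ((1 : ℝ) / 3) + C2
      + 1 / 3 * Real.log x + M < x ^ ((2 : ℝ) / 3) / 4 := by
  have e1 : ∀ᶠ x : ℝ in atTop, 1 ≤ Real.log x := Real.tendsto_log_atTop.eventually_ge_atTop 1
  have hc : (0 : ℝ) < 1 / (24 * (|C1| + 1)) := by positivity
  have t1 : Tendsto (fun x : ℝ => 8 * Real.log x) atTop atTop :=
    Real.tendsto_log_atTop.const_mul_atTop (by norm_num)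
  have e2 := t1.eventually (Real.isLittleO_log_id_atTop.def hc)
  have e3 : ∀ᶠ x : ℝ in atTop, 2 * C2 ≤ x := eventually_ge_atTop _
  have e4 := (isLittleO_log_rpow_atTop (r := 1 / 24) (by norm_num)).def one_pos
  have t2 : Tendsto (fun x : ℝ => x ^ ((1 : ℝ) / 6)) atTop atTop := tendsto_rpow_atTop (by norm_num)
  have e5 := t2.eventually_gt_atTop (4 * (25 * C2 + C2 + 1 + M))
  have e6 : ∀ᶠ x : ℝ in atTop, 1 ≤ x := eventually_ge_atTop _
  obtain ⟨x0, hx0⟩ := eventually_atTop.1 (e1.and (e2.and (e3.and (e4.and (e5.and e6)))))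
  refine ⟨max x0 1, le_max_right _ _, fun x hx => ?_⟩
  obtain ⟨f1, f2, f3, f4, f5, f6⟩ := hx0 x ((le_max_left _ _).trans hx)
  have hx0' : 0 < x := by linarith
  refine ⟨f1, ?_, by linarith, ?_⟩
  · simp only [id, Real.norm_eq_abs] at f2
    have g1 : |8 * Real.log x| = 8 * Real.log x := abs_of_nonneg (by linarith)
    rw [g1] at f2
    have g2 : C1 * Real.log (8 * Real.log x) ≤ |C1| * |Real.log (8 * Real.log x)| := by
      rw [← abs_mul]; exact le_abs_self _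
    have g3 : |C1| * |Real.log (8 * Real.log x)| ≤ |C1| * (1 / (24 * (|C1| + 1)) * (8 * Real.log x)) :=
      mul_le_mul_of_nonneg_left f2 (abs_nonneg _)
    have g4 : |C1| * (1 / (24 * (|C1| + 1)) * (8 * Real.log x)) =
        1 / 3 * Real.log x * (|C1| / (|C1| + 1)) := by
      have : |C1| + 1 ≠ 0 := by positivity
      field_simp
      ring
    have g5 : |C1| / (|C1| + 1) ≤ 1 := by
      rw [div_le_one (by positivity)]; linarith
    have g6 : 1 / 3 * Real.log x * (|C1| / (|C1| + 1)) ≤ 1 / 3 * Real.log x * 1 :=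
      mul_le_mul_of_nonneg_left g5 (by linarith)
    linarith
  · have g0 : Real.log x ≤ x ^ ((1 : ℝ) / 24) := by
      have := f4
      simp only [Real.norm_eq_abs, one_mul] at this
      rw [abs_of_nonneg (by linarith), abs_of_nonneg (by positivity)] at this
      exact this
    have g1 : (2 + 8 * (1 / 3 * Real.log x) * Real.log x) ≤ 5 * Real.log x ^ 2 := by nlinarith
    have g2 : (2 + 8 * (1 / 3 * Real.log x) * Real.log x) ^ 2 ≤ 25 * Real.log x ^ 4 := by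
      have : (2 + 8 * (1 / 3 * Real.log x) * Real.log x) ^ 2 ≤ (5 * Real.log x ^ 2) ^ 2 := by
        apply pow_le_pow_left₀ _ g1
        nlinarith
      nlinarith
    have g3 : Real.log x ^ 4 ≤ x ^ ((1 : ℝ) / 6) := by
      have : Real.log x ^ 4 ≤ (x ^ ((1 : ℝ) / 24)) ^ 4 := pow_le_pow_left₀ (by linarith) g0 4
      rw [← Real.rpow_natCast (x ^ ((1 : ℝ) / 24)), ← Real.rpow_mul hx0'.le] at this
      norm_num at this ⊢
      exact this
    set u := x ^ ((1 : ℝ) / 6) with hu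
    have hu1 : 1 ≤ u := Real.one_le_rpow f6 (by norm_num)
    have hu2 : x ^ ((1 : ℝ) / 3) = u ^ 2 := by
      rw [hu, ← Real.rpow_natCast, ← Real.rpow_mul hx0'.le]; norm_num
    have hu3 : x ^ ((2 : ℝ) / 3) = u ^ 4 := by
      rw [hu, ← Real.rpow_natCast, ← Real.rpow_mul hx0'.le]; norm_num
    have g4 : Real.log x ≤ u := by
      refine g0.trans (Real.rpow_le_rpow_of_exponent_le f6 (by norm_num))
    rw [hu2, hu3]
    have g5 : C2 * (2 + 8 * (1 / 3 * Real.log x) * Real.log x) ^ 2 * u ^ 2 ≤ C2 * (25 * u) * u ^ 2 := by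
      have : (2 + 8 * (1 / 3 * Real.log x) * Real.log x) ^ 2 ≤ 25 * u := by linarith
      gcongr
    have g6 : C2 ≤ C2 * u ^ 3 := by
      have : 1 ≤ u ^ 3 := one_le_pow₀ hu1
      nlinarith
    have g7 : 1 / 3 * Real.log x ≤ u ^ 3 := by
      have : u ≤ u ^ 3 := by nlinarith [sq_nonneg (u-1), mul_self_nonneg u]
      linarith
    have g8 : M ≤ M * u ^ 3 := by
      have : 1 ≤ u ^ 3 := one_le_pow₀ hu1
      nlinarith
    have g9 : (25 * C2 + C2 + 1 + M) * u ^ 3 < u / 4 * u ^ 3 := by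
      have : 0 < u ^ 3 := by positivity
      apply mul_lt_mul_of_pos_right _ this
      linarith
    nlinarith


/-- sum over the primes of a thin set -/
theorem thin_primes (Pset : Set ℕ) (h1 : ∀ p ∈ Pset, 2 ≤ p) (N0 C1 : ℝ) (hN0 : 0 ≤ N0) (hC1 : 0 ≤ C1)
    (hcb : ∀ y : ℝ, 1 ≤ y → (cnt Pset (Real.exp y) : ℝ) ≤ N0 + C1 * Real.log y)
    (F : Finset ℕ) (hF : ∀ p ∈ F, p ∈ Pset) :
    ∑ p ∈ F, (p : ℝ) ^ (-(1 / 4) : ℝ) ≤ 2 * (N0 + 8 * C1) ^ 2 := by
  apply rank_sum F _ _ (by positivity)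
  intro p hp
  have hp2 : (2 : ℝ) ≤ p := by exact_mod_cast h1 p (hF p hp)
  have hp0 : (0 : ℝ) < p := by linarith
  have hlog : 0 ≤ Real.log p := Real.log_nonneg (by linarith)
  have e1 : (((F.filter (· ≤ p)).card : ℕ) : ℝ) ≤ cnt Pset (Real.exp (1 + Real.log p)) := by
    have : (F.filter (· ≤ p)).card ≤ cnt Pset (Real.exp (1 + Real.log p)) := by
      apply card_le_cnt
      intro q hq
      rw [Finset.mem_filter] at hq
      refine ⟨hF q hq.1, ?_⟩
      have hqp : (q : ℝ) ≤ p := by exact_mod_cast hq.2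
      refine hqp.trans ?_
      calc (p : ℝ) = Real.exp (Real.log p) := (Real.exp_log hp0).symm
        _ ≤ _ := Real.exp_le_exp.2 (by linarith)
    exact_mod_cast this
  have e2 := hcb (1 + Real.log p) (by linarith)
  have e3 : Real.log (1 + Real.log p) ≤ Real.log p := by
    have := Real.log_le_sub_one_of_pos (show 0 < 1 + Real.log p by linarith)
    linarith
  have e4 : Real.log p ≤ (p : ℝ) ^ ((1 : ℝ) / 8) / (1 / 8) := Real.log_le_rpow_div hp0.le (by norm_num)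
  have e5 : (1 : ℝ) ≤ (p : ℝ) ^ ((1 : ℝ) / 8) := Real.one_le_rpow (by linarith) (by norm_num)
  set v := (p : ℝ) ^ ((1 : ℝ) / 8) with hv
  have e6 : (((F.filter (· ≤ p)).card : ℕ) : ℝ) ≤ (N0 + 8 * C1) * v := by
    have g1 : C1 * Real.log (1 + Real.log p) ≤ C1 * (8 * v) := by
      apply mul_le_mul_of_nonneg_left _ hC1
      have : v / (1 / 8) = 8 * v := by ring
      linarith
    have g2 : N0 ≤ N0 * v := by nlinarith
    nlinarith
  have e7 : (((F.filter (· ≤ p)).card : ℕ) : ℝ) ^ 2 ≤ ((N0 + 8 * C1) * v) ^ 2 :=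
    pow_le_pow_left₀ (by positivity) e6 2
  have e8 : v ^ 2 = (p : ℝ) ^ ((1 / 4) : ℝ) := by
    rw [hv, ← Real.rpow_natCast, ← Real.rpow_mul hp0.le]; norm_num
  have e9 : (p : ℝ) ^ ((1 / 4) : ℝ) * (p : ℝ) ^ (-(1 / 4) : ℝ) = 1 := by
    rw [← Real.rpow_add hp0]; norm_num
  calc (((F.filter (· ≤ p)).card : ℕ) : ℝ) ^ 2 * (p : ℝ) ^ (-(1 / 4) : ℝ)
      ≤ ((N0 + 8 * C1) * v) ^ 2 * (p : ℝ) ^ (-(1 / 4) : ℝ) :=
        mul_le_mul_of_nonneg_right e7 (by positivity)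
    _ = (N0 + 8 * C1) ^ 2 * ((p : ℝ) ^ ((1 / 4) : ℝ) * (p : ℝ) ^ (-(1 / 4) : ℝ)) := by
        rw [mul_pow, e8]; ring
    _ = (N0 + 8 * C1) ^ 2 := by rw [e9, mul_one]

/-- sum over the minimal elements -/
theorem thin_min (Pset : Set ℕ) (N0 C1 D : ℝ) (hN0 : 0 ≤ N0) (hC1 : 0 ≤ C1) (hD : 1 ≤ D)
    (hcb : ∀ y : ℝ, 1 ≤ y → (cnt Pset (Real.exp y) : ℝ) ≤ N0 + C1 * Real.log y)
    (A : Finset ℕ) (pc : ℕ → ℕ) (hA : ∀ a ∈ A, 1 ≤ a ∧ pc a ∈ Pset ∧
      (pc a : ℝ) ≤ Real.exp (D * (a : ℝ) ^ 3)) (hinj : Set.InjOn pc A) :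
    ∑ a ∈ A, Real.log a / a ≤ 2 * ((N0 + C1 * Real.log D + 24 * C1) ^ 2 * 4) := by
  have hlD : 0 ≤ Real.log D := Real.log_nonneg hD
  apply rank_sum A _ _ (by positivity)
  intro a ha
  have ha1 : (1 : ℝ) ≤ a := by exact_mod_cast (hA a ha).1
  have ha0 : (0 : ℝ) < a := by linarith
  have e1 : (((A.filter (· ≤ a)).card : ℕ) : ℝ) ≤ cnt Pset (Real.exp (D * (a : ℝ) ^ 3)) := by
    have : (A.filter (· ≤ a)).card ≤ cnt Pset (Real.exp (D * (a : ℝ) ^ 3)) := by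
      rw [← Finset.card_image_of_injOn (f := pc) (hinj.mono (fun x hx => by
        simp only [Finset.coe_filter, Set.mem_ofPred_eq] at hx; exact hx.1))]
      apply card_le_cnt
      intro q hq
      obtain ⟨b, hb, rfl⟩ := Finset.mem_image.1 hq
      rw [Finset.mem_filter] at hb
      obtain ⟨_, c1, c2⟩ := hA b hb.1
      refine ⟨c1, c2.trans (Real.exp_le_exp.2 ?_)⟩
      have : (b : ℝ) ≤ a := by exact_mod_cast hb.2
      gcongr
    exact_mod_cast this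
  have e2 := hcb (D * (a : ℝ) ^ 3) (by
    have : (1 : ℝ) ≤ (a : ℝ) ^ 3 := one_le_pow₀ ha1
    nlinarith)
  have e3 : Real.log (D * (a : ℝ) ^ 3) = Real.log D + 3 * Real.log a := by
    rw [Real.log_mul (by linarith) (by positivity), Real.log_pow]; norm_num
  have e4 : Real.log a ≤ (a : ℝ) ^ ((1 : ℝ) / 8) / (1 / 8) := Real.log_le_rpow_div ha0.le (by norm_num)
  have e4' : Real.log a ≤ (a : ℝ) ^ ((1 : ℝ) / 4) / (1 / 4) := Real.log_le_rpow_div ha0.le (by norm_num)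
  have e5 : (1 : ℝ) ≤ (a : ℝ) ^ ((1 : ℝ) / 8) := Real.one_le_rpow (by linarith) (by norm_num)
  set v := (a : ℝ) ^ ((1 : ℝ) / 8) with hv
  have hlog0 : 0 ≤ Real.log a := Real.log_nonneg ha1
  have e6 : (((A.filter (· ≤ a)).card : ℕ) : ℝ) ≤ (N0 + C1 * Real.log D + 24 * C1) * v := by
    rw [e3] at e2
    have g1 : C1 * (Real.log D + 3 * Real.log a) ≤ C1 * Real.log D * v + C1 * (24 * v) := by
      have : v / (1 / 8) = 8 * v := by ring
      have g3 : C1 * (3 * Real.log a) ≤ C1 * (24 * v) :=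
        mul_le_mul_of_nonneg_left (by linarith) hC1
      have g4 : C1 * Real.log D ≤ C1 * Real.log D * v := by
        have : 0 ≤ C1 * Real.log D := by positivity
        nlinarith
      linarith
    have g2 : N0 ≤ N0 * v := by nlinarith
    nlinarith
  have e7 : (((A.filter (· ≤ a)).card : ℕ) : ℝ) ^ 2 ≤ ((N0 + C1 * Real.log D + 24 * C1) * v) ^ 2 :=
    pow_le_pow_left₀ (by positivity) e6 2
  have e8 : v ^ 2 = (a : ℝ) ^ ((1 / 4) : ℝ) := by
    rw [hv, ← Real.rpow_natCast, ← Real.rpow_mul ha0.le]; norm_num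
  have e9 : (a : ℝ) ^ ((1 / 4) : ℝ) * (a : ℝ) ^ ((1 / 4) : ℝ) ≤ a := by
    rw [← Real.rpow_add ha0]
    calc (a : ℝ) ^ ((1 / 4 + 1 / 4) : ℝ) ≤ (a : ℝ) ^ (1 : ℝ) :=
          Real.rpow_le_rpow_of_exponent_le ha1 (by norm_num)
      _ = a := Real.rpow_one _
  set w := (a : ℝ) ^ ((1 / 4) : ℝ) with hw
  have hw0 : 0 ≤ w := by positivity
  have hlw : Real.log a ≤ 4 * w := by
    have : w / (1 / 4) = 4 * w := by ring
    linarith
  rw [← mul_div_assoc, div_le_iff₀ ha0]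
  set K := (N0 + C1 * Real.log D + 24 * C1) with hK
  calc (((A.filter (· ≤ a)).card : ℕ) : ℝ) ^ 2 * Real.log a
      ≤ (K * v) ^ 2 * (4 * w) := by gcongr
    _ = K ^ 2 * 4 * (w * w) := by rw [mul_pow, e8]; ring
    _ ≤ K ^ 2 * 4 * a := by
        apply mul_le_mul_of_nonneg_left e9 (by positivity)

theorem w_le_one (l : ℕ) (hl : 1 ≤ l) (η : ℝ) (hη : 0 < η) :
    Real.log l / (l : ℝ) ^ (1 + η) ≤ Real.log l / l := by
  have h1 : (1 : ℝ) ≤ l := by exact_mod_cast hl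
  apply div_le_div_of_nonneg_left (Real.log_nonneg h1) (by linarith)
  calc (l : ℝ) = (l : ℝ) ^ (1 : ℝ) := (Real.rpow_one _).symm
    _ ≤ _ := Real.rpow_le_rpow_of_exponent_le h1 (by linarith)

theorem w_le_one' (l : ℕ) (hl : 1 ≤ l) : Real.log l / l ≤ 1 := by
  have h1 : (1 : ℝ) ≤ l := by exact_mod_cast hl
  rw [div_le_one (by linarith)]
  have := Real.log_le_sub_one_of_pos (show (0 : ℝ) < l by linarith)
  linarith

end CovAux

open CovAux in
/-- upper bound for the weight of the primes which are not covered by the small `p` -/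
theorem covering_upper (Pset : Set ℕ) (Cv : ℕ → ℕ → Prop)
    (h1 : ∀ p ∈ Pset, p.Prime ∧ p % 4 = 3)
    (C : ℝ) (hC : 1 ≤ C) (l0 : ℕ)
    (h2 : ∀ l : ℕ, l.Prime → l % 4 = 1 → l0 ≤ l →
      ∃ p ∈ Pset, (p : ℝ) ≤ Real.exp (C * (l : ℝ) ^ 3) ∧ Cv p l)
    (h3 : ∀ p ∈ Pset, ∀ l1 l2 : ℕ, l1.Prime → l2.Prime → l1 % 4 = 1 → l2 % 4 = 1 →
      Cv p l1 → Cv p l2 → ∃ t n : ℤ, 4 * (l1 : ℤ) * l2 = t ^ 2 + p * n ^ 2)
    (N0 C1 : ℝ) (hN0 : 0 ≤ N0) (hC1 : 0 ≤ C1)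
    (hcb : ∀ y : ℝ, 1 ≤ y → (cnt Pset (Real.exp y) : ℝ) ≤ N0 + C1 * Real.log y)
    (C3 : ℝ) (hC3 : 0 < C3)
    (hfew : ∀ (p : ℕ) (T : Set ℕ) (a : ℕ), p.Prime → (∀ l ∈ T, l.Prime) →
      a ∈ T → (∀ l ∈ T, a ≤ l) →
      (∀ l ∈ T, l ≠ a → ∃ t n : ℤ, 4 * (a : ℤ) * l = t ^ 2 + p * n ^ 2) →
      ∀ η : ℝ, 0 < η → η ≤ 1 →
        (∀ F : Finset ℕ, (∀ l ∈ F, l ∈ T ∧ l ≠ a) →
          ∑ l ∈ F, Real.log l / (l : ℝ) ^ (1 + η) ≤ C3 / (η ^ 2 * Real.sqrt p)))
    (η : ℝ) (hη : 0 < η) (hη1 : η ≤ 1) :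
    ∃ ε : ℕ → ℤ, (∀ p ∈ Pset, ε p = 1 ∨ ε p = -1) ∧
      ∀ Q : Finset ℕ, (∀ p ∈ Pset, (p : ℝ) ≤ (1 / η) ^ 8 → p ∈ Q) → (∀ p ∈ Q, p ∈ Pset) →
        ∑' l : {l : ℕ // l.Prime ∧ l % 4 = 1 ∧ ∀ p ∈ Q, jacobiSym (l : ℤ) p = ε p},
          Real.log (l : ℕ) / ((l : ℕ) : ℝ) ^ (1 + η) ≤
        l0 + C3 * (2 * (N0 + 8 * C1) ^ 2) + 2 * ((N0 + C1 * Real.log C + 24 * C1) ^ 2 * 4) := by
  classical
  set T : ℕ → Set ℕ := fun p => {l | l.Prime ∧ l % 4 = 1 ∧ l0 ≤ l ∧ Cv p l ∧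
    (p : ℝ) ≤ Real.exp (C * (l : ℝ) ^ 3)} with hT
  set a : ℕ → ℕ := fun p => sInf (T p) with ha
  have ha1 : ∀ p, (T p).Nonempty → a p ∈ T p := fun p h => Nat.sInf_mem h
  have ha2 : ∀ p, ∀ l ∈ T p, a p ≤ l := fun p l h => Nat.sInf_le h
  -- jacobi symbols of primes 1 mod 4
  have hj : ∀ p ∈ Pset, ∀ l : ℕ, l.Prime → l % 4 = 1 → Int.gcd (l : ℤ) p = 1 := by
    intro p hp l hl hl4
    obtain ⟨hpp, hp4⟩ := h1 p hp
    have hne : l ≠ p := by rintro rfl; omega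
    rw [Int.gcd_natCast_natCast]
    exact (Nat.coprime_primes hl hpp).2 hne
  refine ⟨fun p => if (T p).Nonempty then - jacobiSym (a p : ℤ) p else 1, ?_, ?_⟩
  · intro p hp
    by_cases h : (T p).Nonempty
    · simp only [h, if_true]
      have := ha1 p h
      rcases jacobiSym.eq_one_or_neg_one (hj p hp (a p) this.1 this.2.1) with h' | h'
      · right; rw [h']
      · left; rw [h']; norm_num
    · simp [h]
  intro Q hQ1 hQ2
  have hsum : ∀ F : Finset ℕ, (∀ l ∈ F, l.Prime ∧ l % 4 = 1 ∧ ∀ p ∈ Q, jacobiSym (l : ℤ) p =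
      (if (T p).Nonempty then - jacobiSym (a p : ℤ) p else 1)) →
      ∑ l ∈ F, Real.log l / (l : ℝ) ^ (1 + η) ≤
        l0 + C3 * (2 * (N0 + 8 * C1) ^ 2) + 2 * ((N0 + C1 * Real.log C + 24 * C1) ^ 2 * 4) := by
    intro F hF
    have hex : ∀ l : ℕ, ∃ p : ℕ, (l.Prime → l % 4 = 1 → l0 ≤ l →
      p ∈ Pset ∧ (p : ℝ) ≤ Real.exp (C * (l : ℝ) ^ 3) ∧ Cv p l) := by
      intro l
      by_cases h : l.Prime ∧ l % 4 = 1 ∧ l0 ≤ l
      · obtain ⟨p, hp, hp'⟩ := h2 l h.1 h.2.1 h.2.2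
        exact ⟨p, fun _ _ _ => ⟨hp, hp'⟩⟩
      · exact ⟨0, fun g1 g2 g3 => absurd ⟨g1, g2, g3⟩ h⟩
    choose pc hpc using hex
    have hpos : ∀ l ∈ F, 1 ≤ l := fun l hl => (hF l hl).1.one_lt.le
    -- covered only by large p
    have hlarge : ∀ l ∈ F, l0 ≤ l → (1 / η) ^ 8 < (pc l : ℝ) := by
      intro l hl hl0
      obtain ⟨hlp, hl4, hlQ⟩ := hF l hl
      obtain ⟨g1, g2, g3⟩ := hpc l hlp hl4 hl0
      by_contra hcon
      have hq := hQ1 (pc l) g1 (not_lt.1 hcon)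
      have hne : (T (pc l)).Nonempty := ⟨l, hlp, hl4, hl0, g3, g2⟩
      have e1 := hlQ (pc l) hq
      simp only [hne, if_true] at e1
      have hap := ha1 _ hne
      obtain ⟨t, n, htn⟩ := h3 (pc l) g1 (a (pc l)) l hap.1 hlp hap.2.1 hl4 hap.2.2.2.1 g3
      obtain ⟨hpp, hp4⟩ := h1 _ g1
      haveI : Fact (pc l).Prime := ⟨hpp⟩
      -- jacobi of the product
      have e2 : jacobiSym (4 * (a (pc l) : ℤ) * l) (pc l) = jacobiSym (t ^ 2) (pc l) := by
        rw [jacobiSym.mod_left, jacobiSym.mod_left (t ^ 2), htn]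
        simp
      have hodd : Int.gcd (2 : ℤ) (pc l) = 1 := by
        have : (2 : ℤ) = ((2 : ℕ) : ℤ) := rfl
        rw [this, Int.gcd_natCast_natCast]
        exact (Nat.coprime_primes Nat.prime_two hpp).2 (by omega)
      have e3 : jacobiSym 4 (pc l) = 1 := by
        have : (4 : ℤ) = 2 ^ 2 := by norm_num
        rw [this, jacobiSym.pow_left]
        exact jacobiSym.sq_one hodd
      have e4 : jacobiSym (4 * (a (pc l) : ℤ) * l) (pc l) =
          jacobiSym (a (pc l) : ℤ) (pc l) * jacobiSym (l : ℤ) (pc l) := by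
        rw [jacobiSym.mul_left, jacobiSym.mul_left, e3, one_mul]
      have e5 : jacobiSym (a (pc l) : ℤ) (pc l) * jacobiSym (l : ℤ) (pc l) = -1 := by
        rw [e1]
        rcases jacobiSym.eq_one_or_neg_one (hj _ g1 _ hap.1 hap.2.1) with h' | h' <;> rw [h'] <;> norm_num
      have e6 : jacobiSym (t ^ 2) (pc l) = -1 := by rw [← e2, e4, e5]
      rw [jacobiSym.pow_left] at e6
      nlinarith [sq_nonneg (jacobiSym t (pc l))]
    -- the three parts
    have hnn : ∀ l ∈ F, 0 ≤ Real.log l / (l : ℝ) ^ (1 + η) := by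
      intro l hl
      have : (1 : ℝ) ≤ l := by exact_mod_cast hpos l hl
      have := Real.log_nonneg this
      positivity
    set F1 := F.filter (fun l => l < l0) with hF1
    set F2 := F.filter (fun l => l0 ≤ l ∧ l ≠ a (pc l)) with hF2
    set F3 := F.filter (fun l => l0 ≤ l ∧ l = a (pc l)) with hF3
    have hsplit : ∑ l ∈ F, Real.log l / (l : ℝ) ^ (1 + η) =
        ∑ l ∈ F1, Real.log l / (l : ℝ) ^ (1 + η) + ∑ l ∈ F2, Real.log l / (l : ℝ) ^ (1 + η) +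
        ∑ l ∈ F3, Real.log l / (l : ℝ) ^ (1 + η) := by
      rw [hF1, hF2, hF3, Finset.sum_filter, Finset.sum_filter, Finset.sum_filter,
        ← Finset.sum_add_distrib, ← Finset.sum_add_distrib]
      apply Finset.sum_congr rfl
      intro l _
      by_cases c1 : l < l0
      · have c2 : ¬ l0 ≤ l := by omega
        simp [c1, c2]
      · have c2 : l0 ≤ l := by omega
        by_cases c3 : l = a (pc l)
        · simp only [c1, if_false, c2, true_and, ne_eq]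
          rw [if_neg (not_not.2 c3), if_pos c3]; ring
        · simp only [c1, if_false, c2, true_and, ne_eq]
          rw [if_pos c3, if_neg c3]; ring
    have hb1 : ∑ l ∈ F1, Real.log l / (l : ℝ) ^ (1 + η) ≤ l0 := by
      have g1 : ∑ l ∈ F1, Real.log l / (l : ℝ) ^ (1 + η) ≤ ∑ l ∈ F1, (1 : ℝ) := by
        apply Finset.sum_le_sum
        intro l hl
        rw [hF1, Finset.mem_filter] at hl
        exact (w_le_one l (hpos l hl.1) η hη).trans (w_le_one' l (hpos l hl.1))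
      have g2 : F1.card ≤ l0 := by
        have : F1 ⊆ Finset.range l0 := by
          intro l hl
          rw [hF1, Finset.mem_filter] at hl
          exact Finset.mem_range.2 hl.2
        simpa using Finset.card_le_card this
      rw [Finset.sum_const, nsmul_eq_mul, mul_one] at g1
      have : (F1.card : ℝ) ≤ l0 := by exact_mod_cast g2
      linarith
    have hb2 : ∑ l ∈ F2, Real.log l / (l : ℝ) ^ (1 + η) ≤ C3 * (2 * (N0 + 8 * C1) ^ 2) := by
      have hmaps : ∀ l ∈ F2, pc l ∈ F2.image pc := fun l hl => Finset.mem_image_of_mem _ hl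
      rw [← Finset.sum_fiberwise_of_maps_to hmaps]
      have hthin := thin_primes Pset (fun p hp => (h1 p hp).1.two_le) N0 C1 hN0 hC1 hcb (F2.image pc) (by
        intro p hp
        obtain ⟨l, hl, rfl⟩ := Finset.mem_image.1 hp
        rw [hF2, Finset.mem_filter] at hl
        obtain ⟨hlp, hl4, _⟩ := hF l hl.1
        exact (hpc l hlp hl4 hl.2.1).1)
      have hterm : ∀ p ∈ F2.image pc, ∑ l ∈ F2.filter (fun l => pc l = p),
          Real.log l / (l : ℝ) ^ (1 + η) ≤ C3 * (p : ℝ) ^ (-(1 / 4) : ℝ) := by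
        intro p hp
        obtain ⟨l, hl, rfl⟩ := Finset.mem_image.1 hp
        rw [hF2, Finset.mem_filter] at hl
        obtain ⟨hlp, hl4, _⟩ := hF l hl.1
        obtain ⟨g1, g2, g3⟩ := hpc l hlp hl4 hl.2.1
        have hne : (T (pc l)).Nonempty := ⟨l, hlp, hl4, hl.2.1, g3, g2⟩
        have hap := ha1 _ hne
        have hbd := hfew (pc l) (T (pc l)) (a (pc l)) (h1 _ g1).1 (fun l' hl' => hl'.1) hap
          (ha2 (pc l)) (by
            intro l' hl' _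
            exact h3 (pc l) g1 (a (pc l)) l' hap.1 hl'.1 hap.2.1 hl'.2.1 hap.2.2.2.1 hl'.2.2.2.1)
          η hη hη1 (F2.filter (fun l' => pc l' = pc l)) (by
            intro l' hl'
            rw [Finset.mem_filter, hF2, Finset.mem_filter] at hl'
            obtain ⟨⟨k1, k2, k3⟩, k4⟩ := hl'
            obtain ⟨hlp', hl4', _⟩ := hF l' k1
            obtain ⟨m1, m2, m3⟩ := hpc l' hlp' hl4' k2
            rw [k4] at m1 m2 m3 k3
            exact ⟨⟨hlp', hl4', k2, m3, m2⟩, k3⟩)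
        refine hbd.trans ?_
        -- C3 / (η ^ 2 sqrt p) ≤ C3 p ^ (-1/4)
        have hbig := hlarge l hl.1 hl.2.1
        have hp0 : (0 : ℝ) < (pc l : ℝ) := by
          have := (h1 _ g1).1.pos
          exact_mod_cast this
        have k1 : (1 / η) ^ 2 ≤ (pc l : ℝ) ^ ((1 / 4) : ℝ) := by
          have : ((1 / η) ^ 8) ^ ((1 / 4) : ℝ) ≤ (pc l : ℝ) ^ ((1 / 4) : ℝ) :=
            Real.rpow_le_rpow (by positivity) hbig.le (by norm_num)
          have k2 : ((1 / η) ^ 8) ^ ((1 / 4) : ℝ) = (1 / η) ^ 2 := by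
            rw [← Real.rpow_natCast (1 / η) 8, ← Real.rpow_mul (by positivity),
              ← Real.rpow_natCast (1 / η) 2]
            norm_num
          rwa [k2] at this
        have k3 : (0 : ℝ) < (pc l : ℝ) ^ ((1 / 4) : ℝ) := by positivity
        have k4 : Real.sqrt (pc l) = (pc l : ℝ) ^ ((1 / 4) : ℝ) * (pc l : ℝ) ^ ((1 / 4) : ℝ) := by
          rw [← Real.rpow_add hp0, Real.sqrt_eq_rpow]; norm_num
        have k5 : (pc l : ℝ) ^ (-(1 / 4) : ℝ) = ((pc l : ℝ) ^ ((1 / 4) : ℝ))⁻¹ := Real.rpow_neg hp0.le _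
        rw [k4, k5]
        set u := (pc l : ℝ) ^ ((1 / 4) : ℝ) with hu
        have k6 : 1 ≤ η ^ 2 * u := by
          have : (1 / η) ^ 2 * η ^ 2 = 1 := by field_simp
          nlinarith [sq_nonneg η, pow_pos hη 2]
        rw [div_eq_mul_inv]
        apply mul_le_mul_of_nonneg_left _ hC3.le
        rw [inv_le_inv₀ (by positivity) k3]
        nlinarith
      calc ∑ p ∈ F2.image pc, ∑ l ∈ F2.filter (fun l => pc l = p), Real.log l / (l : ℝ) ^ (1 + η)
          ≤ ∑ p ∈ F2.image pc, C3 * (p : ℝ) ^ (-(1 / 4) : ℝ) := Finset.sum_le_sum hterm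
        _ = C3 * ∑ p ∈ F2.image pc, (p : ℝ) ^ (-(1 / 4) : ℝ) := by rw [Finset.mul_sum]
        _ ≤ _ := mul_le_mul_of_nonneg_left hthin hC3.le
    have hb3 : ∑ l ∈ F3, Real.log l / (l : ℝ) ^ (1 + η) ≤
        2 * ((N0 + C1 * Real.log C + 24 * C1) ^ 2 * 4) := by
      have g1 : ∑ l ∈ F3, Real.log l / (l : ℝ) ^ (1 + η) ≤ ∑ l ∈ F3, Real.log l / l := by
        apply Finset.sum_le_sum
        intro l hl
        rw [hF3, Finset.mem_filter] at hl
        exact w_le_one l (hpos l hl.1) η hη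
      refine g1.trans (thin_min Pset N0 C1 C hN0 hC1 hC hcb F3 pc ?_ ?_)
      · intro l hl
        rw [hF3, Finset.mem_filter] at hl
        obtain ⟨hlp, hl4, _⟩ := hF l hl.1
        obtain ⟨g1, g2, g3⟩ := hpc l hlp hl4 hl.2.1
        exact ⟨hpos l hl.1, g1, g2⟩
      · intro l hl l' hl' heq
        rw [Finset.mem_coe, hF3, Finset.mem_filter] at hl hl'
        rw [hl.2.2, hl'.2.2, heq]
    rw [hsplit]
    linarith
  apply tsum_le_of_sum_le'
  · have := hsum ∅ (by simp)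
    simpa using this
  · intro s
    have := hsum (s.map (Function.Embedding.subtype _)) (by
      intro l hl
      obtain ⟨x, _, rfl⟩ := Finset.mem_map.1 hl
      exact x.2)
    rw [Finset.sum_map] at this
    exact this

open CovAux in
/-- B. -/
theorem covering (Pset : Set ℕ) (Cv : ℕ → ℕ → Prop)
    (h1 : ∀ p ∈ Pset, p.Prime ∧ p % 4 = 3)
    (C : ℝ) (l0 : ℕ)
    (h2 : ∀ l : ℕ, l.Prime → l % 4 = 1 → l0 ≤ l →
      ∃ p ∈ Pset, (p : ℝ) ≤ Real.exp (C * (l : ℝ) ^ 3) ∧ Cv p l)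
    (h3 : ∀ p ∈ Pset, ∀ l1 l2 : ℕ, l1.Prime → l2.Prime → l1 % 4 = 1 → l2 % 4 = 1 →
      Cv p l1 → Cv p l2 → ∃ t n : ℤ, 4 * (l1 : ℤ) * l2 = t ^ 2 + p * n ^ 2) :
    ¬ ∃ C1 : ℝ, ∀ᶠ x : ℝ in atTop,
      (Nat.card {p : ℕ // p ∈ Pset ∧ (p : ℝ) ≤ x} : ℝ) ≤ C1 * Real.log (Real.log x) := by
  rintro ⟨C1', hC1'⟩
  classical
  obtain ⟨C2, hC2, hgood⟩ := good_primes
  obtain ⟨C3, hC3, hfew⟩ := cover_few
  set C1 := max C1' 0 with hC1def
  have hC10 : 0 ≤ C1 := le_max_right _ _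
  have hC1 : ∀ᶠ x : ℝ in atTop, (cnt Pset x : ℝ) ≤ C1 * Real.log (Real.log x) := by
    filter_upwards [hC1', eventually_ge_atTop (Real.exp 1)] with x hx hx1
    have g1 : 1 ≤ Real.log x := by
      rw [Real.le_log_iff_exp_le (lt_of_lt_of_le (Real.exp_pos 1) hx1)]; exact hx1
    have g2 : 0 ≤ Real.log (Real.log x) := Real.log_nonneg g1
    refine hx.trans ?_
    exact mul_le_mul_of_nonneg_right (le_max_left _ _) g2
  obtain ⟨x1, hx1⟩ := eventually_atTop.1 hC1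
  set D := max C 1 with hD
  have hD1 : 1 ≤ D := le_max_right _ _
  have h2' : ∀ l : ℕ, l.Prime → l % 4 = 1 → l0 ≤ l →
      ∃ p ∈ Pset, (p : ℝ) ≤ Real.exp (D * (l : ℝ) ^ 3) ∧ Cv p l := by
    intro l g1 g2 g3
    obtain ⟨p, hp, hp1, hp2⟩ := h2 l g1 g2 g3
    refine ⟨p, hp, hp1.trans (Real.exp_le_exp.2 ?_), hp2⟩
    exact mul_le_mul_of_nonneg_right (le_max_left _ _) (by positivity)
  set N0 : ℝ := (cnt Pset x1 : ℝ) with hN0
  have hN00 : 0 ≤ N0 := by positivity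
  have hcb : ∀ y : ℝ, 1 ≤ y → (cnt Pset (Real.exp y) : ℝ) ≤ N0 + C1 * Real.log y := by
    intro y hy
    have hly : 0 ≤ C1 * Real.log y := mul_nonneg hC10 (Real.log_nonneg hy)
    by_cases h : x1 ≤ Real.exp y
    · have := hx1 _ h
      rw [Real.log_exp] at this
      linarith
    · have : cnt Pset (Real.exp y) ≤ cnt Pset x1 := cnt_mono Pset (not_le.1 h).le
      have : (cnt Pset (Real.exp y) : ℝ) ≤ N0 := by rw [hN0]; exact_mod_cast this
      linarith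
  set M : ℝ := l0 + C3 * (2 * (N0 + 8 * C1) ^ 2) + 2 * ((N0 + C1 * Real.log D + 24 * C1) ^ 2 * 4)
    with hM
  have hM0 : 0 ≤ M := by positivity
  obtain ⟨x0, hx0, hasym⟩ := asym C1 C2 M hC2 hM0
  set x2 := max x0 x1 with hx2
  have hx20 : 1 ≤ x2 := hx0.trans (le_max_left _ _)
  obtain ⟨η, hη, hηx, hLs⟩ := exists_eta Pset (fun p hp => ⟨(h1 p hp).1, by
    rintro rfl
    have := (h1 2 hp).2
    omega⟩) C1 hC1 (1 / x2) (by positivity)
  set x := 1 / η with hx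
  have hxx : x2 < x := by
    rw [hx, lt_div_iff₀ hη]
    have := (lt_div_iff₀ (show 0 < x2 by linarith)).1 hηx
    linarith
  have hη1 : η ≤ 1 := by
    have : 1 / x2 ≤ 1 := by rw [div_le_one (by linarith)]; exact hx20
    linarith
  obtain ⟨f1, f2, f3, f4⟩ := hasym x ((le_max_left _ _).trans hxx.le)
  have hx1' : 1 < x := lt_of_le_of_lt hx20 hxx
  obtain ⟨ε, hε, hup⟩ := covering_upper Pset Cv h1 D hD1 l0 h2' h3 N0 C1 hN00 hC10 hcb C3 hC3 hfew
    η hη hη1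
  set Q : Finset ℕ := (Finset.range (⌊x ^ 8⌋₊ + 1)).filter (· ∈ Pset) with hQ
  have hQmem : ∀ p, p ∈ Q ↔ p ∈ Pset ∧ (p : ℝ) ≤ x ^ 8 := by
    intro p
    rw [hQ, Finset.mem_filter, Finset.mem_range, Nat.lt_succ_iff,
      Nat.le_floor_iff (by positivity)]
    tauto
  have hU := hup Q (fun p hp hpx => (hQmem p).2 ⟨hp, hpx⟩) (fun p hp => ((hQmem p).1 hp).1)
  have hδ : 0 < η ^ ((1 : ℝ) / 3) := by positivity
  have hL := hgood Q ε η (η ^ ((1 : ℝ) / 3)) (by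
    intro p hp
    obtain ⟨g1, g2⟩ := (hQmem p).1 hp
    refine ⟨(h1 p g1).1, ?_, hε p g1⟩
    rintro rfl
    have := (h1 2 g1).2
    omega) hη hη1 hδ (by
    intro e I hI heI
    exact hLs e I (fun p hp => (hQmem p).1 (hI hp)) heI)
  have hfin := hL.trans hU
  -- card of Q
  have hcardQ : (Q.card : ℝ) ≤ 1 / 3 * Real.log x := by
    have g1 : Q.card ≤ cnt Pset (x ^ 8) := card_le_cnt Pset _ Q (fun p hp => (hQmem p).1 hp)
    have g2 : x1 ≤ x ^ 8 := by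
      have : x ≤ x ^ 8 := le_self_pow₀ hx1'.le (by norm_num)
      exact (le_max_right x0 x1).trans (hxx.le.trans this)
    have g3 := hx1 _ g2
    have g4 : Real.log (x ^ 8) = 8 * Real.log x := by rw [Real.log_pow]; norm_num
    rw [g4] at g3
    have : (Q.card : ℝ) ≤ cnt Pset (x ^ 8) := by exact_mod_cast g1
    linarith
  have hx00 : 0 < x := by linarith
  have hpw : x ^ (-(1 / 3) : ℝ) ≤ (1 / 2 : ℝ) ^ Q.card := by
    have g1 : (1 / 2 : ℝ) ^ Q.card = Real.exp (-(Q.card * Real.log 2)) := by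
      rw [Real.exp_neg, ← Real.log_pow, Real.exp_log (by positivity)]
      rw [one_div, inv_pow]
    rw [g1, Real.rpow_def_of_pos hx00]
    apply Real.exp_le_exp.2
    have : Real.log 2 ≤ 1 := by
      have := Real.log_two_lt_d9
      linarith
    have : (Q.card : ℝ) * Real.log 2 ≤ Q.card * 1 := mul_le_mul_of_nonneg_left this (by positivity)
    nlinarith
  have hchi : Real.log (chiMod true Q) ≤ 2 + 8 * (1 / 3 * Real.log x) * Real.log x := by
    have g0 : ∀ p ∈ Q, (p : ℝ) ≠ 0 := by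
      intro p hp
      have := (h1 p ((hQmem p).1 hp).1).1.ne_zero
      exact_mod_cast this
    have g1 : Real.log (chiMod true Q) = Real.log 4 + ∑ p ∈ Q, Real.log p := by
      unfold chiMod
      simp only [if_true]
      push_cast
      rw [Real.log_mul (by norm_num) (Finset.prod_ne_zero_iff.2 g0), Real.log_prod g0]
    have g2 : ∑ p ∈ Q, Real.log p ≤ ∑ p ∈ Q, 8 * Real.log x := by
      apply Finset.sum_le_sum
      intro p hp
      obtain ⟨k1, k2⟩ := (hQmem p).1 hp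
      have k3 : (0 : ℝ) < p := by
        have := (h1 p k1).1.pos
        exact_mod_cast this
      have := Real.log_le_log k3 k2
      rw [Real.log_pow] at this
      exact_mod_cast this
    rw [Finset.sum_const, nsmul_eq_mul] at g2
    have g3 : Real.log 4 ≤ 2 := by
      have : (4 : ℝ) = 2 ^ 2 := by norm_num
      rw [this, Real.log_pow]
      have := Real.log_two_lt_d9
      push_cast
      linarith
    have g4 : (Q.card : ℝ) * (8 * Real.log x) ≤ 1 / 3 * Real.log x * (8 * Real.log x) :=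
      mul_le_mul_of_nonneg_right hcardQ (by linarith)
    rw [g1]
    linarith
  have hchi0 : 0 ≤ Real.log (chiMod true Q) := Real.log_natCast_nonneg _
  have hδ' : C2 * Real.log (chiMod true Q) ^ 2 / η ^ ((1 : ℝ) / 3) ≤
      C2 * (2 + 8 * (1 / 3 * Real.log x) * Real.log x) ^ 2 * x ^ ((1 : ℝ) / 3) := by
    have g1 : x ^ ((1 : ℝ) / 3) = (η ^ ((1 : ℝ) / 3))⁻¹ := by
      rw [hx, one_div, Real.inv_rpow hη.le]
    rw [g1, div_eq_mul_inv]
    have : Real.log (chiMod true Q) ^ 2 ≤ (2 + 8 * (1 / 3 * Real.log x) * Real.log x) ^ 2 :=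
      pow_le_pow_left₀ hchi0 hchi 2
    gcongr
  have hmain : x ^ ((2 : ℝ) / 3) / 4 ≤ (1 / 2) ^ (Q.card + 1) * (1 / η - C2) := by
    have g1 : x / 2 ≤ 1 / η - C2 := by
      rw [← hx]; linarith
    have g2 : x ^ ((2 : ℝ) / 3) = x ^ (-(1 / 3) : ℝ) * x := by
      conv_rhs => rw [← Real.rpow_one x]
      rw [← Real.rpow_mul hx00.le, ← Real.rpow_add hx00]
      norm_num
    calc x ^ ((2 : ℝ) / 3) / 4 = x ^ (-(1 / 3) : ℝ) / 2 * (x / 2) := by rw [g2]; ring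
      _ ≤ (1 / 2) ^ (Q.card + 1) * (1 / η - C2) := by
        rw [pow_succ]
        apply mul_le_mul _ g1 (by positivity) (by positivity)
        linarith
  linarith

end SSP
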