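import Pool.Agent.SSP.Defs
import Pool.Agent.SSP.Torsion
import Pool.Agent.SSP.XXComb
import Pool.Agent.SSP.IsoIds

set_option autoImplicit false

namespace SSP

open Polynomial

private lemma rdeg_div {k : Type*} [Field k] (a b : k[X]) (hb : b ≠ 0) (h : IsCoprime a b) :
    rdeg (algebraMap k[X] (RatFunc k) a / algebraMap k[X] (RatFunc k) b) =
      max a.natDegree b.natDegree := by
  set r : RatFunc k := algebraMap k[X] (RatFunc k) a / algebraMap k[X] (RatFunc k) b with hr
  have h1 : r.num * b = a * r.denom := (RatFunc.num_mul_eq_mul_denom_iff hb).mpr hr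
  have hc : IsCoprime r.num r.denom := RatFunc.isCoprime_num_denom r
  have hd1 : r.denom ∣ b := by
    have : r.denom ∣ r.num * b := ⟨a, by rw [h1]; ring⟩
    exact hc.symm.dvd_of_dvd_mul_left this
  have hd2 : b ∣ r.denom := by
    have : b ∣ a * r.denom := ⟨r.num, by rw [← h1]; ring⟩
    exact h.symm.dvd_of_dvd_mul_left this
  have hd3 : r.num ∣ a := by
    have : r.num ∣ a * r.denom := ⟨b, by rw [← h1]⟩
    exact hc.dvd_of_dvd_mul_right this
  have hd4 : a ∣ r.num := by
    have : a ∣ r.num * b := ⟨r.denom, by rw [h1]⟩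
    exact h.dvd_of_dvd_mul_right this
  have e1 : r.denom.natDegree = b.natDegree := by
    refine le_antisymm (natDegree_le_of_dvd hd1 hb) (natDegree_le_of_dvd hd2 (RatFunc.denom_ne_zero r))
  have e2 : r.num.natDegree = a.natDegree := by
    obtain ⟨u, hu⟩ := associated_of_dvd_dvd hd3 hd4
    rcases eq_or_ne a 0 with h0 | h0
    · rw [h0] at hd4
      rw [h0, zero_dvd_iff.mp hd4]
    · have hn : r.num ≠ 0 := by
        intro h00; rw [h00, zero_dvd_iff] at hd3; exact h0 hd3
      exact le_antisymm (natDegree_le_of_dvd hd3 h0) (natDegree_le_of_dvd hd4 hn)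
  unfold rdeg
  rw [e1, e2]

variable (p : ℕ) [Fact p.Prime] (l : ZMod p) {K : Type*} [Field K] [Algebra (ZMod p) K]

private lemma mem_range_of_pow {x : K} (hx : x ^ p = x) :
    ∃ c : ZMod p, algebraMap (ZMod p) K c = x := by
  classical
  have hp : p.Prime := Fact.out
  set P : K[X] := X ^ p - X with hP
  have hP0 : P ≠ 0 := FiniteField.X_pow_card_sub_X_ne_zero K hp.one_lt
  have hdeg : P.natDegree = p := FiniteField.X_pow_card_sub_X_natDegree_eq K hp.one_lt
  set T : Finset K := (Finset.univ : Finset (ZMod p)).image (algebraMap (ZMod p) K) with hT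
  have hTcard : T.card = p := by
    rw [hT, Finset.card_image_of_injective _ (algebraMap (ZMod p) K).injective, Finset.card_univ,
      ZMod.card]
  have hsub : T ⊆ P.roots.toFinset := by
    intro y hy
    rw [hT, Finset.mem_image] at hy
    obtain ⟨c, -, rfl⟩ := hy
    rw [Multiset.mem_toFinset, mem_roots hP0]
    simp only [hP, IsRoot.def, eval_sub, eval_pow, eval_X]
    rw [← map_pow, ZMod.pow_card, sub_self]
  have heq : T = P.roots.toFinset := by
    apply Finset.eq_of_subset_of_card_le hsub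
    rw [hTcard]
    calc P.roots.toFinset.card ≤ Multiset.card P.roots := Multiset.toFinset_card_le _
      _ ≤ P.natDegree := card_roots' P
      _ = p := hdeg
  have hxm : x ∈ P.roots.toFinset := by
    rw [Multiset.mem_toFinset, mem_roots hP0]
    simp only [hP, IsRoot.def, eval_sub, eval_pow, eval_X]
    rw [hx, sub_self]
  rw [← heq, hT, Finset.mem_image] at hxm
  obtain ⟨c, -, hc⟩ := hxm
  exact ⟨c, hc⟩

private lemma image_frob [CharP K p] (S : Finset K) (hst : ∀ x ∈ S, x ^ p ∈ S) :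
    Set.BijOn (fun x : K => x ^ p) S S := by
  have hinj : Function.Injective (fun x : K => x ^ p) :=
    (frobenius K p).injective
  have hmaps : Set.MapsTo (fun x : K => x ^ p) S S := fun x hx => hst x hx
  have := Finset.surjOn_of_injOn_of_card_le (s := S) (t := S) _ hmaps hinj.injOn le_rfl
  exact ⟨hmaps, hinj.injOn, this⟩

private lemma prod_frob [CharP K p] {M : Type*} [CommMonoid M] (S : Finset K)
    (hst : ∀ x ∈ S, x ^ p ∈ S) (φ : K → M) :
    ∏ t ∈ S, φ (t ^ p) = ∏ t ∈ S, φ t := by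
  obtain ⟨h1, h2, h3⟩ := image_frob p S hst
  exact Finset.prod_nbij (fun x => x ^ p) (fun x hx => h1 hx) h2 h3 (fun _ _ => rfl)

private lemma descend [CharP K p] (S : Finset K) (hst : ∀ x ∈ S, x ^ p ∈ S)
    (φ : K → K)
    (hφ : ∀ t, φ t ^ p = φ (t ^ p)) :
    ∃ q : (ZMod p)[X], q.map (algebraMap (ZMod p) K) =
      ∏ t ∈ S, (X - C (φ t)) := by
  set P : K[X] := ∏ t ∈ S, (X - C (φ t)) with hP
  have hmap : P.map (frobenius K p) = P := by
    rw [hP, Polynomial.map_prod]
    rw [← prod_frob p S hst (fun t => (X - C (φ t)))]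
    refine Finset.prod_congr rfl fun t _ => ?_
    rw [Polynomial.map_sub, map_X, map_C, frobenius_def, hφ]
  have hl : P ∈ lifts (algebraMap (ZMod p) K) := by
    rw [lifts_iff_coeff_lifts]
    intro n
    have : P.coeff n ^ p = P.coeff n := by
      conv_rhs => rw [← hmap]
      rw [coeff_map, frobenius_def]
    obtain ⟨c, hc⟩ := mem_range_of_pow p this
    exact ⟨c, hc⟩
  exact (mem_lifts _).mp hl

private theorem exists_point_aux [IsAlgClosed K] (hp2 : p ≠ 2) (hl0 : l ≠ 0) (hl1 : l ≠ 1)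
    (ell : ℕ) (hp : ell.Prime) (hodd : Odd ell) (hne : ell ≠ p)
    (S : Finset K)
    (hS : S ∈ XX (algebraMap (ZMod p) K l) ell)
    (hst : ∀ x ∈ S, x ^ p ∈ S)
    (hrho : rho (algebraMap (ZMod p) K l) S =
      1 - algebraMap (ZMod p) K l) :
    ∃ P : (Wt l (-fL l)).toAffine.Point, ht P = ell := by
  classical
  have hpp : p.Prime := Fact.out
  haveI : CharP K p := charP_of_injective_algebraMap (algebraMap (ZMod p) K).injective p
  haveI : ExpChar K p := ExpChar.prime hpp
  set ι : ZMod p →+* K := algebraMap (ZMod p) K with hι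
  have hιinj : Function.Injective ι := ι.injective
  have h2Z : (2 : ZMod p) ≠ 0 := by
    intro h
    have h' : ((2 : ℕ) : ZMod p) = 0 := by exact_mod_cast h
    rw [ZMod.natCast_eq_zero_iff] at h'
    exact hp2 ((Nat.prime_dvd_prime_iff_eq hpp Nat.prime_two).mp h')
  have h2 : (2 : K) ≠ 0 := by
    have h2' : ι 2 ≠ 0 := by
      intro h; exact h2Z ((map_eq_zero_iff ι hιinj).mp h)
    rwa [map_ofNat] at h2'
  have hellK : (ell : K) ≠ 0 := by
    intro h
    have h' : ι (ell : ZMod p) = 0 := by simpa using h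
    have h'' : (ell : ZMod p) = 0 := (map_eq_zero_iff ι hιinj).mp h'
    rw [ZMod.natCast_eq_zero_iff] at h''
    exact hne ((Nat.prime_dvd_prime_iff_eq hpp hp).mp h'').symm
  have hL0 : ι l ≠ 0 := fun h => hl0 ((map_eq_zero_iff ι hιinj).mp h)
  have hL1 : ι l ≠ 1 := fun h => hl1 (hιinj (by rw [h, map_one]))
  obtain ⟨hid1, hid2, hcop, heps, -, hSne⟩ :=
    iso_ids (ι l) h2 hL0 hL1 ell hp hodd hellK S hS
  obtain ⟨-, hXX, -⟩ := XX_comb (ι l) h2 hL0 hL1 ell hp hodd hellK
  have hcard : S.card = (ell - 1) / 2 := (hXX S hS).1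
  -- Frobenius fixes `ι l`
  have hLp : (ι l) ^ p = ι l := by rw [← map_pow, ZMod.pow_card]
  have hsub : ∀ a b : K, (a - b) ^ p = a ^ p - b ^ p := fun a b => sub_pow_expChar a b
  obtain ⟨h, hh⟩ := descend p S hst (fun t => t) (fun t => rfl)
  obtain ⟨g, hg⟩ := descend p S hst (fun t => ι l / t) (fun t => by
    simp only [div_pow, hLp])
  obtain ⟨g1, hg1⟩ := descend p S hst (fun t => (t - ι l) / (t - 1)) (fun t => by
    simp only [div_pow, hsub, hLp, one_pow])
  obtain ⟨g2, hg2⟩ := descend p S hst (fun t => ι l * (t - 1) / (t - ι l)) (fun t => by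
    simp only [div_pow, mul_pow, hsub, hLp, one_pow])
  have hepsp : (eps (ι l) S) ^ p = eps (ι l) S := by
    unfold eps
    rw [← Finset.prod_pow, ← prod_frob p S hst (fun t => ((t - ι l) / (t * (t - 1))))]
    refine Finset.prod_congr rfl fun t _ => ?_
    simp only [div_pow, mul_pow, hsub, hLp, one_pow]
  obtain ⟨e, he⟩ := mem_range_of_pow p hepsp
  have he' : ι e = eps (ι l) S := he
  have he0 : e ≠ 0 := by
    intro h0; rw [h0, map_zero] at he'; exact heps he'.symm
  have hhm : h.map ι = hP S := hh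
  have hgm : g.map ι = gP (ι l) S := hg
  have hg1m : g1.map ι = g1P (ι l) S := hg1
  have hg2m : g2.map ι = g2P (ι l) S := hg2
  have hmono_h : h.Monic := by
    have : (h.map ι).Monic := by rw [hhm]; exact monic_prod_of_monic _ _ fun t _ => monic_X_sub_C _
    exact (Function.Injective.monic_map_iff hιinj).mpr this
  have hmono_g : g.Monic := by
    have : (g.map ι).Monic := by rw [hgm]; exact monic_prod_of_monic _ _ fun t _ => monic_X_sub_C _
    exact (Function.Injective.monic_map_iff hιinj).mpr this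
  have hmono_g1 : g1.Monic := by
    have : (g1.map ι).Monic := by
      rw [hg1m]; exact monic_prod_of_monic _ _ fun t _ => monic_X_sub_C _
    exact (Function.Injective.monic_map_iff hιinj).mpr this
  have hmono_g2 : g2.Monic := by
    have : (g2.map ι).Monic := by
      rw [hg2m]; exact monic_prod_of_monic _ _ fun t _ => monic_X_sub_C _
    exact (Function.Injective.monic_map_iff hιinj).mpr this
  have hdeg_h : h.natDegree = (ell - 1) / 2 := by
    rw [← natDegree_map ι, hhm]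
    unfold hP
    rw [natDegree_prod_of_monic _ _ fun t _ => monic_X_sub_C _]
    simp [hcard]
  have hdeg_g : g.natDegree = (ell - 1) / 2 := by
    rw [← natDegree_map ι, hgm]
    unfold gP
    rw [natDegree_prod_of_monic _ _ fun t _ => monic_X_sub_C _]
    simp [hcard]
  have id1 : X * g ^ 2 - C (e ^ 2) * h ^ 2 = (X - 1) * g1 ^ 2 := by
    apply map_injective ι hιinj
    simp only [Polynomial.map_sub, Polynomial.map_mul, Polynomial.map_pow, map_X, map_C,
      Polynomial.map_one, hhm, hgm, hg1m, map_pow, he']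
    rw [← hid1]
    simp only [map_pow]
  have id2 : X * g ^ 2 - C ((1 - l) * e ^ 2) * h ^ 2 = (X - C l) * g2 ^ 2 := by
    apply map_injective ι hιinj
    simp only [Polynomial.map_sub, Polynomial.map_mul, Polynomial.map_pow, map_X, map_C,
      Polynomial.map_one, hhm, hgm, hg2m, map_mul, map_sub, map_one, map_pow, he']
    rw [← hid2, hrho]
    simp only [map_pow, map_mul, map_sub, map_one]
  have hcop' : IsCoprime (X * g ^ 2) (h ^ 2) := by
    rw [← isCoprime_map ι]
    simpa only [Polynomial.map_mul, Polynomial.map_pow, map_X, hhm, hgm] using hcop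
  -- pass to rational functions
  set A : (ZMod p)[X] →+* RatFunc (ZMod p) := algebraMap _ _ with hA
  have hAinj : Function.Injective A := RatFunc.algebraMap_injective _
  have hAC : ∀ c : ZMod p, A (C c) = RatFunc.C c := fun c => RatFunc.algebraMap_C c
  have hAX : A X = RatFunc.X := RatFunc.algebraMap_X
  have hne' : ∀ q : (ZMod p)[X], q ≠ 0 → A q ≠ 0 := fun q hq h0 =>
    hq ((map_eq_zero_iff A hAinj).mp h0)
  have hh0 : A h ≠ 0 := hne' _ hmono_h.ne_zero
  have hg0 : A g ≠ 0 := hne' _ hmono_g.ne_zero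
  have hg10 : A g1 ≠ 0 := hne' _ hmono_g1.ne_zero
  have hg20 : A g2 ≠ 0 := hne' _ hmono_g2.ne_zero
  have he0' : RatFunc.C e ≠ 0 := by
    rw [← hAC]; exact hne' _ (C_ne_zero.mpr he0)
  have ID1 : RatFunc.X * A g ^ 2 - RatFunc.C e ^ 2 * A h ^ 2 = (RatFunc.X - 1) * A g1 ^ 2 := by
    have := congrArg A id1
    simpa only [map_sub, map_mul, map_pow, hAX, hAC, map_one] using this
  have ID2 : RatFunc.X * A g ^ 2 - (1 - RatFunc.C l) * RatFunc.C e ^ 2 * A h ^ 2 =
      (RatFunc.X - RatFunc.C l) * A g2 ^ 2 := by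
    have := congrArg A id2
    simpa only [map_sub, map_mul, map_pow, hAX, hAC, map_one] using this
  set x₀ := (RatFunc.X : RatFunc (ZMod p)) with hx₀
  have hX0 : x₀ ≠ 0 := RatFunc.X_ne_zero
  have hX1 : x₀ - 1 ≠ 0 := by
    have : A (X - C 1) ≠ 0 := hne' _ (X_sub_C_ne_zero 1)
    simpa only [map_sub, hAX, hAC, map_one] using this
  have hXl : x₀ - RatFunc.C l ≠ 0 := by
    have : A (X - C l) ≠ 0 := hne' _ (X_sub_C_ne_zero l)
    simpa only [map_sub, hAX, hAC] using this
  have hf : fL l = x₀ * (x₀ - 1) * (x₀ - RatFunc.C l) := rfl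
  have hf0 : fL l ≠ 0 := by
    rw [hf]; exact mul_ne_zero (mul_ne_zero hX0 hX1) hXl
  set φ : RatFunc (ZMod p) := -fL l with hφ
  have hφ0 : φ ≠ 0 := neg_ne_zero.mpr hf0
  set Xc : RatFunc (ZMod p) := 1 - x₀ * A g ^ 2 / (RatFunc.C e ^ 2 * A h ^ 2) with hXc
  set Z : RatFunc (ZMod p) := A g * A g1 * A g2 / (RatFunc.C e ^ 3 * A h ^ 3) with hZ
  have hZ0 : Z ≠ 0 := by
    rw [hZ]
    exact div_ne_zero (mul_ne_zero (mul_ne_zero hg0 hg10) hg20)
      (mul_ne_zero (pow_ne_zero _ he0') (pow_ne_zero _ hh0))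
  have hden : RatFunc.C e ^ 2 * A h ^ 2 ≠ 0 :=
    mul_ne_zero (pow_ne_zero _ he0') (pow_ne_zero _ hh0)
  have e1 : Xc = -((x₀ - 1) * A g1 ^ 2) / (RatFunc.C e ^ 2 * A h ^ 2) := by
    rw [hXc, ← ID1]; field_simp; ring
  have e2 : Xc - 1 = -(x₀ * A g ^ 2) / (RatFunc.C e ^ 2 * A h ^ 2) := by
    rw [hXc]; ring
  have e3 : Xc - RatFunc.C l =
      -((x₀ - RatFunc.C l) * A g2 ^ 2) / (RatFunc.C e ^ 2 * A h ^ 2) := by
    rw [hXc, ← ID2]; field_simp; ring
  have key : φ * Z ^ 2 = Xc * (Xc - 1) * (Xc - RatFunc.C l) := by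
    rw [e2, e3, e1, hφ, hf, hZ]
    field_simp
  have heqn : (Wt l φ).toAffine.Equation (φ * Xc) (φ ^ 2 * Z) := by
    rw [WeierstrassCurve.Affine.equation_iff]
    simp only [Wt, crv, zero_mul, add_zero]
    linear_combination φ ^ 3 * key
  have h2R : (2 : RatFunc (ZMod p)) ≠ 0 := by
    have h2' : A (C 2) ≠ 0 := hne' _ (C_ne_zero.mpr h2Z)
    have h3' : (C 2 : (ZMod p)[X]) = 2 := rfl
    rwa [h3', map_ofNat] at h2'
  have hns : (Wt l φ).toAffine.Nonsingular (φ * Xc) (φ ^ 2 * Z) := by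
    rw [WeierstrassCurve.Affine.nonsingular_iff]
    refine ⟨heqn, Or.inr ?_⟩
    simp only [Wt, crv, zero_mul, sub_zero]
    intro hcon
    have : (2 : RatFunc (ZMod p)) * (φ ^ 2 * Z) = 0 := by linear_combination hcon
    rcases mul_eq_zero.mp this with h' | h'
    · exact h2R h'
    · exact (mul_ne_zero (pow_ne_zero _ hφ0) hZ0) h'
  refine ⟨.some (φ * Xc) (φ ^ 2 * Z) hns, ?_⟩
  show rdeg (φ * Xc / φ) = ell
  rw [mul_div_cancel_left₀ _ hφ0]
  have hXc' : Xc = A (C (e ^ 2) * h ^ 2 - X * g ^ 2) / A (C (e ^ 2) * h ^ 2) := by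
    rw [hXc]
    simp only [map_sub, map_mul, map_pow, hAX, hAC]
    field_simp
  have hunit : IsUnit (C (e ^ 2) : (ZMod p)[X]) := by
    rw [isUnit_C]; exact (isUnit_iff_ne_zero.mpr (pow_ne_zero _ he0))
  have hcop3 : IsCoprime (C (e ^ 2) * h ^ 2 - X * g ^ 2) (C (e ^ 2) * h ^ 2) := by
    have h1 : IsCoprime (X * g ^ 2) (C (e ^ 2) * h ^ 2) :=
      (isCoprime_mul_unit_left_right hunit _ _).mpr hcop'
    have h2 : IsCoprime (-(X * g ^ 2)) (C (e ^ 2) * h ^ 2) := h1.neg_left
    have h3 := h2.add_mul_left_left 1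
    have h4 : -(X * g ^ 2) + C (e ^ 2) * h ^ 2 * 1 = C (e ^ 2) * h ^ 2 - X * g ^ 2 := by ring
    rwa [h4] at h3
  have hb0 : C (e ^ 2) * h ^ 2 ≠ 0 :=
    mul_ne_zero (C_ne_zero.mpr (pow_ne_zero _ he0)) (pow_ne_zero _ hmono_h.ne_zero)
  rw [hXc', rdeg_div _ _ hb0 hcop3]
  have hd1 : (C (e ^ 2) * h ^ 2).natDegree = 2 * ((ell - 1) / 2) := by
    rw [natDegree_C_mul (pow_ne_zero _ he0), hmono_h.natDegree_pow, hdeg_h]
  have hd2 : (X * g ^ 2).natDegree = 2 * ((ell - 1) / 2) + 1 := by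
    rw [natDegree_X_mul (pow_ne_zero _ hmono_g.ne_zero), hmono_g.natDegree_pow, hdeg_g]
  have hd3 : (C (e ^ 2) * h ^ 2 - X * g ^ 2).natDegree = 2 * ((ell - 1) / 2) + 1 := by
    rw [natDegree_sub_eq_right_of_natDegree_lt (by rw [hd1, hd2]; omega), hd2]
  rw [hd1, hd3]
  obtain ⟨m, hm⟩ := hodd
  omega

/-- P4 (the isogeny over `𝔽_p`). -/
theorem exists_point (hp2 : p ≠ 2) (hl0 : l ≠ 0) (hl1 : l ≠ 1) (ell : ℕ)
    (hp : ell.Prime) (hodd : Odd ell) (hne : ell ≠ p)
    (S : Finset (AlgebraicClosure (ZMod p)))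
    (hS : S ∈ XX (algebraMap (ZMod p) (AlgebraicClosure (ZMod p)) l) ell)
    (hst : ∀ x ∈ S, x ^ p ∈ S)
    (hrho : rho (algebraMap (ZMod p) (AlgebraicClosure (ZMod p)) l) S =
      1 - algebraMap (ZMod p) (AlgebraicClosure (ZMod p)) l) :
    ∃ P : (Wt l (-fL l)).toAffine.Point, ht P = ell :=
  exists_point_aux p l hp2 hl0 hl1 ell hp hodd hne S hS hst hrho

end SSP
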