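import Pool.Agent.SSP.Defs
import Pool.Agent.SSP.Kummer
import Pool.Agent.SSP.LadderPoint
import Pool.Agent.SSP.LadderBasic
import Pool.Agent.SSP.LadderDegree
import Pool.Agent.SSP.RatDeriv
import Pool.Agent.SSP.Parallelogram
import Pool.Agent.SSP.FrobHom
import Pool.Agent.SSP.FrobHt
import Pool.Agent.SSP.FrobCount

set_option autoImplicit false

namespace SSP

open Polynomial

variable (p : ℕ) [Fact p.Prime] (l : ZMod p)

private theorem MulP_quad {G : Type*} [AddCommGroup G] (h : G → ℤ)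
    (hpar : ∀ P Q, h (P + Q) + h (P - Q) = 2 * h P + 2 * h Q) (A P : G) (n : ℕ) :
    h (A + n • P) = h A + n * (h (A + P) - h A - h P) + n ^ 2 * h P := by
  induction n using Nat.twoStepInduction with
  | zero => simp
  | one => simp; ring
  | more n ih0 ih1 =>
    have h1 := hpar (A + (n + 1) • P) P
    have e1 : A + (n + 1) • P + P = A + (n + 2) • P := by
      rw [show n + 2 = (n + 1) + 1 by ring, succ_nsmul _ (n + 1)]; abel
    have e2 : A + (n + 1) • P - P = A + n • P := by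
      rw [succ_nsmul]; abel
    rw [e1, e2, ih0, ih1] at h1
    push_cast at h1 ⊢
    linarith

private theorem MulP_zero {G : Type*} [AddCommGroup G] (h : G → ℤ)
    (hpar : ∀ P Q, h (P + Q) + h (P - Q) = 2 * h P + 2 * h Q) (J : G →+ G) (n : ℕ)
    (hJ : ∀ P, h (J P) = n * h P) (hc : ∀ P, h (P - J P) = (n + 1) * h P) (P : G) :
    h (J (J P) + n • P) = 0 := by
  rw [MulP_quad h hpar]
  have h1 := hpar P (J P)
  have h2 := hc (P + J P)
  have e : P + J P - J (P + J P) = P - J (J P) := by rw [map_add]; abel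
  have h3 := hpar P (J (J P))
  have e3 : P + J (J P) = J (J P) + P := add_comm _ _
  rw [e] at h2
  rw [e3] at h3
  rw [hc, hJ] at h1
  rw [hJ, hJ] at h3 ⊢
  have h4 : h (P + J P) = (n + 1) * h P := by linarith
  rw [h4] at h2
  have h5 : h (J (J P) + P) = 2 * h P + 2 * (n * (n * h P)) - (n + 1) * ((n + 1) * h P) := by linarith
  rw [h5]
  ring

private theorem MulP_rdeg {k : Type*} [Field k] (r : RatFunc k) (h : rdeg r = 0) :
    ∃ c : k, r = RatFunc.C c := by
  have h1 : r.num.natDegree = 0 := by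
    have := le_max_left r.num.natDegree r.denom.natDegree
    unfold rdeg at h
    omega
  have h2 : r.denom.natDegree = 0 := by
    have := le_max_right r.num.natDegree r.denom.natDegree
    unfold rdeg at h
    omega
  have h3 : r.denom = 1 := by
    have hm := RatFunc.monic_denom r
    rw [Polynomial.eq_C_of_natDegree_eq_zero h2] at hm ⊢
    rw [Polynomial.Monic, Polynomial.leadingCoeff_C] at hm
    rw [hm, C_1]
  refine ⟨r.num.coeff 0, ?_⟩
  conv_lhs => rw [← RatFunc.num_div_denom r, h3, Polynomial.eq_C_of_natDegree_eq_zero h1]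
  simp

private theorem MulP_fL {k : Type*} [Field k] (l : k) :
    fL l = algebraMap k[X] (RatFunc k) (X * (X - 1) * (X - C l)) := by
  simp [fL]

private theorem MulP_fpol_ne {k : Type*} [Field k] (l : k) : (X * (X - 1) * (X - C l) : k[X]) ≠ 0 := by
  refine mul_ne_zero (mul_ne_zero X_ne_zero ?_) (X_sub_C_ne_zero l)
  rw [← C_1]
  exact X_sub_C_ne_zero 1

private theorem MulP_fL_ne {k : Type*} [Field k] (l : k) : fL l ≠ 0 := by
  rw [MulP_fL]
  exact (map_ne_zero_iff _ (IsFractionRing.injective k[X] (RatFunc k))).2 (MulP_fpol_ne l)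

private theorem MulP_fL_deg {k : Type*} [Field k] (l : k) : (fL l).intDegree = 3 := by
  rw [MulP_fL, RatFunc.intDegree_polynomial]
  have h1 : (X * (X - 1) * (X - C l) : k[X]).natDegree = 3 := by
    have hx : (X - 1 : k[X]) ≠ 0 := by rw [← C_1]; exact X_sub_C_ne_zero 1
    rw [natDegree_mul (mul_ne_zero X_ne_zero hx) (X_sub_C_ne_zero l), natDegree_mul X_ne_zero hx,
      natDegree_X, natDegree_X_sub_C, ← C_1, natDegree_X_sub_C]
  rw [h1]; rfl

private theorem MulP_nonsq {k : Type*} [Field k] (l : k) (y : RatFunc k) (e : k) (he : e ≠ 0) :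
    y ^ 2 ≠ (fL l) ^ 3 * RatFunc.C e := by
  intro h
  have hf := MulP_fL_ne l
  have hC : (RatFunc.C e : RatFunc k) ≠ 0 := (_root_.map_ne_zero _).2 he
  have hy : y ≠ 0 := by
    rintro rfl
    have : (fL l) ^ 3 * RatFunc.C e ≠ 0 := mul_ne_zero (pow_ne_zero _ hf) hC
    apply this
    rw [← h]; ring
  have h1 := congrArg RatFunc.intDegree h
  rw [pow_two, RatFunc.intDegree_mul hy hy, RatFunc.intDegree_mul (pow_ne_zero _ hf) hC,
    RatFunc.intDegree_C, pow_succ, pow_two, RatFunc.intDegree_mul (mul_ne_zero hf hf) hf,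
    RatFunc.intDegree_mul hf hf, MulP_fL_deg] at h1
  omega

/-- points of height zero -/
private theorem MulP_ht_zero {k : Type*} [Field k] (l : k) (T : (Wt l (fL l)).toAffine.Point)
    (hT : ht T = 0) : T = 0 ∨ ∃ (c : k) (y : RatFunc k) (h : _), T = .some (fL l * RatFunc.C c) y h ∧
      c * (c - 1) * (c - l) = 0 ∧ y = 0 := by
  have hf := MulP_fL_ne l
  cases T with
  | zero => exact Or.inl rfl
  | some x y h =>
    right
    obtain ⟨c, hc⟩ := MulP_rdeg (x / fL l) hT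
    have hx : x = fL l * RatFunc.C c := by rw [← hc]; field_simp
    subst hx
    have heq := (WeierstrassCurve.Affine.equation_iff _ _).1 h.1
    simp only [Wt, crv] at heq
    have h1 : y ^ 2 = (fL l) ^ 3 * RatFunc.C (c * (c - 1) * (c - l)) := by
      simp only [map_mul, map_sub, map_one]
      linear_combination heq
    by_cases he : c * (c - 1) * (c - l) = 0
    · refine ⟨c, y, h, rfl, he, ?_⟩
      rw [he, map_zero, mul_zero] at h1
      exact pow_eq_zero_iff (two_ne_zero) |>.1 h1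
    · exact absurd h1 (MulP_nonsq l y _ he)

private theorem MulP_gen_ns {k : Type*} [Field k] (l : k) (h2 : (2 : k) ≠ 0) :
    (Wt l (fL l)).toAffine.Nonsingular (fL l * RatFunc.X) (fL l ^ 2) := by
  have hf := MulP_fL_ne l
  have h2K : (2 : RatFunc k) ≠ 0 := by
    have : (RatFunc.C (2 : k) : RatFunc k) ≠ 0 := (_root_.map_ne_zero _).2 h2
    rwa [map_ofNat] at this
  rw [WeierstrassCurve.Affine.nonsingular_iff]
  constructor
  · rw [WeierstrassCurve.Affine.equation_iff]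
    simp only [Wt, crv]
    have e : fL l = RatFunc.X * (RatFunc.X - 1) * (RatFunc.X - RatFunc.C l) := rfl
    have e4 : (fL l ^ 2) ^ 2 = fL l ^ 3 * (RatFunc.X * (RatFunc.X - 1) * (RatFunc.X - RatFunc.C l)) := by
      rw [← e]; ring
    linear_combination e4
  · right
    simp only [Wt, crv, zero_mul, sub_zero]
    intro h
    have : 2 * fL l ^ 2 = 0 := by linear_combination h
    rcases mul_eq_zero.1 this with h' | h'
    · exact h2K h'
    · exact pow_ne_zero _ hf h'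

private theorem MulP_end0 {k : Type*} [Field k] (A B : k[X]) (n : ℕ) (hA : A.Monic)
    (hAd : A.natDegree = n) (h : A = B * X ^ n) : A = X ^ n ∧ B = 1 := by
  have hB : B ≠ 0 := by
    rintro rfl
    rw [zero_mul] at h
    exact hA.ne_zero h
  have h1 : B.natDegree = 0 := by
    have := congrArg natDegree h
    rw [hAd, natDegree_mul hB (pow_ne_zero _ X_ne_zero), natDegree_X_pow] at this
    omega
  have h2 : B.Monic := by
    rw [h] at hA
    exact (monic_X_pow n).of_mul_monic_right hA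
  have h3 : B = 1 := (Monic.natDegree_eq_zero h2).1 h1
  exact ⟨by rw [h, h3, one_mul], h3⟩

private theorem MulP_end1 {k : Type*} [Field k] (A B : k[X]) (n : ℕ) (hn : 1 ≤ n) (hA : A.Monic)
    (hAd : A.natDegree = n) (hBd : B.natDegree ≤ n - 1) (c l : k)
    (h : A ^ 2 * (C c - X ^ n) ^ 2 = B ^ 2 * (C c * X ^ n - C l) ^ 2) : False := by
  have h1 : (C c - X ^ n : k[X]).natDegree = n := by
    have e : (C c - X ^ n : k[X]) = -(X ^ n - C c) := by ring
    rw [e, natDegree_neg, natDegree_X_pow_sub_C]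
  have h2 : (C c * X ^ n - C l : k[X]).natDegree ≤ n := by
    refine (natDegree_sub_le _ _).trans ?_
    rw [natDegree_C, Nat.max_zero]
    exact natDegree_C_mul_X_pow_le _ _
  have h1' : (C c - X ^ n : k[X]) ≠ 0 := by
    intro h0
    rw [h0, natDegree_zero] at h1
    omega
  have h3 := congrArg natDegree h
  rw [natDegree_mul (pow_ne_zero _ hA.ne_zero) (pow_ne_zero _ h1'), natDegree_pow, natDegree_pow,
    hAd, h1] at h3
  have h4 : (B ^ 2 * (C c * X ^ n - C l) ^ 2 : k[X]).natDegree ≤ 2 * (n - 1) + 2 * n := by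
    refine natDegree_mul_le.trans (add_le_add ?_ ?_)
    · exact natDegree_pow_le.trans (Nat.mul_le_mul_left 2 hBd)
    · exact natDegree_pow_le.trans (Nat.mul_le_mul_left 2 h2)
  omega

open Classical in
private theorem MulP_kummer {k : Type*} [Field k] (l : k) (h2K : (2 : RatFunc k) ≠ 0)
    (hlK : (RatFunc.C l : RatFunc k) ≠ 0) (hlK1 : (1 - RatFunc.C l : RatFunc k) ≠ 0)
    (T Q : (Wt l (fL l)).toAffine.Point) :
    ∃ κ : RatFunc k, κ ≠ 0 ∧
      (T + Q).xRep 0 * (T - Q).xRep 0 =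
        κ * (T.xRep 0 * Q.xRep 0 - RatFunc.C l * fL l ^ 2 * T.xRep 1 * Q.xRep 1) ^ 2 ∧
      (T + Q).xRep 1 * (T - Q).xRep 1 = κ * (T.xRep 0 * Q.xRep 1 - T.xRep 1 * Q.xRep 0) ^ 2 := by
  have hφ := MulP_fL_ne l
  obtain ⟨κ, hκ, k0, -, k1⟩ := kummer (-(1 + RatFunc.C l) * fL l) (RatFunc.C l * fL l ^ 2) h2K
    (mul_ne_zero hlK (pow_ne_zero _ hφ)) (by
      have e : (-(1 + RatFunc.C l) * fL l) ^ 2 - 4 * (RatFunc.C l * fL l ^ 2) =
        fL l ^ 2 * (1 - RatFunc.C l) ^ 2 := by ring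
      rw [e]
      exact mul_ne_zero (pow_ne_zero _ hφ) (pow_ne_zero _ hlK1)) T Q
  exact ⟨κ, hκ, k0, k1⟩

/-- P2 (multiplication by `p`). -/
theorem mul_p (hp2 : p ≠ 2) (hl0 : l ≠ 0) (hl1 : l ≠ 1) (hB : Bal p l) :
    Apol l p = X ^ (p ^ 2) ∧ Bpol l p = 1 := by
  classical
  have hp : p.Prime := Fact.out
  have h2 : (2 : ZMod p) ≠ 0 := by
    intro h
    have h' : ((2 : ℕ) : ZMod p) = 0 := by exact_mod_cast h
    rw [ZMod.natCast_eq_zero_iff] at h'
    exact hp2 ((Nat.prime_dvd_prime_iff_eq hp Nat.prime_two).1 h')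
  have hφ := MulP_fL_ne l
  have h2K : (2 : RatFunc (ZMod p)) ≠ 0 := by
    have : (RatFunc.C (2 : ZMod p) : RatFunc (ZMod p)) ≠ 0 := (_root_.map_ne_zero _).2 h2
    rwa [map_ofNat] at this
  have hlK : (RatFunc.C l : RatFunc (ZMod p)) ≠ 0 := (_root_.map_ne_zero _).2 hl0
  have hlK1 : (1 - RatFunc.C l : RatFunc (ZMod p)) ≠ 0 := by
    have : (RatFunc.C (1 - l) : RatFunc (ZMod p)) ≠ 0 :=
      (_root_.map_ne_zero _).2 (sub_ne_zero.2 (Ne.symm hl1))
    rwa [map_sub, map_one] at this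
  obtain ⟨J, hJ⟩ := exists_frob p hp2 l hl0 hl1 (fL l) hφ
  have hz : ∀ P, ht (J (J P) + p • P) = 0 := by
    intro P
    have h := MulP_zero (fun Q : (Wt l (fL l)).toAffine.Point => (ht Q : ℤ))
      (fun P Q => by exact_mod_cast ht_parallelogram l (fL l) h2 hl0 hl1 hφ P Q) J p
      (fun P => by exact_mod_cast frob_ht p hp2 l (fL l) hφ J hJ P)
      (fun P => by exact_mod_cast frob_count p hp2 l hl0 hl1 hB (fL l) hφ J hJ P) P
    exact_mod_cast h
  have hns := MulP_gen_ns l h2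
  obtain ⟨P, hP⟩ : ∃ P : (Wt l (fL l)).toAffine.Point,
      P = .some (fL l * RatFunc.X) (fL l ^ 2) hns := ⟨_, rfl⟩
  have hP0 : P ≠ 0 := by
    rw [hP]; exact WeierstrassCurve.Affine.Point.some_ne_zero _
  have hPx : P.xRep 0 = fL l * RatFunc.X := by
    rw [hP, WeierstrassCurve.Affine.Point.xRep_some]; rfl
  have hpp : p * p = p ^ 2 := (pow_two p).symm
  have hJx : (J (J P)).xRep 0 = fL l * RatFunc.X ^ (p ^ 2) ∧ (J (J P)).xRep 1 = 1 := by
    obtain ⟨h1', e1⟩ := hJ _ _ hns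
    obtain ⟨h2', e2⟩ := hJ _ _ h1'
    rw [hP, e1, e2, WeierstrassCurve.Affine.Point.xRep_some]
    refine ⟨?_, rfl⟩
    show fL l * (fL l * (fL l * RatFunc.X / fL l) ^ p / fL l) ^ p = _
    rw [mul_div_cancel_left₀ _ hφ, mul_div_cancel_left₀ _ hφ, ← pow_mul, hpp]
  obtain ⟨κ, hκ, hxd⟩ := xd_point (-(1 + RatFunc.C l) * fL l) (RatFunc.C l * fL l ^ 2) h2K
    (mul_ne_zero hlK (pow_ne_zero _ hφ)) (by
      have e : (-(1 + RatFunc.C l) * fL l) ^ 2 - 4 * (RatFunc.C l * fL l ^ 2) =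
        fL l ^ 2 * (1 - RatFunc.C l) ^ 2 := by ring
      rw [e]
      exact mul_ne_zero (pow_ne_zero _ hφ) (pow_ne_zero _ hlK1)) P hP0 p
  have hs := xd_scale (fL l) (-4 * (1 + RatFunc.C l)) (2 * RatFunc.C l) (-(RatFunc.C l) ^ 2)
    RatFunc.X p
  have hm := xd_map (algebraMap (ZMod p)[X] (RatFunc (ZMod p))) (-4 * (1 + C l)) (2 * C l)
    (-(C l) ^ 2) X p
  have hAB : (xl (C l) (X : (ZMod p)[X]) p) = (Apol l p, Bpol l p) := rfl
  have hdeg := xd_degree (-4 * (1 + l)) (2 * l) (-l ^ 2) p hp.one_lt.le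
  have hCs : xd (C (-4 * (1 + l))) (C (2 * l)) (C (-l ^ 2)) (X : (ZMod p)[X]) p =
      (Apol l p, Bpol l p) := by
    rw [← hAB, xl]
    simp only [map_mul, map_neg, map_add, map_one, map_ofNat, map_pow]
  rw [hCs] at hdeg
  obtain ⟨hA1, hA2, hB1, -⟩ := hdeg
  have hAB' : xd (-4 * (1 + C l)) (2 * C l) (-(C l) ^ 2) (X : (ZMod p)[X]) p =
      (Apol l p, Bpol l p) := hAB
  rw [hAB'] at hm
  simp only [map_mul, map_neg, map_add, map_one, map_ofNat, map_pow, RatFunc.algebraMap_C,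
    RatFunc.algebraMap_X] at hm
  rw [hm] at hs
  have hxd' : xd (4 * (-(1 + RatFunc.C l) * fL l)) (2 * (RatFunc.C l * fL l ^ 2))
      (-(RatFunc.C l * fL l ^ 2) ^ 2) (P.xRep 0) p =
      (κ * (p • P).xRep 0, κ * (p • P).xRep 1) := hxd
  rw [hPx] at hxd'
  have e1 : 4 * (-(1 + RatFunc.C l) * fL l) = fL l * (-4 * (1 + RatFunc.C l)) := by ring
  have e2 : 2 * (RatFunc.C l * fL l ^ 2) = fL l ^ 2 * (2 * RatFunc.C l) := by ring
  have e3 : -(RatFunc.C l * fL l ^ 2) ^ 2 = fL l ^ 4 * -(RatFunc.C l) ^ 2 := by ring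
  rw [e1, e2, e3, hs] at hxd'
  have hx0 : fL l ^ p ^ 2 * algebraMap (ZMod p)[X] (RatFunc (ZMod p)) (Apol l p) =
      κ * (p • P).xRep 0 := congrArg Prod.fst hxd'
  have hx1 : fL l ^ (p ^ 2 - 1) * algebraMap (ZMod p)[X] (RatFunc (ZMod p)) (Bpol l p) =
      κ * (p • P).xRep 1 := congrArg Prod.snd hxd'
  obtain ⟨N, hN⟩ : ∃ N, p ^ 2 = N + 1 := ⟨p ^ 2 - 1, by
    have : 0 < p ^ 2 := Nat.pow_pos hp.pos
    omega⟩
  have hN' : p ^ 2 - 1 = N := by omega
  have hinj := IsFractionRing.injective (ZMod p)[X] (RatFunc (ZMod p))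
  have hpow : fL l ^ p ^ 2 = fL l ^ N * fL l := by rw [hN, pow_succ]
  rw [hN'] at hx1
  rw [hpow] at hx0
  have hφN : fL l ^ N ≠ 0 := pow_ne_zero _ hφ
  rcases MulP_ht_zero l _ (hz P) with hT | ⟨c, y, h, hT, hc, hy⟩
  · have hpP : p • P = -(J (J P)) := by
      rw [eq_neg_iff_add_eq_zero, add_comm]; exact hT
    rw [hpP, WeierstrassCurve.Affine.Point.xRep_neg, hJx.1] at hx0
    rw [hpP, WeierstrassCurve.Affine.Point.xRep_neg, hJx.2, mul_one] at hx1
    refine MulP_end0 _ _ _ hA1 hA2 (hinj ?_)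
    rw [map_mul, map_pow, RatFunc.algebraMap_X]
    rw [← hx1] at hx0
    have h5 : fL l ^ N * fL l ≠ 0 := mul_ne_zero hφN hφ
    apply mul_left_cancel₀ h5
    linear_combination hx0
  · exfalso
    have hpP : p • P = (.some (fL l * RatFunc.C c) y h : (Wt l (fL l)).toAffine.Point)
        + -(J (J P)) := by
      rw [← hT]; abel
    have hneg : -(.some (fL l * RatFunc.C c) y h : (Wt l (fL l)).toAffine.Point) =
        .some (fL l * RatFunc.C c) y h := by
      subst hy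
      rw [WeierstrassCurve.Affine.Point.neg_some]
      congr 1
      simp [WeierstrassCurve.Affine.negY, Wt, crv]
    obtain ⟨κ', hκ', k0, k1⟩ := MulP_kummer l h2K hlK hlK1
      (.some (fL l * RatFunc.C c) y h : (Wt l (fL l)).toAffine.Point) (-(J (J P)))
    have hsub : (.some (fL l * RatFunc.C c) y h : (Wt l (fL l)).toAffine.Point) - -(J (J P)) =
        -(p • P) := by
      rw [hpP, neg_add, hneg, sub_eq_add_neg]
    rw [hsub, ← hpP, WeierstrassCurve.Affine.Point.xRep_neg,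
      WeierstrassCurve.Affine.Point.xRep_neg, hJx.1, hJx.2,
      WeierstrassCurve.Affine.Point.xRep_some] at k0 k1
    simp only [Matrix.cons_val_zero, Matrix.cons_val_one, mul_one, one_mul] at k0 k1
    refine MulP_end1 (Apol l p) (Bpol l p) (p ^ 2) (by omega) hA1 hA2 hB1 c l (hinj ?_)
    simp only [map_mul, map_pow, map_sub, RatFunc.algebraMap_X, RatFunc.algebraMap_C]
    have h6 : (fL l ^ N) ^ 2 * fL l ^ 4 ≠ 0 :=
      mul_ne_zero (pow_ne_zero _ hφN) (pow_ne_zero _ hφ)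
    apply mul_left_cancel₀ h6
    have s0 : (fL l ^ N * fL l * algebraMap (ZMod p)[X] (RatFunc (ZMod p)) (Apol l p)) ^ 2 =
        κ ^ 2 * (κ' * (fL l * RatFunc.C c * (fL l * RatFunc.X ^ p ^ 2) -
          RatFunc.C l * fL l ^ 2) ^ 2) := by
      rw [hx0, ← k0]; ring
    have s1 : (fL l ^ N * algebraMap (ZMod p)[X] (RatFunc (ZMod p)) (Bpol l p)) ^ 2 =
        κ ^ 2 * (κ' * (fL l * RatFunc.C c - fL l * RatFunc.X ^ p ^ 2) ^ 2) := by
      rw [hx1, ← k1]; ring
    linear_combination (fL l ^ 2 * (RatFunc.C c - RatFunc.X ^ p ^ 2) ^ 2) * s0 -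
      (fL l ^ 4 * (RatFunc.C c * RatFunc.X ^ p ^ 2 - RatFunc.C l) ^ 2) * s1

end SSP
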