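import Pool.Agent.SSP.Defs
import Pool.Agent.SSP.LadderPoint
import Pool.Agent.SSP.LadderBasic
import Pool.Agent.SSP.XXIff
import Pool.Agent.SSP.MulP

set_option autoImplicit false

namespace SSP

open Polynomial

private theorem frobSq_xRep_one {F : Type*} [Field F] (a b : F)
    (P : (crv a b).toAffine.Point) (h : P.xRep 1 ≠ 0) : P ≠ 0 ∧ P.xRep 1 = 1 := by
  cases P with
  | zero =>
    exfalso
    apply h
    have : (WeierstrassCurve.Affine.Point.zero : (crv a b).toAffine.Point) = 0 := rfl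
    rw [this, WeierstrassCurve.Affine.Point.xRep_zero]
    simp
  | some x y h => exact ⟨by simp, by simp [WeierstrassCurve.Affine.Point.xRep_some]⟩

variable (p : ℕ) [Fact p.Prime] (l : ZMod p)

private theorem frobSq_aux {F : Type*} [Field F] [IsAlgClosed F] [DecidableEq F] [CharP F p]
    (φ : ZMod p →+* F) (hp2 : p ≠ 2) (hl0 : l ≠ 0) (hl1 : l ≠ 1) (hB : Bal p l) (ell : ℕ)
    (hp : ell.Prime) (hodd : Odd ell) (hne : ell ≠ p) (S : Finset F) (hS : S ∈ XX (φ l) ell) :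
    ∀ x ∈ S, x ^ (p ^ 2) ∈ S := by
  have hinj : Function.Injective φ := φ.injective
  have hpp : p.Prime := Fact.out
  have h2 : (2 : F) ≠ 0 := by
    have := (CharP.cast_eq_zero_iff F p 2).not.mpr (fun h => hp2 ((Nat.prime_dvd_prime_iff_eq hpp
      Nat.prime_two).mp h))
    simpa using this
  have hell : (ell : F) ≠ 0 := (CharP.cast_eq_zero_iff F p ell).not.mpr
    (fun h => hne ((Nat.prime_dvd_prime_iff_eq hpp hp).mp h).symm)
  have hl0' : φ l ≠ 0 := fun h => hl0 (hinj (by rw [h, map_zero]))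
  have hl1' : φ l ≠ 1 := fun h => hl1 (hinj (by rw [h, map_one]))
  have hab : (-(1 + φ l)) ^ 2 - 4 * φ l ≠ 0 := by
    have : (-(1 + φ l)) ^ 2 - 4 * φ l = (φ l - 1) ^ 2 := by ring
    rw [this]
    exact pow_ne_zero _ (sub_ne_zero.mpr hl1')
  obtain ⟨Q, hQ0, hQ, hS'⟩ := (XX_iff (φ l) h2 hl0' hl1' ell hp hodd hell S).mp hS
  intro x hx
  obtain ⟨R, hR, hR0, hRx⟩ := (hS' x).mp hx
  obtain ⟨κ, hκ, hκ'⟩ := xd_point (-(1 + φ l)) (φ l) h2 hl0' hab R hR0 p
  obtain ⟨hA, hB'⟩ := mul_p p l hp2 hl0 hl1 hB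
  -- evaluate the ladder at `x`
  let f : (ZMod p)[X] →+* F := eval₂RingHom φ x
  have hmap := xd_map f (-4 * (1 + C l)) (2 * C l) (-(C l) ^ 2) X p
  have e1 : f (-4 * (1 + C l)) = 4 * (-(1 + φ l)) := by
    simp only [f, coe_eval₂RingHom, eval₂_mul, eval₂_add, eval₂_neg, eval₂_one, eval₂_C,
      eval₂_ofNat]
    ring
  have e2 : f (2 * C l) = 2 * φ l := by
    simp only [f, coe_eval₂RingHom, eval₂_mul, eval₂_C, eval₂_ofNat]
  have e3 : f (-(C l) ^ 2) = -(φ l) ^ 2 := by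
    simp only [f, coe_eval₂RingHom, eval₂_neg, eval₂_pow, eval₂_C]
  have e4 : f X = x := by
    simp only [f, coe_eval₂RingHom, eval₂_X]
  rw [e1, e2, e3, e4] at hmap
  have hA' : (xd (-4 * (1 + C l)) (2 * C l) (-(C l) ^ 2) (X : (ZMod p)[X]) p).1 = X ^ (p ^ 2) := hA
  have hB'' : (xd (-4 * (1 + C l)) (2 * C l) (-(C l) ^ 2) (X : (ZMod p)[X]) p).2 = 1 := hB'
  rw [hA', hB'', map_one, map_pow, e4, ← hRx, hκ', Prod.mk.injEq] at hmap
  obtain ⟨hm1, hm2⟩ := hmap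
  have h3 : (p • R).xRep 1 ≠ 0 := by
    intro h
    rw [h, mul_zero] at hm2
    exact zero_ne_one hm2
  obtain ⟨h4, h5⟩ := frobSq_xRep_one _ _ _ h3
  rw [h5, mul_one] at hm2
  rw [hm2, one_mul] at hm1
  refine (hS' _).mpr ⟨p • R, AddSubgroup.nsmul_mem _ hR p, h4, ?_⟩
  rw [hm1, hRx]

/-- P3 (the square of Frobenius preserves all subgroups). -/
theorem frob_sq (hp2 : p ≠ 2) (hl0 : l ≠ 0) (hl1 : l ≠ 1) (hB : Bal p l) (ell : ℕ)
    (hp : ell.Prime) (hodd : Odd ell) (hne : ell ≠ p)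
    (S : Finset (AlgebraicClosure (ZMod p)))
    (hS : S ∈ XX (algebraMap (ZMod p) (AlgebraicClosure (ZMod p)) l) ell) :
    ∀ x ∈ S, x ^ (p ^ 2) ∈ S := by
  classical
  have : CharP (AlgebraicClosure (ZMod p)) p :=
    charP_of_injective_algebraMap (algebraMap (ZMod p) (AlgebraicClosure (ZMod p))).injective p
  exact frobSq_aux p l (algebraMap (ZMod p) (AlgebraicClosure (ZMod p))) hp2 hl0 hl1 hB ell hp hodd
    hne S hS

end SSP
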