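import Pool.Agent.SSP.Defs
import Pool.Agent.SSP.LadderBasic
import Pool.Agent.SSP.LadderDegree
import Pool.Agent.SSP.Torsion
import Pool.Agent.SSP.XXComb

set_option autoImplicit false

namespace SSP

open Polynomial

/-! ### naturality -/

private theorem nzi_xl_map {S T : Type*} [CommRing S] [CommRing T] (f : S →+* T) (l x : S) (n : ℕ) :
    xl (f l) (f x) n = (f (xl l x n).1, f (xl l x n).2) := by
  have h1 : f (-4 * (1 + l)) = -4 * (1 + f l) := by
    rw [map_mul, map_neg, map_ofNat, map_add, map_one]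
  have h2 : f (2 * l) = 2 * f l := by
    rw [map_mul, map_ofNat]
  have h3 : f (-l ^ 2) = -(f l) ^ 2 := by
    rw [map_neg, map_pow]
  unfold xl
  rw [← xd_map, h1, h2, h3]

private theorem nzi_Bpol_map {S T : Type*} [CommRing S] [CommRing T] (f : S →+* T) (l : S)
    (n : ℕ) : (Bpol l n).map f = Bpol (f l) n := by
  have h := nzi_xl_map (mapRingHom f) (C l) (X : S[X]) n
  simp only [coe_mapRingHom, map_C, map_X] at h
  unfold Bpol
  rw [h]

private theorem nzi_Bpol_eval {S : Type*} [CommRing S] (l t : S) (n : ℕ) :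
    (Bpol l n).eval t = (xl l t n).2 := by
  have h := nzi_xl_map (evalRingHom t) (C l) (X : S[X]) n
  simp only [coe_evalRingHom, eval_C, eval_X] at h
  unfold Bpol
  rw [h]

section maps

variable {L F : Type*} [Field L] [Field F] (f : L →+* F) (l : L)

private theorem nzi_xm_map (t : L) (n : ℕ) : xm (f l) (f t) n = f (xm l t n) := by
  unfold xm
  rw [nzi_xl_map, map_div₀]

open Classical in
private theorem nzi_rts_map (ell : ℕ) (hs : (Bpol l ell).Splits) :
    rts (f l) ell = (rts l ell).image f := by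
  unfold rts
  rw [← nzi_Bpol_map f, hs.roots_map f, Multiset.toFinset_map]

open Classical in
private theorem nzi_Sx_map (ell : ℕ) (t : L) : Sx (f l) ell (f t) = (Sx l ell t).image f := by
  unfold Sx
  rw [Finset.image_image]
  refine Finset.image_congr fun n _ => ?_
  rw [Function.comp_apply, nzi_xm_map]

open Classical in
private theorem nzi_XX_map (ell : ℕ) (hs : (Bpol l ell).Splits) :
    XX (f l) ell = (XX l ell).image (fun S => S.image f) := by
  unfold XX
  rw [nzi_rts_map f l ell hs, Finset.image_image, Finset.image_image]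
  refine Finset.image_congr fun t _ => ?_
  rw [Function.comp_apply, Function.comp_apply, nzi_Sx_map]

open Classical in
private theorem nzi_rho_map (S : Finset L) : rho (f l) (S.image f) = f (rho l S) := by
  unfold rho
  rw [Finset.card_image_of_injective _ f.injective, Finset.prod_image fun x _ y _ h => f.injective h,
    map_mul, map_pow, map_prod]
  congr 1
  refine Finset.prod_congr rfl fun t _ => ?_
  rw [map_pow, map_div₀, map_sub, map_sub, map_one]

private theorem nzi_NZ_map (ell : ℕ) (hs : (Bpol (16 / 17 : L) ell).Splits) :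
    NZ F ell = f (NZ L ell) := by
  classical
  have hl : (16 / 17 : F) = f (16 / 17) := by
    rw [map_div₀, map_ofNat, map_ofNat]
  unfold NZ
  rw [hl, nzi_XX_map f _ ell hs, Finset.prod_image fun x _ y _ h =>
    Finset.image_injective f.injective h, map_prod]
  refine Finset.prod_congr rfl fun S _ => ?_
  rw [nzi_rho_map, map_sub, map_mul, map_pow, map_pow, map_ofNat]

end maps

/-! ### integrality -/

private theorem nzi_integral_w {K : Type*} [Field K] (d : ℤ[X])
    (hd : d.eval (-4) = 1 ∨ d.eval (-4) = -1) (x : K) (hx : aeval x d = 0) :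
    IsIntegral ℤ (x + 4)⁻¹ := by
  set e : ℤ[X] := d.comp (X - C 4) with he
  have h0 : e.coeff 0 = 1 ∨ e.coeff 0 = -1 := by
    have : e.coeff 0 = d.eval (-4) := by
      rw [coeff_zero_eq_eval_zero, he, eval_comp]
      simp
    rw [this]
    exact hd
  have h1 : aeval (x + 4) e = 0 := by
    rw [he, aeval_comp]
    have : (aeval (x + 4)) (X - C 4 : ℤ[X]) = x := by
      rw [map_sub, aeval_X, aeval_C]
      simp
    rw [this, hx]
  have hne : e.coeff 0 ≠ 0 := by
    rcases h0 with h | h <;> rw [h] <;> norm_num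
  have hy : x + 4 ≠ 0 := by
    intro hy
    rw [hy, ← coeff_zero_eq_aeval_zero'] at h1
    rcases h0 with h | h <;> rw [h] at h1 <;> simp at h1
  let _ : Invertible (x + 4) := invertibleOfNonzero hy
  have h2 : eval₂ (algebraMap ℤ K) (⅟(x + 4)) (reverse e) = 0 :=
    (eval₂_reverse_eq_zero_iff (algebraMap ℤ K) (x + 4) e).2 h1
  have h3 : e.reverse.leadingCoeff = e.coeff 0 := by
    rw [reverse_leadingCoeff, trailingCoeff, natTrailingDegree_eq_zero.2 (Or.inr hne)]
  rw [← invOf_eq_inv]
  rcases h0 with h | h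
  · exact ⟨e.reverse, by rw [Monic, h3, h], h2⟩
  · refine ⟨-e.reverse, by rw [Monic, leadingCoeff_neg, h3, h, neg_neg], ?_⟩
    rw [eval₂_neg, h2, neg_zero]

/-- the ladder at the 2-torsion point `-4` -/
private theorem nzi_ladder (n : ℕ) :
    xd (33 : ℤ) 34 (-289) (-4) n = if Even n then (1, 0) else (-4, 1) := by
  induction n using Nat.strong_induction_on with
  | _ n ih =>
    rcases Nat.even_or_odd' n with ⟨k, hk | hk⟩
    · rcases Nat.eq_zero_or_pos k with h0 | h0
      · subst h0
        subst hk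
        simp [xd]
      · have h1 := ih k (by omega)
        rw [hk, xd_even, h1, if_pos (even_two_mul k)]
        split_ifs <;> norm_num [dbl]
    · rcases Nat.eq_zero_or_pos k with h0 | h0
      · subst h0
        subst hk
        simp [xd]
      · have h1 := ih k (by omega)
        have h2 := ih (k + 1) (by omega)
        rw [hk, xd_odd _ _ _ _ _ h0, h1, h2, if_neg (Nat.not_even_bit1 k)]
        by_cases he : Even k
        · rw [if_pos he, if_neg (by rw [Nat.even_add_one]; exact fun h => h he)]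
          norm_num [dadd]
        · rw [if_neg he, if_pos (by rw [Nat.even_add_one]; exact he)]
          norm_num [dadd]

private theorem nzi_root {K : Type*} [Field K] [CharZero K] (m : ℕ) (t : K)
    (ht : (xl (16 / 17 : K) t (2 * m + 1)).2 = 0) : IsIntegral ℤ (4 / (16 - 17 * t)) := by
  obtain ⟨d, hd, -, -⟩ := xd_sqrt (33 : ℤ) 34 (-289) m
  have h4 : d.eval (-4) = 1 ∨ d.eval (-4) = -1 := by
    have h := xd_map (evalRingHom (-4 : ℤ)) (C 33) (C 34) (C (-289)) (X : ℤ[X]) (2 * m + 1)
    simp only [coe_evalRingHom, eval_C, eval_X] at h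
    rw [nzi_ladder, if_neg (Nat.not_even_bit1 m), hd] at h
    have h' := (Prod.mk.inj h).2
    rw [eval_pow] at h'
    have h'' : (d.eval (-4) - 1) * (d.eval (-4) + 1) = 0 := by
      linear_combination -h'
    rcases mul_eq_zero.1 h'' with h | h
    · exact Or.inl (by omega)
    · exact Or.inr (by omega)
  set x : K := -17 * t / 4 with hx
  have h17 : (17 : K) ≠ 0 := by norm_num
  have e1 : xl (16 / 17 : K) t (2 * m + 1) =
      xd ((-4 / 17) * 33) ((-4 / 17) ^ 2 * 34) ((-4 / 17) ^ 4 * (-289)) ((-4 / 17) * x)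
        (2 * m + 1) := by
    unfold xl
    congr 1
    · norm_num
    · norm_num
    · norm_num
    · rw [hx]
      field_simp
  rw [e1, xd_scale] at ht
  have h5 : (xd (33 : K) 34 (-289) x (2 * m + 1)).2 = 0 := by
    rcases mul_eq_zero.1 ht with h | h
    · exact absurd h (pow_ne_zero _ (by norm_num))
    · exact h
  have h6 := xd_map (eval₂RingHom (Int.castRingHom K) x) (C 33) (C 34) (C (-289)) (X : ℤ[X])
    (2 * m + 1)
  simp only [coe_eval₂RingHom, eval₂_C, eval₂_X] at h6
  rw [hd] at h6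
  have h7 : aeval x d = 0 := by
    have h8 := congrArg Prod.snd h6
    simp only [eval₂_pow] at h8
    have h9 : (xd ((Int.castRingHom K) 33) ((Int.castRingHom K) 34) ((Int.castRingHom K) (-289)) x
        (2 * m + 1)).2 = 0 := by
      convert h5 using 3 <;> simp
    rw [h9] at h8
    have := pow_eq_zero_iff (two_ne_zero) |>.1 h8.symm
    exact this
  have h8 := nzi_integral_w d h4 x h7
  have h9 : (x + 4)⁻¹ = 4 / (16 - 17 * t) := by
    rw [hx]
    have : -17 * t / 4 + 4 = (16 - 17 * t) / 4 := by ring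
    rw [this, inv_div]
  rwa [h9] at h8

private theorem nzi_prod {K ι : Type*} [Field K] (s : Finset ι) (β : ι → K) (c : K)
    (hc : IsIntegral ℤ c) (hβ : ∀ i ∈ s, IsIntegral ℤ (β i)) :
    ∃ γ : K, IsIntegral ℤ γ ∧ ∏ i ∈ s, (16 * β i - c) = 16 * γ + (-c) ^ s.card := by
  classical
  induction s using Finset.induction_on with
  | empty => exact ⟨0, isIntegral_zero, by simp⟩
  | insert a s ha ih =>
    obtain ⟨γ, h1, h2⟩ := ih fun i hi => hβ i (Finset.mem_insert_of_mem hi)
    have h3 := hβ a (Finset.mem_insert_self a s)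
    have h16 : IsIntegral ℤ (16 : K) := by
      have := isIntegral_algebraMap (R := ℤ) (A := K) (x := 16)
      simpa using this
    refine ⟨β a * (16 * γ + (-c) ^ s.card) - c * γ,
      (h3.mul ((h16.mul h1).add (hc.neg.pow _))).sub (hc.mul h1), ?_⟩
    rw [Finset.prod_insert ha, h2, Finset.card_insert_of_notMem ha, pow_succ]
    ring

private theorem nzi_rho {K : Type*} [Field K] [CharZero K] (ell : ℕ) (S : Finset K)
    (hS : 2 * S.card + 1 = ell) (hl : ∀ t ∈ S, t ≠ 16 / 17) :
    17 ^ ell * rho (16 / 17 : K) S = 16 * ∏ t ∈ S, (4 + 4 / (16 - 17 * t)) ^ 4 := by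
  unfold rho
  have h17 : (17 : K) ≠ 0 := by norm_num
  have h1 : ∏ t ∈ S, (4 + 4 / (16 - 17 * t)) ^ 4 =
      256 ^ S.card * ∏ t ∈ S, ((t - 1) / (t - 16 / 17)) ^ 4 := by
    rw [← Finset.prod_const, ← Finset.prod_mul_distrib]
    refine Finset.prod_congr rfl fun t ht => ?_
    have h2 : t - 16 / 17 ≠ 0 := sub_ne_zero.2 (hl t ht)
    have h3 : 16 - 17 * t ≠ 0 := by
      intro h
      apply h2
      have : t - 16 / 17 = -(16 - 17 * t) / 17 := by
        field_simp
        ring
      rw [this, h, neg_zero, zero_div]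
    have h4 : 4 + 4 / (16 - 17 * t) = 4 * ((t - 1) / (t - 16 / 17)) := by
      have h5 : t - 16 / 17 = -(16 - 17 * t) / 17 := by
        field_simp
        ring
      rw [h5]
      field_simp
      ring
    rw [h4, mul_pow]
    norm_num
  rw [h1, hS, ← mul_assoc, ← mul_pow, ← mul_assoc]
  congr 1
  rw [mul_div_cancel₀ _ h17, ← hS, pow_succ, pow_mul]
  norm_num
  ring

private theorem nzi_rat_int {K : Type*} [Field K] [CharZero K] (q : ℚ)
    (h : IsIntegral ℤ (q : K)) : ∃ z : ℤ, q = z := by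
  have h1 : IsIntegral ℤ q := by
    have h2 : IsIntegral ℤ (algebraMap ℚ K q) := by
      rwa [eq_ratCast (algebraMap ℚ K) q]
    exact (isIntegral_algebraMap_iff (algebraMap ℚ K).injective).1 h2
  obtain ⟨z, hz⟩ := IsIntegrallyClosed.isIntegral_iff.1 h1
  exact ⟨z, by rw [← hz]; simp⟩

private theorem nzi_rational (L : Type) [Field L] [Algebra ℚ L] (B : ℚ[X])
    [IsSplittingField ℚ L B] (x : L) (h : ∀ σ : L ≃ₐ[ℚ] L, σ x = x) :
    ∃ q : ℚ, algebraMap ℚ L q = x := by
  have h1 : Normal ℚ L := Normal.of_isSplittingField B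
  have h2 : IsGalois ℚ L := IsGalois.mk
  have h3 : FiniteDimensional ℚ L := IsSplittingField.finiteDimensional L B
  exact (IsGalois.mem_range_algebraMap_iff_fixed x).2 h

private theorem nzi_splitting (B : ℚ[X]) :
    ∃ (L : Type) (_ : Field L) (_ : Algebra ℚ L), IsSplittingField ℚ L B :=
  ⟨B.SplittingField, _, _, IsSplittingField.splittingField B⟩

/-- N3 (rationality, integrality, congruence). -/
theorem NZ_int (ell : ℕ) (hp : ell.Prime) (hodd : Odd ell) :
    ∃ N : ℤ, N ≡ 1 [ZMOD 16] ∧ ∀ (F : Type) [Field F] [CharZero F],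
      (Bpol (16 / 17 : F) ell).Splits → NZ F ell = (N : F) := by
  classical
  -- the splitting field over `ℚ`
  let B : ℚ[X] := Bpol (16 / 17 : ℚ) ell
  obtain ⟨L, _, _, hsf⟩ := nzi_splitting B
  have hchar : CharZero L := algebraRat.charZero L
  have hmap : ∀ (F : Type) [Field F] [CharZero F] (f : ℚ →+* F),
      B.map f = Bpol (16 / 17 : F) ell := by
    intro F _ _ f
    rw [nzi_Bpol_map]
    congr 1
    rw [map_div₀, map_ofNat, map_ofNat]
  have hL : (Bpol (16 / 17 : L) ell).Splits := by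
    rw [← hmap L (algebraMap ℚ L)]
    exact IsSplittingField.splits L B
  -- rationality
  obtain ⟨q, hq⟩ : ∃ q : ℚ, algebraMap ℚ L q = NZ L ell := by
    refine nzi_rational L B (NZ L ell) fun σ => ?_
    exact (nzi_NZ_map (σ : L →+* L) ell hL).symm
  -- all fields
  have hF : ∀ (F : Type) [Field F] [CharZero F], (Bpol (16 / 17 : F) ell).Splits →
      NZ F ell = (q : F) := by
    intro F _ _ hs
    rw [← hmap F (algebraMap ℚ F)] at hs
    let φ : L →ₐ[ℚ] F := IsSplittingField.lift L B hs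
    rw [nzi_NZ_map (φ : L →+* F) ell hL, ← hq]
    simp
  -- integrality
  let K := AlgebraicClosure ℚ
  obtain ⟨m, hm⟩ := hodd
  have hell : (ell : K) ≠ 0 := by
    exact_mod_cast hp.ne_zero
  have hl0 : (16 / 17 : K) ≠ 0 := by norm_num
  have hl1 : (16 / 17 : K) ≠ 1 := by norm_num
  obtain ⟨hc1, hc2, -, -, -⟩ := XX_comb (16 / 17 : K) two_ne_zero hl0 hl1 ell hp ⟨m, hm⟩ hell
  obtain ⟨-, hr⟩ := rts_card (16 / 17 : K) two_ne_zero hl0 hl1 ell ⟨m, hm⟩ hell
  have hint : ∀ S ∈ XX (16 / 17 : K) ell,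
      IsIntegral ℤ (∏ t ∈ S, (4 + 4 / (16 - 17 * t)) ^ 4) := by
    intro S hS
    refine IsIntegral.prod _ fun t ht => ?_
    have h1 := (hc2 S hS).2 ht
    have h2 : (xl (16 / 17 : K) t (2 * m + 1)).2 = 0 := by
      rw [← hm, ← nzi_Bpol_eval]
      unfold rts at h1
      rw [Multiset.mem_toFinset] at h1
      exact isRoot_of_mem_roots h1
    have h4 : IsIntegral ℤ (4 : K) := by
      have := isIntegral_algebraMap (R := ℤ) (A := K) (x := 4)
      simpa using this
    exact (h4.add (nzi_root m t h2)).pow _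
  have h17 : IsIntegral ℤ ((17 : K) ^ (ell - 1)) := by
    have := isIntegral_algebraMap (R := ℤ) (A := K) (x := 17 ^ (ell - 1))
    simpa using this
  obtain ⟨γ, hγ, hprod⟩ := nzi_prod (XX (16 / 17 : K) ell)
    (fun S => ∏ t ∈ S, (4 + 4 / (16 - 17 * t)) ^ 4) _ h17 hint
  have hNZ : NZ K ell = 16 * γ + (-17 ^ (ell - 1)) ^ (ell + 1) := by
    unfold NZ
    rw [← hc1, ← hprod]
    refine Finset.prod_congr rfl fun S hS => ?_
    rw [nzi_rho ell S (by rw [(hc2 S hS).1]; omega) fun t ht => (hr t ((hc2 S hS).2 ht)).2.2]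
  have hK := hF K (IsAlgClosed.splits _)
  -- conclusion
  have hγ' : γ = (((q - (-17 ^ (ell - 1)) ^ (ell + 1)) / 16 : ℚ) : K) := by
    rw [hK] at hNZ
    push_cast
    rw [hNZ]
    ring
  rw [hγ'] at hγ
  obtain ⟨z, hz⟩ := nzi_rat_int _ hγ
  have hq' : q = ((16 * z + (-17 ^ (ell - 1)) ^ (ell + 1) : ℤ) : ℚ) := by
    push_cast
    rw [← hz]
    ring
  refine ⟨16 * z + (-17 ^ (ell - 1)) ^ (ell + 1), ?_, ?_⟩
  · have h1 : (-17 ^ (ell - 1) : ℤ) ^ (ell + 1) = (17 ^ (ell - 1)) ^ (ell + 1) :=
      Even.neg_pow ⟨m + 1, by omega⟩ _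
    rw [h1, ← pow_mul]
    have h2 : (17 : ℤ) ^ ((ell - 1) * (ell + 1)) ≡ 1 ^ ((ell - 1) * (ell + 1)) [ZMOD 16] :=
      Int.ModEq.pow _ (by decide)
    rw [one_pow] at h2
    have h3 : (16 * z : ℤ) ≡ 0 [ZMOD 16] := Int.modEq_zero_iff_dvd.2 (dvd_mul_right _ _)
    simpa using h3.add h2
  · intro F _ _ hs
    rw [hF F hs, hq']
    push_cast
    ring

end SSP
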