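import Pool.Agent.SSP.Defs
import Pool.Agent.SSP.IsoIds

set_option autoImplicit false

namespace SSP

open Polynomial

variable {F : Type*} [Field F] [IsAlgClosed F] (l : F)

/-- I2. -/
theorem one_sub_rho (h2 : (2 : F) ≠ 0) (hl0 : l ≠ 0) (hl1 : l ≠ 1) (ell : ℕ) (hp : ell.Prime)
    (hodd : Odd ell) (hell : (ell : F) ≠ 0) (S : Finset F) (hS : S ∈ XX l ell) :
    1 - rho l S = (1 - l) ^ (2 * S.card + 1) * ∏ t ∈ S, (t / (t - l)) ^ 4 := by
  obtain ⟨e1, e2, -, he, hr, ht⟩ := iso_ids l h2 hl0 hl1 ell hp hodd hell S hS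
  have f1 := congrArg (eval l) e1
  have f2 := congrArg (eval l) e2
  simp only [eval_sub, eval_mul, eval_pow, eval_X, eval_C, eval_one] at f1 f2
  have hH : eval l (hP S) ≠ 0 := by
    rw [hP, eval_prod]
    refine Finset.prod_ne_zero_iff.mpr fun t hts => ?_
    rw [eval_sub, eval_X, eval_C]
    exact sub_ne_zero.mpr (Ne.symm (ht t hts).2.2)
  have hg : eval l (g1P l S) ^ 2 =
      ((1 - l) ^ (2 * S.card) * ∏ t ∈ S, (t / (t - l)) ^ 4) *
        (eps l S ^ 2 * eval l (hP S) ^ 2) := by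
    rw [g1P, eps, hP, eval_prod, eval_prod, pow_mul, ← Finset.prod_const, ← Finset.prod_pow,
      ← Finset.prod_pow, ← Finset.prod_pow, ← Finset.prod_mul_distrib, ← Finset.prod_mul_distrib,
      ← Finset.prod_mul_distrib]
    refine Finset.prod_congr rfl fun t hts => ?_
    obtain ⟨ht0, ht1, htl⟩ := ht t hts
    have a1 : t - 1 ≠ 0 := sub_ne_zero.mpr ht1
    have a2 : t - l ≠ 0 := sub_ne_zero.mpr htl
    rw [eval_sub, eval_sub, eval_X, eval_C, eval_C]
    field_simp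
    ring
  have hne : eps l S ^ 2 * eval l (hP S) ^ 2 ≠ 0 :=
    mul_ne_zero (pow_ne_zero 2 he) (pow_ne_zero 2 hH)
  apply mul_right_cancel₀ hne
  have h3 : (1 - rho l S) * (eps l S ^ 2 * eval l (hP S) ^ 2) =
      (1 - l) * eval l (g1P l S) ^ 2 := by
    linear_combination f2 - f1
  rw [h3, hg]
  ring

end SSP
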