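import Pool.Agent.SSP.Defs
import Pool.Agent.SSP.LadderBasic
import Pool.Agent.SSP.LadderDegree
import Pool.Agent.SSP.Torsion
import Pool.Agent.SSP.XXIff
import Pool.Agent.SSP.XXComb
import Pool.Agent.SSP.OneSubRho

set_option autoImplicit false
set_option linter.unusedSectionVars false
set_option linter.unusedVariables false

namespace SSP

open Polynomial

/-! ### A parity lemma -/

private theorem lf_parity {β : Type*} (A : Finset β) (φ : β → β) (w : β → ℕ)
    (hφ : ∀ S ∈ A, φ S ∈ A) (hinj : Function.Injective φ) (hw : ∀ S ∈ A, w (φ S) = w S)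
    (hodd : Odd (∑ S ∈ A, w S)) : ∃ S ∈ A, ∃ t : ℕ, Odd t ∧ φ^[t] S = S ∧ Odd (w S) := by
  classical
  rw [Finset.odd_sum_iff_odd_card_odd] at hodd
  set T : Finset β := A.filter (fun S => Odd (w S)) with hT
  have hmem : ∀ S ∈ T, φ S ∈ T := by
    intro S hS
    rw [hT, Finset.mem_filter] at hS ⊢
    exact ⟨hφ S hS.1, by rw [hw S hS.1]; exact hS.2⟩
  let f : T → T := fun S => ⟨φ S.1, hmem S.1 S.2⟩
  have hf : Function.Injective f := by
    intro S S' h
    exact Subtype.ext (hinj (congrArg Subtype.val h))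
  let e : Equiv.Perm T := Equiv.ofBijective f (Finite.injective_iff_bijective.mp hf)
  obtain ⟨k, m, hm, hkm⟩ := Nat.exists_eq_two_pow_mul_odd (n := orderOf e)
    (orderOf_pos e).ne'
  have he : ∀ n : ℕ, ∀ S : T, ((e ^ n) S : β) = φ^[n] S.1 := by
    intro n
    induction n with
    | zero => intro S; rfl
    | succ n ih =>
      intro S
      rw [pow_succ', Equiv.Perm.mul_apply, Function.iterate_succ_apply']
      change φ ((e ^ n) S : β) = _
      rw [ih]
  let g : Function.End T := fun S => (e ^ m) S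
  have hg : ∀ n : ℕ, g ^ n = (((e ^ m) ^ n : Equiv.Perm T) : T → T) := by
    intro n
    induction n with
    | zero => rfl
    | succ n ih =>
      funext S
      rw [pow_succ' g, pow_succ' (e ^ m)]
      change g ((g ^ n) S) = (e ^ m) (((e ^ m) ^ n) S)
      rw [ih]
  have hg1 : g ^ 2 ^ k = 1 := by
    rw [hg, ← pow_mul, mul_comm, ← hkm, pow_orderOf_eq_one]
    rfl
  have : Fact (Nat.Prime 2) := ⟨Nat.prime_two⟩
  have h1 := Equiv.Perm.card_fixedPoints_modEq (p := 2) hg1
  have h2 : Fintype.card T = T.card := Fintype.card_coe T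
  have h3 : 0 < Fintype.card (Function.fixedPoints g) := by
    rcases Nat.eq_zero_or_pos (Fintype.card (Function.fixedPoints g)) with h | h
    · rw [h, h2] at h1
      have h4 : T.card % 2 = 0 := h1
      have h5 : T.card % 2 = 1 := Nat.odd_iff.mp hodd
      omega
    · exact h
  obtain ⟨⟨S, hS⟩⟩ := Fintype.card_pos_iff.mp h3
  have hS' : (e ^ m) S = S := hS
  refine ⟨S.1, (Finset.mem_filter.mp S.2).1, m, hm, ?_, (Finset.mem_filter.mp S.2).2⟩
  rw [← he m S, hS']

/-! ### Naturality -/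

private theorem lf_xl {S T : Type*} [CommRing S] [CommRing T] (f : S →+* T) (l x : S) (n : ℕ) :
    xl (f l) (f x) n = (f (xl l x n).1, f (xl l x n).2) := by
  unfold xl
  rw [← xd_map f]
  congr 1 <;> simp [map_ofNat]

private theorem lf_Bmap {S T : Type*} [CommRing S] [CommRing T] (f : S →+* T) (l : S) (n : ℕ) :
    Bpol (f l) n = (Bpol l n).map f := by
  unfold Bpol
  have h := lf_xl (mapRingHom f) (C l) (X : S[X]) n
  rw [coe_mapRingHom, map_C, map_X] at h
  rw [h]

private theorem lf_Beval {S : Type*} [CommRing S] (l x : S) (n : ℕ) :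
    (Bpol l n).eval x = (xl l x n).2 := by
  unfold Bpol
  have h := lf_xl (evalRingHom x) (C l) (X : S[X]) n
  rw [coe_evalRingHom, eval_C, eval_X] at h
  rw [h]

private theorem lf_Bsqrt {R : Type*} [CommRing R] [Nontrivial R] (l : R) {ell : ℕ}
    (hodd : Odd ell) : ∃ d : R[X], Bpol l ell = d ^ 2 ∧
      d.natDegree ≤ (ell ^ 2 - 1) / 2 ∧ d.coeff ((ell ^ 2 - 1) / 2) = (ell : R) := by
  obtain ⟨m, hm⟩ := hodd
  obtain ⟨d, h1, h2, h3⟩ := xd_sqrt (-4 * (1 + l)) (2 * l) (-l ^ 2) m
  refine ⟨d, ?_, ?_, ?_⟩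
  · rw [← h1, ← hm]
    unfold Bpol xl
    congr 1
    simp [map_mul, map_add, map_neg, map_pow, map_ofNat]
  · rw [hm]; exact h2
  · rw [hm, h3]; push_cast; ring

private theorem lf_Bne {F : Type*} [Field F] (l : F) {ell : ℕ} (hodd : Odd ell)
    (hell : (ell : F) ≠ 0) : Bpol l ell ≠ 0 := by
  obtain ⟨d, h1, h2, h3⟩ := lf_Bsqrt l hodd
  rw [h1]
  refine pow_ne_zero 2 ?_
  rintro rfl
  rw [coeff_zero] at h3
  exact hell h3.symm

private theorem lf_mem_rts {F : Type*} [Field F] {l : F} {ell : ℕ} (hodd : Odd ell)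
    (hell : (ell : F) ≠ 0) (t : F) : t ∈ rts l ell ↔ (xl l t ell).2 = 0 := by
  classical
  unfold rts
  rw [Multiset.mem_toFinset, mem_roots (lf_Bne l hodd hell), IsRoot.def, lf_Beval]

/-! ### The rings -/

private abbrev lfK (p : ℕ) [Fact p.Prime] : Type := AlgebraicClosure (ZMod p)
private abbrev lfW (p : ℕ) [Fact p.Prime] : Type := WittVector p (lfK p)
private abbrev lfF (p : ℕ) [Fact p.Prime] : Type := AlgebraicClosure (FractionRing (lfW p))

section rings
variable (p : ℕ) [Fact p.Prime]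

private theorem lf_unit (x : lfW p) (h : WittVector.constantCoeff x ≠ 0) : IsUnit x :=
  WittVector.isUnit_of_coeff_zero_ne_zero x h

private theorem lf_natCast_ne {n : ℕ} (hn : ¬ p ∣ n) : (n : lfK p) ≠ 0 := by
  intro h
  exact hn ((CharP.cast_eq_zero_iff (lfK p) p n).mp h)

private theorem lf_natCast_unit {n : ℕ} (hn : ¬ p ∣ n) : IsUnit (n : lfW p) := by
  refine lf_unit p _ ?_
  rw [map_natCast]
  exact lf_natCast_ne p hn

private theorem lf_p_prime : Prime (p : lfW p) := (WittVector.irreducible p).prime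

private theorem lf_charZero : CharZero (lfW p) := by
  refine charZero_of_inj_zero fun n hn => ?_
  by_contra h0
  obtain ⟨a, m, hm, rfl⟩ := Nat.exists_eq_pow_mul_and_not_dvd h0 p (Fact.out : p.Prime).ne_one
  rw [Nat.cast_mul, Nat.cast_pow] at hn
  rcases mul_eq_zero.mp hn with h | h
  · exact pow_ne_zero a (lf_p_prime p).ne_zero h
  · exact (lf_natCast_unit p hm).ne_zero h

end rings

/-! ### The abstract lifting argument -/

section abs
variable {k W F : Type} [Field k] [IsAlgClosed k] [CommRing W] [IsDomain W] [Field F]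
  [IsAlgClosed F]

/-- lifts of the roots -/
private theorem lf_roots (π : W →+* k) (j : W →+* F) (hj : Function.Injective j)
    (hunit : ∀ x, π x ≠ 0 → IsUnit x)
    (hhens : ∀ f : W[X], f.Monic → ∀ r : k, (f.map π).eval r = 0 →
      (derivative (f.map π)).eval r ≠ 0 → ∃ w, f.eval w = 0 ∧ π w = r)
    (l : W) {ell : ℕ} (hodd : Odd ell) (h2 : (2 : k) ≠ 0) (hl0 : π l ≠ 0) (hl1 : π l ≠ 1)
    (hell : (ell : k) ≠ 0) (h2F : (2 : F) ≠ 0) (hellF : (ell : F) ≠ 0) :
    ∃ lf : k → W, (∀ r ∈ rts (π l) ell, π (lf r) = r ∧ (xl l (lf r) ell).2 = 0) ∧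
      (∀ w : W, j w ∈ rts (j l) ell → π w ∈ rts (π l) ell ∧ w = lf (π w)) ∧
      (∀ x ∈ rts (j l) ell, ∃ r ∈ rts (π l) ell, x = j (lf r)) := by
  classical
  have hjl0 : j l ≠ 0 := by
    intro h
    have : l = 0 := hj (by rw [h, map_zero])
    exact hl0 (by rw [this, map_zero])
  have hjl1 : j l ≠ 1 := by
    intro h
    have : l = 1 := hj (by rw [h, map_one])
    exact hl1 (by rw [this, map_one])
  obtain ⟨hcard, -⟩ := rts_card (π l) h2 hl0 hl1 ell hodd hell
  obtain ⟨hcardF, -⟩ := rts_card (j l) h2F hjl0 hjl1 ell hodd hellF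
  have hex : ∀ r ∈ rts (π l) ell, ∃ w : W, π w = r ∧ (xl l w ell).2 = 0 := by
    obtain ⟨d, hd1, hd2, hd3⟩ := lf_Bsqrt l hodd
    have hu : IsUnit (ell : W) := hunit _ (by rw [map_natCast]; exact hell)
    obtain ⟨u, hu⟩ := hu
    set f : W[X] := C (↑u⁻¹ : W) * d with hf
    have hfdeg : f.natDegree ≤ (ell ^ 2 - 1) / 2 := (natDegree_C_mul_le _ _).trans hd2
    have hfc : f.coeff ((ell ^ 2 - 1) / 2) = 1 := by
      rw [hf, coeff_C_mul, hd3, ← hu, Units.inv_mul]
    have hfm : f.Monic := monic_of_natDegree_le_of_coeff_eq_one _ hfdeg hfc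
    have hfn : f.natDegree = (ell ^ 2 - 1) / 2 :=
      natDegree_eq_of_le_of_coeff_ne_zero hfdeg (by rw [hfc]; exact one_ne_zero)
    have hgn : (f.map π).natDegree = (ell ^ 2 - 1) / 2 := by
      rw [hfm.natDegree_map, hfn]
    have hg0 : f.map π ≠ 0 := (hfm.map π).ne_zero
    have hdf : ∀ r : k, (f.map π).eval r = π (↑u⁻¹ : W) * (d.map π).eval r := by
      intro r
      rw [hf, Polynomial.map_mul, map_C, eval_mul, eval_C]
    have hu0 : π (↑u⁻¹ : W) ≠ 0 := by
      intro h
      have h1 : π ((↑u⁻¹ : W) * ↑u) = 0 := by rw [map_mul, h, zero_mul]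
      rw [Units.inv_mul, map_one] at h1
      exact one_ne_zero h1
    have hiff : ∀ r : k, (f.map π).eval r = 0 ↔ r ∈ rts (π l) ell := by
      intro r
      rw [lf_mem_rts hodd hell, ← lf_Beval, lf_Bmap π, hd1, Polynomial.map_pow, eval_pow, hdf r,
        pow_eq_zero_iff (two_ne_zero), mul_eq_zero, or_iff_right hu0]
    have hroots : (f.map π).roots.toFinset = rts (π l) ell := by
      ext r
      rw [Multiset.mem_toFinset, mem_roots hg0, IsRoot.def, hiff]
    have hnodup : (f.map π).roots.Nodup := by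
      rw [← Multiset.toFinset_card_eq_card_iff_nodup]
      refine le_antisymm (Multiset.toFinset_card_le _) ?_
      rw [hroots, hcard, ← hgn]
      exact card_roots' _
    intro r hr
    have hr0 := (hiff r).mpr hr
    have hder : (derivative (f.map π)).eval r ≠ 0 := by
      intro hcon
      have h1 := (one_lt_rootMultiplicity_iff_isRoot (p := f.map π) (t := r) hg0).mpr ⟨hr0, hcon⟩
      rw [← count_roots] at h1
      have h2 := Multiset.nodup_iff_count_le_one.mp hnodup r
      omega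
    obtain ⟨w, hw1, hw2⟩ := hhens f hfm r hr0 hder
    refine ⟨w, hw2, ?_⟩
    rw [← lf_Beval, hd1, eval_pow]
    have h3 : (↑u⁻¹ : W) * d.eval w = 0 := by
      rw [← hw1, hf, eval_mul, eval_C]
    have h4 : d.eval w = 0 := by
      rcases mul_eq_zero.mp h3 with h | h
      · exact absurd h (Units.ne_zero _)
      · exact h
    rw [h4]
    ring
  choose! lf hlf1 hlf2 using hex
  have hinj : Set.InjOn (fun r => j (lf r)) (rts (π l) ell : Set k) := by
    intro r hr r' hr' h
    have h1 : lf r = lf r' := hj h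
    rw [← hlf1 r hr, ← hlf1 r' hr', h1]
  have himg : (rts (π l) ell).image (fun r => j (lf r)) = rts (j l) ell := by
    refine Finset.eq_of_subset_of_card_le ?_ ?_
    · intro x hx
      obtain ⟨r, hr, rfl⟩ := Finset.mem_image.mp hx
      rw [lf_mem_rts hodd hellF, lf_xl j, hlf2 r hr, map_zero]
    · rw [Finset.card_image_of_injOn hinj, hcard, hcardF]
  refine ⟨lf, fun r hr => ⟨hlf1 r hr, hlf2 r hr⟩, ?_, ?_⟩
  · intro w hw
    rw [← himg] at hw
    obtain ⟨r, hr, hrw⟩ := Finset.mem_image.mp hw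
    have h1 : lf r = w := hj hrw
    have h2 : π w = r := by rw [← h1, hlf1 r hr]
    rw [h2]
    exact ⟨hr, h1.symm⟩
  · intro x hx
    rw [← himg] at hx
    obtain ⟨r, hr, hrw⟩ := Finset.mem_image.mp hx
    exact ⟨r, hr, hrw.symm⟩

/-- the transfer of `XX` -/
private theorem lf_XX (π : W →+* k) (j : W →+* F) (hj : Function.Injective j)
    (hunit : ∀ x, π x ≠ 0 → IsUnit x)
    (l : W) {ell : ℕ} (hp : ell.Prime) (hodd : Odd ell) (h2 : (2 : k) ≠ 0) (hl0 : π l ≠ 0)
    (hl1 : π l ≠ 1) (hell : (ell : k) ≠ 0) (h2F : (2 : F) ≠ 0) (hellF : (ell : F) ≠ 0)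
    (lf : k → W) (hlf : ∀ r ∈ rts (π l) ell, π (lf r) = r ∧ (xl l (lf r) ell).2 = 0)
    (hlf2 : ∀ w : W, j w ∈ rts (j l) ell → π w ∈ rts (π l) ell ∧ w = lf (π w))
    (hlf3 : ∀ x ∈ rts (j l) ell, ∃ r ∈ rts (π l) ell, x = j (lf r)) :
    (open Classical in XX (j l) ell =
      (XX (π l) ell).image (fun S => S.image (fun r => j (lf r)))) := by
  classical
  have hjl0 : j l ≠ 0 := by
    intro h
    have : l = 0 := hj (by rw [h, map_zero])
    exact hl0 (by rw [this, map_zero])
  have hjl1 : j l ≠ 1 := by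
    intro h
    have : l = 1 := hj (by rw [h, map_one])
    exact hl1 (by rw [this, map_one])
  obtain ⟨-, k2, k3, k4, k5⟩ := XX_comb (π l) h2 hl0 hl1 ell hp hodd hell
  obtain ⟨-, f2, f3, f4, f5⟩ := XX_comb (j l) h2F hjl0 hjl1 ell hp hodd hellF
  have hmemF : ∀ r ∈ rts (π l) ell, j (lf r) ∈ rts (j l) ell := by
    intro r hr
    rw [lf_mem_rts hodd hellF, lf_xl j, (hlf r hr).2, map_zero]
  have key : ∀ r ∈ rts (π l) ell, Sx (j l) ell (j (lf r)) =
      (Sx (π l) ell r).image (fun r => j (lf r)) := by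
    intro r hr
    unfold Sx
    rw [Finset.image_image]
    refine Finset.image_congr ?_
    intro n hn
    have hn' : n ∈ Finset.Icc 1 ((ell - 1) / 2) := hn
    have h1 : π (xl l (lf r) n).2 ≠ 0 := by
      have h := lf_xl π l (lf r) n
      rw [(hlf r hr).1] at h
      have h' := k5 r hr n hn'
      rw [h] at h'
      exact h'
    obtain ⟨u, hu⟩ := hunit _ h1
    set c : W := (xl l (lf r) n).1 * (↑u⁻¹ : W) with hc
    have hcu : c * (xl l (lf r) n).2 = (xl l (lf r) n).1 := by
      rw [hc, ← hu, mul_assoc, Units.inv_mul, mul_one]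
    have hju : j (xl l (lf r) n).2 ≠ 0 := by
      intro h
      have h3 : (xl l (lf r) n).2 = 0 := hj (by rw [h, map_zero])
      exact h1 (by rw [h3, map_zero])
    have hjc : xm (j l) (j (lf r)) n = j c := by
      unfold xm
      rw [lf_xl j, div_eq_iff hju, ← map_mul, hcu]
    have hπc : xm (π l) r n = π c := by
      unfold xm
      have h := lf_xl π l (lf r) n
      rw [(hlf r hr).1] at h
      rw [h, div_eq_iff h1, ← map_mul, hcu]
    have hcm : j c ∈ rts (j l) ell := by
      have h3 : Sx (j l) ell (j (lf r)) ∈ XX (j l) ell :=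
        Finset.mem_image.mpr ⟨_, hmemF r hr, rfl⟩
      refine (f2 _ h3).2 ?_
      unfold Sx
      exact Finset.mem_image.mpr ⟨n, hn', hjc⟩
    obtain ⟨-, h5⟩ := hlf2 c hcm
    simp only [Function.comp_apply]
    rw [hjc, hπc, ← h5]
  unfold XX
  ext T
  simp only [Finset.mem_image]
  constructor
  · rintro ⟨x, hx, rfl⟩
    obtain ⟨r, hr, rfl⟩ := hlf3 x hx
    exact ⟨Sx (π l) ell r, ⟨r, hr, rfl⟩, (key r hr).symm⟩
  · rintro ⟨S, ⟨r, hr, rfl⟩, rfl⟩
    exact ⟨j (lf r), hmemF r hr, key r hr⟩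

/-- the factors of the integer, in `W` -/
private noncomputable def lfa (l : W) (ell : ℕ) (lf : k → W) (S : Finset k) : W :=
  17 ^ ell * (l ^ (2 * S.card + 1) * ∏ t ∈ S, ((lf t - 1) * Ring.inverse (lf t - l)) ^ 4)
    - 17 ^ (ell - 1)

private theorem lf_inverse_map {A B : Type} [CommRing A] [Field B] (f : A →+* B) {x : A}
    (hx : IsUnit x) : f (Ring.inverse x) = (f x)⁻¹ := by
  have h : f (Ring.inverse x) * f x = 1 := by
    rw [← map_mul, Ring.inverse_mul_cancel x hx, map_one]
  exact eq_inv_of_mul_eq_one_left h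

private theorem lf_a (π : W →+* k) (j : W →+* F) (hj : Function.Injective j)
    (hunit : ∀ x, π x ≠ 0 → IsUnit x)
    (l : W) {ell : ℕ} (hp : ell.Prime) (hodd : Odd ell) (h2 : (2 : k) ≠ 0) (hl0 : π l ≠ 0)
    (hl1 : π l ≠ 1) (hell : (ell : k) ≠ 0) (h2F : (2 : F) ≠ 0) (hellF : (ell : F) ≠ 0)
    (lf : k → W) (hlf : ∀ r ∈ rts (π l) ell, π (lf r) = r ∧ (xl l (lf r) ell).2 = 0)
    (hlf2 : ∀ w : W, j w ∈ rts (j l) ell → π w ∈ rts (π l) ell ∧ w = lf (π w))
    (hlf3 : ∀ x ∈ rts (j l) ell, ∃ r ∈ rts (π l) ell, x = j (lf r)) :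
    (∀ S ∈ XX (π l) ell, π (lfa l ell lf S) = 17 ^ ell * rho (π l) S - 17 ^ (ell - 1)) ∧
    ∏ S ∈ XX (j l) ell, (17 ^ ell * rho (j l) S - 17 ^ (ell - 1)) =
      j (∏ S ∈ XX (π l) ell, lfa l ell lf S) := by
  classical
  obtain ⟨-, k2, k3, k4, k5⟩ := XX_comb (π l) h2 hl0 hl1 ell hp hodd hell
  obtain ⟨-, hrt⟩ := rts_card (π l) h2 hl0 hl1 ell hodd hell
  have hun : ∀ t ∈ rts (π l) ell, IsUnit (lf t - l) := by
    intro t ht
    refine hunit _ ?_
    rw [map_sub, (hlf t ht).1]
    exact sub_ne_zero.mpr (hrt t ht).2.2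
  have hinj : Set.InjOn (fun r => j (lf r)) (rts (π l) ell : Set k) := by
    intro r hr r' hr' h
    have h1 : lf r = lf r' := hj h
    rw [← (hlf r hr).1, ← (hlf r' hr').1, h1]
  constructor
  · intro S hS
    unfold lfa rho
    rw [map_sub, map_mul, map_mul, map_pow, map_pow, map_pow, map_prod, map_ofNat]
    congr 3
    refine Finset.prod_congr rfl fun t ht => ?_
    have ht' := (k2 S hS).2 ht
    rw [map_pow, map_mul, map_sub, map_one, lf_inverse_map π (hun t ht'), map_sub, (hlf t ht').1,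
      div_eq_mul_inv]
  · rw [lf_XX π j hj hunit l hp hodd h2 hl0 hl1 hell h2F hellF lf hlf hlf2 hlf3]
    rw [Finset.prod_image, map_prod]
    · refine Finset.prod_congr rfl fun S hS => ?_
      have hinjS : Set.InjOn (fun r => j (lf r)) (S : Set k) :=
        hinj.mono (by exact_mod_cast (k2 S hS).2)
      unfold lfa rho
      rw [map_sub, map_mul, map_mul, map_pow, map_pow, map_pow, map_prod, map_ofNat,
        Finset.card_image_of_injOn hinjS, Finset.prod_image hinjS]
      congr 3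
      refine Finset.prod_congr rfl fun t ht => ?_
      have ht' := (k2 S hS).2 ht
      rw [map_pow, map_mul, map_sub, map_one, lf_inverse_map j (hun t ht'), map_sub,
        div_eq_mul_inv]
    · intro S hS S' hS' h
      have hS1 : S ⊆ rts (π l) ell := (k2 S hS).2
      have hS2 : S' ⊆ rts (π l) ell := (k2 S' hS').2
      have h' : S.image (fun r => j (lf r)) = S'.image (fun r => j (lf r)) := h
      ext t
      constructor
      · intro ht
        have h1 : j (lf t) ∈ S'.image (fun r => j (lf r)) := by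
          rw [← h']; exact Finset.mem_image_of_mem _ ht
        obtain ⟨t', ht', he⟩ := Finset.mem_image.mp h1
        have h3 : t' = t := hinj (hS2 ht') (hS1 ht) he
        rw [← h3]; exact ht'
      · intro ht
        have h1 : j (lf t) ∈ S.image (fun r => j (lf r)) := by
          rw [h']; exact Finset.mem_image_of_mem _ ht
        obtain ⟨t', ht', he⟩ := Finset.mem_image.mp h1
        have h3 : t' = t := hinj (hS1 ht') (hS2 ht) he
        rw [← h3]; exact ht'

/-- Frobenius -/
private theorem lf_frob (π : W →+* k) (j : W →+* F) (hj : Function.Injective j)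
    (hunit : ∀ x, π x ≠ 0 → IsUnit x)
    (σ : W →+* W) (φ : k →+* k) (hσ : ∀ x, π (σ x) = φ (π x))
    (l : W) (hσl : σ l = l) {ell : ℕ} (hp : ell.Prime) (hodd : Odd ell) (h2 : (2 : k) ≠ 0)
    (hl0 : π l ≠ 0)
    (hl1 : π l ≠ 1) (hell : (ell : k) ≠ 0) (hellF : (ell : F) ≠ 0)
    (lf : k → W) (hlf : ∀ r ∈ rts (π l) ell, π (lf r) = r ∧ (xl l (lf r) ell).2 = 0)
    (hlf2 : ∀ w : W, j w ∈ rts (j l) ell → π w ∈ rts (π l) ell ∧ w = lf (π w)) :
    (open Classical in ∀ S ∈ XX (π l) ell, S.image φ ∈ XX (π l) ell ∧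
      σ (lfa l ell lf S) = lfa l ell lf (S.image φ)) := by
  classical
  obtain ⟨-, k2, k3, k4, k5⟩ := XX_comb (π l) h2 hl0 hl1 ell hp hodd hell
  obtain ⟨-, hrt⟩ := rts_card (π l) h2 hl0 hl1 ell hodd hell
  have hφl : φ (π l) = π l := by rw [← hσ, hσl]
  have hun : ∀ t ∈ rts (π l) ell, IsUnit (lf t - l) := by
    intro t ht
    refine hunit _ ?_
    rw [map_sub, (hlf t ht).1]
    exact sub_ne_zero.mpr (hrt t ht).2.2
  have hφ : ∀ t ∈ rts (π l) ell, φ t ∈ rts (π l) ell ∧ σ (lf t) = lf (φ t) := by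
    intro t ht
    have h1 : j (σ (lf t)) ∈ rts (j l) ell := by
      rw [lf_mem_rts hodd hellF, lf_xl j]
      have h3 := lf_xl σ l (lf t) ell
      rw [hσl, (hlf t ht).2, map_zero] at h3
      rw [h3, map_zero]
    obtain ⟨h4, h5⟩ := hlf2 _ h1
    rw [hσ, (hlf t ht).1] at h4 h5
    exact ⟨h4, h5⟩
  intro S hS
  have hSr : S ⊆ rts (π l) ell := (k2 S hS).2
  constructor
  · obtain ⟨t, ht, rfl⟩ := Finset.mem_image.mp hS
    refine Finset.mem_image.mpr ⟨φ t, (hφ t ht).1, ?_⟩
    unfold Sx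
    rw [Finset.image_image]
    refine Finset.image_congr ?_
    intro n _
    simp only [Function.comp_apply]
    unfold xm
    rw [map_div₀]
    have h3 := lf_xl φ (π l) t n
    rw [hφl] at h3
    rw [h3]
  · unfold lfa
    rw [map_sub, map_mul, map_mul, map_pow, map_pow, map_pow, map_prod, map_ofNat, hσl,
      Finset.card_image_of_injective _ φ.injective, Finset.prod_image (φ.injective.injOn)]
    congr 3
    refine Finset.prod_congr rfl fun t ht => ?_
    obtain ⟨h3, h4⟩ := hφ t (hSr ht)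
    have h5 : σ (Ring.inverse (lf t - l)) = Ring.inverse (lf (φ t) - l) := by
      have h6 := Ring.inverse_mul_cancel _ (hun t (hSr ht))
      have h7 := congrArg σ h6
      rw [map_mul, map_one, map_sub, hσl, h4] at h7
      have h8 := Ring.mul_inverse_cancel _ (hun _ h3)
      calc σ (Ring.inverse (lf t - l)) = σ (Ring.inverse (lf t - l)) * ((lf (φ t) - l) *
            Ring.inverse (lf (φ t) - l)) := by rw [h8, mul_one]
        _ = Ring.inverse (lf (φ t) - l) := by rw [← mul_assoc, h7, one_mul]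
    rw [map_pow, map_mul, map_sub, map_one, h5, h4]

end abs

/-! ### Witt vectors -/

section witt
variable (p : ℕ) [Fact p.Prime]

private theorem lf_hens (f : (lfW p)[X]) (hf : f.Monic) (r : lfK p)
    (h1 : (f.map (WittVector.constantCoeff : lfW p →+* lfK p)).eval r = 0)
    (h2 : (derivative (f.map (WittVector.constantCoeff : lfW p →+* lfK p))).eval r ≠ 0) :
    ∃ w, f.eval w = 0 ∧ WittVector.constantCoeff w = r := by
  set a₀ : lfW p := WittVector.teichmuller p r with ha₀
  have hπ : (WittVector.constantCoeff a₀ : lfK p) = r := WittVector.teichmuller_coeff_zero p r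
  have h3 : eval a₀ f ∈ Ideal.span {(p : lfW p)} := by
    rw [WittVector.mem_span_p_iff_coeff_zero_eq_zero]
    change WittVector.constantCoeff (eval a₀ f) = 0
    rw [← hπ, eval_map, eval₂_hom] at h1
    exact h1
  have h4 : IsUnit ((Ideal.Quotient.mk (Ideal.span {(p : lfW p)})) (eval a₀ (derivative f))) := by
    refine IsUnit.map _ (lf_unit p _ ?_)
    rw [← hπ, derivative_map, eval_map, eval₂_hom] at h2
    exact h2
  obtain ⟨a, ha1, ha2⟩ := HenselianRing.is_henselian f hf a₀ h3 h4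
  refine ⟨a, ha1, ?_⟩
  rw [WittVector.mem_span_p_iff_coeff_zero_eq_zero] at ha2
  change WittVector.constantCoeff (a - a₀) = 0 at ha2
  rw [map_sub, sub_eq_zero] at ha2
  rw [ha2, hπ]

private theorem lf_emult (N : ℤ) (hN : N ≠ 0) :
    emultiplicity (p : lfW p) ((N : ℤ) : lfW p) = (padicValInt p N : ℕ∞) := by
  obtain ⟨m, hm⟩ := padicValInt_dvd (p := p) N
  set v := padicValInt p N with hv
  have hpm : ¬ (p : ℤ) ∣ m := by
    rintro ⟨c, hc⟩
    have h1 : (p : ℤ) ^ (v + 1) ∣ N := ⟨c, by rw [hm, hc]; ring⟩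
    rw [padicValInt_dvd_iff] at h1
    rcases h1 with h | h
    · exact hN h
    · omega
  refine emultiplicity_eq_of_dvd_of_not_dvd ?_ ?_
  · refine ⟨(m : lfW p), ?_⟩
    rw [hm]
    push_cast
    rfl
  · rintro ⟨c, hc⟩
    have h1 : (p : lfW p) ^ v * (m : lfW p) = (p : lfW p) ^ v * ((p : lfW p) * c) := by
      have h2 : ((N : ℤ) : lfW p) = (p : lfW p) ^ v * (m : lfW p) := by
        conv_lhs => rw [hm]
        push_cast
        rfl
      rw [← h2, hc]
      ring
    have h3 := mul_left_cancel₀ (pow_ne_zero v (lf_p_prime p).ne_zero) h1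
    have h4 := congrArg (WittVector.constantCoeff : lfW p →+* lfK p) h3
    rw [map_mul, map_natCast, map_intCast, CharP.cast_eq_zero, zero_mul] at h4
    exact hpm ((CharP.intCast_eq_zero_iff (lfK p) p m).mp h4)

end witt

/-- N4 (lifting from characteristic `p`). -/
theorem lift (p ell : ℕ) [Fact p.Prime] (hp2 : p ≠ 2) (hp17 : p ≠ 17) (hp : ell.Prime)
    (hodd : Odd ell) (hne : ell ≠ p) (N : ℤ) (hN : N ≠ 0)
    (hNZ : ∀ (F : Type) [Field F] [CharZero F],
      (Bpol (16 / 17 : F) ell).Splits → NZ F ell = (N : F))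
    (hv : Odd (padicValInt p N)) :
    ∃ S ∈ XX (16 / 17 : AlgebraicClosure (ZMod p)) ell, ∃ t : ℕ, Odd t ∧
      (∀ x ∈ S, x ^ (p ^ t) ∈ S) ∧ rho (16 / 17) S = 1 - 16 / 17 := by
  classical
  have hpp : p.Prime := Fact.out
  have hd2 : ¬ p ∣ 2 := fun h => hp2 ((Nat.prime_dvd_prime_iff_eq hpp Nat.prime_two).mp h)
  have hd17 : ¬ p ∣ 17 := fun h => hp17 ((Nat.prime_dvd_prime_iff_eq hpp (by norm_num)).mp h)
  have hdell : ¬ p ∣ ell := fun h => hne ((Nat.prime_dvd_prime_iff_eq hpp hp).mp h).symm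
  have h2 : (2 : lfK p) ≠ 0 := by exact_mod_cast lf_natCast_ne p hd2
  have h17 : (17 : lfK p) ≠ 0 := by exact_mod_cast lf_natCast_ne p hd17
  have hell : (ell : lfK p) ≠ 0 := lf_natCast_ne p hdell
  have h16 : (16 : lfK p) ≠ 0 := by
    have : (16 : lfK p) = 2 ^ 4 := by norm_num
    rw [this]
    exact pow_ne_zero 4 h2
  -- the rings
  have hcz : CharZero (lfW p) := lf_charZero p
  have hczQ : CharZero (FractionRing (lfW p)) :=
    charZero_of_injective_algebraMap (IsFractionRing.injective (lfW p) (FractionRing (lfW p)))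
  have hczF : CharZero (lfF p) :=
    charZero_of_injective_algebraMap
      (algebraMap (FractionRing (lfW p)) (lfF p)).injective
  let π : lfW p →+* lfK p := WittVector.constantCoeff
  let j : lfW p →+* lfF p :=
    (algebraMap (FractionRing (lfW p)) (lfF p)).comp (algebraMap (lfW p) (FractionRing (lfW p)))
  have hj : Function.Injective j :=
    (algebraMap (FractionRing (lfW p)) (lfF p)).injective.comp
      (IsFractionRing.injective (lfW p) (FractionRing (lfW p)))
  have hunit : ∀ x, π x ≠ 0 → IsUnit x := fun x hx => lf_unit p x hx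
  obtain ⟨u, hu⟩ : IsUnit ((17 : ℕ) : lfW p) := lf_natCast_unit p hd17
  set l : lfW p := 16 * (↑u⁻¹ : lfW p) with hl
  have hl17 : (17 : lfW p) * l = 16 := by
    have h1 : (17 : lfW p) = (u : lfW p) := by rw [hu]; norm_num
    rw [hl, h1, mul_comm (16 : lfW p), ← mul_assoc, Units.mul_inv, one_mul]
  have hπl : π l = 16 / 17 := by
    have h1 := congrArg π hl17
    rw [map_mul, map_ofNat, map_ofNat] at h1
    rw [eq_div_iff h17, mul_comm]
    exact h1
  have hjl : j l = 16 / 17 := by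
    have h1 := congrArg j hl17
    rw [map_mul, map_ofNat, map_ofNat] at h1
    rw [eq_div_iff (by norm_num), mul_comm]
    exact h1
  have hl0 : π l ≠ 0 := by rw [hπl]; exact div_ne_zero h16 h17
  have hl1 : π l ≠ 1 := by
    rw [hπl]
    intro h
    rw [div_eq_one_iff_eq h17] at h
    have h3 : (17 : lfK p) - 16 = 0 := by rw [← h]; ring
    norm_num at h3
  have h2F : (2 : lfF p) ≠ 0 := two_ne_zero
  have hellF : (ell : lfF p) ≠ 0 := Nat.cast_ne_zero.mpr hp.ne_zero
  obtain ⟨lf, hlf, hlf2, hlf3⟩ := lf_roots π j hj hunit (lf_hens p) l hodd h2 hl0 hl1 hell h2F hellF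
  obtain ⟨hA, hB⟩ := lf_a π j hj hunit l hp hodd h2 hl0 hl1 hell h2F hellF lf hlf hlf2 hlf3
  let σ : lfW p ≃+* lfW p := WittVector.frobeniusEquiv p (lfK p)
  have hσ : ∀ x, π (σ x) = frobenius (lfK p) p (π x) := fun x =>
    WittVector.coeff_frobenius_charP p x 0
  have hσl : σ l = l := by
    have h1 := congrArg σ hl17
    rw [map_mul, map_ofNat, map_ofNat] at h1
    have h3 : (17 : lfW p) ≠ 0 := by norm_num
    exact mul_left_cancel₀ h3 (h1.trans hl17.symm)
  have hC := lf_frob π j hj hunit (σ : lfW p →+* lfW p) (frobenius (lfK p) p) hσ l hσl hp hodd h2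
    hl0 hl1 hell hellF lf hlf hlf2
  -- the integer
  have hprod : ((N : ℤ) : lfW p) = ∏ S ∈ XX (π l) ell, lfa l ell lf S := by
    apply hj
    rw [← hB, map_intCast]
    have h1 := hNZ (lfF p) (IsAlgClosed.splits _)
    rw [← h1]
    unfold NZ
    rw [hjl]
  have ha0 : ∀ S ∈ XX (π l) ell, lfa l ell lf S ≠ 0 := by
    intro S hS h0
    have h1 : ((N : ℤ) : lfW p) = 0 := by
      rw [hprod]
      exact Finset.prod_eq_zero hS h0
    exact hN (Int.cast_eq_zero.mp h1)
  have hpr := lf_p_prime p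
  have hfin : ∀ S ∈ XX (π l) ell, FiniteMultiplicity (p : lfW p) (lfa l ell lf S) :=
    fun S hS => FiniteMultiplicity.of_prime_left hpr (ha0 S hS)
  have hsum : ∑ S ∈ XX (π l) ell, multiplicity (p : lfW p) (lfa l ell lf S) = padicValInt p N := by
    have h1 := lf_emult p N hN
    rw [hprod, Finset.emultiplicity_prod hpr] at h1
    have h3 : ∑ S ∈ XX (π l) ell, emultiplicity (p : lfW p) (lfa l ell lf S) =
        ∑ S ∈ XX (π l) ell, (multiplicity (p : lfW p) (lfa l ell lf S) : ℕ∞) :=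
      Finset.sum_congr rfl fun S hS => (hfin S hS).emultiplicity_eq_multiplicity
    rw [h3] at h1
    exact_mod_cast h1
  obtain ⟨S, hS, t, ht, hSt, hSo⟩ := lf_parity (XX (π l) ell)
    (fun S => S.image (frobenius (lfK p) p))
    (fun S => multiplicity (p : lfW p) (lfa l ell lf S))
    (fun S hS => (hC S hS).1)
    (Finset.image_injective (frobenius (lfK p) p).injective)
    (fun S hS => by
      rw [← (hC S hS).2]
      have h1 : emultiplicity (σ (p : lfW p)) (σ (lfa l ell lf S)) =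
        emultiplicity (p : lfW p) (lfa l ell lf S) := emultiplicity_map_eq σ
      rw [map_natCast] at h1
      exact multiplicity_eq_of_emultiplicity_eq h1)
    (by rw [hsum]; exact hv)
  have hdvd : (p : lfW p) ∣ lfa l ell lf S := by
    have h1 : 1 ≤ multiplicity (p : lfW p) (lfa l ell lf S) := by
      rcases hSo with ⟨c, hc⟩
      omega
    have h3 := pow_dvd_of_le_multiplicity h1
    rwa [pow_one] at h3
  have hzero : π (lfa l ell lf S) = 0 := by
    obtain ⟨c, hc⟩ := hdvd
    rw [hc, map_mul, map_natCast, CharP.cast_eq_zero, zero_mul]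
  rw [hA S hS] at hzero
  have hpow : ∀ n : ℕ, (fun S : Finset (lfK p) => S.image (frobenius (lfK p) p))^[n] S =
      S.image (fun x => x ^ (p ^ n)) := by
    intro n
    induction n with
    | zero => simp
    | succ n ih =>
      rw [Function.iterate_succ_apply', ih, Finset.image_image]
      refine Finset.image_congr ?_
      intro x _
      simp only [Function.comp_apply, frobenius_def]
      rw [← pow_mul, pow_succ]
  rw [hπl] at hS hzero
  refine ⟨S, hS, t, ht, ?_, ?_⟩
  · intro x hx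
    rw [hpow] at hSt
    rw [← hSt]
    exact Finset.mem_image_of_mem _ hx
  · obtain ⟨e, rfl⟩ : ∃ e, ell = e + 1 := ⟨ell - 1, by have := hp.pos; omega⟩
    rw [Nat.add_sub_cancel, pow_succ, mul_assoc, ← mul_one ((17 : lfK p) ^ e), mul_assoc,
      ← mul_sub, mul_eq_zero] at hzero
    have h3 := hzero.resolve_left (pow_ne_zero e h17)
    rw [sub_eq_zero, one_mul] at h3
    have h5 : (1 : lfK p) - 16 / 17 = 1 / 17 := by
      rw [eq_div_iff h17, sub_mul, div_mul_cancel₀ _ h17]
      norm_num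
    rw [h5, eq_div_iff h17, mul_comm]
    exact h3

end SSP
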