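import Pool.Agent.SSP.Defs

set_option autoImplicit false

namespace SSP

open Polynomial

/-- N5 (a prime with odd valuation). -/
theorem exists_odd_prime (N : ℤ) (hN : N < 0) (h16 : N ≡ 1 [ZMOD 16]) :
    ∃ p : ℕ, p.Prime ∧ p % 4 = 3 ∧ Odd (padicValInt p N) := by
  by_contra hcon
  push Not at hcon
  have h4 : N.natAbs % 4 = 3 := by
    have h : N % 16 = 1 := h16
    omega
  have hsq : ∃ x y : ℕ, N.natAbs = x ^ 2 + y ^ 2 := by
    rw [Nat.eq_sq_add_sq_iff]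
    intro q hq hq4
    have h := hcon q (Nat.prime_of_mem_primeFactors hq) hq4
    rwa [Nat.not_odd_iff_even] at h
  obtain ⟨x, y, hxy⟩ := hsq
  have hx : x ^ 2 % 4 = 0 ∨ x ^ 2 % 4 = 1 := by
    have : x % 4 = 0 ∨ x % 4 = 1 ∨ x % 4 = 2 ∨ x % 4 = 3 := by omega
    rcases this with h | h | h | h <;> simp [Nat.pow_mod, h]
  have hy : y ^ 2 % 4 = 0 ∨ y ^ 2 % 4 = 1 := by
    have : y % 4 = 0 ∨ y % 4 = 1 ∨ y % 4 = 2 ∨ y % 4 = 3 := by omega
    rcases this with h | h | h | h <;> simp [Nat.pow_mod, h]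
  omega

end SSP
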