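import Pool.Agent.SSP.Defs
import Pool.Agent.SSP.LadderBasic
import Pool.Agent.SSP.LadderDegree
import Pool.Agent.SSP.Torsion
import Pool.Agent.SSP.XXComb
import Pool.Agent.SSP.OneSubRho

set_option autoImplicit false

namespace SSP

open Polynomial

/-- the ladder at a 2-torsion point -/
private theorem xd_two {S : Type*} [CommRing S] (b2 b4 b8 e u : S)
    (h1 : e ^ 4 - b4 * e ^ 2 - b8 = u ^ 2) (h2 : 4 * e ^ 3 + b2 * e ^ 2 + 2 * b4 * e = 0) (n : ℕ) :
    xd b2 b4 b8 e (2 * n) = (u ^ (2 * n ^ 2), 0) ∧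
      xd b2 b4 b8 e (2 * n + 1) = (u ^ (2 * n ^ 2 + 2 * n) * e, u ^ (2 * n ^ 2 + 2 * n)) := by
  induction n using Nat.strong_induction_on with
  | _ n ih =>
    rcases Nat.eq_zero_or_pos n with rfl | hn
    · constructor
      · simp [xd]
      · simp [xd]
    · obtain ⟨m, hm | hm⟩ : ∃ m, n = 2 * m ∨ n = 2 * m + 1 := ⟨n / 2, by omega⟩
      · obtain ⟨i1, i2⟩ := ih m (by omega)
        constructor
        · rw [xd_even, hm, i1]
          simp only [dbl]
          ext
          · simp; ring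
          · simp
        · rw [xd_odd _ _ _ _ n hn, hm, i1, i2]
          simp only [dadd]
          ext
          · simp; ring
          · simp; ring
      · obtain ⟨i1, i2⟩ := ih m (by omega)
        obtain ⟨j1, j2⟩ := ih (m + 1 - 1) (by omega)
        constructor
        · rw [xd_even, hm, i2]
          simp only [dbl]
          ext
          · simp only
            have : (u ^ (2 * m ^ 2 + 2 * m) * e) ^ 4 -
                b4 * (u ^ (2 * m ^ 2 + 2 * m) * e) ^ 2 * (u ^ (2 * m ^ 2 + 2 * m)) ^ 2 -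
                b8 * (u ^ (2 * m ^ 2 + 2 * m)) ^ 4 =
                (u ^ (2 * m ^ 2 + 2 * m)) ^ 4 * (e ^ 4 - b4 * e ^ 2 - b8) := by ring
            rw [this, h1]; ring
          · simp only
            have : 4 * (u ^ (2 * m ^ 2 + 2 * m) * e) ^ 3 * u ^ (2 * m ^ 2 + 2 * m) +
                b2 * (u ^ (2 * m ^ 2 + 2 * m) * e) ^ 2 * (u ^ (2 * m ^ 2 + 2 * m)) ^ 2 +
                2 * b4 * (u ^ (2 * m ^ 2 + 2 * m) * e) * (u ^ (2 * m ^ 2 + 2 * m)) ^ 3 =
                (u ^ (2 * m ^ 2 + 2 * m)) ^ 4 * (4 * e ^ 3 + b2 * e ^ 2 + 2 * b4 * e) := by ring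
            rw [this, h2]; ring
        · rw [xd_odd _ _ _ _ n hn]
          have e1 : n + 1 = 2 * (m + 1) := by omega
          have k : xd b2 b4 b8 e (n + 1) = (u ^ (2 * (m + 1) ^ 2), 0) := by
            rw [e1]
            rcases Nat.lt_or_ge (m + 1) n with h | h
            · exact (ih (m + 1) h).1
            · have : m = 0 := by omega
              subst this
              have : xd b2 b4 b8 e (2 * 1) = dbl b2 b4 b8 (xd b2 b4 b8 e 1) := xd_even _ _ _ _ _
              simp only [zero_add, this]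
              simp only [xd, dbl]
              ext
              · simp; exact h1
              · simp; linear_combination h2
          rw [k, hm, i2]
          simp only [dadd]
          ext
          · simp; ring
          · simp; ring

variable {F : Type*} [Field F] [IsAlgClosed F] (l : F)

omit [IsAlgClosed F] in
/-- value of the division polynomial at a root of `f` -/
private theorem eval_Bpol (e u : F) (h1 : e ^ 4 - 2 * l * e ^ 2 + l ^ 2 = u ^ 2)
    (h2 : 4 * e ^ 3 - 4 * (1 + l) * e ^ 2 + 4 * l * e = 0) (ell : ℕ) (hodd : Odd ell) :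
    (Bpol l ell).eval e = u ^ ((ell ^ 2 - 1) / 2) := by
  obtain ⟨m, rfl⟩ := hodd
  have hm : ((2 * m + 1) ^ 2 - 1) / 2 = 2 * m ^ 2 + 2 * m := by
    have : (2 * m + 1) ^ 2 - 1 = 2 * (2 * m ^ 2 + 2 * m) := by
      have : (2 * m + 1) ^ 2 = 2 * (2 * m ^ 2 + 2 * m) + 1 := by ring
      omega
    rw [this]; simp
  have key := xd_map (evalRingHom e) (-4 * (1 + C l)) (2 * C l) (-(C l) ^ 2) (X : F[X]) (2 * m + 1)
  have k2 := (xd_two (-4 * (1 + l)) (2 * l) (-l ^ 2) e u (by linear_combination h1)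
    (by linear_combination h2) m).2
  have e1 : (evalRingHom e) (-4 * (1 + C l)) = -4 * (1 + l) := by simp
  have e2 : (evalRingHom e) (2 * C l) = 2 * l := by simp
  have e3 : (evalRingHom e) (-(C l) ^ 2) = - l ^ 2 := by simp
  have e4 : (evalRingHom e) (X : F[X]) = e := by simp
  rw [e1, e2, e3, e4, k2] at key
  rw [hm]
  have := congrArg Prod.snd key
  simp only at this
  rw [this]
  rfl

/-- factorisation of the division polynomial -/
private theorem Bpol_eq (h2 : (2 : F) ≠ 0) (hl0 : l ≠ 0) (hl1 : l ≠ 1) (ell : ℕ)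
    (hodd : Odd ell) (hell : (ell : F) ≠ 0) (e : F) :
    (Bpol l ell).eval e = (ell : F) ^ 2 * ∏ t ∈ rts l ell, (e - t) ^ 2 := by
  classical
  obtain ⟨m, hm⟩ := hodd
  have hodd : Odd ell := ⟨m, hm⟩
  obtain ⟨d, hd, hdeg, hcoef⟩ := xd_sqrt (-4 * (1 + l)) (2 * l) (-l ^ 2) m
  have hB : Bpol l ell = d ^ 2 := by
    have e1 : (C (-4 * (1 + l)) : F[X]) = -4 * (1 + C l) := by
      rw [C_mul, C_neg, C_add, C_1, map_ofNat]
    have e2 : (C (2 * l) : F[X]) = 2 * C l := by
      rw [C_mul, map_ofNat]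
    have e3 : (C (-l ^ 2) : F[X]) = -(C l) ^ 2 := by
      rw [C_neg, C_pow]
    rw [← hd, hm, e1, e2, e3]
    rfl
  rw [← hm] at hdeg hcoef
  have hc : d.coeff ((ell ^ 2 - 1) / 2) = (ell : F) := by
    rw [hcoef, hm]; push_cast; ring
  have hd0 : d ≠ 0 := by
    rintro rfl
    simp at hc
    exact hell hc.symm
  have hnd : d.natDegree = (ell ^ 2 - 1) / 2 := by
    apply le_antisymm hdeg
    apply le_natDegree_of_ne_zero
    rw [hc]; exact hell
  have hlead : d.leadingCoeff = (ell : F) := by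
    rw [leadingCoeff, hnd, hc]
  have hsp : d.Splits := IsAlgClosed.splits d
  have hcard : Multiset.card d.roots = (ell ^ 2 - 1) / 2 := by
    rw [← hnd]; exact hsp.natDegree_eq_card_roots.symm
  have hrts : rts l ell = d.roots.toFinset := by
    ext t
    simp only [rts, hB, Multiset.mem_toFinset]
    rw [mem_roots (pow_ne_zero 2 hd0), mem_roots hd0]
    simp [IsRoot]
  have hnodup : d.roots.Nodup := by
    rw [← Multiset.toFinset_card_eq_card_iff_nodup]
    rw [← hrts, hcard]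
    exact (rts_card l h2 hl0 hl1 ell hodd hell).1
  have hprod : d = C (ell : F) * ∏ t ∈ rts l ell, (X - C t) := by
    conv_lhs => rw [hsp.eq_prod_roots]
    rw [hlead, hrts]
    congr 1
    rw [Finset.prod, Multiset.toFinset_val, Multiset.dedup_eq_self.mpr hnodup]
  rw [hB, hprod]
  simp only [eval_pow, eval_mul, eval_C, eval_prod, eval_sub, eval_X]
  rw [mul_pow, Finset.prod_pow]

/-- product over the subgroups = product over all torsion points -/
private theorem prod_XX (h2 : (2 : F) ≠ 0) (hl0 : l ≠ 0) (hl1 : l ≠ 1) (ell : ℕ) (hp : ell.Prime)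
    (hodd : Odd ell) (hell : (ell : F) ≠ 0) (g : F → F) :
    ∏ S ∈ XX l ell, ∏ t ∈ S, g t = ∏ t ∈ rts l ell, g t := by
  classical
  obtain ⟨-, c2, c3, c4, -⟩ := XX_comb l h2 hl0 hl1 ell hp hodd hell
  rw [← Finset.prod_fiberwise_of_maps_to (s := rts l ell) (t := XX l ell) (g := Sx l ell)]
  · apply Finset.prod_congr rfl
    intro S hS
    apply Finset.prod_congr _ (fun _ _ => rfl)
    ext t
    simp only [Finset.mem_filter]
    constructor
    · intro ht
      exact ⟨(c2 S hS).2 ht, c3 S hS t ht⟩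
    · rintro ⟨ht, rfl⟩
      exact c4 t ht
  · intro t ht
    exact Finset.mem_image.mpr ⟨t, ht, rfl⟩

/-- I3 (product formulas). -/
theorem prod_rho (h2 : (2 : F) ≠ 0) (hl0 : l ≠ 0) (hl1 : l ≠ 1) (ell : ℕ) (hp : ell.Prime)
    (hodd : Odd ell) (hell : (ell : F) ≠ 0) :
    ∏ S ∈ XX l ell, rho l S = l ^ (ell + 1) ∧
      ∏ S ∈ XX l ell, (1 - rho l S) = (1 - l) ^ (ell + 1) := by
  classical
  obtain ⟨c1, c2, -, -, -⟩ := XX_comb l h2 hl0 hl1 ell hp hodd hell
  obtain ⟨N, hN⟩ : ∃ N, (ell ^ 2 - 1) / 2 = 2 * N ∧ ell ^ 2 = 4 * N + 1 := by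
    obtain ⟨m, rfl⟩ := hodd
    obtain ⟨c, hc | hc⟩ : ∃ c, m = 2 * c ∨ m = 2 * c + 1 := ⟨m / 2, by omega⟩
    · refine ⟨4 * c ^ 2 + 2 * c, ?_⟩
      have : (2 * m + 1) ^ 2 = 4 * (4 * c ^ 2 + 2 * c) + 1 := by rw [hc]; ring
      omega
    · refine ⟨4 * c ^ 2 + 6 * c + 2, ?_⟩
      have : (2 * m + 1) ^ 2 = 4 * (4 * c ^ 2 + 6 * c + 2) + 1 := by rw [hc]; ring
      omega
  obtain ⟨hN1, hN2⟩ := hN
  have hcard : ∀ S ∈ XX l ell, 2 * S.card + 1 = ell := by
    intro S hS
    rw [(c2 S hS).1]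
    obtain ⟨m, rfl⟩ := hodd
    omega
  have v0 := eval_Bpol l 0 l (by ring) (by ring) ell hodd
  have v1 := eval_Bpol l 1 (1 - l) (by ring) (by ring) ell hodd
  have vl := eval_Bpol l l (l * (l - 1)) (by ring) (by ring) ell hodd
  rw [Bpol_eq l h2 hl0 hl1 ell hodd hell, hN1] at v0 v1 vl
  have hne : ∀ t ∈ rts l ell, t ≠ 0 ∧ t ≠ 1 ∧ t ≠ l :=
    (rts_card l h2 hl0 hl1 ell hodd hell).2
  have hl1' : l - 1 ≠ 0 := sub_ne_zero.mpr hl1
  have hPl : (∏ t ∈ rts l ell, (l - t) ^ 2) ≠ 0 := by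
    rw [Finset.prod_ne_zero_iff]
    intro t ht
    exact pow_ne_zero 2 (sub_ne_zero.mpr (hne t ht).2.2.symm)
  have hell2 : (ell : F) ^ 2 ≠ 0 := pow_ne_zero 2 hell
  -- the two basic products
  have r1 : (∏ t ∈ rts l ell, ((t - 1) / (t - l)) ^ 2) * l ^ (2 * N) = 1 := by
    have e1 : ∏ t ∈ rts l ell, ((t - 1) / (t - l)) ^ 2 =
        (∏ t ∈ rts l ell, (1 - t) ^ 2) / ∏ t ∈ rts l ell, (l - t) ^ 2 := by
      rw [← Finset.prod_div_distrib]
      apply Finset.prod_congr rfl
      intro t ht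
      rw [div_pow]
      congr 1 <;> ring
    have e2 : (∏ t ∈ rts l ell, (1 - t) ^ 2) * l ^ (2 * N) = ∏ t ∈ rts l ell, (l - t) ^ 2 := by
      apply mul_left_cancel₀ hell2
      rw [vl, ← mul_assoc, v1, ← mul_pow]
      have : ((1 - l) * l) ^ (2 * N) = (l * (l - 1)) ^ (2 * N) := by
        rw [pow_mul, pow_mul]; congr 1; ring
      rw [this]
    rw [e1, div_mul_eq_mul_div, e2, div_self hPl]
  have r2 : (∏ t ∈ rts l ell, (t / (t - l)) ^ 2) * (1 - l) ^ (2 * N) = 1 := by
    have e1 : ∏ t ∈ rts l ell, (t / (t - l)) ^ 2 =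
        (∏ t ∈ rts l ell, (0 - t) ^ 2) / ∏ t ∈ rts l ell, (l - t) ^ 2 := by
      rw [← Finset.prod_div_distrib]
      apply Finset.prod_congr rfl
      intro t ht
      rw [div_pow]
      congr 1 <;> ring
    have e2 : (∏ t ∈ rts l ell, (0 - t) ^ 2) * (1 - l) ^ (2 * N) =
        ∏ t ∈ rts l ell, (l - t) ^ 2 := by
      apply mul_left_cancel₀ hell2
      rw [vl, ← mul_assoc, v0, ← mul_pow]
      have : (l * (1 - l)) ^ (2 * N) = (l * (l - 1)) ^ (2 * N) := by
        rw [pow_mul, pow_mul]; congr 1; ring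
      rw [this]
    rw [e1, div_mul_eq_mul_div, e2, div_self hPl]
  have hexp : ell * (ell + 1) = (ell + 1) + 4 * N := by
    have : ell * (ell + 1) = ell ^ 2 + ell := by ring
    omega
  constructor
  · have : ∏ S ∈ XX l ell, rho l S =
        l ^ (ell * (ell + 1)) * ∏ t ∈ rts l ell, ((t - 1) / (t - l)) ^ 4 := by
      rw [← prod_XX l h2 hl0 hl1 ell hp hodd hell, ← c1, pow_mul, ← Finset.prod_const,
        ← Finset.prod_mul_distrib]
      apply Finset.prod_congr rfl
      intro S hS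
      rw [rho, hcard S hS]
    rw [this, hexp, pow_add]
    have e4 : ∏ t ∈ rts l ell, ((t - 1) / (t - l)) ^ 4 =
        (∏ t ∈ rts l ell, ((t - 1) / (t - l)) ^ 2) ^ 2 := by
      rw [← Finset.prod_pow]
      apply Finset.prod_congr rfl
      intro t ht
      ring
    rw [e4, mul_assoc]
    have : l ^ (4 * N) * (∏ t ∈ rts l ell, ((t - 1) / (t - l)) ^ 2) ^ 2 = 1 := by
      have := congrArg (fun z => z ^ 2) r1
      beta_reduce at this
      rw [mul_pow, ← pow_mul, one_pow] at this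
      rw [mul_comm, show 4 * N = 2 * N * 2 by ring]
      exact this
    rw [this, mul_one]
  · have : ∏ S ∈ XX l ell, (1 - rho l S) =
        (1 - l) ^ (ell * (ell + 1)) * ∏ t ∈ rts l ell, (t / (t - l)) ^ 4 := by
      rw [← prod_XX l h2 hl0 hl1 ell hp hodd hell, ← c1, pow_mul, ← Finset.prod_const,
        ← Finset.prod_mul_distrib]
      apply Finset.prod_congr rfl
      intro S hS
      rw [one_sub_rho l h2 hl0 hl1 ell hp hodd hell S hS, hcard S hS]
    rw [this, hexp, pow_add]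
    have e4 : ∏ t ∈ rts l ell, (t / (t - l)) ^ 4 =
        (∏ t ∈ rts l ell, (t / (t - l)) ^ 2) ^ 2 := by
      rw [← Finset.prod_pow]
      apply Finset.prod_congr rfl
      intro t ht
      ring
    rw [e4, mul_assoc]
    have : (1 - l) ^ (4 * N) * (∏ t ∈ rts l ell, (t / (t - l)) ^ 2) ^ 2 = 1 := by
      have := congrArg (fun z => z ^ 2) r2
      beta_reduce at this
      rw [mul_pow, ← pow_mul, one_pow] at this
      rw [mul_comm, show 4 * N = 2 * N * 2 by ring]
      exact this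
    rw [this, mul_one]

end SSP
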