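import Pool.Agent.SSP.Defs
import Pool.Agent.SSP.Kummer
import Pool.Agent.SSP.Torsion
import Pool.Agent.SSP.XXIff
import Pool.Agent.SSP.XXComb
import Pool.Agent.SSP.OneSubRho
import Pool.Agent.SSP.ProdRho

set_option autoImplicit false

namespace SSP

open Polynomial

namespace SignAux

open WeierstrassCurve.Affine

/-- products over a finset with an involution -/
theorem prod_invol {α : Type*} [DecidableEq α] (σ : α → α) (F : α → ℂ)
    (hσ : ∀ a, σ (σ a) = a) (hF : ∀ a, F (σ a) = (starRingEnd ℂ) (F a)) :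
    ∀ (n : ℕ) (A : Finset α), A.card = n → (∀ a ∈ A, σ a ∈ A) →
      (∀ a ∈ A, σ a = a → ∃ r : ℝ, 0 ≤ r ∧ F a = r) →
      ∃ r : ℝ, 0 ≤ r ∧ ∏ a ∈ A, F a = r := by
  intro n
  induction n using Nat.strong_induction_on with
  | _ n ih =>
    intro A hA hs hf
    rcases A.eq_empty_or_nonempty with rfl | ⟨a, ha⟩
    · exact ⟨1, by norm_num, by simp⟩
    · by_cases h : σ a = a
      · obtain ⟨r, hr, e⟩ := hf a ha h
        obtain ⟨r', hr', e'⟩ := ih (A.erase a).card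
          (by rw [← hA]; exact Finset.card_erase_lt_of_mem ha) (A.erase a) rfl
          (by
            intro b hb
            rw [Finset.mem_erase] at hb ⊢
            refine ⟨?_, hs b hb.2⟩
            intro h'
            apply hb.1
            rw [← hσ b, h', h])
          (fun b hb => hf b (Finset.mem_of_mem_erase hb))
        refine ⟨r * r', mul_nonneg hr hr', ?_⟩
        rw [← Finset.mul_prod_erase A F ha, e, e']
        push_cast; rfl
      · have hsa := hs a ha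
        have hsa' : σ a ∈ A.erase a := Finset.mem_erase.2 ⟨h, hsa⟩
        obtain ⟨r', hr', e'⟩ := ih ((A.erase a).erase (σ a)).card
          (by
            rw [← hA]
            exact (Finset.card_erase_lt_of_mem hsa').trans (Finset.card_erase_lt_of_mem ha))
          _ rfl
          (by
            intro b hb
            rw [Finset.mem_erase, Finset.mem_erase] at hb ⊢
            refine ⟨?_, ?_, hs b hb.2.2⟩
            · intro h'
              apply hb.2.1
              rw [← hσ b, h', hσ a]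
            · intro h'
              apply hb.1
              rw [← hσ b, h'])
          (fun b hb => hf b (Finset.mem_of_mem_erase (Finset.mem_of_mem_erase hb)))
        refine ⟨Complex.normSq (F a) * r', mul_nonneg (Complex.normSq_nonneg _) hr', ?_⟩
        rw [← Finset.mul_prod_erase A F ha, ← Finset.mul_prod_erase (A.erase a) F hsa', e', hF a,
          ← mul_assoc, Complex.mul_conj]
        push_cast; rfl

theorem exists_conj (a b : ℝ) :
    ∃ c : (crv (a : ℂ) (b : ℂ)).toAffine.Point →+ (crv (a : ℂ) (b : ℂ)).toAffine.Point,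
      ∀ x y (h : (crv (a : ℂ) (b : ℂ)).toAffine.Nonsingular x y), ∃ h',
        c (.some x y h) = .some (starRingEnd ℂ x) (starRingEnd ℂ y) h' := by
  have e : (crv a b : WeierstrassCurve ℝ).baseChange ℂ = crv (a : ℂ) (b : ℂ) := by
    ext <;> simp [crv, WeierstrassCurve.baseChange, WeierstrassCurve.map]
  rw [← e]
  exact ⟨Point.map (Complex.conjAe : ℂ →ₐ[ℝ] ℂ), fun x y h => ⟨_, Point.map_some _ h⟩⟩

theorem exists_conj' (l : ℝ) :
    ∃ c : (crv (-(1 + (l : ℂ))) (l : ℂ)).toAffine.Point →+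
        (crv (-(1 + (l : ℂ))) (l : ℂ)).toAffine.Point,
      ∀ x y (h : (crv (-(1 + (l : ℂ))) (l : ℂ)).toAffine.Nonsingular x y), ∃ h',
        c (.some x y h) = .some (starRingEnd ℂ x) (starRingEnd ℂ y) h' := by
  have h := exists_conj (-(1 + l)) l
  have e : ((-(1 + l) : ℝ) : ℂ) = -(1 + (l : ℂ)) := by push_cast; rfl
  rw [e] at h
  exact h

/-- the duplication formula -/
theorem dup {F : Type*} [Field F] [DecidableEq F] (a b : F) (h2 : (2 : F) ≠ 0) (hb : b ≠ 0)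
    (hab : a ^ 2 - 4 * b ≠ 0) (x y : F) (h : (crv a b).toAffine.Nonsingular x y)
    (hne : (Point.some x y h) + (Point.some x y h) ≠ 0) :
    ((Point.some x y h) + (Point.some x y h)).xRep 0 * (4 * y ^ 2) = (x ^ 2 - b) ^ 2 := by
  obtain ⟨κ, hκ, e1, e2, e3⟩ := kummer a b h2 hb hab (Point.some x y h) (Point.some x y h)
  have hy : y ^ 2 = x ^ 3 + a * x ^ 2 + b * x := by
    have := (WeierstrassCurve.Affine.equation_iff x y).1 h.1
    simp only [crv] at this
    linear_combination this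
  have h1 : ((Point.some x y h) + (Point.some x y h)).xRep 1 = 1 := by
    generalize (Point.some x y h) + (Point.some x y h) = R at hne ⊢
    cases R with
    | zero => exact absurd rfl hne
    | some x' y' h' => simp
  rw [sub_self] at e1 e2
  simp only [Point.xRep_zero, Point.xRep_some, Matrix.cons_val_zero, Matrix.cons_val_one, h1]
    at e1 e2
  linear_combination (4 * y ^ 2) * e1 - (x ^ 2 - b) ^ 2 * e2 +
    (4 * κ * (x ^ 2 - b) ^ 2) * hy

theorem nz_comm {G : Type*} [AddCommGroup G] (n : ℕ) (k : ℤ) (Q : G) :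
    n • (k • Q) = k • (n • Q) := by
  rw [← natCast_zsmul, ← natCast_zsmul, ← mul_zsmul', ← mul_zsmul', mul_comm]

section main

variable (l : ℝ) (c : (crv (-(1 + (l : ℂ))) (l : ℂ)).toAffine.Point →+
        (crv (-(1 + (l : ℂ))) (l : ℂ)).toAffine.Point)
  (hc : ∀ x y (h : (crv (-(1 + (l : ℂ))) (l : ℂ)).toAffine.Nonsingular x y), ∃ h',
        c (.some x y h) = .some (starRingEnd ℂ x) (starRingEnd ℂ y) h')

include hc

theorem xRep_c (Q : (crv (-(1 + (l : ℂ))) (l : ℂ)).toAffine.Point) (i : Fin 2) :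
    (c Q).xRep i = starRingEnd ℂ (Q.xRep i) := by
  cases Q with
  | zero =>
    have : c (Point.zero) = 0 := c.map_zero
    rw [this]
    change (0 : (crv (-(1 + (l : ℂ))) (l : ℂ)).toAffine.Point).xRep i =
      starRingEnd ℂ ((0 : (crv (-(1 + (l : ℂ))) (l : ℂ)).toAffine.Point).xRep i)
    fin_cases i <;> simp
  | some x y h =>
    obtain ⟨h', e⟩ := hc x y h
    rw [e]
    fin_cases i <;> simp

theorem c_c (Q : (crv (-(1 + (l : ℂ))) (l : ℂ)).toAffine.Point) : c (c Q) = Q := by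
  cases Q with
  | zero =>
    have : c (Point.zero) = 0 := c.map_zero
    rw [this]
    exact c.map_zero
  | some x y h =>
    obtain ⟨h', e⟩ := hc x y h
    rw [e]
    obtain ⟨h'', e'⟩ := hc _ _ h'
    rw [e']
    simp

/-- Points of the two eigenspaces: real `x`-coordinates. -/
theorem real_pt (hl0 : l ≠ 0) (hl1 : l ≠ 1)
    (e : ℝ) (he : e = 1 ∨ e = -1) (P : (crv (-(1 + (l : ℂ))) (l : ℂ)).toAffine.Point)
    (hP : P + P ≠ 0) (hcP : c P = if e = 1 then P else -P) :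
    ∃ x s X : ℝ, 0 < s ∧ (P + P).xRep 0 = (X : ℂ) ∧ X * (4 * (e * s)) = (x ^ 2 - l) ^ 2 ∧
      (X - 1) * (4 * (e * s)) = (x ^ 2 - 2 * x + l) ^ 2 := by
  have hlc0 : (l : ℂ) ≠ 0 := by exact_mod_cast hl0
  have hlc1 : (l : ℂ) ≠ 1 := by exact_mod_cast hl1
  cases P with
  | zero => exact absurd (zero_add 0) hP
  | some x y h =>
    obtain ⟨h', e1⟩ := hc x y h
    have hxy : (starRingEnd ℂ) x = x ∧ (starRingEnd ℂ) y = e * y := by
      rw [e1] at hcP
      rcases he with rfl | rfl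
      · simp only [if_true] at hcP
        rw [Point.some.injEq] at hcP
        exact ⟨hcP.1, by rw [hcP.2]; simp⟩
      · rw [if_neg (by norm_num)] at hcP
        rw [Point.neg_some, Point.some.injEq] at hcP
        refine ⟨hcP.1, ?_⟩
        rw [hcP.2]
        simp [WeierstrassCurve.Affine.negY, crv]
    have hy : y ^ 2 = x ^ 3 + (-(1 + (l : ℂ))) * x ^ 2 + l * x := by
      have := (WeierstrassCurve.Affine.equation_iff x y).1 h.1
      simp only [crv] at this
      linear_combination this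
    have hd := dup (-(1 + (l : ℂ))) (l : ℂ) two_ne_zero hlc0
      (by
        have : (-(1 + (l : ℂ))) ^ 2 - 4 * l = (1 - l) ^ 2 := by ring
        rw [this]
        exact pow_ne_zero 2 (sub_ne_zero.2 (Ne.symm hlc1))) x y h hP
    obtain ⟨xr, hxr⟩ := Complex.conj_eq_iff_real.1 hxy.1
    have hee : (e : ℂ) * e = 1 := by rcases he with rfl | rfl <;> simp
    have hns : y ^ 2 = e * (Complex.normSq y : ℂ) := by
      rw [← Complex.mul_conj, hxy.2]
      linear_combination (-y ^ 2) * hee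
    have hy0 : y ≠ 0 := by
      intro h0
      apply hP
      rw [← eq_neg_iff_add_eq_zero, Point.neg_some, Point.some.injEq]
      refine ⟨rfl, ?_⟩
      rw [h0]
      simp [WeierstrassCurve.Affine.negY, crv]
    have hs : 0 < Complex.normSq y := Complex.normSq_pos.2 hy0
    have he0 : (e : ℂ) ≠ 0 := by rcases he with rfl | rfl <;> norm_num
    have hs0 : (Complex.normSq y : ℂ) ≠ 0 := by exact_mod_cast hs.ne'
    have he0' : e ≠ 0 := by rcases he with rfl | rfl <;> norm_num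
    refine ⟨xr, Complex.normSq y, (xr ^ 2 - l) ^ 2 / (4 * (e * Complex.normSq y)), hs, ?_, ?_, ?_⟩
    · push_cast
      rw [eq_div_iff (mul_ne_zero (by norm_num : (4 : ℂ) ≠ 0) (mul_ne_zero he0 hs0)), ← hns, hd, hxr]
    · rw [div_mul_cancel₀]
      exact mul_ne_zero four_ne_zero (mul_ne_zero he0' hs.ne')
    · rw [sub_mul, div_mul_cancel₀ _ (mul_ne_zero four_ne_zero (mul_ne_zero he0' hs.ne'))]
      have h3 : e * Complex.normSq y = xr ^ 3 + (-(1 + l)) * xr ^ 2 + l * xr := by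
        have : ((e * Complex.normSq y : ℝ) : ℂ) =
            ((xr ^ 3 + (-(1 + l)) * xr ^ 2 + l * xr : ℝ) : ℂ) := by
          push_cast
          rw [← hns, hy, hxr]
        exact_mod_cast this
      rw [h3]
      ring

/-- odd-order points of the `+` eigenspace -/
theorem plus_pt (hl0 : l ≠ 0) (hl1 : l ≠ 1) (ell : ℕ) (hodd : Odd ell)
    (R : (crv (-(1 + (l : ℂ))) (l : ℂ)).toAffine.Point) (hR : R ≠ 0) (hell : ell • R = 0)
    (hcR : c R = R) : ∃ r : ℝ, 1 ≤ r ∧ R.xRep 0 = r := by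
  obtain ⟨m, hm⟩ := hodd
  have h2 : (m + 1) • R + (m + 1) • R = R := by
    rw [← add_nsmul, show m + 1 + (m + 1) = ell + 1 by omega, add_nsmul, hell, one_nsmul, zero_add]
  obtain ⟨x, s, X, hs, e1, e2, e3⟩ := real_pt l c hc hl0 hl1 1 (Or.inl rfl) ((m + 1) • R)
    (by rw [h2]; exact hR) (by rw [if_pos rfl, map_nsmul, hcR])
  rw [h2] at e1
  refine ⟨X, ?_, e1⟩
  by_contra hlt
  push Not at hlt
  have : (X - 1) * (4 * (1 * s)) < 0 := mul_neg_of_neg_of_pos (by linarith) (by linarith)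
  rw [e3] at this
  exact absurd this (not_lt.2 (sq_nonneg _))

/-- odd-order points of the `-` eigenspace -/
theorem minus_pt (hl0 : l ≠ 0) (hl1 : l ≠ 1) (ell : ℕ) (hodd : Odd ell)
    (R : (crv (-(1 + (l : ℂ))) (l : ℂ)).toAffine.Point) (hR : R ≠ 0) (hell : ell • R = 0)
    (hcR : c R = -R) : ∃ r : ℝ, r ≤ 0 ∧ R.xRep 0 = r := by
  obtain ⟨m, hm⟩ := hodd
  have h2 : (m + 1) • R + (m + 1) • R = R := by
    rw [← add_nsmul, show m + 1 + (m + 1) = ell + 1 by omega, add_nsmul, hell, one_nsmul, zero_add]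
  obtain ⟨x, s, X, hs, e1, e2, e3⟩ := real_pt l c hc hl0 hl1 (-1) (Or.inr rfl) ((m + 1) • R)
    (by rw [h2]; exact hR) (by rw [if_neg (by norm_num), map_nsmul, hcR, neg_nsmul])
  rw [h2] at e1
  refine ⟨X, ?_, e1⟩
  by_contra hlt
  push Not at hlt
  have : X * (4 * (-1 * s)) < 0 := mul_neg_of_pos_of_neg hlt (by linarith)
  rw [e2] at this
  exact absurd this (not_lt.2 (sq_nonneg _))

/-- the type of a fixed set -/
theorem fixed_type (ell : ℕ) (hp : ell.Prime) (S : Finset ℂ)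
    (Q : (crv (-(1 + (l : ℂ))) (l : ℂ)).toAffine.Point) (hQ : Q ≠ 0) (hell : ell • Q = 0)
    (hgen : ∀ x : ℂ, x ∈ S ↔ ∃ R ∈ AddSubgroup.zmultiples Q, R ≠ 0 ∧ R.xRep 0 = x)
    (hfix : S.image (starRingEnd ℂ) = S) : c Q = Q ∨ c Q = -Q := by
  have h1 : Q.xRep 0 ∈ S := (hgen _).2 ⟨Q, AddSubgroup.mem_zmultiples Q, hQ, rfl⟩
  have h2 : starRingEnd ℂ (Q.xRep 0) ∈ S := by
    rw [← hfix]
    exact Finset.mem_image_of_mem _ h1
  obtain ⟨R, hR, hR0, e⟩ := (hgen _).1 h2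
  rw [← xRep_c l c hc] at e
  have hcQ : c Q ≠ 0 := by
    intro h0
    apply hQ
    rw [← c_c l c hc Q, h0, map_zero]
  have e' : R.xRep = (c Q).xRep := by
    have hx1 : ∀ P : (crv (-(1 + (l : ℂ))) (l : ℂ)).toAffine.Point, P ≠ 0 → P.xRep 1 = 1 := by
      intro P hP
      cases P with
      | zero => exact absurd rfl hP
      | some x' y' h' => simp
    funext i
    fin_cases i
    · exact e
    · change R.xRep 1 = (c Q).xRep 1
      rw [hx1 R hR0, hx1 _ hcQ]
  have hmem : c Q ∈ AddSubgroup.zmultiples Q := by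
    rcases Point.eq_or_eq_neg_of_xRep_eq_xRep e' with h | h
    · rw [← h]; exact hR
    · rw [← neg_neg (c Q), ← h]; exact neg_mem hR
  obtain ⟨k, hk⟩ := AddSubgroup.mem_zmultiples_iff.1 hmem
  have hkk : (k * k - 1) • Q = 0 := by
    have := c_c l c hc Q
    rw [← hk, map_zsmul, ← hk, ← mul_zsmul'] at this
    rw [sub_zsmul, this, one_zsmul, add_neg_cancel]
  have hord : addOrderOf Q = ell := by
    have := Fact.mk hp
    exact addOrderOf_eq_prime hell hQ
  have hdvd : (ell : ℤ) ∣ (k - 1) * (k + 1) := by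
    rw [← hord, show (k - 1) * (k + 1) = k * k - 1 by ring]
    exact addOrderOf_dvd_iff_zsmul_eq_zero.2 hkk
  rcases (Nat.prime_iff_prime_int.1 hp).dvd_or_dvd hdvd with h | h
  · left
    rw [← hord, addOrderOf_dvd_iff_zsmul_eq_zero, sub_zsmul, one_zsmul, add_neg_eq_zero] at h
    rw [← hk, h]
  · right
    rw [← hord, addOrderOf_dvd_iff_zsmul_eq_zero, add_zsmul, one_zsmul] at h
    rw [← hk]
    exact eq_neg_of_add_eq_zero_left h

theorem image_mem (hl0 : l ≠ 0) (hl1 : l ≠ 1) (ell : ℕ) (hp : ell.Prime) (hodd : Odd ell)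
    (S : Finset ℂ) (hS : S ∈ XX (l : ℂ) ell) : S.image (starRingEnd ℂ) ∈ XX (l : ℂ) ell := by
  have hell : (ell : ℂ) ≠ 0 := by exact_mod_cast hp.ne_zero
  have hlc0 : (l : ℂ) ≠ 0 := by exact_mod_cast hl0
  have hlc1 : (l : ℂ) ≠ 1 := by exact_mod_cast hl1
  obtain ⟨Q, hQ, hQe, hgen⟩ := (XX_iff (l : ℂ) two_ne_zero hlc0 hlc1 ell hp hodd hell S).1 hS
  refine (XX_iff (l : ℂ) two_ne_zero hlc0 hlc1 ell hp hodd hell _).2 ⟨c Q, ?_, ?_, ?_⟩
  · intro h0
    apply hQ
    rw [← c_c l c hc Q, h0, map_zero]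
  · rw [← map_nsmul, hQe, map_zero]
  · intro x
    rw [Finset.mem_image]
    constructor
    · rintro ⟨y, hy, rfl⟩
      obtain ⟨R, hR, hR0, rfl⟩ := (hgen y).1 hy
      refine ⟨c R, ?_, ?_, xRep_c l c hc R 0⟩
      · obtain ⟨k, rfl⟩ := AddSubgroup.mem_zmultiples_iff.1 hR
        rw [map_zsmul]
        exact AddSubgroup.zsmul_mem _ (AddSubgroup.mem_zmultiples _) k
      · intro h0
        apply hR0
        rw [← c_c l c hc R, h0, map_zero]
    · rintro ⟨R, hR, hR0, rfl⟩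
      obtain ⟨k, rfl⟩ := AddSubgroup.mem_zmultiples_iff.1 hR
      refine ⟨(k • Q).xRep 0, (hgen _).2 ⟨k • Q,
        AddSubgroup.zsmul_mem _ (AddSubgroup.mem_zmultiples _) k, ?_, rfl⟩, ?_⟩
      · intro h0
        apply hR0
        rw [← map_zsmul, h0, map_zero]
      · rw [← xRep_c l c hc, map_zsmul]

omit hc in
/-- products of numbers in the unit interval -/
theorem prod_le (S : Finset ℂ) (F : ℂ → ℂ)
    (h : ∀ t ∈ S, ∃ q : ℝ, 0 ≤ q ∧ q ≤ 1 ∧ F t = q) :
    ∃ q : ℝ, 0 ≤ q ∧ q ≤ 1 ∧ ∏ t ∈ S, F t = q := by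
  refine Finset.prod_induction F (fun z => ∃ q : ℝ, 0 ≤ q ∧ q ≤ 1 ∧ z = q) ?_ ?_ h
  · rintro a b ⟨q, h0, h1, rfl⟩ ⟨q', h0', h1', rfl⟩
    exact ⟨q * q', mul_nonneg h0 h0', mul_le_one₀ h1 h0' h1', by push_cast; rfl⟩
  · exact ⟨1, by norm_num, le_rfl, by simp⟩

omit hc in
/-- `ρ` for a set of `+` type -/
theorem rho_plus (hl1 : l < 1) (S : Finset ℂ)
    (hS : ∀ t ∈ S, ∃ r : ℝ, 1 ≤ r ∧ t = r) :
    ∃ q : ℝ, 0 ≤ q ∧ q ≤ 1 ∧ rho (l : ℂ) S = ((l ^ (2 * S.card + 1) * q : ℝ) : ℂ) := by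
  obtain ⟨q, h0, h1, e⟩ := prod_le S (fun t => ((t - 1) / (t - (l : ℂ))) ^ 4) (by
    intro t ht
    obtain ⟨r, hr, rfl⟩ := hS t ht
    refine ⟨((r - 1) / (r - l)) ^ 4, by positivity, ?_, by push_cast; rfl⟩
    have : 0 < r - l := by linarith
    apply pow_le_one₀
    · exact div_nonneg (by linarith) this.le
    · rw [div_le_one this]; linarith)
  refine ⟨q, h0, h1, ?_⟩
  unfold rho
  rw [e]
  push_cast
  rfl

omit hc in
/-- `ρ` for a set of `-` type -/
theorem rho_minus (hl0 : 0 < l) (hl1 : l < 1) (ell : ℕ) (hp : ell.Prime) (hodd : Odd ell)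
    (S : Finset ℂ) (hXX : S ∈ XX (l : ℂ) ell)
    (hS : ∀ t ∈ S, ∃ r : ℝ, r ≤ 0 ∧ t = r) :
    ∃ q : ℝ, 0 ≤ q ∧ q ≤ 1 ∧
      1 - rho (l : ℂ) S = (((1 - l) ^ (2 * S.card + 1) * q : ℝ) : ℂ) := by
  have hell : (ell : ℂ) ≠ 0 := by exact_mod_cast hp.ne_zero
  have hlc0 : (l : ℂ) ≠ 0 := by exact_mod_cast hl0.ne'
  have hlc1 : (l : ℂ) ≠ 1 := by exact_mod_cast hl1.ne
  obtain ⟨q, h0, h1, e⟩ := prod_le S (fun t => (t / (t - (l : ℂ))) ^ 4) (by
    intro t ht
    obtain ⟨r, hr, rfl⟩ := hS t ht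
    refine ⟨(r / (r - l)) ^ 4, by positivity, ?_, by push_cast; rfl⟩
    have : r - l < 0 := by linarith
    apply pow_le_one₀
    · exact div_nonneg_of_nonpos (by linarith) this.le
    · rw [div_le_one_of_neg this]; linarith)
  refine ⟨q, h0, h1, ?_⟩
  rw [one_sub_rho (l : ℂ) two_ne_zero hlc0 hlc1 ell hp hodd hell S hXX, e]
  push_cast
  rfl

theorem gen_plus (hl0 : l ≠ 0) (hl1 : l ≠ 1) (ell : ℕ) (hodd : Odd ell)
    (S : Finset ℂ) (Q : (crv (-(1 + (l : ℂ))) (l : ℂ)).toAffine.Point) (hell : ell • Q = 0)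
    (hgen : ∀ x : ℂ, x ∈ S ↔ ∃ R ∈ AddSubgroup.zmultiples Q, R ≠ 0 ∧ R.xRep 0 = x)
    (hcQ : c Q = Q) : ∀ t ∈ S, ∃ r : ℝ, 1 ≤ r ∧ t = r := by
  intro t ht
  obtain ⟨R, hR, hR0, rfl⟩ := (hgen t).1 ht
  obtain ⟨k, rfl⟩ := AddSubgroup.mem_zmultiples_iff.1 hR
  exact plus_pt l c hc hl0 hl1 ell hodd _ hR0 (by rw [nz_comm, hell, zsmul_zero])
    (by rw [map_zsmul, hcQ])

theorem gen_minus (hl0 : l ≠ 0) (hl1 : l ≠ 1) (ell : ℕ) (hodd : Odd ell)
    (S : Finset ℂ) (Q : (crv (-(1 + (l : ℂ))) (l : ℂ)).toAffine.Point) (hell : ell • Q = 0)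
    (hgen : ∀ x : ℂ, x ∈ S ↔ ∃ R ∈ AddSubgroup.zmultiples Q, R ≠ 0 ∧ R.xRep 0 = x)
    (hcQ : c Q = -Q) : ∀ t ∈ S, ∃ r : ℝ, r ≤ 0 ∧ t = r := by
  intro t ht
  obtain ⟨R, hR, hR0, rfl⟩ := (hgen t).1 ht
  obtain ⟨k, rfl⟩ := AddSubgroup.mem_zmultiples_iff.1 hR
  exact minus_pt l c hc hl0 hl1 ell hodd _ hR0 (by rw [nz_comm, hell, zsmul_zero])
    (by rw [map_zsmul, hcQ, zsmul_neg])

theorem main_sets (hl0 : 0 < l) (hl1 : l < 1) (ell : ℕ) (hp : ell.Prime) (hodd : Odd ell) :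
    ∃ S0 ∈ XX (l : ℂ) ell, (∀ t ∈ S0, ∃ r : ℝ, 1 ≤ r ∧ t = r) ∧
      (∀ S ∈ XX (l : ℂ) ell, S ≠ S0 → S.image (starRingEnd ℂ) = S →
        ∀ t ∈ S, ∃ r : ℝ, r ≤ 0 ∧ t = r) := by
  have hell : (ell : ℂ) ≠ 0 := by exact_mod_cast hp.ne_zero
  have hlc0 : (l : ℂ) ≠ 0 := by exact_mod_cast hl0.ne'
  have hlc1 : (l : ℂ) ≠ 1 := by exact_mod_cast hl1.ne
  have hXX := fun S => XX_iff (l : ℂ) two_ne_zero hlc0 hlc1 ell hp hodd hell S
  obtain ⟨hcard, hSc, hSx, hmemSx, -⟩ := XX_comb (l : ℂ) two_ne_zero hlc0 hlc1 ell hp hodd hell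
  obtain ⟨hpr1, hpr2⟩ := prod_rho (l : ℂ) two_ne_zero hlc0 hlc1 ell hp hodd hell
  have hSc' : ∀ S ∈ XX (l : ℂ) ell, 2 * S.card + 1 = ell := by
    intro S hS
    rw [(hSc S hS).1]
    obtain ⟨m, hm⟩ := hodd
    omega
  set T : AddSubgroup (crv (-(1 + (l : ℂ))) (l : ℂ)).toAffine.Point :=
    (nsmulAddMonoidHom (α := (crv (-(1 + (l : ℂ))) (l : ℂ)).toAffine.Point) ell).ker with hT
  have memT : ∀ Q, Q ∈ T ↔ ell • Q = 0 := by
    intro Q
    rw [hT, AddMonoidHom.mem_ker]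
    rfl
  set V : AddSubgroup (crv (-(1 + (l : ℂ))) (l : ℂ)).toAffine.Point :=
    T ⊓ (c - AddMonoidHom.id _).ker with hV
  have memV : ∀ Q, Q ∈ V ↔ ell • Q = 0 ∧ c Q = Q := by
    intro Q
    rw [hV, AddSubgroup.mem_inf, memT, AddMonoidHom.mem_ker, AddMonoidHom.sub_apply,
      AddMonoidHom.id_apply, sub_eq_zero]
  have cardT : Nat.card T = ell ^ 2 := by
    rw [← card_torsion (l : ℂ) two_ne_zero hlc0 hlc1 ell hodd hell]
    exact Nat.card_congr (Equiv.subtypeEquivRight memT)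
  have finT : Finite T := Nat.finite_of_card_ne_zero (by
    rw [cardT]; exact pow_ne_zero 2 hp.ne_zero)
  have hVT : V ≤ T := inf_le_left
  have finV : Finite V := Finite.of_injective _ (AddSubgroup.inclusion_injective hVT)
  obtain ⟨j, hj2, hj⟩ := (Nat.dvd_prime_pow hp).1 (cardT ▸ AddSubgroup.card_dvd_of_le hVT)
  -- strict inequality used for the two contradictions
  have hstrict : ∀ a : ℝ, 0 < a → a < 1 → ∀ q : ℝ, q ≤ 1 → 0 ≤ q →
      (a ^ ell) ^ (ell + 1) * q ≠ a ^ (ell + 1) := by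
    intro a ha0 ha1 q hq hq0 h
    have h1 : (a ^ ell) ^ (ell + 1) < a ^ (ell + 1) := by
      rw [← pow_mul]
      apply pow_lt_pow_right_of_lt_one₀ ha0 ha1
      have := hp.two_le
      nlinarith
    have h2 : (a ^ ell) ^ (ell + 1) * q ≤ (a ^ ell) ^ (ell + 1) :=
      mul_le_of_le_one_right (by positivity) hq
    linarith
  interval_cases j
  · -- V trivial
    exfalso
    rw [pow_zero] at hj
    have hbot : V = ⊥ := AddSubgroup.eq_bot_of_card_eq V hj
    have hneg : ∀ Q, ell • Q = 0 → c Q = -Q := by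
      intro Q hQ
      have : Q + c Q ∈ V := by
        rw [memV]
        refine ⟨by rw [nsmul_add, hQ, ← map_nsmul, hQ, map_zero, add_zero], ?_⟩
        rw [map_add, c_c l c hc]
        exact add_comm _ _
      rw [hbot, AddSubgroup.mem_bot] at this
      exact (neg_eq_of_add_eq_zero_right this).symm
    have hall : ∀ S ∈ XX (l : ℂ) ell, ∃ q : ℝ, 0 ≤ q ∧ q ≤ 1 ∧
        1 - rho (l : ℂ) S = (((1 - l) ^ ell * q : ℝ) : ℂ) := by
      intro S hS
      obtain ⟨Q, hQ, hQe, hgen⟩ := (hXX S).1 hS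
      have := rho_minus l hl0 hl1 ell hp hodd S hS
        (gen_minus l c hc hl0.ne' hl1.ne ell hodd S Q hQe hgen (hneg Q hQe))
      rwa [hSc' S hS] at this
    choose! q hq0 hq1 hq using hall
    rw [Finset.prod_congr rfl hq] at hpr2
    have hprod : ((∏ S ∈ XX (l : ℂ) ell, ((1 - l) ^ ell * q S) : ℝ) : ℂ) =
        (((1 - l) ^ (ell + 1) : ℝ) : ℂ) := by
      rw [Complex.ofReal_prod, hpr2]
      push_cast
      rfl
    have hprod' := Complex.ofReal_injective hprod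
    rw [Finset.prod_mul_distrib, Finset.prod_const, hcard] at hprod'
    exact hstrict (1 - l) (by linarith) (by linarith) _
      (Finset.prod_le_one hq0 hq1) (Finset.prod_nonneg hq0) hprod'
  · -- the main case
    rw [pow_one] at hj
    obtain ⟨Q0, hQ0V, hQ0⟩ : ∃ Q ∈ V, Q ≠ 0 := by
      by_contra h
      push Not at h
      have hbot : V = ⊥ := (AddSubgroup.eq_bot_iff_forall V).2 h
      have h1 : Nat.card V = 1 := by rw [hbot]; exact AddSubgroup.card_bot
      rw [h1] at hj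
      exact hp.one_lt.ne hj
    have hQ0' := (memV Q0).1 hQ0V
    have hzV : ∀ Q, Q ≠ 0 → ell • Q = 0 → c Q = Q → AddSubgroup.zmultiples Q = V := by
      intro Q hQ hQe hcQ
      apply AddSubgroup.eq_of_le_of_card_ge
      · rw [AddSubgroup.zmultiples_le]
        exact (memV Q).2 ⟨hQe, hcQ⟩
      · rw [hj, Nat.card_zmultiples]
        have := Fact.mk hp
        rw [addOrderOf_eq_prime hQe hQ]
    have ht0 : Q0.xRep 0 ∈ rts (l : ℂ) ell :=
      (mem_rts (l : ℂ) two_ne_zero hlc0 hlc1 ell hodd hell _).2 ⟨Q0, hQ0, hQ0'.1, rfl⟩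
    have hS0 : Sx (l : ℂ) ell (Q0.xRep 0) ∈ XX (l : ℂ) ell := by
      unfold XX
      exact Finset.mem_image_of_mem _ ht0
    obtain ⟨Q1, hQ1, hQ1e, hgen1⟩ := (hXX _).1 hS0
    obtain ⟨R, hR, hR0, e⟩ := (hgen1 _).1 (hmemSx _ ht0)
    have hx1 : ∀ P : (crv (-(1 + (l : ℂ))) (l : ℂ)).toAffine.Point, P ≠ 0 → P.xRep 1 = 1 := by
      intro P hP
      cases P with
      | zero => exact absurd rfl hP
      | some x' y' h' => simp
    have hxeq : ∀ P P' : (crv (-(1 + (l : ℂ))) (l : ℂ)).toAffine.Point, P ≠ 0 → P' ≠ 0 →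
        P.xRep 0 = P'.xRep 0 → P = P' ∨ P = -P' := by
      intro P P' hP hP' h
      apply Point.eq_or_eq_neg_of_xRep_eq_xRep
      funext i
      fin_cases i
      · exact h
      · change P.xRep 1 = P'.xRep 1
        rw [hx1 P hP, hx1 P' hP']
    have hRV : R ∈ V := by
      rcases hxeq R Q0 hR0 hQ0 e with h | h
      · rw [h]; exact hQ0V
      · rw [h]; exact neg_mem hQ0V
    have hRz : AddSubgroup.zmultiples R = AddSubgroup.zmultiples Q1 := by
      have : Finite (AddSubgroup.zmultiples Q1) := by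
        have := Fact.mk hp
        apply Nat.finite_of_card_ne_zero
        rw [Nat.card_zmultiples, addOrderOf_eq_prime hQ1e hQ1]
        exact hp.ne_zero
      apply AddSubgroup.eq_of_le_of_card_ge
      · rw [AddSubgroup.zmultiples_le]
        exact hR
      · have := Fact.mk hp
        rw [Nat.card_zmultiples, Nat.card_zmultiples, addOrderOf_eq_prime hQ1e hQ1,
          addOrderOf_eq_prime ((memV R).1 hRV).1 hR0]
    have hQ1V : Q1 ∈ V := by
      have h1 : Q1 ∈ AddSubgroup.zmultiples R := by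
        rw [hRz]; exact AddSubgroup.mem_zmultiples _
      rw [hzV R hR0 ((memV R).1 hRV).1 ((memV R).1 hRV).2] at h1
      exact h1
    have hQ1V' := (memV Q1).1 hQ1V
    refine ⟨_, hS0, gen_plus l c hc hl0.ne' hl1.ne ell hodd _ Q1 hQ1e hgen1 hQ1V'.2, ?_⟩
    intro S hS hne hfix
    obtain ⟨Q, hQ, hQe, hgen⟩ := (hXX S).1 hS
    rcases fixed_type l c hc ell hp S Q hQ hQe hgen hfix with h | h
    · exfalso
      apply hne
      ext x
      rw [hgen, hgen1, hzV Q hQ hQe h, hzV Q1 hQ1 hQ1e hQ1V'.2]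
    · exact gen_minus l c hc hl0.ne' hl1.ne ell hodd S Q hQe hgen h
  · -- V everything
    exfalso
    have hVT' : V = T := AddSubgroup.eq_of_le_of_card_ge hVT (by rw [hj, cardT])
    have hall : ∀ S ∈ XX (l : ℂ) ell, ∃ q : ℝ, 0 ≤ q ∧ q ≤ 1 ∧
        rho (l : ℂ) S = ((l ^ ell * q : ℝ) : ℂ) := by
      intro S hS
      obtain ⟨Q, hQ, hQe, hgen⟩ := (hXX S).1 hS
      have hQV : Q ∈ V := by rw [hVT']; exact (memT Q).2 hQe
      have := rho_plus l hl1 S
        (gen_plus l c hc hl0.ne' hl1.ne ell hodd S Q hQe hgen ((memV Q).1 hQV).2)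
      rwa [hSc' S hS] at this
    choose! q hq0 hq1 hq using hall
    rw [Finset.prod_congr rfl hq] at hpr1
    have hprod : ((∏ S ∈ XX (l : ℂ) ell, (l ^ ell * q S) : ℝ) : ℂ) =
        ((l ^ (ell + 1) : ℝ) : ℂ) := by
      rw [Complex.ofReal_prod, hpr1]
      push_cast
      rfl
    have hprod' := Complex.ofReal_injective hprod
    rw [Finset.prod_mul_distrib, Finset.prod_const, hcard] at hprod'
    exact hstrict l hl0 hl1 _
      (Finset.prod_le_one hq0 hq1) (Finset.prod_nonneg hq0) hprod'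

end main

theorem rho_conj (l : ℝ) (S : Finset ℂ) :
    rho (l : ℂ) (S.image (starRingEnd ℂ)) = starRingEnd ℂ (rho (l : ℂ) S) := by
  have hinj : Function.Injective (starRingEnd ℂ) := (starRingEnd ℂ).injective
  unfold rho
  rw [Finset.prod_image (fun a _ b _ h => hinj h), Finset.card_image_of_injective _ hinj, map_mul,
    map_pow, map_prod, Complex.conj_ofReal]
  congr 1
  apply Finset.prod_congr rfl
  intro t _
  rw [map_pow, map_div₀, map_sub, map_sub, map_one, Complex.conj_ofReal]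

end SignAux

open SignAux in
/-- N1 (sign). -/
theorem NZ_sign (ell : ℕ) (hp : ell.Prime) (h47 : 47 ≤ ell) :
    ∃ r : ℝ, r ≤ 0 ∧ NZ ℂ ell = (r : ℂ) := by
  have hodd : Odd ell := hp.odd_of_ne_two (by omega)
  have hl : (16 / 17 : ℂ) = ((16 / 17 : ℝ) : ℂ) := by push_cast; rfl
  obtain ⟨c, hc⟩ := exists_conj' (16 / 17 : ℝ)
  have hell : (ell : ℂ) ≠ 0 := by exact_mod_cast hp.ne_zero
  have hlc0 : ((16 / 17 : ℝ) : ℂ) ≠ 0 := by rw [← hl]; norm_num
  have hlc1 : ((16 / 17 : ℝ) : ℂ) ≠ 1 := by rw [← hl]; norm_num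
  obtain ⟨S0, hS0, hplus, hminus⟩ := main_sets (16 / 17 : ℝ) c hc (by norm_num) (by norm_num)
    ell hp hodd
  obtain ⟨-, hSc, -⟩ := XX_comb ((16 / 17 : ℝ) : ℂ) two_ne_zero hlc0 hlc1 ell hp hodd hell
  have hSc' : ∀ S ∈ XX ((16 / 17 : ℝ) : ℂ) ell, 2 * S.card + 1 = ell := by
    intro S hS
    rw [(hSc S hS).1]
    obtain ⟨m, hm⟩ := hodd
    omega
  obtain ⟨n, rfl⟩ : ∃ n, ell = n + 1 := ⟨ell - 1, by omega⟩
  -- the factor of S0
  obtain ⟨r0, hr0, e0⟩ : ∃ r : ℝ, r ≤ 0 ∧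
      (17 ^ (n + 1) * rho ((16 / 17 : ℝ) : ℂ) S0 - 17 ^ n : ℂ) = r := by
    obtain ⟨q, h0, h1, e⟩ := rho_plus (16 / 17 : ℝ) (by norm_num) S0 hplus
    rw [hSc' S0 hS0] at e
    refine ⟨17 ^ (n + 1) * ((16 / 17) ^ (n + 1) * q) - 17 ^ n, ?_, by rw [e]; push_cast; rfl⟩
    rw [← mul_assoc, ← mul_pow, show (17 : ℝ) * (16 / 17) = 16 by norm_num]
    have h2 : (16 : ℝ) ^ (n + 1) ≤ 17 ^ n := by
      have h3 : ∀ k : ℕ, (16 : ℝ) ^ (46 + k + 1) ≤ 17 ^ (46 + k) := by
        intro k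
        induction k with
        | zero => norm_num
        | succ k ih =>
          have e1 : (16 : ℝ) ^ (46 + (k + 1) + 1) = 16 * 16 ^ (46 + k + 1) := by ring
          have e2 : (17 : ℝ) ^ (46 + (k + 1)) = 17 * 17 ^ (46 + k) := by ring
          rw [e1, e2]
          have : (0 : ℝ) ≤ 16 ^ (46 + k + 1) := by positivity
          nlinarith
      obtain ⟨k, rfl⟩ : ∃ k, n = 46 + k := ⟨n - 46, by omega⟩
      exact h3 k
    have h3 : (16 : ℝ) ^ (n + 1) * q ≤ 16 ^ (n + 1) := mul_le_of_le_one_right (by positivity) h1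
    linarith
  -- the others
  have hconj : Function.Involutive (fun S : Finset ℂ => S.image (starRingEnd ℂ)) := by
    intro S
    simp only [Finset.image_image]
    have : (⇑(starRingEnd ℂ) ∘ ⇑(starRingEnd ℂ)) = id := by
      funext z
      simp
    rw [this, Finset.image_id]
  obtain ⟨r1, hr1, e1⟩ := prod_invol (fun S : Finset ℂ => S.image (starRingEnd ℂ))
    (fun S => (17 ^ (n + 1) * rho ((16 / 17 : ℝ) : ℂ) S - 17 ^ n : ℂ)) hconj
    (by
      intro S
      have h17 : starRingEnd ℂ (17 : ℂ) = 17 := Complex.conj_ofNat 17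
      rw [rho_conj, map_sub, map_mul, map_pow, map_pow, h17]) _ ((XX ((16 / 17 : ℝ) : ℂ) (n + 1)).erase S0) rfl
    (by
      intro S hS
      rw [Finset.mem_erase] at hS ⊢
      refine ⟨?_, image_mem (16 / 17 : ℝ) c hc (by norm_num) (by norm_num) _ hp hodd S hS.2⟩
      intro h
      apply hS.1
      have h2 : S = S0.image (starRingEnd ℂ) := by
        rw [← h]
        exact (hconj S).symm
      rw [h2]
      have : S0.image (starRingEnd ℂ) = S0.image id := by
        apply Finset.image_congr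
        intro t ht
        obtain ⟨r, -, rfl⟩ := hplus t ht
        simp
      rw [this, Finset.image_id])
    (by
      intro S hS hfix
      rw [Finset.mem_erase] at hS
      obtain ⟨q, h0, h1, e⟩ := rho_minus (16 / 17 : ℝ) (by norm_num) (by norm_num) _ hp hodd S
        hS.2 (hminus S hS.2 hS.1 hfix)
      rw [hSc' S hS.2] at e
      have e' : rho ((16 / 17 : ℝ) : ℂ) S = ((1 - (1 - 16 / 17) ^ (n + 1) * q : ℝ) : ℂ) := by
        push_cast at e ⊢
        linear_combination -e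
      refine ⟨17 ^ (n + 1) * (1 - (1 - 16 / 17) ^ (n + 1) * q) - 17 ^ n, ?_, by
        rw [e']; push_cast; rfl⟩
      have h2 : (17 : ℝ) ^ (n + 1) * (1 - (1 - 16 / 17) ^ (n + 1) * q) = 17 ^ (n + 1) - q := by
        rw [mul_sub, mul_one, ← mul_assoc, ← mul_pow]
        norm_num
      rw [h2, pow_succ]
      have h3 : (1 : ℝ) ≤ 17 ^ n := one_le_pow₀ (by norm_num)
      linarith)
  refine ⟨r0 * r1, mul_nonpos_of_nonpos_of_nonneg hr0 hr1, ?_⟩
  unfold NZ
  rw [hl, ← Finset.mul_prod_erase _ _ hS0, Nat.add_sub_cancel, e0, e1]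
  push_cast
  rfl

end SSP
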