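import Pool.Agent.SSP.Defs
import Pool.Agent.SSP.Kummer
import Pool.Agent.SSP.LadderPoint
import Pool.Agent.SSP.LadderBasic
import Pool.Agent.SSP.Torsion
import Pool.Agent.SSP.XXIff
import Pool.Agent.SSP.XXComb

set_option autoImplicit false

namespace SSP

open Polynomial

private theorem Size_xRep_one (a b : ℂ)
    (P : (crv a b).toAffine.Point) (hP : P ≠ 0) : P.xRep 1 = 1 := by
  cases P with
  | zero => exact absurd rfl hP
  | some x y h => simp [WeierstrassCurve.Affine.Point.xRep_some]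

open Classical in
/-- doubling formula on the Legendre curve with parameter `16/17`. -/
private theorem Size_double (Q : (crv (-(1 + (16 / 17 : ℂ))) (16 / 17)).toAffine.Point)
    (hQ : Q ≠ 0) (h2Q : (2 : ℕ) • Q ≠ 0) :
    4 * Q.xRep 0 * (Q.xRep 0 - 1) * (Q.xRep 0 - 16 / 17) ≠ 0 ∧
    4 * Q.xRep 0 * (Q.xRep 0 - 1) * (Q.xRep 0 - 16 / 17) * ((2 : ℕ) • Q).xRep 0 =
      ((Q.xRep 0) ^ 2 - 16 / 17) ^ 2 := by
  obtain ⟨κ, hκ, h⟩ := xd_point (-(1 + (16 / 17 : ℂ))) (16 / 17) (by norm_num) (by norm_num)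
    (by norm_num) Q hQ 2
  have h1 := Size_xRep_one _ _ _ h2Q
  have e2 : xd (4 * (-(1 + (16 / 17 : ℂ)))) (2 * (16 / 17)) (-(16 / 17) ^ 2) (Q.xRep 0) 2 =
      dbl (4 * (-(1 + (16 / 17 : ℂ)))) (2 * (16 / 17)) (-(16 / 17) ^ 2)
        (xd (4 * (-(1 + (16 / 17 : ℂ)))) (2 * (16 / 17)) (-(16 / 17) ^ 2) (Q.xRep 0) 1) :=
    xd_even _ _ _ _ 1
  rw [e2, xd, h1] at h
  simp only [dbl, Prod.mk.injEq] at h
  obtain ⟨ha, hb⟩ := h
  have hk : 4 * Q.xRep 0 * (Q.xRep 0 - 1) * (Q.xRep 0 - 16 / 17) = κ := by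
    linear_combination hb
  rw [hk]
  refine ⟨hκ, ?_⟩
  linear_combination -ha

/-- numerical facts about one doubling -/
private theorem Size_step (x X : ℂ)
    (h : 4 * x * (x - 1) * (x - 16 / 17) * X = (x ^ 2 - 16 / 17) ^ 2) (hx : 10 ≤ ‖x‖) :
    ‖x‖ / 5 ≤ ‖X‖ ∧ ‖X‖ < ‖x‖ := by
  have hn := congrArg norm h
  simp only [norm_mul, norm_pow] at hn
  have h4 : ‖(4 : ℂ)‖ = 4 := by norm_num
  rw [h4] at hn
  have h1 : ‖x - 1‖ ≤ ‖x‖ + 1 := by
    have := norm_sub_le x 1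
    simpa using this
  have h1' : ‖x‖ - 1 ≤ ‖x - 1‖ := by
    have := norm_sub_norm_le x 1
    simpa using this
  have h17 : ‖(16 / 17 : ℂ)‖ = 16 / 17 := by norm_num
  have h2 : ‖x - 16 / 17‖ ≤ ‖x‖ + 1 := by
    have := norm_sub_le x (16 / 17)
    rw [h17] at this
    linarith
  have h2' : ‖x‖ - 1 ≤ ‖x - 16 / 17‖ := by
    have := norm_sub_norm_le x (16 / 17)
    rw [h17] at this
    linarith
  have h3 : ‖x ^ 2 - 16 / 17‖ ≤ ‖x‖ ^ 2 + 1 := by
    have := norm_sub_le (x ^ 2) (16 / 17)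
    rw [h17, norm_pow] at this
    linarith
  have h3' : ‖x‖ ^ 2 - 1 ≤ ‖x ^ 2 - 16 / 17‖ := by
    have := norm_sub_norm_le (x ^ 2) (16 / 17)
    rw [h17, norm_pow] at this
    linarith
  have hX0 : 0 ≤ ‖X‖ := norm_nonneg X
  set r := ‖x‖ with hr
  set u := ‖x - 1‖ with hu
  set v := ‖x - 16 / 17‖ with hv
  set w := ‖x ^ 2 - 16 / 17‖ with hw
  set R := ‖X‖ with hR
  constructor
  · -- (r^2-1)^2 ≤ 4 r (r+1)^2 R
    have hA : (r ^ 2 - 1) ^ 2 ≤ 4 * r * (r + 1) * (r + 1) * R := by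
      calc (r ^ 2 - 1) ^ 2 ≤ w ^ 2 := by
            apply pow_le_pow_left₀ (by nlinarith) h3'
        _ = 4 * r * u * v * R := hn.symm
        _ ≤ 4 * r * (r + 1) * (r + 1) * R := by
            have : u * v ≤ (r + 1) * (r + 1) :=
              mul_le_mul h1 h2 (norm_nonneg _) (by linarith)
            have h5 : 0 ≤ 4 * r * R := by positivity
            nlinarith [mul_le_mul_of_nonneg_left this h5]
    by_contra hcon
    push Not at hcon
    have hpos : 0 < 4 * r * (r + 1) * (r + 1) := by positivity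
    have hB : 4 * r * (r + 1) * (r + 1) * R < 4 * r * (r + 1) * (r + 1) * (r / 5) :=
      mul_lt_mul_of_pos_left hcon hpos
    have hC : (r ^ 2 - 1) ^ 2 = (r + 1) * (r + 1) * (r - 1) ^ 2 := by ring
    have hD : (r + 1) * (r + 1) * (r - 1) ^ 2 < (r + 1) * (r + 1) * (4 * r * (r / 5)) := by
      calc (r + 1) * (r + 1) * (r - 1) ^ 2 = (r ^ 2 - 1) ^ 2 := hC.symm
        _ ≤ _ := hA
        _ < _ := hB
        _ = _ := by ring
    have hE : (r - 1) ^ 2 < 4 * r * (r / 5) := lt_of_mul_lt_mul_left hD (by positivity)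
    nlinarith
  · by_contra hcon
    push Not at hcon
    have hA : 4 * r * (r - 1) * (r - 1) * r ≤ (r ^ 2 + 1) ^ 2 := by
      calc 4 * r * (r - 1) * (r - 1) * r ≤ 4 * r * u * v * R := by
            have h5 : (r - 1) * (r - 1) ≤ u * v :=
              mul_le_mul h1' h2' (by linarith) (norm_nonneg _)
            have h6 : (r - 1) * (r - 1) * r ≤ u * v * R :=
              mul_le_mul h5 hcon (by linarith) (by positivity)
            nlinarith
        _ = w ^ 2 := hn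
        _ ≤ (r ^ 2 + 1) ^ 2 := by
            apply pow_le_pow_left₀ (norm_nonneg _) h3
    nlinarith [mul_nonneg (sub_nonneg.mpr hx) (sub_nonneg.mpr hx),
      mul_nonneg (mul_nonneg (sub_nonneg.mpr hx) (sub_nonneg.mpr hx)) (sub_nonneg.mpr hx),
      mul_nonneg (mul_nonneg (sub_nonneg.mpr hx) (sub_nonneg.mpr hx))
        (mul_nonneg (sub_nonneg.mpr hx) (sub_nonneg.mpr hx))]

/-- one doubling near `16/17` -/
private theorem Size_near (x X : ℂ)
    (h : 4 * x * (x - 1) * (x - 16 / 17) * X = (x ^ 2 - 16 / 17) ^ 2)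
    (hx : ‖x - 16 / 17‖ ≤ 1 / 100) :
    3 / 1000 ≤ ‖x - 16 / 17‖ * (‖X‖ + 1) := by
  have h17 : ‖(16 / 17 : ℂ)‖ = 16 / 17 := by norm_num
  have e : 4 * x * (x - 1) * (x - 16 / 17) * (X - 16 / 17) =
      ((x - 16 / 17) ^ 2 + 16 / 289) ^ 2 := by
    linear_combination h
  have hn := congrArg norm e
  simp only [norm_mul, norm_pow] at hn
  have h4 : ‖(4 : ℂ)‖ = 4 := by norm_num
  rw [h4] at hn
  have hxn : ‖x‖ ≤ 96 / 100 := by
    have := norm_add_le (x - 16 / 17) (16 / 17)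
    rw [h17, sub_add_cancel] at this
    linarith
  have hx1 : ‖x - 1‖ ≤ 7 / 100 := by
    have h0 : x - 1 = (x - 16 / 17) + (-(1 / 17)) := by ring
    have := norm_add_le (x - 16 / 17) (-(1 / 17))
    rw [← h0, norm_neg] at this
    have h5 : ‖(1 / 17 : ℂ)‖ = 1 / 17 := by norm_num
    rw [h5] at this
    linarith
  have hXn : ‖X - 16 / 17‖ ≤ ‖X‖ + 1 := by
    have := norm_sub_le X (16 / 17)
    rw [h17] at this
    linarith
  have hlow : (55 / 1000 : ℝ) ≤ ‖(x - 16 / 17) ^ 2 + 16 / 289‖ := by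
    have h0 : (16 / 289 : ℂ) = ((x - 16 / 17) ^ 2 + 16 / 289) - (x - 16 / 17) ^ 2 := by ring
    have := norm_sub_le ((x - 16 / 17) ^ 2 + 16 / 289) ((x - 16 / 17) ^ 2)
    rw [← h0, norm_pow] at this
    have h5 : ‖(16 / 289 : ℂ)‖ = 16 / 289 := by norm_num
    rw [h5] at this
    have h6 : ‖x - 16 / 17‖ ^ 2 ≤ (1 / 100) ^ 2 := pow_le_pow_left₀ (norm_nonneg _) hx 2
    norm_num at h6
    linarith
  have h7 : (55 / 1000 : ℝ) ^ 2 ≤ ‖(x - 16 / 17) ^ 2 + 16 / 289‖ ^ 2 :=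
    pow_le_pow_left₀ (by norm_num) hlow 2
  rw [← hn] at h7
  have h8 : 4 * ‖x‖ * ‖x - 1‖ ≤ 4 * (96 / 100) * (7 / 100) := by
    have := mul_le_mul hxn hx1 (norm_nonneg _) (by norm_num)
    nlinarith
  have h9 : 4 * ‖x‖ * ‖x - 1‖ * ‖x - 16 / 17‖ * ‖X - 16 / 17‖ ≤
      1 * (‖x - 16 / 17‖ * (‖X‖ + 1)) := by
    calc 4 * ‖x‖ * ‖x - 1‖ * ‖x - 16 / 17‖ * ‖X - 16 / 17‖ =
          (4 * ‖x‖ * ‖x - 1‖) * (‖x - 16 / 17‖ * ‖X - 16 / 17‖) := by ring
      _ ≤ 1 * (‖x - 16 / 17‖ * (‖X‖ + 1)) := by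
          apply mul_le_mul (by linarith) _ (by positivity) (by norm_num)
          exact mul_le_mul_of_nonneg_left hXn (norm_nonneg _)
  norm_num at h7
  linarith

open Classical in
private theorem Size_two_pow_ne (ell : ℕ) (hp : ell.Prime) (h2 : ell ≠ 2)
    (Q : (crv (-(1 + (16 / 17 : ℂ))) (16 / 17)).toAffine.Point)
    (hQ : Q ≠ 0) (hl : ell • Q = 0) (k : ℕ) : (2 ^ k) • Q ≠ 0 := by
  intro h
  have ho : addOrderOf Q ∣ ell := addOrderOf_dvd_of_nsmul_eq_zero hl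
  have ho2 : addOrderOf Q ∣ 2 ^ k := addOrderOf_dvd_of_nsmul_eq_zero h
  have hc : Nat.Coprime ell (2 ^ k) := by
    apply Nat.Coprime.pow_right
    exact (Nat.coprime_primes hp Nat.prime_two).mpr h2
  have h1 : addOrderOf Q ∣ 1 := by
    have := Nat.dvd_gcd ho ho2
    rwa [hc] at this
  have h3 : addOrderOf Q = 1 := Nat.dvd_one.mp h1
  exact hQ (AddMonoid.addOrderOf_eq_one_iff.mp h3)

open Classical in
private theorem Size_period (ell : ℕ) (hp : ell.Prime) (h2 : ell ≠ 2)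
    (Q : (crv (-(1 + (16 / 17 : ℂ))) (16 / 17)).toAffine.Point)
    (hl : ell • Q = 0) : (2 ^ (ell - 1)) • Q = Q := by
  have hc : Nat.Coprime 2 ell := (Nat.coprime_primes Nat.prime_two hp).mpr (Ne.symm h2)
  have h := Nat.ModEq.pow_totient hc
  rw [Nat.totient_prime hp] at h
  have h1 : 1 ≤ 2 ^ (ell - 1) := Nat.one_le_two_pow
  obtain ⟨c, hcc⟩ := (Nat.modEq_iff_dvd' h1).mp h.symm
  have h3 : 2 ^ (ell - 1) = 1 + ell * c := by omega
  rw [h3, add_nsmul, one_nsmul, mul_comm, mul_nsmul', hl, nsmul_zero, add_zero]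

open Classical in
private theorem Size_orbit (ell : ℕ) (hp : ell.Prime) (h2 : ell ≠ 2)
    (Q : (crv (-(1 + (16 / 17 : ℂ))) (16 / 17)).toAffine.Point)
    (hQ : Q ≠ 0) (hl : ell • Q = 0) : ‖Q.xRep 0‖ ≤ 10 * 5 ^ ell := by
  by_contra hcon
  push Not at hcon
  have key : ∀ k : ℕ, k ≤ ell → 10 * 5 ^ (ell - k) < ‖((2 ^ k) • Q).xRep 0‖ ∧
      (1 ≤ k → ‖((2 ^ k) • Q).xRep 0‖ < ‖Q.xRep 0‖) := by
    intro k
    induction k with
    | zero =>
      intro _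
      rw [pow_zero, one_smul]
      exact ⟨hcon, fun h => absurd h (by norm_num)⟩
    | succ k ih =>
      intro hk
      obtain ⟨ih1, ih2⟩ := ih (by omega)
      have hn0 := Size_two_pow_ne ell hp h2 Q hQ hl k
      have hn1 := Size_two_pow_ne ell hp h2 Q hQ hl (k + 1)
      have e : (2 : ℕ) • ((2 ^ k) • Q) = (2 ^ (k + 1)) • Q := by
        rw [← mul_smul]
        congr 1
        ring
      obtain ⟨-, hd⟩ := Size_double ((2 ^ k) • Q) hn0 (by rw [e]; exact hn1)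
      rw [e] at hd
      have hge : (10 : ℝ) ≤ ‖((2 ^ k) • Q).xRep 0‖ := by
        have h5 : (1 : ℝ) ≤ 5 ^ (ell - k) := one_le_pow₀ (by norm_num)
        linarith
      obtain ⟨hs1, hs2⟩ := Size_step _ _ hd hge
      constructor
      · have h5 : (5 : ℝ) ^ (ell - k) = 5 ^ (ell - (k + 1)) * 5 := by
          rw [← pow_succ]
          congr 1
          omega
        rw [h5] at ih1
        linarith
      · intro _
        rcases Nat.eq_zero_or_pos k with rfl | hkp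
        · simpa using hs2
        · exact hs2.trans (ih2 hkp)
  have h3 : 3 ≤ ell := by
    have := hp.two_le
    omega
  have h4 := (key (ell - 1) (by omega)).2 (by omega)
  rw [Size_period ell hp h2 Q hl] at h4
  exact lt_irrefl _ h4

/-- size of the factors -/
private theorem Size_ratio (ell : ℕ) (hp : ell.Prime) (h2 : ell ≠ 2) (t : ℂ)
    (ht : t ∈ rts (16 / 17 : ℂ) ell) : ‖(t - 1) / (t - 16 / 17)‖ ≤ 1100000 ^ ell := by
  classical
  have hodd : Odd ell := hp.odd_of_ne_two h2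
  obtain ⟨Q, hQ, hl, rfl⟩ := (mem_rts (16 / 17 : ℂ) (by norm_num) (by norm_num) (by norm_num) ell
    hodd (by exact_mod_cast hp.ne_zero) t).mp ht
  have hb := Size_orbit ell hp h2 Q hQ hl
  have h5 : (1 : ℝ) ≤ 5 ^ ell := one_le_pow₀ (by norm_num)
  have hn1 : (2 : ℕ) • Q ≠ 0 := by
    have := Size_two_pow_ne ell hp h2 Q hQ hl 1
    simpa using this
  have hl2 : ell • ((2 : ℕ) • Q) = 0 := by
    rw [← mul_smul, mul_comm, mul_smul, hl, smul_zero]
  have hb2 := Size_orbit ell hp h2 ((2 : ℕ) • Q) hn1 hl2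
  obtain ⟨hne, hd⟩ := Size_double Q hQ hn1
  set x := Q.xRep 0 with hx
  have hlow : 1 / (4000 * 5 ^ ell) ≤ ‖x - 16 / 17‖ := by
    rcases le_or_gt ‖x - 16 / 17‖ (1 / 100) with hc | hc
    · have := Size_near _ _ hd hc
      have h6 : ‖x - 16 / 17‖ * (‖((2 : ℕ) • Q).xRep 0‖ + 1) ≤ ‖x - 16 / 17‖ * (12 * 5 ^ ell) := by
        apply mul_le_mul_of_nonneg_left _ (norm_nonneg _)
        linarith
      rw [div_le_iff₀ (by positivity)]
      nlinarith
    · refine le_trans ?_ hc.le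
      apply one_div_le_one_div_of_le (by norm_num)
      linarith
  have hup : ‖x - 1‖ ≤ 11 * 5 ^ ell := by
    have := norm_sub_le x 1
    rw [norm_one] at this
    linarith
  have hpos : 0 < ‖x - 16 / 17‖ := lt_of_lt_of_le (by positivity) hlow
  rw [norm_div, div_le_iff₀ hpos]
  have hell1 : 1 ≤ ell := hp.one_le
  have h7 : (1100000 : ℝ) ^ ell = 44000 ^ ell * (5 ^ ell * 5 ^ ell) := by
    rw [← mul_pow, ← mul_pow]
    norm_num
  have h8 : (44000 : ℝ) ≤ 44000 ^ ell := by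
    calc (44000 : ℝ) = 44000 ^ 1 := (pow_one _).symm
      _ ≤ 44000 ^ ell := pow_le_pow_right₀ (by norm_num) hell1
  calc ‖x - 1‖ ≤ 11 * 5 ^ ell := hup
    _ = 44000 * (5 ^ ell * 5 ^ ell) * (1 / (4000 * 5 ^ ell)) := by
        field_simp
        norm_num
    _ ≤ 44000 ^ ell * (5 ^ ell * 5 ^ ell) * ‖x - 16 / 17‖ := by
        apply mul_le_mul _ hlow (by positivity) (by positivity)
        exact mul_le_mul_of_nonneg_right h8 (by positivity)
    _ = _ := by rw [h7]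

/-- size of `rho` -/
private theorem Size_rho (ell : ℕ) (hp : ell.Prime) (h2 : ell ≠ 2) (S : Finset ℂ)
    (hS : S ⊆ rts (16 / 17 : ℂ) ell) (hc : S.card = (ell - 1) / 2) :
    ‖rho (16 / 17 : ℂ) S‖ ≤ 1100000 ^ (2 * ell ^ 2) := by
  rw [rho, norm_mul, norm_pow, norm_prod]
  have h1 : ‖(16 / 17 : ℂ)‖ ^ (2 * S.card + 1) ≤ 1 := by
    apply pow_le_one₀ (norm_nonneg _)
    norm_num
  have h3 : ∏ t ∈ S, ‖((t - 1) / (t - 16 / 17)) ^ 4‖ ≤ ∏ _t ∈ S, ((1100000 : ℝ) ^ ell) ^ 4 := by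
    apply Finset.prod_le_prod
    · intro t _
      positivity
    · intro t ht
      rw [norm_pow]
      exact pow_le_pow_left₀ (norm_nonneg _) (Size_ratio ell hp h2 t (hS ht)) 4
  have h4 : ∏ _t ∈ S, ((1100000 : ℝ) ^ ell) ^ 4 ≤ 1100000 ^ (2 * ell ^ 2) := by
    rw [Finset.prod_const, ← pow_mul, ← pow_mul]
    apply pow_le_pow_right₀ (by norm_num)
    rw [hc]
    have h5 : 2 * ((ell - 1) / 2) ≤ ell := by omega
    calc ell * (4 * ((ell - 1) / 2)) = 2 * ell * (2 * ((ell - 1) / 2)) := by ring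
      _ ≤ 2 * ell * ell := Nat.mul_le_mul_left _ h5
      _ = 2 * ell ^ 2 := by ring
  calc ‖(16 / 17 : ℂ)‖ ^ (2 * S.card + 1) * ∏ t ∈ S, ‖((t - 1) / (t - 16 / 17)) ^ 4‖ ≤
        1 * 1100000 ^ (2 * ell ^ 2) := by
        apply mul_le_mul h1 (h3.trans h4) _ (by norm_num)
        exact Finset.prod_nonneg fun t _ => norm_nonneg _
    _ = _ := one_mul _

/-- N2 (size). -/
theorem NZ_size : ∃ C : ℝ, ∀ ell : ℕ, ell.Prime → ell ≠ 2 →
    ‖NZ ℂ ell‖ ≤ Real.exp (C * (ell : ℝ) ^ 3) := by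
  classical
  refine ⟨2 * Real.log (34 * 1100000 ^ 2), ?_⟩
  intro ell hp h2
  have hodd : Odd ell := hp.odd_of_ne_two h2
  obtain ⟨hcard, hsub, -⟩ := XX_comb (16 / 17 : ℂ) (by norm_num) (by norm_num) (by norm_num) ell hp
    hodd (by exact_mod_cast hp.ne_zero)
  have hell1 : 1 ≤ ell := hp.one_le
  have hfac : ∀ S ∈ XX (16 / 17 : ℂ) ell,
      ‖17 ^ ell * rho (16 / 17 : ℂ) S - 17 ^ (ell - 1)‖ ≤ (34 * 1100000 ^ 2) ^ (ell ^ 2) := by
    intro S hS
    obtain ⟨hSc, hSs⟩ := hsub S hS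
    have hr := Size_rho ell hp h2 S hSs hSc
    have h17 : ‖(17 : ℂ)‖ = 17 := by norm_num
    have hK : (1 : ℝ) ≤ 1100000 ^ (2 * ell ^ 2) := one_le_pow₀ (by norm_num)
    calc ‖17 ^ ell * rho (16 / 17 : ℂ) S - 17 ^ (ell - 1)‖ ≤
          ‖17 ^ ell * rho (16 / 17 : ℂ) S‖ + ‖(17 : ℂ) ^ (ell - 1)‖ := norm_sub_le _ _
      _ = 17 ^ ell * ‖rho (16 / 17 : ℂ) S‖ + 17 ^ (ell - 1) := by
          rw [norm_mul, norm_pow, norm_pow, h17]
      _ ≤ 17 ^ ell * 1100000 ^ (2 * ell ^ 2) + 17 ^ ell * 1100000 ^ (2 * ell ^ 2) := by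
          apply add_le_add
          · exact mul_le_mul_of_nonneg_left hr (by positivity)
          · calc (17 : ℝ) ^ (ell - 1) ≤ 17 ^ ell := pow_le_pow_right₀ (by norm_num) (by omega)
              _ = 17 ^ ell * 1 := (mul_one _).symm
              _ ≤ _ := mul_le_mul_of_nonneg_left hK (by positivity)
      _ = 2 * 17 ^ ell * 1100000 ^ (2 * ell ^ 2) := by ring
      _ ≤ 2 ^ (ell ^ 2) * 17 ^ (ell ^ 2) * 1100000 ^ (2 * ell ^ 2) := by
          apply mul_le_mul_of_nonneg_right _ (by positivity)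
          have hsq : ell ≤ ell ^ 2 := by nlinarith
          apply mul_le_mul _ _ (by positivity) (by positivity)
          · calc (2 : ℝ) = 2 ^ 1 := (pow_one _).symm
              _ ≤ 2 ^ (ell ^ 2) := pow_le_pow_right₀ (by norm_num) (by nlinarith)
          · exact pow_le_pow_right₀ (by norm_num) hsq
      _ = (34 * 1100000 ^ 2) ^ (ell ^ 2) := by
          rw [pow_mul, ← mul_pow, ← mul_pow]
          norm_num
  have hprod : ‖NZ ℂ ell‖ ≤ ((34 * 1100000 ^ 2) ^ (ell ^ 2)) ^ (ell + 1) := by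
    rw [NZ, norm_prod, ← hcard]
    calc ∏ S ∈ XX (16 / 17 : ℂ) ell, ‖17 ^ ell * rho (16 / 17 : ℂ) S - 17 ^ (ell - 1)‖ ≤
          ∏ _S ∈ XX (16 / 17 : ℂ) ell, ((34 * 1100000 ^ 2 : ℝ) ^ (ell ^ 2)) :=
        Finset.prod_le_prod (fun S _ => norm_nonneg _) hfac
      _ = _ := by rw [Finset.prod_const]
  refine hprod.trans ?_
  have hb : (1 : ℝ) ≤ 34 * 1100000 ^ 2 := by norm_num
  calc ((34 * 1100000 ^ 2 : ℝ) ^ (ell ^ 2)) ^ (ell + 1) = (34 * 1100000 ^ 2) ^ (ell ^ 2 * (ell + 1)) := by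
        rw [← pow_mul]
    _ ≤ (34 * 1100000 ^ 2) ^ (2 * ell ^ 3) := by
        apply pow_le_pow_right₀ hb
        have h9 : ell ^ 2 * 1 ≤ ell ^ 2 * ell := Nat.mul_le_mul_left _ hell1
        calc ell ^ 2 * (ell + 1) = ell ^ 2 * ell + ell ^ 2 * 1 := by ring
          _ ≤ ell ^ 2 * ell + ell ^ 2 * ell := by omega
          _ = 2 * ell ^ 3 := by ring
    _ = Real.exp (2 * Real.log (34 * 1100000 ^ 2) * (ell : ℝ) ^ 3) := by
        have h0 : (34 * 1100000 ^ 2 : ℝ) = Real.exp (Real.log (34 * 1100000 ^ 2)) := by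
          rw [Real.exp_log (by norm_num)]
        rw [show 2 * Real.log (34 * 1100000 ^ 2) * (ell : ℝ) ^ 3 =
          ((2 * ell ^ 3 : ℕ) : ℝ) * Real.log (34 * 1100000 ^ 2) by push_cast; ring,
          Real.exp_nat_mul, Real.exp_log (by norm_num)]

end SSP
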