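import Pool.Agent.SSP.Defs
import Pool.Agent.SSP.Sign
import Pool.Agent.SSP.Size
import Pool.Agent.SSP.IntN
import Pool.Agent.SSP.OddPrime
import Pool.Agent.SSP.Lift
import Pool.Agent.SSP.BalOfIso
import Pool.Agent.SSP.FrobSq
import Pool.Agent.SSP.ExistsPoint
import Pool.Agent.SSP.CovPair
import Pool.Agent.SSP.Covering

set_option autoImplicit false

namespace SSP

open Polynomial Filter

theorem two_ne_zero_zmod (p : ℕ) [Fact p.Prime] (hp2 : p ≠ 2) : (2 : ZMod p) ≠ 0 := by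
  intro h
  have h2 : ((2 : ℕ) : ZMod p) = 0 := by exact_mod_cast h
  rw [ZMod.natCast_eq_zero_iff] at h2
  exact hp2 ((Nat.prime_dvd_prime_iff_eq Fact.out Nat.prime_two).1 h2)

theorem h17_ne_zero_zmod (p : ℕ) [Fact p.Prime] (hp17 : p ≠ 17) : (17 : ZMod p) ≠ 0 := by
  intro h
  have h2 : ((17 : ℕ) : ZMod p) = 0 := by exact_mod_cast h
  rw [ZMod.natCast_eq_zero_iff] at h2
  exact hp17 ((Nat.prime_dvd_prime_iff_eq Fact.out (by norm_num)).1 h2)

/-- Theorem A: every prime `ell ≡ 1 (mod 4)`, `ell ≥ 47`, is covered. -/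
theorem thmA_core (ell : ℕ) (hp : ell.Prime) (h1 : ell % 4 = 1) (h47 : 47 ≤ ell) (C : ℝ)
    (hC : ‖NZ ℂ ell‖ ≤ Real.exp (C * (ell : ℝ) ^ 3)) :
    ∃ p : ℕ, ∃ _ : Fact p.Prime, p % 4 = 3 ∧ Bal p (16 / 17) ∧ Cov p ell ∧
      (p : ℝ) ≤ Real.exp (C * (ell : ℝ) ^ 3) := by
  classical
  have hodd : Odd ell := by
    rw [Nat.odd_iff]; omega
  obtain ⟨N, hN16, hNF⟩ := NZ_int ell hp hodd
  obtain ⟨r, hr, hNr⟩ := NZ_sign ell hp h47
  have hNC : NZ ℂ ell = (N : ℂ) := hNF ℂ (IsAlgClosed.splits _)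
  have hrN : r = (N : ℝ) := by
    have : (r : ℂ) = ((N : ℝ) : ℂ) := by rw [← hNr, hNC]; simp
    exact_mod_cast this
  have hN0 : N ≤ 0 := by
    have : (N : ℝ) ≤ 0 := hrN ▸ hr
    exact_mod_cast this
  have hNneg : N < 0 := by
    rcases lt_or_eq_of_le hN0 with h | h
    · exact h
    · rw [h] at hN16
      exact absurd hN16 (by decide)
  obtain ⟨p, hpp, hp4, hv⟩ := exists_odd_prime N hNneg hN16
  have : Fact p.Prime := ⟨hpp⟩
  have hp2 : p ≠ 2 := by rintro rfl; norm_num at hp4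
  have hp17 : p ≠ 17 := by rintro rfl; norm_num at hp4
  have hne : ell ≠ p := by rintro rfl; omega
  obtain ⟨S, hS, t, ht, hst, hrho⟩ := lift p ell hp2 hp17 hp hodd hne N (by omega) hNF hv
  set l : ZMod p := 16 / 17 with hl
  have h2 : (2 : ZMod p) ≠ 0 := two_ne_zero_zmod p hp2
  have h17 : (17 : ZMod p) ≠ 0 := h17_ne_zero_zmod p hp17
  have hl0 : l ≠ 0 := by
    rw [hl]
    apply div_ne_zero _ h17
    have : (16 : ZMod p) = 2 ^ 4 := by norm_num
    rw [this]; exact pow_ne_zero _ h2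
  have hl1 : l ≠ 1 := by
    rw [hl]
    intro h
    rw [div_eq_one_iff_eq h17] at h
    have h3 : (17 : ZMod p) - 16 = 0 := by rw [h]; ring
    norm_num at h3
  have hlk : algebraMap (ZMod p) (AlgebraicClosure (ZMod p)) l = 16 / 17 := by
    rw [hl, map_div₀, map_ofNat, map_ofNat]
  have hS' : S ∈ XX (algebraMap (ZMod p) (AlgebraicClosure (ZMod p)) l) ell := by rw [hlk]; exact hS
  have hrho' : rho (algebraMap (ZMod p) (AlgebraicClosure (ZMod p)) l) S =
      1 - algebraMap (ZMod p) (AlgebraicClosure (ZMod p)) l := by rw [hlk]; exact hrho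
  have hB : Bal p l := bal_of_iso p l hp4 hl0 hl1 ell hp hodd hne S hS' t ht hst hrho'
  have hsq := frob_sq p l hp2 hl0 hl1 hB ell hp hodd hne S hS'
  -- stable under `x ↦ x ^ p`
  have hst1 : ∀ x ∈ S, x ^ p ∈ S := by
    have hinj : Function.Injective (fun x : AlgebraicClosure (ZMod p) => x ^ (p ^ 2)) := by
      intro x y hxy
      have := iterateFrobenius_inj (AlgebraicClosure (ZMod p)) p 2
      apply this
      simpa [iterateFrobenius_def] using hxy
    have himg : S.image (fun x => x ^ (p ^ 2)) = S := by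
      apply Finset.eq_of_subset_of_card_le
      · intro y hy
        obtain ⟨x, hx, rfl⟩ := Finset.mem_image.1 hy
        exact hsq x hx
      · rw [Finset.card_image_of_injective _ hinj]
    have hback : ∀ j : ℕ, ∀ x ∈ S, ∃ y ∈ S, y ^ (p ^ (2 * j)) = x := by
      intro j
      induction j with
      | zero => intro x hx; exact ⟨x, hx, by simp⟩
      | succ j ih =>
        intro x hx
        obtain ⟨y, hy, hyx⟩ := ih x hx
        rw [← himg] at hy
        obtain ⟨z, hz, rfl⟩ := Finset.mem_image.1 hy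
        refine ⟨z, hz, ?_⟩
        rw [← hyx, ← pow_mul, ← pow_add]
        congr 2
        ring
    obtain ⟨j, hj⟩ := ht
    intro x hx
    obtain ⟨y, hy, hyx⟩ := hback j x hx
    have := hst y hy
    rw [hj, pow_add, pow_one, pow_mul, hyx] at this
    exact this
  obtain ⟨P, hP⟩ := exists_point p l hp2 hl0 hl1 ell hp hodd hne S hS' hst1 hrho'
  refine ⟨p, ⟨hpp⟩, hp4, hB, ⟨⟨hpp⟩, P, hP⟩, ?_⟩
  -- size
  have hdvd : (p : ℤ) ∣ N := by
    have : padicValInt p N ≠ 0 := fun h => by rw [h] at hv; exact absurd hv (by decide)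
    by_contra hnd
    exact this (padicValInt.eq_zero_of_not_dvd hnd)
  have hle : (p : ℤ) ≤ |N| := Int.le_of_dvd (abs_pos.2 (by omega)) ((dvd_abs _ _).2 hdvd)
  have hle' : (p : ℝ) ≤ |(N : ℝ)| := by exact_mod_cast hle
  calc (p : ℝ) ≤ |(N : ℝ)| := hle'
    _ = ‖NZ ℂ ell‖ := by
        rw [hNC]
        simp
    _ ≤ _ := hC

/-- the set of (some) supersingular primes -/
def Pset : Set ℕ := {p | ∃ _ : Fact p.Prime, p % 4 = 3 ∧ Bal p (16 / 17)}

/-- The supersingular primes are not `O(log log x)`. -/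
theorem not_loglog : ¬ ∃ C1 : ℝ, ∀ᶠ x : ℝ in atTop,
    (Nat.card {p : ℕ // p ∈ Pset ∧ (p : ℝ) ≤ x} : ℝ) ≤ C1 * Real.log (Real.log x) := by
  obtain ⟨C, hC⟩ := NZ_size
  refine covering Pset Cov ?_ C 47 ?_ ?_
  · rintro p ⟨hp, h4, -⟩
    exact ⟨hp.out, h4⟩
  · intro ell hp h1 h47
    obtain ⟨p, hpf, h4, hB, hc, hle⟩ := thmA_core ell hp h1 h47 C
      (hC ell hp (by rintro rfl; norm_num at h1))
    exact ⟨p, ⟨hpf, h4, hB⟩, hle, hc⟩
  · rintro p ⟨hpf, h4, hB⟩ l1 l2 - - - - hc1 hc2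
    exact cov_pair p (by rintro rfl; norm_num at h4) (by rintro rfl; norm_num at h4) hB l1 l2 hc1 hc2

/-! ### counting points -/

theorem card_curve (p : ℕ) [Fact p.Prime] (hp2 : p ≠ 2) (g : ZMod p → ZMod p) :
    (Nat.card {q : ZMod p × ZMod p // q.2 ^ 2 = g q.1} : ℤ) =
      p + ∑ x : ZMod p, quadraticChar (ZMod p) (g x) := by
  classical
  have h1 : Nat.card {q : ZMod p × ZMod p // q.2 ^ 2 = g q.1} =
      ∑ x : ZMod p, Fintype.card {y : ZMod p // y ^ 2 = g x} := by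
    rw [Nat.card_eq_fintype_card, ← Fintype.card_sigma]
    apply Fintype.card_congr
    exact {
      toFun := fun q => ⟨q.1.1, q.1.2, q.2⟩
      invFun := fun s => ⟨(s.1, s.2.1), s.2.2⟩
      left_inv := fun q => rfl
      right_inv := fun s => rfl }
  rw [h1]
  push_cast
  have hchar : ringChar (ZMod p) ≠ 2 := by
    rw [ZMod.ringChar_zmod_n]; exact hp2
  have h2 : ∀ x : ZMod p, ((Fintype.card {y : ZMod p // y ^ 2 = g x} : ℕ) : ℤ) =
      quadraticChar (ZMod p) (g x) + 1 := by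
    intro x
    rw [← quadraticChar_card_sqrts hchar (g x), Set.toFinset_card]
    rfl
  rw [Finset.sum_congr rfl (fun x _ => h2 x), Finset.sum_add_distrib]
  simp
  ring

theorem sum_g1 (p : ℕ) [Fact p.Prime] (hp17 : p ≠ 17) (hB : Bal p (16 / 17)) :
    ∑ x : ZMod p, quadraticChar (ZMod p) (x ^ 3 + (-33) * x ^ 2 + 272 * x) = 0 := by
  have h17 : (17 : ZMod p) ≠ 0 := h17_ne_zero_zmod p hp17
  have e : ∑ x : ZMod p, quadraticChar (ZMod p) (x ^ 3 + (-33) * x ^ 2 + 272 * x) =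
      ∑ t : ZMod p, quadraticChar (ZMod p) ((17 * t) ^ 3 + (-33) * (17 * t) ^ 2 + 272 * (17 * t)) := by
    symm
    exact Equiv.sum_comp (Equiv.mulLeft₀ (17 : ZMod p) h17)
      (fun x => quadraticChar (ZMod p) (x ^ 3 + (-33) * x ^ 2 + 272 * x))
  rw [e]
  have h : ∀ t : ZMod p, quadraticChar (ZMod p)
      ((17 * t) ^ 3 + (-33) * (17 * t) ^ 2 + 272 * (17 * t)) =
      quadraticChar (ZMod p) 17 * quadraticChar (ZMod p) (t * (t - 1) * (t - 16 / 17)) := by
    intro t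
    have : (17 * t) ^ 3 + (-33) * (17 * t) ^ 2 + 272 * (17 * t) =
        17 ^ 2 * (17 * (t * (t - 1) * (t - 16 / 17))) := by
      field_simp
      ring
    rw [this, map_mul, quadraticChar_sq_one' h17, one_mul, map_mul]
  rw [Finset.sum_congr rfl (fun t _ => h t), ← Finset.mul_sum]
  have : ∑ t : ZMod p, quadraticChar (ZMod p) (t * (t - 1) * (t - 16 / 17)) = 0 := hB
  rw [this, mul_zero]

theorem sum_g2 (p : ℕ) [Fact p.Prime] (hp17 : p ≠ 17) (hB : Bal p (16 / 17)) :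
    ∑ x : ZMod p, quadraticChar (ZMod p) (x ^ 3 + 33 * x ^ 2 + 272 * x) = 0 := by
  have e : ∑ x : ZMod p, quadraticChar (ZMod p) (x ^ 3 + 33 * x ^ 2 + 272 * x) =
      ∑ t : ZMod p, quadraticChar (ZMod p) ((-t) ^ 3 + 33 * (-t) ^ 2 + 272 * (-t)) := by
    symm
    exact Equiv.sum_comp (Equiv.neg (ZMod p))
      (fun x => quadraticChar (ZMod p) (x ^ 3 + 33 * x ^ 2 + 272 * x))
  rw [e]
  have h : ∀ t : ZMod p, quadraticChar (ZMod p) ((-t) ^ 3 + 33 * (-t) ^ 2 + 272 * (-t)) =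
      quadraticChar (ZMod p) (-1) * quadraticChar (ZMod p) (t ^ 3 + (-33) * t ^ 2 + 272 * t) := by
    intro t
    rw [← map_mul]
    congr 1
    ring
  rw [Finset.sum_congr rfl (fun t _ => h t), ← Finset.mul_sum, sum_g1 p hp17 hB, mul_zero]

end SSP
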