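import Mathlib

set_option autoImplicit false

/-!
Definitions for the project `SSP` (supersingular primes of 17a2, problem MP_fa740a_nt).
-/

namespace SSP

open Polynomial

/-- The curve `y² = x³ + a x² + b x`. -/
def crv {F : Type*} [CommRing F] (a b : F) : WeierstrassCurve F where
  a₁ := 0
  a₂ := a
  a₃ := 0
  a₄ := b
  a₆ := 0

/-- x-only doubling (with `b₆ = 0`). -/
def dbl {S : Type*} [CommRing S] (b2 b4 b8 : S) (p : S × S) : S × S :=
  (p.1 ^ 4 - b4 * p.1 ^ 2 * p.2 ^ 2 - b8 * p.2 ^ 4,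
    4 * p.1 ^ 3 * p.2 + b2 * p.1 ^ 2 * p.2 ^ 2 + 2 * b4 * p.1 * p.2 ^ 3)

/-- x-only differential addition of two points whose difference has x-coordinate `x`. -/
def dadd {S : Type*} [CommRing S] (b2 b4 x : S) (p q : S × S) : S × S :=
  (2 * (p.1 * q.1) * (p.1 * q.2 + q.1 * p.2) + b2 * (p.1 * q.1) * (p.2 * q.2)
      + b4 * (p.1 * q.2 + q.1 * p.2) * (p.2 * q.2) - x * (p.1 * q.2 - q.1 * p.2) ^ 2,
    (p.1 * q.2 - q.1 * p.2) ^ 2)

/-- Projective x-coordinate of the `n`-th multiple of a point with x-coordinate `x`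
(`b₆ = 0`), by the binary ladder. -/
def xd {S : Type*} [CommRing S] (b2 b4 b8 x : S) : ℕ → S × S
  | 0 => (1, 0)
  | 1 => (x, 1)
  | n + 2 =>
    if h : (n + 2) % 2 = 0 then dbl b2 b4 b8 (xd b2 b4 b8 x ((n + 2) / 2))
    else dadd b2 b4 x (xd b2 b4 b8 x ((n + 2) / 2 + 1)) (xd b2 b4 b8 x ((n + 2) / 2))
decreasing_by all_goals omega

/-- The ladder for the Legendre curve `y² = x (x - 1) (x - l)`. -/
def xl {S : Type*} [CommRing S] (l x : S) (n : ℕ) : S × S :=
  xd (-4 * (1 + l)) (2 * l) (-l ^ 2) x n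

/-- The `n`-th x-only division polynomial (denominator). -/
noncomputable def Bpol {S : Type*} [CommRing S] (l : S) (n : ℕ) : S[X] :=
  (xl (C l) (X : S[X]) n).2

/-- The numerator. -/
noncomputable def Apol {S : Type*} [CommRing S] (l : S) (n : ℕ) : S[X] :=
  (xl (C l) (X : S[X]) n).1

section field

variable {F : Type*} [Field F]

/-- affine x-coordinate of the `n`-th multiple -/
noncomputable def xm (l t : F) (n : ℕ) : F := (xl l t n).1 / (xl l t n).2

open Classical in
/-- x-coordinates of the points of order `ell` (roots in `F`). -/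
noncomputable def rts (l : F) (ell : ℕ) : Finset F := (Bpol l ell).roots.toFinset

open Classical in
/-- the set of x-coordinates of the nonzero multiples -/
noncomputable def Sx (l : F) (ell : ℕ) (t : F) : Finset F :=
  (Finset.Icc 1 ((ell - 1) / 2)).image (xm l t)

open Classical in
/-- the x-coordinate sets of the subgroups of order `ell` -/
noncomputable def XX (l : F) (ell : ℕ) : Finset (Finset F) := (rts l ell).image (Sx l ell)

/-- the Legendre parameter of the quotient curve -/
noncomputable def rho (l : F) (S : Finset F) : F :=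
  l ^ (2 * S.card + 1) * ∏ t ∈ S, ((t - 1) / (t - l)) ^ 4

/-- the number `N_ell` (normalised to be an integer) -/
noncomputable def NZ (F : Type*) [Field F] (ell : ℕ) : F :=
  ∏ S ∈ XX (16 / 17 : F) ell, (17 ^ ell * rho (16 / 17 : F) S - 17 ^ (ell - 1))

noncomputable def hP (S : Finset F) : F[X] := ∏ t ∈ S, (X - C t)
noncomputable def gP (l : F) (S : Finset F) : F[X] := ∏ t ∈ S, (X - C (l / t))
noncomputable def g1P (l : F) (S : Finset F) : F[X] := ∏ t ∈ S, (X - C ((t - l) / (t - 1)))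
noncomputable def g2P (l : F) (S : Finset F) : F[X] := ∏ t ∈ S, (X - C (l * (t - 1) / (t - l)))
/-- square root of the normalising constant -/
noncomputable def eps (l : F) (S : Finset F) : F := ∏ t ∈ S, ((t - l) / (t * (t - 1)))

end field

/-- `f(x) = x (x - 1) (x - l)` -/
noncomputable def fL {k : Type*} [Field k] (l : k) : RatFunc k :=
  RatFunc.X * (RatFunc.X - 1) * (RatFunc.X - RatFunc.C l)

/-- The twist `φ y² = x (x - 1) (x - l)` over `k(x)`, in Weierstrass form. -/
noncomputable def Wt {k : Type*} [Field k] (l : k) (φ : RatFunc k) : WeierstrassCurve (RatFunc k) :=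
  crv (-(1 + RatFunc.C l) * φ) (RatFunc.C l * φ ^ 2)

/-- degree of a rational function -/
noncomputable def rdeg {k : Type*} [Field k] (r : RatFunc k) : ℕ :=
  max r.num.natDegree r.denom.natDegree

/-- height of a point of `Wt l φ`: degree of `x/φ` -/
noncomputable def ht {k : Type*} [Field k] {l : k} {φ : RatFunc k} :
    (Wt l φ).toAffine.Point → ℕ
  | .zero => 0
  | .some x _ _ => rdeg (x / φ)

/-- `D` is a derivation of the field `K` -/
structure IsDer {K : Type*} [Field K] (D : K → K) : Prop where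
  add : ∀ x y, D (x + y) = D x + D y
  mul : ∀ x y, D (x * y) = x * D y + y * D x

/-- `D` is the derivation `d/dx` of `k(x)` -/
structure IsDX {k : Type*} [Field k] (D : RatFunc k → RatFunc k) : Prop extends IsDer D where
  X : D RatFunc.X = 1
  C : ∀ c : k, D (RatFunc.C c) = 0

/-- the invariant differential of a point of `crv (a φ) (b φ²)` w.r.t. a derivation -/
noncomputable def sD {K : Type*} [Field K] (D : K → K) (φ : K) {a b : K} :
    (crv a b).toAffine.Point → K
  | .zero => 0
  | .some x y _ => D (x / φ) * φ ^ 2 / y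

/-- `a_p = 0` for the curve `y² = x (x-1) (x-l)` over `𝔽_p`. -/
def Bal (p : ℕ) [Fact p.Prime] (l : ZMod p) : Prop :=
  ∑ t : ZMod p, quadraticChar (ZMod p) (t * (t - 1) * (t - l)) = 0

/-- `ell` is the degree of an isogeny from `E_p` to its twist by `-1` -/
def Cov (p ell : ℕ) : Prop :=
  ∃ _ : Fact p.Prime, ∃ P : (Wt (16 / 17 : ZMod p) (-fL (16 / 17 : ZMod p))).toAffine.Point,
    ht P = ell

open Classical in
/-- `J` is the Frobenius `(X, Y) ↦ (X ^ p, φ ^ ((p-1)/2) Y ^ p)` of `φ Y² = f(X)` -/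
def IsFrob (p : ℕ) [Fact p.Prime] (l : ZMod p) (φ : RatFunc (ZMod p))
    (J : (Wt l φ).toAffine.Point →+ (Wt l φ).toAffine.Point) : Prop :=
  ∀ x y (h : (Wt l φ).toAffine.Nonsingular x y), ∃ h', J (.some x y h) =
    .some (φ * (x / φ) ^ p) (φ ^ 2 * φ ^ ((p - 1) / 2) * (y / φ ^ 2) ^ p) h'

/-- a real nonprincipal Dirichlet character modulo `q`, as a function on `ℕ` -/
structure RealChar (q : ℕ) (f : ℕ → ℝ) : Prop where
  pos : 0 < q
  one : f 1 = 1
  mul : ∀ m n, f (m * n) = f m * f n
  per : ∀ n, f (n + q) = f n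
  val : ∀ n, f n = -1 ∨ f n = 0 ∨ f n = 1
  cop : ∀ n, f n = 0 ↔ ¬ Nat.Coprime n q
  sum : ∑ n ∈ Finset.range q, f n = 0

/-- Dirichlet series at a real point -/
noncomputable def Ls (f : ℕ → ℝ) (s : ℝ) : ℝ := ∑' n : ℕ, f n / (n : ℝ) ^ s

/-- the product of `χ₄` (if `e`) and of the Legendre symbols of the primes in `I` -/
noncomputable def chi (e : Bool) (I : Finset ℕ) (n : ℕ) : ℝ :=
  (if e then ((ZMod.χ₄ (n : ZMod 4) : ℤ) : ℝ) else 1) * ∏ p ∈ I, ((jacobiSym (n : ℤ) p : ℤ) : ℝ)

/-- its modulus -/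
def chiMod (e : Bool) (I : Finset ℕ) : ℕ := (if e then 4 else 1) * ∏ p ∈ I, p

end SSP
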